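import Pool.Agent.H677_Perf.HigherCyclic

set_option autoImplicit false
set_option linter.unusedSectionVars false

namespace Pool.Agent.H677_Perf

noncomputable section

variable {G : Type*} [Group G] {n : Type*} [Fintype n] [DecidableEq n]

section

variable (B : Type*) [CommRing B] [DecidableEq G] (A : Matrix n n (MonoidAlgebra ℤ G))

/-- the coefficient matrix over `B` -/
def cb (g : G) : Matrix n n B := (cf A g).map (Int.cast : ℤ → B)

variable {B}

/-- the sum of `A(g₀) ⋯ A(g_{m-1}) F [g₀, …, g_{m-1}]` over all lists of length `m` in the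
support -/
def Tb : ℕ → (List G → B) → Matrix n n B
  | 0, F => F [] • (1 : Matrix n n B)
  | m + 1, F => ∑ g ∈ msupp A, cb B A g * Tb m (fun l => F (g :: l))

lemma Tb_succ (m : ℕ) (F : List G → B) :
    Tb A (m + 1) F = ∑ g ∈ msupp A, cb B A g * Tb A m (fun l => F (g :: l)) := rfl

lemma Tb_congr (m : ℕ) (F F' : List G → B) (h : ∀ l, l.length = m → F l = F' l) :
    Tb A m F = Tb A m F' := by
  induction m generalizing F F' with
  | zero => rw [Tb, Tb, h [] rfl]
  | succ m ih =>
    rw [Tb_succ, Tb_succ]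
    refine Finset.sum_congr rfl fun g _ => ?_
    rw [ih _ _ fun l hl => h (g :: l) (by simp [hl])]

lemma Tb_add (m : ℕ) (F F' : List G → B) :
    Tb A m (fun l => F l + F' l) = Tb A m F + Tb A m F' := by
  induction m generalizing F F' with
  | zero => rw [Tb, Tb, Tb, add_smul]
  | succ m ih =>
    rw [Tb_succ, Tb_succ, Tb_succ, ← Finset.sum_add_distrib]
    refine Finset.sum_congr rfl fun g _ => ?_
    rw [ih, mul_add]

lemma Tb_smul (m : ℕ) (c : B) (F : List G → B) :
    Tb A m (fun l => c * F l) = c • Tb A m F := by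
  induction m generalizing F with
  | zero => rw [Tb, Tb, mul_smul]
  | succ m ih =>
    rw [Tb_succ, Tb_succ, Finset.smul_sum]
    refine Finset.sum_congr rfl fun g _ => ?_
    rw [ih, Matrix.mul_smul]

lemma Tb_sum {ι : Type*} (s : Finset ι) (m : ℕ) (F : ι → List G → B) :
    Tb A m (fun l => ∑ i ∈ s, F i l) = ∑ i ∈ s, Tb A m (F i) := by
  classical
  induction s using Finset.induction_on with
  | empty =>
    simp only [Finset.sum_empty]
    have := Tb_smul A m (0 : B) (fun _ => 0)
    simpa using this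
  | insert a s ha ih =>
    simp only [Finset.sum_insert ha]
    rw [Tb_add, ih]

lemma Tb_snoc (m : ℕ) (F : List G → B) :
    Tb A (m + 1) F = ∑ g ∈ msupp A, Tb A m (fun l => F (l ++ [g])) * cb B A g := by
  induction m generalizing F with
  | zero =>
    rw [Tb_succ]
    refine Finset.sum_congr rfl fun g _ => ?_
    rw [Tb, Tb, Matrix.mul_smul, Matrix.smul_mul, mul_one, one_mul]
    rfl
  | succ m ih =>
    rw [Tb_succ]
    have h1 : ∀ g ∈ msupp A, cb B A g * Tb A (m + 1) (fun l => F (g :: l)) =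
        ∑ h ∈ msupp A, cb B A g * Tb A m (fun l => F (g :: (l ++ [h]))) * cb B A h := by
      intro g _
      rw [ih, Finset.mul_sum]
      refine Finset.sum_congr rfl fun h _ => ?_
      rw [mul_assoc]
    rw [Finset.sum_congr rfl h1, Finset.sum_comm]
    refine Finset.sum_congr rfl fun h _ => ?_
    rw [Tb_succ, Finset.sum_mul]
    refine Finset.sum_congr rfl fun g _ => ?_
    rfl

lemma trace_Tb_rotL (m : ℕ) (F : List G → B) :
    (Tb A m (fun l => F (rotL l))).trace = (Tb A m F).trace := by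
  cases m with
  | zero => rfl
  | succ m =>
    rw [Tb_succ, Tb_snoc, Matrix.trace_sum, Matrix.trace_sum]
    refine Finset.sum_congr rfl fun g _ => ?_
    rw [Matrix.trace_mul_comm]
    rfl

variable {A}

lemma cb_eq_zero {k : G} (hk : k ∉ msupp A) : cb B A k = 0 := by
  ext i j
  have h0 : (A i j).coeff k = 0 := by
    by_contra hne
    exact hk (mem_msupp (i := i) (j := j) hne)
  change (((A i j).coeff k : ℤ) : B) = 0
  rw [h0, Int.cast_zero]

lemma cb_conv (hA : A * A = A) (k : G) : cb B A k = ∑ g ∈ msupp A, ∑ h ∈ msupp A,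
    if g * h = k then cb B A g * cb B A h else 0 := by
  classical
  ext i j
  have h2 : (A i j).coeff k = ((A * A) i j).coeff k := by rw [hA]
  have h3 : cb B A k i j = ((A i j).coeff k : B) := rfl
  rw [h3, h2, Matrix.mul_apply]
  simp only [Matrix.sum_apply]
  have h4 : ∀ g h : G, (if g * h = k then cb B A g * cb B A h else 0 : Matrix n n B) i j =
      ∑ l, if g * h = k then (((A i l).coeff g : B) * ((A l j).coeff h : B)) else 0 := by
    intro g h
    split_ifs with hgh
    · rw [Matrix.mul_apply]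
      rfl
    · simp
  simp only [h4]
  rw [MonoidAlgebra.coeff_sum, Finsupp.coe_finsetSum, Finset.sum_apply, Int.cast_sum]
  have h5 : ∀ l, (((A i l * A l j).coeff k : ℤ) : B) = ∑ g ∈ msupp A, ∑ h ∈ msupp A,
      if g * h = k then (((A i l).coeff g : B) * ((A l j).coeff h : B)) else 0 := by
    intro l
    have h6 : (A i l * A l j).coeff k = ∑ g ∈ msupp A, ∑ h ∈ msupp A,
        if g * h = k then (A i l).coeff g * (A l j).coeff h else 0 := by
      rw [MonoidAlgebra.coeff_mul]
      rw [Finsupp.sum, Finset.sum_subset (s₂ := msupp A)]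
      · refine Finset.sum_congr rfl fun g _ => ?_
        rw [Finsupp.sum, Finset.sum_subset (s₂ := msupp A)]
        · intro h hh
          exact mem_msupp (Finsupp.mem_support_iff.1 hh)
        · intro h _ hh
          rw [Finsupp.notMem_support_iff.1 hh, mul_zero, ite_self]
      · intro g hg
        exact mem_msupp (Finsupp.mem_support_iff.1 hg)
      · intro g _ hg
        rw [Finsupp.notMem_support_iff.1 hg]
        simp
    rw [h6]
    push_cast
    rfl
  rw [Finset.sum_congr rfl fun l _ => h5 l, Finset.sum_comm]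
  refine Finset.sum_congr rfl fun g _ => ?_
  rw [Finset.sum_comm]

lemma cb_mul (hA : A * A = A) (φ : G → Matrix n n B) :
    ∑ g ∈ msupp A, ∑ h ∈ msupp A, cb B A g * cb B A h * φ (g * h) =
      ∑ k ∈ msupp A, cb B A k * φ k := by
  classical
  let P : Finset G := msupp A ∪ ((msupp A) ×ˢ (msupp A)).image fun x => x.1 * x.2
  have h1 : ∑ k ∈ msupp A, cb B A k * φ k = ∑ k ∈ P, cb B A k * φ k := by
    refine Finset.sum_subset Finset.subset_union_left ?_
    intro k _ hk
    rw [cb_eq_zero hk, zero_mul]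
  rw [h1]
  have h2 : ∀ k, cb B A k * φ k = ∑ g ∈ msupp A, ∑ h ∈ msupp A,
      if g * h = k then cb B A g * cb B A h * φ k else 0 := by
    intro k
    conv_lhs => rw [cb_conv hA k]
    rw [Finset.sum_mul]
    refine Finset.sum_congr rfl fun g _ => ?_
    rw [Finset.sum_mul]
    refine Finset.sum_congr rfl fun h _ => ?_
    rw [ite_mul, zero_mul]
  have h3 : ∑ k ∈ P, cb B A k * φ k = ∑ k ∈ P, ∑ g ∈ msupp A, ∑ h ∈ msupp A,
      if g * h = k then cb B A g * cb B A h * φ k else 0 := Finset.sum_congr rfl fun k _ => h2 k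
  rw [h3]
  symm
  rw [Finset.sum_comm]
  refine Finset.sum_congr rfl fun g hg => ?_
  rw [Finset.sum_comm]
  refine Finset.sum_congr rfl fun h hh => ?_
  rw [Finset.sum_ite_eq]
  have hmem : g * h ∈ P := Finset.mem_union_right _
    (Finset.mem_image.2 ⟨(g, h), Finset.mem_product.2 ⟨hg, hh⟩, rfl⟩)
  rw [if_pos hmem]

lemma Tb_mergeAt (hA : A * A = A) (j m : ℕ) (hj : j + 1 ≤ m) (F : List G → B) :
    Tb A (m + 1) (fun l => F (mergeAt j l)) = Tb A m F := by
  induction j generalizing m F with
  | zero =>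
    obtain ⟨m, rfl⟩ : ∃ m', m = m' + 1 := ⟨m - 1, by omega⟩
    rw [Tb_succ, Tb_succ]
    simp only [Tb_succ, mergeAt_zero_cons, Finset.mul_sum, ← mul_assoc]
    exact cb_mul hA fun k => Tb A m fun l => F (k :: l)
  | succ j ih =>
    obtain ⟨m, rfl⟩ : ∃ m', m = m' + 1 := ⟨m - 1, by omega⟩
    rw [Tb_succ, Tb_succ]
    refine Finset.sum_congr rfl fun g _ => ?_
    simp only [mergeAt_succ_cons]
    rw [ih m (by omega) (fun l => F (g :: l))]

lemma trace_Tb_one (χ : G → ℤ) (F : List G → B) (hF : ∀ a, F [a] = (χ a : B)) :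
    (Tb A 1 F).trace = ((Tau χ A : ℤ) : B) := by
  rw [Tb_succ, Matrix.trace_sum, Tau_apply]
  have h1 : ∀ i, evalFn χ (A i i) = ∑ g ∈ msupp A, (A i i).coeff g * χ g := by
    intro i
    rw [evalFn_eq_sum, Finsupp.sum]
    refine Finset.sum_subset ?_ ?_
    · intro g hg
      exact mem_msupp (Finsupp.mem_support_iff.1 hg)
    · intro g _ hg
      rw [Finsupp.notMem_support_iff.1 hg, zero_smul]
  rw [Finset.sum_congr rfl fun i _ => h1 i, Finset.sum_comm]
  push_cast
  refine Finset.sum_congr rfl fun g _ => ?_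
  rw [Tb, Matrix.mul_smul, mul_one, Matrix.trace_smul, smul_eq_mul, Matrix.trace,
    Finset.mul_sum, hF g]
  refine Finset.sum_congr rfl fun i _ => ?_
  rw [mul_comm]
  simp [cb, cf]

/-- the last face of a list: the last entry is multiplied onto the first one -/
def lastFace : List G → List G
  | [] => []
  | a :: l => (l.getLast?.getD 1 * a) :: l.dropLast

/-- the inverse rotation of a list -/
def rotR (l : List G) : List G := l.getLast?.getD 1 :: l.dropLast

lemma rotR_rotL {l : List G} (hl : l ≠ []) : rotR (rotL l) = l := by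
  cases l with
  | nil => exact absurd rfl hl
  | cons a l => simp [rotR, rotL]

lemma lastFace_rotL (a b : G) (l : List G) :
    lastFace (rotL (a :: b :: l)) = mergeAt 0 (a :: b :: l) := by
  simp [rotL, lastFace]

lemma trace_Tb_rotR (m : ℕ) (F : List G → B) :
    (Tb A (m + 1) (fun l => F (rotR l))).trace = (Tb A (m + 1) F).trace := by
  rw [← trace_Tb_rotL A (m + 1) (fun l => F (rotR l))]
  congr 1
  refine Tb_congr A _ _ _ fun l hl => ?_
  rw [rotR_rotL (by rintro rfl; simp at hl)]

lemma trace_Tb_lastFace (hA : A * A = A) (m : ℕ) (hm : 1 ≤ m) (F : List G → B) :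
    (Tb A (m + 1) (fun l => F (lastFace l))).trace = (Tb A m F).trace := by
  rw [← trace_Tb_rotL A (m + 1) (fun l => F (lastFace l)), ← Tb_mergeAt hA 0 m (by omega) F]
  congr 1
  refine Tb_congr A _ _ _ fun l hl => ?_
  match l, hl with
  | a :: b :: l, _ => rw [lastFace_rotL]
  | [a], hl => simp at hl; omega

lemma trace_Tb_rotL_iterate (m s : ℕ) (F : List G → B) :
    (Tb A m (fun l => F (rotL^[s] l))).trace = (Tb A m F).trace := by
  induction s generalizing F with
  | zero => rfl
  | succ s ih =>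
    have h1 : (fun l => F (rotL^[s + 1] l)) = fun l => (fun l' => F (rotL^[s] l')) (rotL l) := by
      funext l
      rw [Function.iterate_succ, Function.comp]
    rw [h1, trace_Tb_rotL A m (fun l' => F (rotL^[s] l')), ih]

lemma sum_neg_one_pow_odd (i : ℕ) :
    ∑ j ∈ Finset.range (2 * i + 1), (-1 : B) ^ j = 1 := by
  induction i with
  | zero => simp
  | succ i ih =>
    rw [show 2 * (i + 1) + 1 = 2 * i + 1 + 1 + 1 by ring, Finset.sum_range_succ,
      Finset.sum_range_succ, ih]
    have h1 : (-1 : B) ^ (2 * i) = 1 := by rw [pow_mul]; simp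
    rw [pow_succ (-1 : B) (2 * i + 1), pow_succ (-1 : B) (2 * i), h1]
    ring

lemma sum_neg_one_pow_even (i : ℕ) :
    ∑ j ∈ Finset.range (2 * i), (-1 : B) ^ j = 0 := by
  induction i with
  | zero => simp
  | succ i ih =>
    rw [show 2 * (i + 1) = 2 * i + 1 + 1 by ring, Finset.sum_range_succ,
      Finset.sum_range_succ, ih, pow_succ, pow_mul]
    simp

/-- List form of the vanishing theorem for the cyclic bicomplex. -/
theorem Tau_cast_eq_zero_of_list (hA : A * A = A) (χ : G → ℤ) (k : ℕ)
    (φ : ℕ → List G → B) (h0 : ∀ a, φ 0 [a] = (χ a : B))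
    (htop : ∀ l, l.length = 2 * k + 1 → φ (2 * k) l = 0)
    (hodd : ∀ i < k, ∀ l, l.length = 2 * i + 2 →
      φ (2 * i + 1) l + φ (2 * i + 1) (rotR l) =
        ∑ j ∈ Finset.range (2 * i + 1), (-1 : B) ^ j * φ (2 * i) (mergeAt j l))
    (heven : ∀ i < k, ∀ l, l.length = 2 * i + 3 →
      (∑ j ∈ Finset.range (2 * i + 2), (-1 : B) ^ j * φ (2 * i + 1) (mergeAt j l)) +
        φ (2 * i + 1) (lastFace l) +
        ∑ s ∈ Finset.range (2 * i + 3), φ (2 * i + 2) (rotL^[s] l) = 0) :
    ((Tau χ A : ℤ) : B) = 0 := by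
  -- the values
  let v : ℕ → B := fun q => (Tb A (q + 1) (φ q)).trace
  have hv0 : v 0 = ((Tau χ A : ℤ) : B) := trace_Tb_one χ (φ 0) h0
  have hvk : v (2 * k) = 0 := by
    change (Tb A (2 * k + 1) (φ (2 * k))).trace = 0
    rw [Tb_congr A (2 * k + 1) (φ (2 * k)) (fun l => 0 * φ (2 * k) l) (fun l hl => by
      rw [htop l hl, mul_zero]), Tb_smul, zero_smul, Matrix.trace_zero]
  have hvodd : ∀ i < k, v (2 * i) = 2 * v (2 * i + 1) := by
    intro i hi
    have h1 : Tb A (2 * i + 2) (fun l => φ (2 * i + 1) l + φ (2 * i + 1) (rotR l)) =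
        Tb A (2 * i + 2) (fun l => ∑ j ∈ Finset.range (2 * i + 1),
          (-1 : B) ^ j * φ (2 * i) (mergeAt j l)) := Tb_congr A _ _ _ (hodd i hi)
    rw [Tb_add, Tb_sum] at h1
    have h2 := congrArg Matrix.trace h1
    rw [Matrix.trace_add, Matrix.trace_sum, trace_Tb_rotR (2 * i + 1) (φ (2 * i + 1))] at h2
    have h3 : ∀ j ∈ Finset.range (2 * i + 1),
        (Tb A (2 * i + 2) (fun l => (-1 : B) ^ j * φ (2 * i) (mergeAt j l))).trace =
          (-1 : B) ^ j * v (2 * i) := by
      intro j hj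
      rw [Finset.mem_range] at hj
      rw [Tb_smul, Tb_mergeAt hA j (2 * i + 1) (by omega), Matrix.trace_smul, smul_eq_mul]
    rw [Finset.sum_congr rfl h3, ← Finset.sum_mul, sum_neg_one_pow_odd, one_mul] at h2
    have h4 : v (2 * i + 1) + v (2 * i + 1) = v (2 * i) := h2
    rw [← h4, two_mul (v (2 * i + 1))]
  have hveven : ∀ i < k, v (2 * i + 1) = - ((2 * i + 3 : ℕ) : B) * v (2 * i + 2) := by
    intro i hi
    have h1 : Tb A (2 * i + 3) (fun l =>
        ((∑ j ∈ Finset.range (2 * i + 2), (-1 : B) ^ j * φ (2 * i + 1) (mergeAt j l)) +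
        φ (2 * i + 1) (lastFace l)) +
        ∑ s ∈ Finset.range (2 * i + 3), φ (2 * i + 2) (rotL^[s] l)) =
        Tb A (2 * i + 3) (fun l => 0 * φ (2 * i + 2) l) :=
      Tb_congr A _ _ _ fun l hl => by rw [heven i hi l hl, zero_mul]
    rw [Tb_smul, zero_smul, Tb_add, Tb_add, Tb_sum, Tb_sum] at h1
    have h2 := congrArg Matrix.trace h1
    rw [Matrix.trace_add, Matrix.trace_add, Matrix.trace_sum, Matrix.trace_sum,
      trace_Tb_lastFace hA (2 * i + 2) (by omega), Matrix.trace_zero] at h2
    have h3 : ∀ j ∈ Finset.range (2 * i + 2),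
        (Tb A (2 * i + 3) (fun l => (-1 : B) ^ j * φ (2 * i + 1) (mergeAt j l))).trace =
          (-1 : B) ^ j * v (2 * i + 1) := by
      intro j hj
      rw [Finset.mem_range] at hj
      rw [Tb_smul, Tb_mergeAt hA j (2 * i + 2) (by omega), Matrix.trace_smul, smul_eq_mul]
    have h4 : ∀ s ∈ Finset.range (2 * i + 3),
        (Tb A (2 * i + 3) (fun l => φ (2 * i + 2) (rotL^[s] l))).trace = v (2 * i + 2) := by
      intro s _
      rw [trace_Tb_rotL_iterate]
    have h6 : ∑ j ∈ Finset.range (2 * i + 2), (-1 : B) ^ j = 0 := by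
      have := sum_neg_one_pow_even (B := B) (i + 1)
      rwa [show 2 * (i + 1) = 2 * i + 2 by ring] at this
    rw [Finset.sum_congr rfl h3, ← Finset.sum_mul, h6, zero_mul, zero_add,
      Finset.sum_congr rfl h4, Finset.sum_const, Finset.card_range, nsmul_eq_mul] at h2
    have h5 : v (2 * i + 1) + ((2 * i + 3 : ℕ) : B) * v (2 * i + 2) = 0 := h2
    rw [neg_mul]
    exact eq_neg_of_add_eq_zero_left h5
  rw [← hv0]
  have hdesc : ∀ i ≤ k, v (2 * (k - i)) = 0 := by
    intro i
    induction i with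
    | zero => intro _; exact hvk
    | succ i ih =>
      intro hi
      have h1 := ih (by omega)
      have h2 : 2 * (k - i) = 2 * (k - (i + 1)) + 2 := by omega
      rw [h2] at h1
      rw [hvodd _ (by omega), hveven _ (by omega), h1, mul_zero, mul_zero]
  have := hdesc k le_rfl
  simpa using this

end

end

end Pool.Agent.H677_Perf
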