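import Pool.Agent.H677_Perf.RankPow

set_option autoImplicit false
set_option linter.unusedSectionVars false

namespace Pool.Agent.H677_Perf

noncomputable section

variable {G : Type*} [Group G] {n : Type*} [Fintype n] [DecidableEq n]
variable {B : Type*} [AddCommGroup B]

/-- bilinear extension of a function of two group elements -/
def bil (ψ : G → G → B) : MonoidAlgebra ℤ G →+ MonoidAlgebra ℤ G →+ B :=
  evalFn fun g => evalFn (ψ g)

@[simp] lemma bil_single (ψ : G → G → B) (g h : G) (r s : ℤ) :
    bil ψ (MonoidAlgebra.single g r) (MonoidAlgebra.single h s) = (r * s) • ψ g h := by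
  simp [bil, mul_smul]

lemma bil_cocycle {ψ : G → G → B}
    (hψ : ∀ a b c, ψ (a * b) c - ψ a (b * c) + ψ (c * a) b = 0) (x y z : MonoidAlgebra ℤ G) :
    bil ψ (x * y) z - bil ψ x (y * z) + bil ψ (z * x) y = 0 := by
  have key : ∀ (a a' b b' c c' : B), (a - b + c = 0) → (a' - b' + c' = 0) →
      (a + a') - (b + b') + (c + c') = 0 := by
    intro a a' b b' c c' h h'
    have : (a + a') - (b + b') + (c + c') = (a - b + c) + (a' - b' + c') := by abel
    rw [this, h, h', add_zero]
  induction x using MonoidAlgebra.induction_linear with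
  | zero => simp
  | add x x' hx hx' =>
    simp only [add_mul, mul_add, map_add, AddMonoidHom.add_apply]
    exact key _ _ _ _ _ _ hx hx'
  | single g r =>
    induction y using MonoidAlgebra.induction_linear with
    | zero => simp
    | add y y' hy hy' =>
      simp only [add_mul, mul_add, map_add, AddMonoidHom.add_apply]
      exact key _ _ _ _ _ _ hy hy'
    | single h s =>
      induction z using MonoidAlgebra.induction_linear with
      | zero => simp
      | add z z' hz hz' =>
        simp only [add_mul, mul_add, map_add, AddMonoidHom.add_apply]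
        exact key _ _ _ _ _ _ hz hz'
      | single k t =>
        simp only [MonoidAlgebra.single_mul_single, bil_single]
        rw [show r * (s * t) = r * s * t by ring, show t * r * s = r * s * t by ring,
          ← smul_sub, ← smul_add, hψ, smul_zero]

lemma bil_symm {ψ : G → G → B} {χ : G → B} (hψ : ∀ a b, ψ a b + ψ b a = χ (a * b))
    (x y : MonoidAlgebra ℤ G) : bil ψ x y + bil ψ y x = evalFn χ (x * y) := by
  have key : ∀ (a a' b b' c c' : B), (a + b = c) → (a' + b' = c') →
      (a + a') + (b + b') = (c + c') := by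
    intro a a' b b' c c' h h'
    rw [← h, ← h']; abel
  induction x using MonoidAlgebra.induction_linear with
  | zero => simp
  | add x x' hx hx' =>
    simp only [add_mul, map_add, AddMonoidHom.add_apply]
    exact key _ _ _ _ _ _ hx hx'
  | single g r =>
    induction y using MonoidAlgebra.induction_linear with
    | zero => simp
    | add y y' hy hy' =>
      simp only [mul_add, map_add, AddMonoidHom.add_apply]
      exact key _ _ _ _ _ _ hy hy'
    | single h s =>
      simp only [MonoidAlgebra.single_mul_single, bil_single, evalFn_single]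
      rw [mul_comm s r, ← smul_add, hψ]

/-- matrix version of the bilinear extension -/
def Bil (ψ : G → G → B) (X Y : Matrix n n (MonoidAlgebra ℤ G)) : B :=
  ∑ i, ∑ j, bil ψ (X i j) (Y j i)

lemma Bil_cocycle {ψ : G → G → B}
    (hψ : ∀ a b c, ψ (a * b) c - ψ a (b * c) + ψ (c * a) b = 0)
    (X Y Z : Matrix n n (MonoidAlgebra ℤ G)) :
    Bil ψ (X * Y) Z - Bil ψ X (Y * Z) + Bil ψ (Z * X) Y = 0 := by
  have h1 : Bil ψ (X * Y) Z = ∑ i, ∑ j, ∑ k, bil ψ (X i j * Y j k) (Z k i) := by
    unfold Bil
    refine Finset.sum_congr rfl fun i _ => ?_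
    rw [Finset.sum_comm]
    refine Finset.sum_congr rfl fun k _ => ?_
    rw [Matrix.mul_apply, map_sum, AddMonoidHom.finsetSum_apply]
  have h2 : Bil ψ X (Y * Z) = ∑ i, ∑ j, ∑ k, bil ψ (X i j) (Y j k * Z k i) := by
    unfold Bil
    refine Finset.sum_congr rfl fun i _ => Finset.sum_congr rfl fun j _ => ?_
    rw [Matrix.mul_apply, map_sum]
  have h3 : Bil ψ (Z * X) Y = ∑ i, ∑ j, ∑ k, bil ψ (Z k i * X i j) (Y j k) := by
    unfold Bil
    have : ∀ k j, bil ψ ((Z * X) k j) (Y j k) = ∑ i, bil ψ (Z k i * X i j) (Y j k) := by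
      intro k j
      rw [Matrix.mul_apply, map_sum, AddMonoidHom.finsetSum_apply]
    simp only [this]
    rw [Finset.sum_comm]
    conv_lhs =>
      enter [2, j]
      rw [Finset.sum_comm]
    rw [Finset.sum_comm]
  rw [h1, h2, h3, ← Finset.sum_sub_distrib, ← Finset.sum_add_distrib]
  refine Finset.sum_eq_zero fun i _ => ?_
  rw [← Finset.sum_sub_distrib, ← Finset.sum_add_distrib]
  refine Finset.sum_eq_zero fun j _ => ?_
  rw [← Finset.sum_sub_distrib, ← Finset.sum_add_distrib]
  exact Finset.sum_eq_zero fun k _ => bil_cocycle hψ _ _ _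

lemma Bil_symm {ψ : G → G → B} {χ : G → B} (hψ : ∀ a b, ψ a b + ψ b a = χ (a * b))
    (X Y : Matrix n n (MonoidAlgebra ℤ G)) : Bil ψ X Y + Bil ψ Y X = Tau χ (X * Y) := by
  have h1 : Bil ψ Y X = ∑ i, ∑ j, bil ψ (Y j i) (X i j) := by
    unfold Bil
    rw [Finset.sum_comm]
  rw [h1, Bil, ← Finset.sum_add_distrib, Tau_apply]
  refine Finset.sum_congr rfl fun i _ => ?_
  rw [← Finset.sum_add_distrib, Matrix.mul_apply, map_sum]
  exact Finset.sum_congr rfl fun j _ => bil_symm hψ _ _

/-- a cyclic cocycle kills the functional it symmetrises to, on idempotents -/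
lemma Tau_idem_eq_zero {ψ : G → G → B} {χ : G → B}
    (h1 : ∀ a b c, ψ (a * b) c - ψ a (b * c) + ψ (c * a) b = 0)
    (h2 : ∀ a b, ψ a b + ψ b a = χ (a * b)) {A : Matrix n n (MonoidAlgebra ℤ G)}
    (hA : A * A = A) : Tau χ A = 0 := by
  have h3 := Bil_cocycle h1 A A A
  rw [hA] at h3
  have h4 : Bil ψ A A = 0 := by
    have : Bil ψ A A - Bil ψ A A + Bil ψ A A = Bil ψ A A := by abel
    rw [← this]; exact h3
  have h5 := Bil_symm h2 A A
  rw [hA, h4, add_zero] at h5
  exact h5.symm

section cocycle

variable (x : G) (f : G → B)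

open Classical in
/-- a chosen conjugating element -/
def hh (y : G) : G := if h : IsConj x y then (isConj_iff.1 h).choose else 1

lemma hh_spec {y : G} (h : IsConj x y) : hh x y * x * (hh x y)⁻¹ = y := by
  rw [hh, dif_pos h]
  exact (isConj_iff.1 h).choose_spec

/-- the groupoid cocycle -/
def th (g y : G) : B := f ((hh x (g * y * g⁻¹))⁻¹ * g * hh x y)

lemma isConj_conj {x y : G} (h : IsConj x y) (g : G) : IsConj x (g * y * g⁻¹) :=
  h.trans (isConj_iff.2 ⟨g, rfl⟩)

lemma th_commute {y : G} (h : IsConj x y) (g : G) :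
    Commute ((hh x (g * y * g⁻¹))⁻¹ * g * hh x y) x := by
  have h1 := hh_spec x h
  have h2 := hh_spec x (isConj_conj h g)
  set a := hh x y
  set b := hh x (g * y * g⁻¹)
  have h3 : a * x = y * a := by rw [← h1]; group
  have h4 : x * b⁻¹ = b⁻¹ * (g * y * g⁻¹) := by rw [← h2]; group
  change b⁻¹ * g * a * x = x * (b⁻¹ * g * a)
  calc b⁻¹ * g * a * x = b⁻¹ * g * (a * x) := by group
    _ = b⁻¹ * (g * y * g⁻¹) * g * a := by rw [h3]; group
    _ = x * b⁻¹ * g * a := by rw [h4]
    _ = x * (b⁻¹ * g * a) := by group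

lemma th_mul (hf : ∀ a b, Commute a x → Commute b x → f (a * b) = f a + f b) {y : G}
    (h : IsConj x y) (g g' : G) :
    th x f (g * g') y = th x f g (g' * y * g'⁻¹) + th x f g' y := by
  have h1 := th_commute x (isConj_conj h g') g
  have h2 := th_commute x h g'
  unfold th
  rw [← hf _ _ h1 h2]
  have : g * g' * y * (g * g')⁻¹ = g * (g' * y * g'⁻¹) * g⁻¹ := by group
  rw [this]
  congr 1
  group

lemma th_self {y : G} (h : IsConj x y) : th x f y y = f x := by
  unfold th
  have h1 := hh_spec x h
  have h2 : y * y * y⁻¹ = y := by group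
  rw [h2]
  congr 1
  set a := hh x y
  rw [← h1]
  group

open Classical in
/-- the cyclic cocycle attached to an additive function on the centraliser -/
def psi (a b : G) : B := if IsConj x (a * b) then th x f b (a * b) else 0

lemma isConj_mul_comm (a b : G) : IsConj x (a * b) ↔ IsConj x (b * a) := by
  have : IsConj (a * b) (b * a) := isConj_iff.2 ⟨b, by group⟩
  exact ⟨fun h => h.trans this, fun h => h.trans this.symm⟩

lemma psi_cocycle (hf : ∀ a b, Commute a x → Commute b x → f (a * b) = f a + f b)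
    (a b c : G) : psi x f (a * b) c - psi x f a (b * c) + psi x f (c * a) b = 0 := by
  unfold psi
  have e1 : c * a * b = c * (a * b) := by group
  have e2 : a * (b * c) = a * b * c := by group
  have hiff : IsConj x (c * a * b) ↔ IsConj x (a * b * c) := by
    rw [e1]; exact isConj_mul_comm x _ _
  rw [e2]
  by_cases h : IsConj x (a * b * c)
  · rw [if_pos h, if_pos h, if_pos (hiff.2 h), th_mul x f hf h b c]
    have e3 : c * (a * b * c) * c⁻¹ = c * a * b := by group
    rw [e3]
    abel
  · rw [if_neg h, if_neg h, if_neg (fun h' => h (hiff.1 h'))]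
    abel

open Classical in
/-- the associated class function -/
def chi (g : G) : B := if IsConj x g then f x else 0

lemma psi_symm (hf : ∀ a b, Commute a x → Commute b x → f (a * b) = f a + f b)
    (a b : G) : psi x f a b + psi x f b a = chi x f (a * b) := by
  unfold psi chi
  by_cases h : IsConj x (a * b)
  · rw [if_pos h, if_pos h, if_pos ((isConj_mul_comm x a b).1 h)]
    have e : b * (a * b) * b⁻¹ = b * a := by group
    rw [add_comm, ← e, ← th_mul x f hf h a b, th_self x f h]
  · rw [if_neg h, if_neg h, if_neg (fun h' => h ((isConj_mul_comm x a b).2 h')), add_zero]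

end cocycle

/-- For an idempotent matrix, the rank at `x` kills `f x` for all additive `f` on the
centraliser of `x`. -/
theorem rk_smul_eq_zero {A : Matrix n n (MonoidAlgebra ℤ G)} (hA : A * A = A) (x : G)
    (f : G → B) (hf : ∀ a b, Commute a x → Commute b x → f (a * b) = f a + f b) :
    rkAt x A • f x = 0 := by
  classical
  have h := Tau_idem_eq_zero (psi_cocycle x f hf) (psi_symm x f hf) hA
  have h2 : (chi x f : G → B) =
      fun g => (fun c => if c = ConjClasses.mk x then f x else 0) (ConjClasses.mk g) := by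
    funext g
    simp only [chi, ConjClasses.mk_eq_mk_iff_isConj]
    by_cases hg : IsConj x g
    · rw [if_pos hg, if_pos hg.symm]
    · rw [if_neg hg, if_neg (fun h => hg h.symm)]
  rw [h2] at h
  replace h := (Tau_eq_rk (fun c => if c = ConjClasses.mk x then f x else 0) A).symm.trans h
  rw [rkAt_apply]
  rw [Finsupp.sum] at h
  simp only [smul_ite, smul_zero] at h
  rw [Finset.sum_ite_eq'] at h
  by_cases hmem : ConjClasses.mk x ∈ (rk A).support
  · rw [if_pos hmem] at h
    exact h
  · rw [Finsupp.notMem_support_iff.1 hmem, zero_smul]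

/-- `x ^ r` is in the commutator subgroup of the centraliser, if `r` is the rank at `x`. -/
theorem zpow_rk_mem {A : Matrix n n (MonoidAlgebra ℤ G)} (hA : A * A = A) (x : G) :
    x ^ (rkAt x A) ∈ ⁅Subgroup.centralizer {x}, Subgroup.centralizer {x}⁆ := by
  classical
  let C := Subgroup.centralizer ({x} : Set G)
  have hC : ∀ a, Commute a x → a ∈ C := by
    intro a ha
    rw [Subgroup.mem_centralizer_singleton_iff]
    exact ha
  let f : G → Additive (Abelianization C) := fun a =>
    if h : a ∈ C then Additive.ofMul (Abelianization.of (⟨a, h⟩ : C)) else 0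
  have hf : ∀ a b, Commute a x → Commute b x → f (a * b) = f a + f b := by
    intro a b ha hb
    have h1 := hC a ha
    have h2 := hC b hb
    have h3 := C.mul_mem h1 h2
    simp only [f, dif_pos h1, dif_pos h2, dif_pos h3]
    rw [← ofMul_mul, ← map_mul]
    rfl
  have h := rk_smul_eq_zero hA x f hf
  have hx : x ∈ C := hC x (Commute.refl x)
  simp only [f, dif_pos hx] at h
  rw [← ofMul_zpow, ← map_zpow, ofMul_eq_zero] at h
  have h' : (⟨x, hx⟩ : C) ^ (rkAt x A) ∈ commutator C := by
    rw [← Abelianization.ker_of]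
    exact h
  have h2 : ((⟨x, hx⟩ : C) ^ (rkAt x A) : C).val ∈ (commutator C).map C.subtype :=
    Subgroup.mem_map_of_mem C.subtype h'
  have h3 : (commutator C).map C.subtype = ⁅C, C⁆ := by
    rw [commutator_def, Subgroup.map_commutator]
    simp [← MonoidHom.range_eq_map]
  rw [h3] at h2
  simpa using h2

/-- An element of infinite order, conjugate to all its `m ^ n`-th powers for some fixed `n`, and
lying in the commutator subgroup of its own centraliser. -/
def Bad (x : G) : Prop :=
  x ≠ 1 ∧ (∃ n : ℕ, 1 ≤ n ∧ ∀ m : ℕ, 1 ≤ m → IsConj x (x ^ (m ^ n))) ∧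
    x ∈ ⁅Subgroup.centralizer {x}, Subgroup.centralizer {x}⁆

theorem bad_of_rk_ne_zero {A : Matrix n n (MonoidAlgebra ℤ G)} (hA : A * A = A) {x : G}
    (hx : x ≠ 1) (hr : rkAt x A ≠ 0) : Bad x := by
  obtain ⟨k, hk1, hk⟩ := exists_uniform hA x hr
  refine ⟨hx, ⟨k, hk1, hk⟩, ?_⟩
  obtain ⟨d, hd⟩ : ∃ d, d = (rkAt x A).natAbs := ⟨_, rfl⟩
  have hd1 : 1 ≤ d := by
    have := Int.natAbs_pos.2 hr
    omega
  obtain ⟨c, hc⟩ := isConj_iff.1 (hk d hd1)
  obtain ⟨y, hy⟩ : ∃ y, y = c⁻¹ * x * c := ⟨_, rfl⟩
  have hyx : IsConj x y := isConj_iff.2 ⟨c⁻¹, by rw [hy]; group⟩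
  have hyd : y ^ (d ^ k) = x := by
    have : x = c * y * c⁻¹ := by rw [hy]; group
    have h2 : x ^ (d ^ k) = c * y ^ (d ^ k) * c⁻¹ := by
      conv_lhs => rw [this]
      rw [conj_pow]
    rw [h2] at hc
    have h3 := mul_right_cancel hc
    exact (mul_left_cancel h3).symm
  have hry : rkAt y A = rkAt x A := by
    rw [rkAt_apply, rkAt_apply, (ConjClasses.mk_eq_mk_iff_isConj).2 hyx.symm]
  have hyr := zpow_rk_mem hA y
  rw [hry] at hyr
  have hyd' : y ^ d ∈ ⁅Subgroup.centralizer {y}, Subgroup.centralizer {y}⁆ := by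
    rcases Int.natAbs_eq (rkAt x A) with h | h
    · rw [h, zpow_natCast, ← hd] at hyr
      exact hyr
    · rw [h, zpow_neg, zpow_natCast, ← hd] at hyr
      simpa using Subgroup.inv_mem _ hyr
  have hle : Subgroup.centralizer {y} ≤ Subgroup.centralizer {x} := by
    intro g hg
    rw [Subgroup.mem_centralizer_singleton_iff] at hg ⊢
    rw [← hyd]
    exact (Commute.pow_right hg (d ^ k))
  have hx' : x = (y ^ d) ^ (d ^ (k - 1)) := by
    rw [← pow_mul, ← pow_succ', Nat.sub_add_cancel hk1, hyd]
  have hmem := Subgroup.commutator_mono hle hle (Subgroup.pow_mem _ hyd' (d ^ (k - 1)))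
  rwa [← hx'] at hmem

end

end Pool.Agent.H677_Perf
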