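import Pool.Agent.H677_Perf.Cyclic

set_option autoImplicit false
set_option linter.unusedSectionVars false

namespace Pool.Agent.H677_Perf

noncomputable section

section words

variable {R ι : Type*} [Ring R] [Fintype ι]

/-- repeat a word -/
def rep (ι : Type*) (a d : ℕ) [NeZero d] (u : Fin d → ι) : Fin (a * d) → ι :=
  fun i => u (Fin.ofNat d i.val)

lemma rep_fixed (a d : ℕ) [NeZero (a * d)] [NeZero d] (u : Fin d → ι) :
    (rot ι (a * d) ^ d) (rep ι a d u) = rep ι a d u := by
  funext i
  rw [rot_pow_apply]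
  unfold rep
  congr 1
  apply Fin.ext
  rw [Fin.val_ofNat, Fin.val_ofNat, Fin.val_ofNat, Nat.mod_mod_of_dvd _ (Dvd.intro_left a rfl),
    Nat.add_mod_right]

lemma fixed_eq_rep (a d : ℕ) [NeZero (a * d)] [NeZero d] (w : Fin (a * d) → ι)
    (hw : (rot ι (a * d) ^ d) w = w) :
    w = rep ι a d (fun j => w (Fin.ofNat (a * d) j.val)) := by
  have hper : ∀ (c : ℕ) (j : Fin (a * d)), w (Fin.ofNat (a * d) (j.val + c * d)) = w j := by
    intro c
    induction c with
    | zero =>
      intro j
      congr 1
      apply Fin.ext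
      rw [Fin.val_ofNat, zero_mul, add_zero, Nat.mod_eq_of_lt j.2]
    | succ c ih =>
      intro j
      have := congrFun hw (Fin.ofNat (a * d) (j.val + c * d))
      rw [rot_pow_apply, ih] at this
      rw [← this]
      congr 1
      apply Fin.ext
      rw [Fin.val_ofNat, Fin.val_ofNat, Fin.val_ofNat, Nat.mod_add_mod]
      congr 1
      ring
  funext i
  unfold rep
  beta_reduce
  rw [← hper (i.val / d) (Fin.ofNat (a * d) (Fin.ofNat d i.val).val)]
  congr 1
  apply Fin.ext
  have h1 : i.val % d ≤ i.val := Nat.mod_le _ _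
  have h2 := i.2
  rw [Fin.val_ofNat, Fin.val_ofNat, Fin.val_ofNat, Nat.mod_eq_of_lt (lt_of_le_of_lt h1 h2),
    Nat.mod_add_div', Nat.mod_eq_of_lt h2]

lemma prod_rep (X : ι → R) (a d : ℕ) [NeZero d] (u : Fin d → ι) :
    (List.ofFn fun j => X (rep ι a d u j)).prod = (List.ofFn fun j => X (u j)).prod ^ a := by
  rw [List.ofFn_mul, List.prod_flatten, List.map_ofFn]
  have : ∀ i : Fin a, (List.prod ∘ fun i : Fin a => List.ofFn fun j : Fin d =>
      X (rep ι a d u ⟨i.val * d + j.val, by
        calc i.val * d + j.val < i.val * d + d := Nat.add_lt_add_left j.2 _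
          _ = (i.val + 1) * d := by ring
          _ ≤ a * d := Nat.mul_le_mul_right _ i.2⟩)) i =
      (List.ofFn fun j : Fin d => X (u j)).prod := by
    intro i
    simp only [Function.comp]
    congr 2
    funext j
    congr 1
    unfold rep
    congr 1
    apply Fin.ext
    rw [Fin.val_ofNat]
    simp [Nat.mod_eq_of_lt j.2]
  rw [show (List.ofFn (List.prod ∘ fun i : Fin a => List.ofFn fun j : Fin d =>
      X (rep ι a d u ⟨i.val * d + j.val, _⟩))) = List.replicate a
      (List.ofFn fun j : Fin d => X (u j)).prod from ?_]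
  · rw [List.prod_replicate]
  · rw [← List.ofFn_const]
    congr 1
    funext i
    exact this i

/-- Congruence between the trace of a `p ^ (N+1)`-th power and a `p ^ N`-th power. -/
theorem frob_congr (T T' : R →+ ℤ) (hT : ∀ x y, T (x * y) = T (y * x)) (X : ι → R)
    (p : ℕ) [hp : Fact p.Prime] (N : ℕ)
    (h : ∀ u : Fin (p ^ N) → ι, T ((List.ofFn fun j => X (u j)).prod ^ p) =
      T' (List.ofFn fun j => X (u j)).prod) :
    (p : ℤ) ^ (N + 1) ∣ T ((∑ i, X i) ^ (p ^ (N + 1))) - T' ((∑ i, X i) ^ (p ^ N)) := by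
  classical
  have hpp := hp.out.pos
  have h0 : NeZero (p ^ N) := ⟨(pow_pos hpp N).ne'⟩
  have h1 : NeZero (p * p ^ N) := ⟨(Nat.mul_pos hpp (pow_pos hpp N)).ne'⟩
  have e : p ^ (N + 1) = p * p ^ N := by rw [pow_succ]; ring
  rw [e, sum_pow_words, sum_pow_words, map_sum, map_sum]
  rw [← Finset.sum_filter_add_sum_filter_not Finset.univ
    (fun w => (rot ι (p * p ^ N) ^ (p ^ N)) w ≠ w)]
  have h2 : (p : ℤ) ^ (N + 1) ∣ ∑ w with (rot ι (p * p ^ N) ^ (p ^ N)) w ≠ w,
      T (List.ofFn fun j => X (w j)).prod :=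
    sum_not_fixed (rot ι (p * p ^ N)) (fun w => T (List.ofFn fun j => X (w j)).prod)
      (fun w => trace_rot T hT X (p * p ^ N) w) p N (N + 1) (fun w => by
        rw [e]; exact rot_pow_self _ w)
  have h3 : ∑ w : Fin (p * p ^ N) → ι with ¬ (rot ι (p * p ^ N) ^ (p ^ N)) w ≠ w,
      T (List.ofFn fun j => X (w j)).prod =
      ∑ u : Fin (p ^ N) → ι, T' (List.ofFn fun j => X (u j)).prod := by
    symm
    refine Finset.sum_bij (fun u _ => rep ι p (p ^ N) u) ?_ ?_ ?_ ?_
    · intro u _
      simp only [Finset.mem_filter, Finset.mem_univ, true_and, not_not]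
      exact rep_fixed p (p ^ N) u
    · intro u _ v _ huv
      funext j
      have hj : j.val < p * p ^ N :=
        lt_of_lt_of_le j.2 (Nat.le_mul_of_pos_left _ hpp)
      have := congrFun huv ⟨j.val, hj⟩
      unfold rep at this
      have e2 : Fin.ofNat (p ^ N) j.val = j := by
        apply Fin.ext
        rw [Fin.val_ofNat, Nat.mod_eq_of_lt j.2]
      simp only [e2] at this
      exact this
    · intro w hw
      simp only [Finset.mem_filter, Finset.mem_univ, true_and, not_not] at hw
      exact ⟨_, Finset.mem_univ _, (fixed_eq_rep p (p ^ N) w hw).symm⟩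
    · intro u _
      rw [prod_rep, h]
  rw [h3, add_sub_cancel_right]
  exact h2

end words

section letters

variable {G : Type*} [Group G] {n : Type*} [Fintype n] [DecidableEq n]

/-- an elementary matrix with a group element as entry -/
def letter (t : n × n × G) : Matrix n n (MonoidAlgebra ℤ G) :=
  Matrix.single t.1 t.2.1 (MonoidAlgebra.single t.2.2 1)

lemma letter_mul (t s : n × n × G) :
    letter t * letter s = if t.2.1 = s.1 then letter (t.1, s.2.1, t.2.2 * s.2.2) else 0 := by
  unfold letter
  split_ifs with h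
  · rw [← h, Matrix.single_mul_single_same, MonoidAlgebra.single_mul_single, one_mul]
  · rw [Matrix.single_mul_single_of_ne _ _ _ _ h]

lemma letters_prod (l : List (n × n × G)) (hl : l ≠ []) :
    (l.map letter).prod = 0 ∨ ∃ t : n × n × G, (l.map letter).prod = letter t := by
  induction l with
  | nil => exact absurd rfl hl
  | cons a l ih =>
    rw [List.map_cons, List.prod_cons]
    by_cases h : l = []
    · right
      exact ⟨a, by rw [h]; simp⟩
    · rcases ih h with h0 | ⟨t, ht⟩
      · left; rw [h0, mul_zero]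
      · rw [ht, letter_mul]
        split_ifs
        · right; exact ⟨_, rfl⟩
        · left; rfl

lemma letter_pow (a : n) (g : G) (k : ℕ) (hk : 1 ≤ k) :
    letter (a, a, g) ^ k = letter (a, a, g ^ k) := by
  induction k, hk using Nat.le_induction with
  | base => rw [pow_one, pow_one]
  | succ k _ ih => rw [pow_succ, ih, letter_mul, if_pos rfl, pow_succ]

lemma Tau_letter {B : Type*} [AddCommGroup B] (χ : G → B) (t : n × n × G) :
    Tau χ (letter t) = if t.1 = t.2.1 then χ t.2.2 else 0 := by
  rw [Tau_apply]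
  unfold letter
  split_ifs with h
  · rw [Finset.sum_eq_single t.1]
    · rw [← h, Matrix.single_apply_same, evalFn_single, one_smul]
    · intro i _ hi
      rw [Matrix.single_apply_of_row_ne (Ne.symm hi), map_zero]
    · intro h'; exact absurd (Finset.mem_univ _) h'
  · refine Finset.sum_eq_zero fun i _ => ?_
    by_cases hi : t.1 = i
    · rw [← hi, Matrix.single_apply_of_col_ne _ _ (Ne.symm h), map_zero]
    · rw [Matrix.single_apply_of_row_ne hi, map_zero]

/-- Every matrix is, modulo `M`, a sum of letters. -/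
lemma exists_letters (M : ℕ) (hM : 0 < M) (Y : Matrix n n (MonoidAlgebra ℤ G)) :
    ∃ (l : List (n × n × G)) (B : Matrix n n (MonoidAlgebra ℤ G)),
      (l.map letter).sum = Y + (M : ℤ) • B := by
  have hadd : ∀ Y Y' : Matrix n n (MonoidAlgebra ℤ G),
      (∃ (l : List (n × n × G)) (B : Matrix n n (MonoidAlgebra ℤ G)),
        (l.map letter).sum = Y + (M : ℤ) • B) →
      (∃ (l : List (n × n × G)) (B : Matrix n n (MonoidAlgebra ℤ G)),
        (l.map letter).sum = Y' + (M : ℤ) • B) →
      (∃ (l : List (n × n × G)) (B : Matrix n n (MonoidAlgebra ℤ G)),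
        (l.map letter).sum = (Y + Y') + (M : ℤ) • B) := by
    rintro Y Y' ⟨l, B, h⟩ ⟨l', B', h'⟩
    refine ⟨l ++ l', B + B', ?_⟩
    rw [List.map_append, List.sum_append, h, h', smul_add]
    abel
  induction Y using Matrix.induction_on' with
  | h_zero => exact ⟨[], 0, by simp⟩
  | h_add Y Y' h h' => exact hadd _ _ h h'
  | h_std_basis i j x =>
    induction x using MonoidAlgebra.induction_linear with
    | zero => exact ⟨[], 0, by simp⟩
    | add x y hx hy =>
      rw [Matrix.single_add]
      exact hadd _ _ hx hy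
    | single g r =>
      refine ⟨List.replicate (r % M).toNat (i, j, g),
        Matrix.single i j (MonoidAlgebra.single g (-(r / M))), ?_⟩
      rw [List.map_replicate, List.sum_replicate]
      unfold letter
      have h1 : ((r % M).toNat : ℤ) = r % M := Int.toNat_of_nonneg (Int.emod_nonneg _ (by omega))
      have h2 : (r % M) = r + M * (-(r / M)) := by
        have := Int.emod_add_mul_ediv r M
        linarith
      rw [Matrix.smul_single, Matrix.smul_single, ← Matrix.single_add]
      congr 1
      rw [MonoidAlgebra.smul_single, MonoidAlgebra.smul_single, ← MonoidAlgebra.single_add]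
      congr 1
      rw [nsmul_eq_mul, mul_one, h1, smul_eq_mul]
      exact h2

lemma pow_congr_mod (M : ℕ) (Y Z : Matrix n n (MonoidAlgebra ℤ G))
    (h : ∃ B, Z = Y + (M : ℤ) • B) (k : ℕ) : ∃ B, Z ^ k = Y ^ k + (M : ℤ) • B := by
  obtain ⟨B, hB⟩ := h
  induction k with
  | zero => exact ⟨0, by simp⟩
  | succ k ih =>
    obtain ⟨B', hB'⟩ := ih
    refine ⟨Y ^ k * B + B' * Y + (M : ℤ) • (B' * B), ?_⟩
    rw [pow_succ, hB', hB, pow_succ, add_mul, mul_add, mul_add, smul_mul_assoc, smul_mul_assoc,
      mul_smul_comm, mul_smul_comm, smul_add, smul_add]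
    abel

open Classical in
/-- Invariance of the rank function under the `p`-th power map, first form. -/
theorem rkAt_frob {A : Matrix n n (MonoidAlgebra ℤ G)} (hA : A * A = A) (p : ℕ)
    [hp : Fact p.Prime] (x : G) :
    rkAt x A = Tau (fun g => if IsConj (g ^ p) x then (1 : ℤ) else 0) A := by
  set T' : Matrix n n (MonoidAlgebra ℤ G) →+ ℤ :=
    Tau (fun g => if IsConj (g ^ p) x then (1 : ℤ) else 0) with hT'
  have hrk : ∀ t : n × n × G, rkAt x (letter t) =
      if t.1 = t.2.1 then (if IsConj t.2.2 x then 1 else 0) else 0 := by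
    intro t
    simp only [rkAt, AddMonoidHom.comp_apply]
    rw [Tau_letter]
    split_ifs with h1 h2
    · rw [Finsupp.applyAddHom_apply, (ConjClasses.mk_eq_mk_iff_isConj).2 h2,
        Finsupp.single_eq_same]
    · rw [Finsupp.applyAddHom_apply, Finsupp.single_eq_of_ne]
      intro h
      rename_i h2
      exact h2 ((ConjClasses.mk_eq_mk_iff_isConj).1 h.symm)
    · rw [map_zero]
  have hdvd : ∀ N : ℕ, (p : ℤ) ^ (N + 1) ∣ rkAt x A - T' A := by
    intro N
    obtain ⟨l, B, hl⟩ := exists_letters (p ^ (N + 1)) (pow_pos hp.out.pos _) A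
    have hsum : (∑ i : Fin l.length, letter (l.get i)) = (l.map letter).sum := by
      rw [← List.sum_ofFn]
      congr 1
      conv_rhs => rw [← List.ofFn_get l, List.map_ofFn]
      rfl
    have hq : ∀ u : Fin (p ^ N) → Fin l.length,
        rkAt x ((List.ofFn fun j => letter (l.get (u j))).prod ^ p) =
          T' (List.ofFn fun j => letter (l.get (u j))).prod := by
      intro u
      have h1 : (List.ofFn fun j => letter (l.get (u j))) =
          (List.ofFn fun j => l.get (u j)).map letter := by
        rw [List.map_ofFn]; rfl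
      rw [h1]
      have hne : (List.ofFn fun j => l.get (u j)) ≠ [] := by
        intro h
        have := congrArg List.length h
        rw [List.length_ofFn, List.length_nil] at this
        exact (pow_pos hp.out.pos N).ne' this
      rcases letters_prod _ hne with h0 | ⟨t, ht⟩
      · rw [h0, zero_pow hp.out.ne_zero, map_zero, map_zero]
      · rw [ht, hT', Tau_letter]
        split_ifs with h2 h3
        · obtain ⟨a, b, g⟩ := t
          simp only at h2 h3
          subst h2
          rw [letter_pow _ _ _ hp.out.one_le, hrk, if_pos rfl, if_pos h3]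
        · rename_i h3
          obtain ⟨a, b, g⟩ := t
          simp only at h2 h3
          subst h2
          rw [letter_pow _ _ _ hp.out.one_le, hrk, if_pos rfl, if_neg h3]
        · rename_i h2
          obtain ⟨m, hm⟩ : ∃ m, p = m + 2 := ⟨p - 2, by have := hp.out.two_le; omega⟩
          have h4 : letter t * letter t = 0 := by
            rw [letter_mul, if_neg]
            intro h
            exact h2 h.symm
          rw [hm, pow_succ, pow_succ, mul_assoc, h4, mul_zero, map_zero]
    have h1 := frob_congr (rkAt x) T' (rkAt_mul_comm x) (fun i : Fin l.length => letter (l.get i))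
      p N hq
    rw [hsum, hl] at h1
    obtain ⟨B1, hB1⟩ := pow_congr_mod (p ^ (N + 1)) A _ ⟨B, rfl⟩ (p ^ (N + 1))
    obtain ⟨B2, hB2⟩ := pow_congr_mod (p ^ (N + 1)) A _ ⟨B, rfl⟩ (p ^ N)
    have hone : ∀ k, 1 ≤ p ^ k := fun k => Nat.one_le_iff_ne_zero.2 (pow_ne_zero _ hp.out.ne_zero)
    rw [hB1, hB2, pow_idem hA _ (hone _), pow_idem hA _ (hone _), map_add, map_add, map_zsmul,
      map_zsmul] at h1
    have h2 : rkAt x A - T' A = (rkAt x A + ((p ^ (N + 1) : ℕ) : ℤ) • rkAt x B1 -
        (T' A + ((p ^ (N + 1) : ℕ) : ℤ) • T' B2)) -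
        (p : ℤ) ^ (N + 1) * (rkAt x B1 - T' B2) := by
      push_cast
      rw [smul_eq_mul, smul_eq_mul]
      ring
    rw [h2]
    exact dvd_sub h1 (Dvd.intro _ rfl)
  by_contra hne
  have h1 : rkAt x A - T' A ≠ 0 := sub_ne_zero.2 hne
  obtain ⟨m, hm⟩ : ∃ m, m = (rkAt x A - T' A).natAbs := ⟨_, rfl⟩
  have h2 := hdvd m
  have h3 : p ^ (m + 1) ∣ (rkAt x A - T' A).natAbs := by
    rw [← Int.natCast_dvd]
    exact_mod_cast h2
  have h4 := Nat.le_of_dvd (Int.natAbs_pos.2 h1) h3
  have h5 : m + 1 < p ^ (m + 1) := Nat.lt_pow_self hp.out.one_lt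
  omega

/-- power maps on conjugacy classes -/
def powC (m : ℕ) : ConjClasses G → ConjClasses G :=
  Quotient.map' (fun g => g ^ m) fun _ _ h => isConj_pow h m

lemma powC_mk (m : ℕ) (g : G) : powC m (ConjClasses.mk g) = ConjClasses.mk (g ^ m) := rfl

lemma powC_one : (powC 1 : ConjClasses G → ConjClasses G) = id := by
  funext c
  obtain ⟨x, rfl⟩ := ConjClasses.exists_rep c
  change powC 1 (ConjClasses.mk x) = ConjClasses.mk x
  rw [powC_mk, pow_one]

lemma powC_mul (a b : ℕ) : (powC (a * b) : ConjClasses G → ConjClasses G) = powC a ∘ powC b := by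
  funext c
  obtain ⟨x, rfl⟩ := ConjClasses.exists_rep c
  change powC (a * b) (ConjClasses.mk x) = powC a (powC b (ConjClasses.mk x))
  rw [powC_mk, powC_mk, powC_mk, ← pow_mul, mul_comm]

/-- The rank function of an idempotent is invariant under all power maps. -/
theorem rk_powC {A : Matrix n n (MonoidAlgebra ℤ G)} (hA : A * A = A) (m : ℕ) (hm : 1 ≤ m) :
    (rk A).mapDomain (powC m) = rk A := by
  classical
  induction m using Nat.recOnMul with
  | zero => omega
  | one => rw [powC_one, Finsupp.mapDomain_id]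
  | prime p hp =>
    have : Fact p.Prime := ⟨hp⟩
    ext c
    obtain ⟨x, rfl⟩ := ConjClasses.exists_rep c
    change _ = rkAt x A
    rw [rkAt_frob hA p x]
    have h1 : (fun g : G => if IsConj (g ^ p) x then (1 : ℤ) else 0) =
        fun g => (fun c => if powC p c = ConjClasses.mk x then (1 : ℤ) else 0)
          (ConjClasses.mk g) := by
      funext g
      simp only [powC_mk, ConjClasses.mk_eq_mk_iff_isConj]
    rw [h1]
    rw [Tau_eq_rk (fun c => if powC p c = ConjClasses.mk x then (1 : ℤ) else 0) A]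
    rw [Finsupp.mapDomain, Finsupp.sum_apply]
    refine Finsupp.sum_congr fun c _ => ?_
    rw [Finsupp.single_apply, smul_eq_mul, mul_ite, mul_one, mul_zero]
  | mul a b ha hb =>
    have ha' : 1 ≤ a := Nat.one_le_iff_ne_zero.2 (by rintro rfl; simp at hm)
    have hb' : 1 ≤ b := Nat.one_le_iff_ne_zero.2 (by rintro rfl; simp at hm)
    rw [powC_mul, Finsupp.mapDomain_comp, hb hb', ha ha']

/-- Power maps permute the support of the rank function. -/
theorem image_support_rk [DecidableEq (ConjClasses G)] {A : Matrix n n (MonoidAlgebra ℤ G)}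
    (hA : A * A = A) (m : ℕ) (hm : 1 ≤ m) :
    (rk A).support.image (powC m) = (rk A).support := by
  symm
  apply Finset.eq_of_subset_of_card_le
  · conv_lhs => rw [← rk_powC hA m hm]
    exact Finsupp.mapDomain_support
  · exact Finset.card_image_le

/-- `x` is not the identity, its class belongs to a finite set of classes which every power map
sends onto itself, and `x` is a product of commutators of elements commuting with `x`. -/
def Bad2 (x : G) : Prop :=
  x ≠ 1 ∧
  (∃ F : Finset G, x ∈ F ∧ ∀ m : ℕ, 1 ≤ m →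
    (∀ y ∈ F, ∃ z ∈ F, IsConj (y ^ m) z) ∧ (∀ z ∈ F, ∃ y ∈ F, IsConj (y ^ m) z)) ∧
  x ∈ ⁅Subgroup.centralizer {x}, Subgroup.centralizer {x}⁆

theorem bad2_of_rk_ne_zero {A : Matrix n n (MonoidAlgebra ℤ G)} (hA : A * A = A) {x : G}
    (hx : x ≠ 1) (hr : rkAt x A ≠ 0) : Bad2 x := by
  classical
  refine ⟨hx, ?_, (bad_of_rk_ne_zero hA hx hr).2.2⟩
  have hxS : ConjClasses.mk x ∈ (rk A).support := Finsupp.mem_support_iff.2 hr
  refine ⟨insert x ((rk A).support.image Quotient.out), Finset.mem_insert_self _ _, ?_⟩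
  intro m hm
  have hF1 : ∀ y ∈ insert x ((rk A).support.image Quotient.out),
      ConjClasses.mk y ∈ (rk A).support := by
    intro y hy
    rcases Finset.mem_insert.1 hy with rfl | hy
    · exact hxS
    · obtain ⟨c, hc, rfl⟩ := Finset.mem_image.1 hy
      have : ConjClasses.mk (Quotient.out c) = c := Quotient.out_eq c
      rw [this]
      exact hc
  have hF2 : ∀ c ∈ (rk A).support, ∃ y ∈ insert x ((rk A).support.image Quotient.out),
      ConjClasses.mk y = c := by
    intro c hc
    exact ⟨Quotient.out c, Finset.mem_insert_of_mem (Finset.mem_image_of_mem _ hc),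
      Quotient.out_eq c⟩
  have himg := image_support_rk hA m hm
  constructor
  · intro y hy
    have h1 : powC m (ConjClasses.mk y) ∈ (rk A).support := by
      rw [← himg]
      exact Finset.mem_image_of_mem _ (hF1 y hy)
    obtain ⟨z, hz, hzc⟩ := hF2 _ h1
    refine ⟨z, hz, ?_⟩
    rw [powC_mk, ConjClasses.mk_eq_mk_iff_isConj] at hzc
    exact hzc.symm
  · intro z hz
    have h1 := hF1 z hz
    rw [← himg] at h1
    obtain ⟨c, hc, hcz⟩ := Finset.mem_image.1 h1
    obtain ⟨y, hy, rfl⟩ := hF2 c hc
    refine ⟨y, hy, ?_⟩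
    rw [powC_mk, ConjClasses.mk_eq_mk_iff_isConj] at hcz
    exact hcz

end letters

end

end Pool.Agent.H677_Perf
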