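import Pool.Agent.H677_Perf.Steps

set_option autoImplicit false
set_option linter.unusedSectionVars false

namespace Pool.Agent.H677_Perf

noncomputable section

variable {G : Type*} [Group G]

/-- no nontrivial homomorphism to the group of order `p` -/
def PPerf (p : ℕ) (S : Subgroup G) : Prop := ∀ φ : S →* Multiplicative (ZMod p), φ = 1

lemma PPerf.sup {p : ℕ} {S T : Subgroup G} (hS : PPerf p S) (hT : PPerf p T) :
    PPerf p (S ⊔ T) := by
  intro φ
  have h1 : S ≤ φ.ker.map (S ⊔ T).subtype := by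
    intro x hx
    have h2 := DFunLike.congr_fun (hS (φ.comp (Subgroup.inclusion le_sup_left))) ⟨x, hx⟩
    exact ⟨⟨x, Subgroup.mem_sup_left hx⟩, h2, rfl⟩
  have h2 : T ≤ φ.ker.map (S ⊔ T).subtype := by
    intro x hx
    have h2 := DFunLike.congr_fun (hT (φ.comp (Subgroup.inclusion le_sup_right))) ⟨x, hx⟩
    exact ⟨⟨x, Subgroup.mem_sup_right hx⟩, h2, rfl⟩
  have h3 : S ⊔ T ≤ φ.ker.map (S ⊔ T).subtype := sup_le h1 h2
  ext x : 1
  obtain ⟨y, hy, hyx⟩ := h3 x.2
  have h4 : y = x := Subtype.ext hyx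
  rw [SetLike.mem_coe, h4, MonoidHom.mem_ker] at hy
  exact hy

lemma PPerf.bot (p : ℕ) : PPerf p (⊥ : Subgroup G) := by
  intro φ
  ext x : 1
  have : x = 1 := Subsingleton.elim _ _
  rw [this, map_one, map_one]

lemma PPerf.map {G' : Type*} [Group G'] {p : ℕ} {S : Subgroup G} (hS : PPerf p S)
    (f : G →* G') : PPerf p (S.map f) := by
  intro φ
  ext x : 1
  obtain ⟨y, rfl⟩ := f.subgroupMap_surjective S x
  exact DFunLike.congr_fun (hS (φ.comp (f.subgroupMap S))) y

/-- the subgroup generated by the finitely generated `p`-perfect subgroups of `N` -/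
def pcore (p : ℕ) (N : Subgroup G) : Subgroup G :=
  sSup {S : Subgroup G | S ≤ N ∧ S.FG ∧ PPerf p S}

lemma mem_pcore {p : ℕ} {N : Subgroup G} {x : G} :
    x ∈ pcore p N ↔ ∃ S : Subgroup G, S ≤ N ∧ S.FG ∧ PPerf p S ∧ x ∈ S := by
  unfold pcore
  rw [Subgroup.mem_sSup_of_directedOn]
  · constructor
    · rintro ⟨S, ⟨h1, h2, h3⟩, h4⟩
      exact ⟨S, h1, h2, h3, h4⟩
    · rintro ⟨S, h1, h2, h3, h4⟩
      exact ⟨S, ⟨h1, h2, h3⟩, h4⟩
  · exact ⟨⊥, bot_le, Subgroup.FG.bot, PPerf.bot p⟩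
  · rintro S ⟨h1, h2, h3⟩ T ⟨h1', h2', h3'⟩
    exact ⟨S ⊔ T, ⟨sup_le h1 h1', h2.sup h2', h3.sup h3'⟩, le_sup_left, le_sup_right⟩

lemma exists_finset_pcore {p : ℕ} {N : Subgroup G} (F : Finset G) (hF : ∀ x ∈ F, x ∈ pcore p N) :
    ∃ S : Subgroup G, S ≤ N ∧ S.FG ∧ PPerf p S ∧ ∀ x ∈ F, x ∈ S := by
  classical
  induction F using Finset.induction_on with
  | empty => exact ⟨⊥, bot_le, Subgroup.FG.bot, PPerf.bot p, by simp⟩
  | insert a F _ ih =>
    obtain ⟨S, h1, h2, h3, h4⟩ := ih fun x hx => hF x (Finset.mem_insert_of_mem hx)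
    obtain ⟨T, h1', h2', h3', h4'⟩ := mem_pcore.1 (hF a (Finset.mem_insert_self _ _))
    refine ⟨S ⊔ T, sup_le h1 h1', h2.sup h2', h3.sup h3', ?_⟩
    intro x hx
    rcases Finset.mem_insert.1 hx with rfl | hx
    · exact Subgroup.mem_sup_right h4'
    · exact Subgroup.mem_sup_left (h4 x hx)

lemma pcore_le (p : ℕ) (N : Subgroup G) : pcore p N ≤ N := sSup_le fun _ h => h.1

lemma pcore_normal (p : ℕ) (N : Subgroup G) [hN : N.Normal] : (pcore p N).Normal := by
  refine ⟨fun x hx g => ?_⟩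
  obtain ⟨S, h1, h2, h3, h4⟩ := mem_pcore.1 hx
  refine mem_pcore.2 ⟨S.map (MulAut.conj g).toMonoidHom, ?_, fg_map h2 _, h3.map _, ?_⟩
  · rintro _ ⟨y, hy, rfl⟩
    exact hN.conj_mem y (h1 hy) g
  · exact ⟨x, h4, rfl⟩

lemma finite_hom (p : ℕ) [NeZero p] (S : Subgroup G) (hS : S.FG) :
    Finite (S →* Multiplicative (ZMod p)) := by
  classical
  obtain ⟨T, hT⟩ := hS
  have hTS : ∀ t : T, (t : G) ∈ S := fun t => by
    rw [← hT]; exact Subgroup.subset_closure t.2
  let ev : (S →* Multiplicative (ZMod p)) → (T → ZMod p) :=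
    fun φ t => (φ ⟨t, hTS t⟩).toAdd
  apply Finite.of_injective ev
  intro φ ψ h
  have h1 : S ≤ (MonoidHom.eqLocus φ ψ).map S.subtype := by
    conv_lhs => rw [← hT]
    rw [Subgroup.closure_le]
    intro t ht
    exact ⟨⟨t, hTS ⟨t, ht⟩⟩, congrFun h ⟨t, ht⟩, rfl⟩
  ext x : 1
  obtain ⟨y, hy, hyx⟩ := h1 x.2
  have h4 : y = x := Subtype.ext hyx
  rw [← h4]
  exact hy

lemma surjective_of_ne_one {p : ℕ} [hp : Fact p.Prime] {S : Type*} [Group S]
    (φ : S →* Multiplicative (ZMod p)) (h : φ ≠ 1) : Function.Surjective φ := by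
  obtain ⟨x, hx⟩ : ∃ x, φ x ≠ 1 := by
    by_contra hcon
    push Not at hcon
    exact h (MonoidHom.ext hcon)
  intro y
  have h1 : (φ x).toAdd ≠ 0 := fun h => hx (Multiplicative.toAdd.injective h)
  obtain ⟨k, hk⟩ : ∃ k : ℕ, (k : ZMod p) = y.toAdd * ((φ x).toAdd)⁻¹ :=
    ⟨_, ZMod.natCast_zmod_val _⟩
  refine ⟨x ^ k, ?_⟩
  apply Multiplicative.toAdd.injective
  rw [map_pow, toAdd_pow, nsmul_eq_mul, hk, mul_assoc, inv_mul_cancel₀ h1, mul_one]

/-- The quotient by the core is locally `p`-indicable. -/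
theorem locPInd_pcore (p : ℕ) [hp : Fact p.Prime] (N : Subgroup G) [hN : N.Normal]
    [hP : (pcore p N).Normal] : LocPInd p (N.map (QuotientGroup.mk' (pcore p N))) := by
  classical
  intro S hS hSne
  set P := pcore p N with hPdef
  let L := N.map (QuotientGroup.mk' P)
  obtain ⟨T, hT⟩ := hS
  have hlift : ∀ t : L, ∃ g : G, g ∈ N ∧ (QuotientGroup.mk' P) g = (t : G ⧸ P) := fun t => by
    obtain ⟨g, hg, hgt⟩ := t.2
    exact ⟨g, hg, hgt⟩
  choose lft hlN hlft using hlift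
  let S₀ : Subgroup G := Subgroup.closure (T.image lft : Finset G)
  have hS₀fg : S₀.FG := ⟨T.image lft, rfl⟩
  have hS₀N : S₀ ≤ N := by
    rw [Subgroup.closure_le]
    intro g hg
    obtain ⟨t, _, rfl⟩ := Finset.mem_image.1 (Finset.mem_coe.1 hg)
    exact hlN t
  -- the image of `S₀` is `S`
  have himg : S₀.map (QuotientGroup.mk' P) = S.map L.subtype := by
    rw [← hT, MonoidHom.map_closure, MonoidHom.map_closure]
    congr 1
    ext y
    constructor
    · rintro ⟨g, hg, rfl⟩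
      obtain ⟨t, ht, rfl⟩ := Finset.mem_image.1 (Finset.mem_coe.1 hg)
      exact ⟨t, ht, (hlft t).symm⟩
    · rintro ⟨t, ht, rfl⟩
      exact ⟨lft t, Finset.mem_coe.2 (Finset.mem_image_of_mem _ ht), hlft t⟩
  -- a homomorphism on `S₀` killing `S₀ ⊓ P`
  obtain ⟨φ, hφ1, hφ⟩ : ∃ φ : S₀ →* Multiplicative (ZMod p), φ ≠ 1 ∧
      ∀ x : S₀, (x : G) ∈ P → φ x = 1 := by
    by_contra hcon
    push Not at hcon
    have hfin := finite_hom p S₀ hS₀fg
    have hfin' : Fintype (S₀ →* Multiplicative (ZMod p)) := Fintype.ofFinite _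
    let xφ : (S₀ →* Multiplicative (ZMod p)) → G := fun φ =>
      if h : φ ≠ 1 then ((hcon φ h).choose : G) else 1
    obtain ⟨S', h1, h2, h3, h4⟩ := exists_finset_pcore (p := p) (N := N)
      (Finset.univ.image xφ) (by
        intro x hx
        obtain ⟨φ, _, rfl⟩ := Finset.mem_image.1 hx
        simp only [xφ]
        split_ifs with h
        · exact (hcon φ h).choose_spec.1
        · exact one_mem _)
    have hperf : PPerf p (S₀ ⊔ S') := by
      intro ψ
      have hψS' : ∀ x : G, ∀ hx : x ∈ S', ψ ⟨x, Subgroup.mem_sup_right hx⟩ = 1 := by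
        intro x hx
        exact DFunLike.congr_fun (h3 (ψ.comp (Subgroup.inclusion le_sup_right))) ⟨x, hx⟩
      set φ : S₀ →* Multiplicative (ZMod p) := ψ.comp (Subgroup.inclusion le_sup_left) with hφ
      have hφ1 : φ = 1 := by
        by_contra h
        have h5 := (hcon φ h).choose_spec.2
        apply h5
        have h6 : xφ φ ∈ S' := h4 _ (Finset.mem_image_of_mem _ (Finset.mem_univ _))
        have h7 : xφ φ = ((hcon φ h).choose : G) := by
          simp only [xφ]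
          rw [dif_pos h]
        rw [h7] at h6
        exact hψS' _ h6
      have h8 : S₀ ⊔ S' ≤ ψ.ker.map (S₀ ⊔ S').subtype := by
        refine sup_le ?_ ?_
        · intro x hx
          refine ⟨⟨x, Subgroup.mem_sup_left hx⟩, ?_, rfl⟩
          rw [SetLike.mem_coe, MonoidHom.mem_ker]
          exact DFunLike.congr_fun hφ1 (⟨x, hx⟩ : S₀)
        · intro x hx
          exact ⟨⟨x, Subgroup.mem_sup_right hx⟩, hψS' x hx, rfl⟩
      ext x : 1
      obtain ⟨y, hy, hyx⟩ := h8 x.2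
      have h9 : y = x := Subtype.ext hyx
      rw [SetLike.mem_coe, h9, MonoidHom.mem_ker] at hy
      exact hy
    have hS₀P : S₀ ≤ P := by
      intro x hx
      exact mem_pcore.2 ⟨S₀ ⊔ S', sup_le hS₀N h1, hS₀fg.sup h2, hperf, Subgroup.mem_sup_left hx⟩
    apply hSne
    rw [eq_bot_iff]
    intro s hs
    have h5 : (s : G ⧸ P) ∈ S₀.map (QuotientGroup.mk' P) := by
      rw [himg]; exact ⟨s, hs, rfl⟩
    obtain ⟨g, hg, hgs⟩ := h5
    rw [Subgroup.mem_bot]
    apply Subtype.ext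
    rw [← hgs, QuotientGroup.mk'_apply, Subgroup.coe_one, QuotientGroup.eq_one_iff]
    exact hS₀P hg
  -- descend to `S`
  let π : S₀ →* S₀.map (QuotientGroup.mk' P) := (QuotientGroup.mk' P).subgroupMap S₀
  have hπ : Function.Surjective π := (QuotientGroup.mk' P).subgroupMap_surjective S₀
  have hker : π.ker ≤ φ.ker := by
    intro x hx
    rw [MonoidHom.mem_ker] at hx ⊢
    apply hφ
    have h1 : (QuotientGroup.mk' P) (x : G) = 1 := congrArg Subtype.val hx
    rwa [QuotientGroup.mk'_apply, QuotientGroup.eq_one_iff] at h1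
  let φ' : S₀.map (QuotientGroup.mk' P) →* Multiplicative (ZMod p) :=
    π.liftOfSurjective hπ ⟨φ, hker⟩
  have hφ' : ∀ x, φ' (π x) = φ x := fun x =>
    MonoidHom.liftOfRightInverse_comp_apply π _ _ ⟨φ, hker⟩ x
  let ι : S →* S₀.map (QuotientGroup.mk' P) :=
    (Subgroup.inclusion (le_of_eq himg.symm)).comp (L.subtype.subgroupMap S)
  refine ⟨φ'.comp ι, surjective_of_ne_one _ ?_⟩
  intro h
  apply hφ1
  ext x : 1
  rw [← hφ', MonoidHom.one_apply]
  have h1 : ((π x : S₀.map (QuotientGroup.mk' P)) : G ⧸ P) ∈ S.map L.subtype := by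
    rw [← himg]; exact (π x).2
  obtain ⟨s, hs, hsx⟩ := h1
  have h2 : ι ⟨s, hs⟩ = π x := Subtype.ext hsx
  rw [← h2]
  exact DFunLike.congr_fun h ⟨s, hs⟩

variable {n : Type*} [Fintype n] [DecidableEq n]

/-- If the idempotent `A` is killed by the normal subgroup `N`, it is killed by the union of the
finitely generated `p`-perfect subgroups of `N`. -/
theorem kills_pcore (p : ℕ) [hp : Fact p.Prime] (N : Subgroup G) [hN : N.Normal]
    (A : Matrix n n (MonoidAlgebra ℤ G)) (hA : A * A = A) (hK : Kills N A) :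
    Kills (pcore p N) A := by
  have hP := pcore_normal p N
  rw [kills_iff_im_eq_zero]
  have hLn : (N.map (QuotientGroup.mk' (pcore p N))).Normal :=
    Subgroup.Normal.map hN _ (QuotientGroup.mk'_surjective (pcore p N))
  exact tower_zero (p := p) (N.map (QuotientGroup.mk' (pcore p N))) (locPInd_pcore p N) _
    (im_idem _ hA) (kills_im _ N _ (Subgroup.le_comap_map _ _) hK)

end

end Pool.Agent.H677_Perf
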