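import Pool.Agent.H677_Perf.LE
import Pool.Agent.H677_Perf.PCore
import Pool.Agent.H677_Perf.Frobenius

set_option autoImplicit false
set_option linter.unusedSectionVars false

universe u

namespace Pool.Agent.H677_Perf

noncomputable section

section

variable {G : Type*} [Group G] {n : Type*} [Fintype n] [DecidableEq n]

/-- Minimal normal subgroups killing `A`, with control on the generators. -/
theorem exists_minimal' {A : Matrix n n (MonoidAlgebra ℤ G)} (S : Set G)
    (hS : ∀ i j, ∀ a ∈ (A i j).coeff.support, a ∈ S) (K : Subgroup G)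
    [hKn : K.Normal] (hK : Kills K A) :
    ∃ T : Set G, T.Finite ∧ (∀ y ∈ T, ∃ a ∈ S, ∃ b ∈ S, y = a⁻¹ * b) ∧
      Subgroup.normalClosure T ≤ K ∧ Kills (Subgroup.normalClosure T) A ∧
      ∀ M : Subgroup G, M.Normal → M ≤ Subgroup.normalClosure T → Kills M A →
        M = Subgroup.normalClosure T := by
  classical
  let S₀ : Finset G := Finset.univ.biUnion fun ij : n × n => (A ij.1 ij.2).coeff.support
  have hS₀ : ∀ i j, ∀ a ∈ (A i j).coeff.support, a ∈ S₀ := by
    intro i j a ha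
    exact Finset.mem_biUnion.2 ⟨(i, j), Finset.mem_univ _, ha⟩
  have hS₀S : ∀ a ∈ S₀, a ∈ S := by
    intro a ha
    obtain ⟨ij, _, ha⟩ := Finset.mem_biUnion.1 ha
    exact hS _ _ a ha
  let prs : Subgroup G → Finset (G × G) := fun N =>
    (S₀ ×ˢ S₀).filter fun ab => ab.1⁻¹ * ab.2 ∈ N
  let P : Subgroup G → Prop := fun N => N.Normal ∧ N ≤ K ∧ Kills N A
  have hex : ∃ m, ∃ N, P N ∧ (prs N).card = m := ⟨_, K, ⟨hKn, le_rfl, hK⟩, rfl⟩
  obtain ⟨N₀, ⟨hN0n, hN0K, hN0⟩, hm⟩ := Nat.find_spec hex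
  have hmin : ∀ N, P N → (prs N₀).card ≤ (prs N).card := by
    intro N hN
    rw [hm]
    exact Nat.find_min' hex ⟨N, hN, rfl⟩
  let T : Set G := ↑((prs N₀).image fun ab => ab.1⁻¹ * ab.2)
  have hTN : Subgroup.normalClosure T ≤ N₀ := by
    apply Subgroup.normalClosure_le_normal
    intro g hg
    obtain ⟨ab, hab, rfl⟩ := Finset.mem_image.1 (Finset.mem_coe.1 hg)
    exact (Finset.mem_filter.1 hab).2
  have hkill : Kills (Subgroup.normalClosure T) A := by
    refine KillsF.of_fiber hN0 fun i j a ha b hb hab => ?_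
    rw [QuotientGroup.eq] at hab ⊢
    apply Subgroup.subset_normalClosure
    exact Finset.mem_coe.2 (Finset.mem_image.2 ⟨(a, b), Finset.mem_filter.2
      ⟨Finset.mem_product.2 ⟨hS₀ i j a ha, hS₀ i j b hb⟩, hab⟩, rfl⟩)
  refine ⟨T, Finset.finite_toSet _, ?_, hTN.trans hN0K, hkill, ?_⟩
  · intro y hy
    obtain ⟨ab, hab, rfl⟩ := Finset.mem_image.1 (Finset.mem_coe.1 hy)
    have h1 := Finset.mem_product.1 (Finset.mem_filter.1 hab).1
    exact ⟨ab.1, hS₀S _ h1.1, ab.2, hS₀S _ h1.2, rfl⟩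
  intro M hMn hMle hM
  refine le_antisymm hMle ?_
  have h1 : prs M ⊆ prs N₀ := by
    intro ab hab
    rw [Finset.mem_filter] at hab ⊢
    exact ⟨hab.1, hTN (hMle hab.2)⟩
  have h2 : prs M = prs N₀ :=
    Finset.eq_of_subset_of_card_le h1 (hmin M ⟨hMn, (hMle.trans hTN).trans hN0K, hM⟩)
  apply Subgroup.normalClosure_le_normal
  intro g hg
  obtain ⟨ab, hab, rfl⟩ := Finset.mem_image.1 (Finset.mem_coe.1 hg)
  rw [← h2] at hab
  exact (Finset.mem_filter.1 hab).2

/-- `y` is not the identity, `y` is a product of commutators of elements commuting with `y`, and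
the conjugacy class of `y` belongs to a set of classes, all of them meeting `E`, which every
power map sends onto itself. -/
def BadIn (E : Set G) (y : G) : Prop :=
  y ≠ 1 ∧ y ∈ ⁅Subgroup.centralizer {y}, Subgroup.centralizer {y}⁆ ∧
  ∃ F : Set G, F ⊆ E ∧ (∃ z ∈ F, IsConj y z) ∧ ∀ m : ℕ, 1 ≤ m →
    (∀ z ∈ F, ∃ w ∈ F, IsConj (z ^ m) w) ∧ (∀ w ∈ F, ∃ z ∈ F, IsConj (z ^ m) w)

lemma BadIn.conj {E : Set G} {y : G} (hy : BadIn E y) (g : G) : BadIn E (g * y * g⁻¹) := by
  obtain ⟨h1, h3, F, hFE, ⟨z, hz, hyz⟩, hF⟩ := hy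
  refine ⟨?_, ?_, F, hFE, ⟨z, hz, ?_⟩, hF⟩
  · intro h
    apply h1
    have : y = g⁻¹ * (g * y * g⁻¹) * g := by group
    rw [this, h]
    group
  · have h4 : Subgroup.map (MulAut.conj g).toMonoidHom (Subgroup.centralizer {y}) ≤
        Subgroup.centralizer {g * y * g⁻¹} := by
      rintro _ ⟨c, hc, rfl⟩
      rw [SetLike.mem_coe, Subgroup.mem_centralizer_singleton_iff] at hc
      rw [Subgroup.mem_centralizer_singleton_iff]
      change (g * c * g⁻¹) * (g * y * g⁻¹) = (g * y * g⁻¹) * (g * c * g⁻¹)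
      calc (g * c * g⁻¹) * (g * y * g⁻¹) = g * (c * y) * g⁻¹ := by group
        _ = g * (y * c) * g⁻¹ := by rw [hc]
        _ = (g * y * g⁻¹) * (g * c * g⁻¹) := by group
    have h5 := Subgroup.mem_map_of_mem (MulAut.conj g).toMonoidHom h3
    rw [Subgroup.map_commutator] at h5
    exact Subgroup.commutator_mono h4 h4 h5
  · have e1 : IsConj (g * y * g⁻¹) y := isConj_iff.2 ⟨g⁻¹, by group⟩
    exact e1.trans hyz

lemma exists_mem_of_rk_ne_zero {A : Matrix n n (MonoidAlgebra ℤ G)} {E : Set G}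
    (hE : ∀ i j, ∀ a ∈ (A i j).coeff.support, a ∈ E) {c : ConjClasses G}
    (hc : c ∈ (rk A).support) : ∃ z ∈ E, ConjClasses.mk z = c := by
  classical
  by_contra hcon
  push Not at hcon
  apply Finsupp.mem_support_iff.1 hc
  obtain ⟨x, rfl⟩ := ConjClasses.exists_rep c
  change rkAt x A = 0
  rw [rkAt, AddMonoidHom.comp_apply, Tau_apply, map_sum]
  refine Finset.sum_eq_zero fun i _ => ?_
  rw [evalFn_eq_sum, Finsupp.sum, map_sum]
  refine Finset.sum_eq_zero fun g hg => ?_
  rw [map_zsmul, Finsupp.applyAddHom_apply, Finsupp.single_eq_of_ne, smul_zero]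
  intro h
  exact hcon g (hE i i g hg) h.symm

theorem badIn_of_rk_ne_zero {A : Matrix n n (MonoidAlgebra ℤ G)} (hA : A * A = A) {E : Set G}
    (hE : ∀ i j, ∀ a ∈ (A i j).coeff.support, a ∈ E) {x : G}
    (hx : x ≠ 1) (hr : rkAt x A ≠ 0) : BadIn E x := by
  classical
  have hxS : ConjClasses.mk x ∈ (rk A).support := Finsupp.mem_support_iff.2 hr
  refine ⟨hx, (bad_of_rk_ne_zero hA hx hr).2.2,
    {z | z ∈ E ∧ ConjClasses.mk z ∈ (rk A).support}, fun z hz => hz.1, ?_, ?_⟩
  · obtain ⟨z, hzE, hz⟩ := exists_mem_of_rk_ne_zero hE hxS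
    refine ⟨z, ⟨hzE, by rw [hz]; exact hxS⟩, ?_⟩
    exact ((ConjClasses.mk_eq_mk_iff_isConj).1 hz).symm
  · intro m hm
    have himg := image_support_rk hA m hm
    constructor
    · rintro z ⟨hzE, hz⟩
      have h1 : powC m (ConjClasses.mk z) ∈ (rk A).support := by
        rw [← himg]
        exact Finset.mem_image_of_mem _ hz
      obtain ⟨w, hwE, hw⟩ := exists_mem_of_rk_ne_zero hE h1
      refine ⟨w, ⟨hwE, by rw [hw]; exact h1⟩, ?_⟩
      rw [powC_mk, ConjClasses.mk_eq_mk_iff_isConj] at hw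
      exact hw.symm
    · rintro w ⟨_, hw⟩
      have h1 := hw
      rw [← himg] at h1
      obtain ⟨c, hc, hcw⟩ := Finset.mem_image.1 h1
      obtain ⟨z, hzE, rfl⟩ := exists_mem_of_rk_ne_zero hE hc
      refine ⟨z, ⟨hzE, hc⟩, ?_⟩
      rw [powC_mk, ConjClasses.mk_eq_mk_iff_isConj] at hcw
      exact hcw

/-- A normal subgroup `L` killing the idempotent `A` can be replaced by the subgroup generated
by its bad elements. -/
theorem kills_badIn (L : Subgroup G) [hLn : L.Normal] (A : Matrix n n (MonoidAlgebra ℤ G))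
    (hA : A * A = A) (hK : Kills L A) (E : Set G)
    (hE : ∀ i j, ∀ a ∈ (A i j).coeff.support, a ∈ E) :
    Kills (Subgroup.closure {y : G | y ∈ L ∧ BadIn E y}) A ∧
      (Subgroup.closure {y : G | y ∈ L ∧ BadIn E y}).Normal := by
  classical
  set B := Subgroup.closure {y : G | y ∈ L ∧ BadIn E y} with hB
  have hBn : B.Normal := by
    refine ⟨fun b hb g => ?_⟩
    induction hb using Subgroup.closure_induction with
    | mem y hy => exact Subgroup.subset_closure ⟨hLn.conj_mem y hy.1 g, hy.2.conj g⟩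
    | one => simp
    | mul a b _ _ ha hb =>
      have : g * (a * b) * g⁻¹ = (g * a * g⁻¹) * (g * b * g⁻¹) := by group
      rw [this]
      exact B.mul_mem ha hb
    | inv a _ ha =>
      have : g * a⁻¹ * g⁻¹ = (g * a * g⁻¹)⁻¹ := by group
      rw [this]
      exact B.inv_mem ha
  refine ⟨?_, hBn⟩
  rw [kills_iff_im_eq_zero]
  apply eq_zero_of_trace _ (im_idem _ hA)
  have hBL : B ≤ L := (Subgroup.closure_le _).2 fun y hy => hy.1
  have h1 : ∑ i, (im (QuotientGroup.mk' B) A i i).coeff 1 =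
      Tau (fun g => if g ∈ B then (1 : ℤ) else 0) A := by
    rw [Tau_apply]
    refine Finset.sum_congr rfl fun i _ => ?_
    have h2 : evalFn (fun g => if g ∈ B then (1 : ℤ) else 0) (A i i) =
        ((A i i).coeff.mapDomain (QuotientGroup.mk' B)).sum
          fun c r => r • (if c = 1 then (1 : ℤ) else 0) := by
      rw [Finsupp.sum_mapDomain_index (by simp) (by intro b m₁ m₂; rw [add_smul]), evalFn_eq_sum]
      refine Finsupp.sum_congr fun g _ => ?_
      congr 2
      rw [QuotientGroup.mk'_apply, QuotientGroup.eq_one_iff]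
    rw [h2, im_coeff, Finsupp.sum]
    simp only [smul_eq_mul, mul_ite, mul_one, mul_zero]
    rw [Finset.sum_ite_eq']
    split_ifs with h
    · rfl
    · exact Finsupp.notMem_support_iff.1 h
  rw [h1]
  have h2 := Tau_indicator_of_kills L hK
  have hclass : ∀ x y : G, IsConj x y → ((x ∈ L ∧ x ∉ B) ↔ (y ∈ L ∧ y ∉ B)) := by
    intro x y hxy
    obtain ⟨c, rfl⟩ := isConj_iff.1 hxy
    constructor
    · rintro ⟨h, h'⟩
      refine ⟨hLn.conj_mem x h c, fun h'' => h' ?_⟩
      have := hBn.conj_mem _ h'' c⁻¹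
      have e : c⁻¹ * (c * x * c⁻¹) * c⁻¹⁻¹ = x := by group
      rwa [e] at this
    · rintro ⟨h, h'⟩
      refine ⟨?_, fun h'' => h' (hBn.conj_mem x h'' c)⟩
      have := hLn.conj_mem _ h c⁻¹
      have e : c⁻¹ * (c * x * c⁻¹) * c⁻¹⁻¹ = x := by group
      rwa [e] at this
  let χ : ConjClasses G → ℤ := fun c => if (∃ x, ConjClasses.mk x = c ∧ x ∈ L ∧ x ∉ B) then 1 else 0
  have hχ : ∀ x : G, χ (ConjClasses.mk x) = if (x ∈ L ∧ x ∉ B) then 1 else 0 := by
    intro x
    simp only [χ]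
    by_cases h : x ∈ L ∧ x ∉ B
    · rw [if_pos h, if_pos ⟨x, rfl, h⟩]
    · rw [if_neg h, if_neg]
      rintro ⟨y, hy, hy'⟩
      rw [ConjClasses.mk_eq_mk_iff_isConj] at hy
      exact h ((hclass y x hy).1 hy')
  have h3 : Tau (fun g => χ (ConjClasses.mk g)) A = 0 := by
    rw [Tau_eq_rk, Finsupp.sum]
    refine Finset.sum_eq_zero fun c hc => ?_
    obtain ⟨x, rfl⟩ := ConjClasses.exists_rep c
    have hr : rkAt x A ≠ 0 := by
      rw [rkAt_apply]
      exact Finsupp.mem_support_iff.1 hc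
    have : ¬ (x ∈ L ∧ x ∉ B) := by
      rintro ⟨hxL, hxB⟩
      by_cases hx1 : x = 1
      · rw [hx1] at hxB
        exact hxB B.one_mem
      · exact hxB (Subgroup.subset_closure ⟨hxL, badIn_of_rk_ne_zero hA hE hx1 hr⟩)
    change _ • χ (ConjClasses.mk x) = 0
    rw [hχ, if_neg this, smul_zero]
  have h4 : (fun g => if g ∈ L then (1 : ℤ) else 0) =
      fun g => (if g ∈ B then (1 : ℤ) else 0) + χ (ConjClasses.mk g) := by
    funext g
    rw [hχ]
    by_cases hgL : g ∈ L
    · by_cases hgB : g ∈ B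
      · simp [hgL, hgB]
      · simp [hgL, hgB]
    · have hgB : g ∉ B := fun h => hgL (hBL h)
      simp [hgL, hgB]
  have h5 : ∀ χ₁ χ₂ : G → ℤ, Tau (fun g => χ₁ g + χ₂ g) A = Tau χ₁ A + Tau χ₂ A := by
    intro χ₁ χ₂
    rw [Tau_apply, Tau_apply, Tau_apply, ← Finset.sum_add_distrib]
    refine Finset.sum_congr rfl fun i _ => ?_
    rw [evalFn_eq_sum, evalFn_eq_sum, evalFn_eq_sum, ← Finsupp.sum_add]
    refine Finsupp.sum_congr fun g _ => ?_
    rw [smul_add]
  rw [h4, h5, h3, add_zero] at h2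
  exact h2

end

/-- The condition on a finite set `T` of elements, relative to a set `E`. -/
def Reducible {G : Type u} [Group G] (E T : Set G) : Prop :=
  (∃ p : ℕ, p.Prime ∧ ∀ U : Subgroup G, U ≤ Subgroup.normalClosure T → U.FG → T ⊆ U →
    ∃ φ : U →* Multiplicative (ZMod p), φ ≠ 1) ∨
  (∃ (M : Subgroup G) (_ : M.Normal), M ≤ Subgroup.normalClosure T ∧
    Subgroup.closure {y : G ⧸ M | y ∈ (Subgroup.normalClosure T).map (QuotientGroup.mk' M) ∧
        BadIn ((QuotientGroup.mk' M) '' E) y} ≠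
      (Subgroup.normalClosure T).map (QuotientGroup.mk' M))

/-- Core theorem, finitary form. -/
theorem eq_zero_of_kills' {G : Type u} [Group G] {n : Type*} [Fintype n] [DecidableEq n]
    (K : Subgroup G) [hKn : K.Normal] (A : Matrix n n (MonoidAlgebra ℤ G)) (S : Set G)
    (hS : ∀ i j, ∀ a ∈ (A i j).coeff.support, a ∈ S)
    (hyp : ∀ T : Set G, T.Finite → (∀ y ∈ T, ∃ a ∈ S, ∃ b ∈ S, y = a⁻¹ * b) →
      Subgroup.normalClosure T ≤ K → Subgroup.normalClosure T ≠ ⊥ → Reducible S T)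
    (hA : A * A = A) (hK : Kills K A) : A = 0 := by
  classical
  obtain ⟨T, hTfin, hTS, hTK, hN, hmin⟩ := exists_minimal' S hS K hK
  by_cases hbot : Subgroup.normalClosure T = ⊥
  · rw [hbot] at hN
    exact hN.eq_zero
  exfalso
  have hNn : (Subgroup.normalClosure T).Normal := Subgroup.normalClosure_normal
  rcases hyp T hTfin hTS hTK hbot with ⟨p, hp, hU⟩ | ⟨M, hMn, hMN, hB⟩
  · have : Fact p.Prime := ⟨hp⟩
    have h1 := kills_pcore p (Subgroup.normalClosure T) A hA hN
    have h3 := hmin _ (pcore_normal p _) (pcore_le p _) h1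
    obtain ⟨U, hU1, hU2, hU3, hU4⟩ := exists_finset_pcore (p := p)
      (N := Subgroup.normalClosure T) hTfin.toFinset (by
        intro x hx
        rw [h3]
        exact Subgroup.subset_normalClosure (hTfin.mem_toFinset.1 hx))
    obtain ⟨φ, hφ⟩ := hU U hU1 hU2 fun x hx => hU4 x (hTfin.mem_toFinset.2 hx)
    exact hφ (hU3 φ)
  · have hLn : ((Subgroup.normalClosure T).map (QuotientGroup.mk' M)).Normal :=
      Subgroup.Normal.map hNn _ (QuotientGroup.mk'_surjective M)
    have hE : ∀ i j, ∀ a ∈ (im (QuotientGroup.mk' M) A i j).coeff.support,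
        a ∈ (QuotientGroup.mk' M) '' S := by
      intro i j a ha
      rw [im_coeff] at ha
      obtain ⟨b, hb, rfl⟩ := Finset.mem_image.1 (Finsupp.mapDomain_support ha)
      exact ⟨b, hS i j b hb, rfl⟩
    obtain ⟨h1, h2⟩ := kills_badIn ((Subgroup.normalClosure T).map (QuotientGroup.mk' M))
      (im (QuotientGroup.mk' M) A)
      (im_idem _ hA) (kills_im _ _ _ (Subgroup.le_comap_map _ _) hN) _ hE
    set B := Subgroup.closure {y : G ⧸ M |
      y ∈ (Subgroup.normalClosure T).map (QuotientGroup.mk' M) ∧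
        BadIn ((QuotientGroup.mk' M) '' S) y} with hBdef
    rw [kills_comap_iff] at h1
    have h3 : B ≤ (Subgroup.normalClosure T).map (QuotientGroup.mk' M) :=
      (Subgroup.closure_le _).2 fun y hy => hy.1
    have h4 : B.comap (QuotientGroup.mk' M) ≤ Subgroup.normalClosure T := by
      intro x hx
      have h5 := h3 hx
      obtain ⟨y, hy, hyx⟩ := h5
      rw [QuotientGroup.mk'_apply, QuotientGroup.mk'_apply, QuotientGroup.eq] at hyx
      have h6 := (Subgroup.normalClosure T).mul_mem hy (hMN hyx)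
      rwa [mul_inv_cancel_left] at h6
    have h5 := hmin _ (h2.comap _) h4 h1
    apply hB
    rw [← h5, Subgroup.map_comap_eq_self_of_surjective (QuotientGroup.mk'_surjective M)]

/-- Transfer with control on the support. -/
theorem transfer' {G : Type*} [Group G] {H : Type*} [Group H] {n : Type*} [Fintype n]
    [DecidableEq n] (A : Matrix n n (MonoidAlgebra ℤ G)) (hA : A * A = A)
    (hK : Kills (⊤ : Subgroup G) A) (S : Finset G)
    (hS : ∀ i j, (A i j).coeff.support ⊆ S) (φ : G → H) (hinj : Set.InjOn φ S)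
    (hφ : ∀ a ∈ S, ∀ b ∈ S, φ (a * b) = φ a * φ b) :
    ∃ A' : Matrix n n (MonoidAlgebra ℤ H), A' * A' = A' ∧ Kills (⊤ : Subgroup H) A' ∧
      (∀ i j, ∀ a ∈ (A' i j).coeff.support, a ∈ φ '' S) ∧ (A' = 0 → A = 0) := by
  classical
  let F : MonoidAlgebra ℤ G →+ MonoidAlgebra ℤ H :=
    { toFun := MonoidAlgebra.mapDomain φ
      map_zero' := MonoidAlgebra.mapDomain_zero φ
      map_add' := MonoidAlgebra.mapDomain_add φ }
  have hFc : ∀ x, (F x).coeff = x.coeff.mapDomain φ := fun x => rfl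
  refine ⟨A.map F, ?_, ?_, ?_, ?_⟩
  · refine Matrix.ext fun i j => ?_
    have h1 : (A * A) i j = A i j := by rw [hA]
    rw [Matrix.map_apply, ← h1, Matrix.mul_apply, Matrix.mul_apply, map_sum]
    refine Finset.sum_congr rfl fun l _ => ?_
    rw [Matrix.map_apply, Matrix.map_apply]
    exact (mapDomain_mul_of_on φ S hφ (A i l) (A l j) (hS i l) (hS l j)).symm
  · intro i j
    rw [Matrix.map_apply, hFc, ← Finsupp.mapDomain_comp]
    refine mapDomain_eq_zero_of_fiber (QuotientGroup.mk : G → G ⧸ (⊤ : Subgroup G)) _ _ ?_ (hK i j)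
    intro a _ b _ _
    simp only [Function.comp]
    rw [QuotientGroup.eq]
    exact Subgroup.mem_top _
  · intro i j a ha
    rw [Matrix.map_apply, hFc] at ha
    obtain ⟨b, hb, rfl⟩ := Finset.mem_image.1 (Finsupp.mapDomain_support ha)
    exact ⟨b, hS i j hb, rfl⟩
  · intro h
    have h1 : KillsF φ A := by
      intro i j
      have := congrFun (congrFun h i) j
      rw [Matrix.map_apply] at this
      rw [← hFc, this]
      rfl
    have h2 : KillsF (id : G → G) A := h1.of_fiber fun i j a ha b hb hab =>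
      hinj (hS i j ha) (hS i j hb) hab
    refine Matrix.ext fun i j => ?_
    have h3 := h2 i j
    rw [Finsupp.mapDomain_id] at h3
    apply MonoidAlgebra.ext
    rw [h3]
    rfl

/-- The main theorem. -/
theorem npp_main {G : Type u} [Group G]
    (hG : ∀ S : Finset G, ∃ (H : Type u) (_ : Group H) (K : Subgroup H) (_ : K.Normal) (φ : G → H),
      Set.InjOn φ S ∧ (∀ a ∈ S, ∀ b ∈ S, φ (a * b) = φ a * φ b) ∧ NPP (H ⧸ K) ∧
      ∀ T : Set H, T.Finite → (∀ y ∈ T, ∃ a ∈ S, ∃ b ∈ S, y = (φ a)⁻¹ * φ b) →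
        Subgroup.normalClosure T ≤ K → Subgroup.normalClosure T ≠ ⊥ → Reducible (φ '' S) T) :
    NPP G := by
  classical
  apply NPP.of_matrix
  intro m A hA hK
  let S : Finset G := Finset.univ.biUnion fun ij : Fin m × Fin m => (A ij.1 ij.2).coeff.support
  have hS : ∀ i j, (A i j).coeff.support ⊆ S := fun i j a ha =>
    Finset.mem_biUnion.2 ⟨(i, j), Finset.mem_univ _, ha⟩
  obtain ⟨H, _, K, _, φ, hinj, hφ, hN, hgood⟩ := hG S
  obtain ⟨A', hA', hK', hsupp, h0⟩ := transfer' A hA hK S hS φ hinj hφ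
  apply h0
  apply eq_zero_of_kills' K A' (φ '' S) hsupp _ hA'
  · rw [kills_iff_im_eq_zero]
    exact hN.matrix _ (im_idem _ hA') (kills_im _ ⊤ ⊤ le_top hK')
  · intro T hT1 hT2 hT3 hT4
    refine hgood T hT1 ?_ hT3 hT4
    intro y hy
    obtain ⟨_, ⟨a, ha, rfl⟩, _, ⟨b, hb, rfl⟩, h⟩ := hT2 y hy
    exact ⟨a, ha, b, hb, h⟩

end

end Pool.Agent.H677_Perf
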