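import Pool.Agent.H677_Perf.Final

set_option autoImplicit false
set_option linter.unusedSectionVars false

universe u

namespace Pool.Agent.H677_Perf

noncomputable section

section

variable {G : Type*} [Group G] {n : Type*} [Fintype n] [DecidableEq n]

lemma Tau_add_fun (χ₁ χ₂ : G → ℤ) (A : Matrix n n (MonoidAlgebra ℤ G)) :
    Tau (χ₁ + χ₂) A = Tau χ₁ A + Tau χ₂ A := by
  rw [Tau_apply, Tau_apply, Tau_apply, ← Finset.sum_add_distrib]
  refine Finset.sum_congr rfl fun i _ => ?_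
  rw [evalFn_eq_sum, evalFn_eq_sum, evalFn_eq_sum, ← Finsupp.sum_add]
  refine Finsupp.sum_congr fun g _ => ?_
  rw [Pi.add_apply, smul_add]

lemma Tau_zero_fun (A : Matrix n n (MonoidAlgebra ℤ G)) : Tau (0 : G → ℤ) A = 0 := by
  have h := Tau_add_fun (0 : G → ℤ) 0 A
  rw [add_zero] at h
  exact left_eq_add.1 h

lemma Tau_neg_fun (χ : G → ℤ) (A : Matrix n n (MonoidAlgebra ℤ G)) :
    Tau (-χ) A = - Tau χ A := by
  have h := Tau_add_fun χ (-χ) A
  rw [add_neg_cancel, Tau_zero_fun] at h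
  exact (neg_eq_of_add_eq_zero_right h.symm).symm

/-- A function constant on the cosets of a subgroup killing `A` has trace zero on `A`. -/
lemma Tau_periodic {R : Subgroup G} {A : Matrix n n (MonoidAlgebra ℤ G)} (hA : Kills R A)
    (χ : G → ℤ) (hχ : ∀ g, ∀ r ∈ R, χ (g * r) = χ g) : Tau χ A = 0 := by
  rw [Tau_apply]
  refine Finset.sum_eq_zero fun i _ => ?_
  have h2 : evalFn χ (A i i) =
      ((A i i).coeff.mapDomain (QuotientGroup.mk : G → G ⧸ R)).sum
        fun c r => r • χ (Quotient.out c) := by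
    rw [Finsupp.sum_mapDomain_index (by simp) (by intro b m₁ m₂; rw [add_smul]), evalFn_eq_sum]
    refine Finsupp.sum_congr fun g _ => ?_
    congr 1
    obtain ⟨r, hr⟩ := QuotientGroup.mk_out_eq_mul R g
    rw [hr, hχ g r r.2]
  rw [h2, hA i i, Finsupp.sum_zero_index]

/-- The class functions whose trace on `A` is known to vanish. -/
def TrivFun (𝓡 : Set (Subgroup G)) : AddSubgroup (G → ℤ) :=
  AddSubgroup.closure {χ : G → ℤ | (∀ a b, χ (a * b) = χ (b * a)) ∧
    ∃ R ∈ 𝓡, ∀ g, ∀ r ∈ R, χ (g * r) = χ g}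

lemma TrivFun.class_fun {𝓡 : Set (Subgroup G)} {χ : G → ℤ} (hχ : χ ∈ TrivFun 𝓡) :
    ∀ a b, χ (a * b) = χ (b * a) := by
  induction hχ using AddSubgroup.closure_induction with
  | mem χ h => exact h.1
  | zero => intro a b; rfl
  | add χ χ' _ _ h h' => intro a b; rw [Pi.add_apply, Pi.add_apply, h, h']
  | neg χ _ h => intro a b; rw [Pi.neg_apply, Pi.neg_apply, h]

lemma TrivFun.tau_eq_zero {𝓡 : Set (Subgroup G)} {A : Matrix n n (MonoidAlgebra ℤ G)}
    (h𝓡 : ∀ R ∈ 𝓡, Kills R A) {χ : G → ℤ} (hχ : χ ∈ TrivFun 𝓡) : Tau χ A = 0 := by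
  induction hχ using AddSubgroup.closure_induction with
  | mem χ h =>
    obtain ⟨_, R, hR, hper⟩ := h
    exact Tau_periodic (h𝓡 R hR) χ hper
  | zero => exact Tau_zero_fun A
  | add χ χ' _ _ h h' => rw [Tau_add_fun, h, h', add_zero]
  | neg χ _ h => rw [Tau_neg_fun, h, neg_zero]

/-- If a combination of class functions with vanishing trace agrees with the indicator function
of a normal subgroup `B` at the identity and at the exceptional elements, then `B` kills `A`. -/
theorem kills_of_trivFun (B : Subgroup G) [hBn : B.Normal] (A : Matrix n n (MonoidAlgebra ℤ G))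
    (hA : A * A = A) (𝓡 : Set (Subgroup G)) (h𝓡 : ∀ R ∈ 𝓡, Kills R A) (E : Set G)
    (hE : ∀ i j, ∀ a ∈ (A i j).coeff.support, a ∈ E) (χ : G → ℤ) (hχ : χ ∈ TrivFun 𝓡)
    (hχ1 : χ 1 = 1) (hχB : ∀ y, BadIn E y → y ∈ B → χ y = 1)
    (hχB' : ∀ y, BadIn E y → y ∉ B → χ y = 0) : Kills B A := by
  classical
  rw [kills_iff_im_eq_zero]
  apply eq_zero_of_trace _ (im_idem _ hA)
  have h1 : ∑ i, (im (QuotientGroup.mk' B) A i i).coeff 1 =
      Tau (fun g => if g ∈ B then (1 : ℤ) else 0) A := by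
    rw [Tau_apply]
    refine Finset.sum_congr rfl fun i _ => ?_
    have h2 : evalFn (fun g => if g ∈ B then (1 : ℤ) else 0) (A i i) =
        ((A i i).coeff.mapDomain (QuotientGroup.mk' B)).sum
          fun c r => r • (if c = 1 then (1 : ℤ) else 0) := by
      rw [Finsupp.sum_mapDomain_index (by simp) (by intro b m₁ m₂; rw [add_smul]), evalFn_eq_sum]
      refine Finsupp.sum_congr fun g _ => ?_
      congr 2
      rw [QuotientGroup.mk'_apply, QuotientGroup.eq_one_iff]
    rw [h2, im_coeff, Finsupp.sum]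
    simp only [smul_eq_mul, mul_ite, mul_one, mul_zero]
    rw [Finset.sum_ite_eq']
    split_ifs with h
    · rfl
    · exact Finsupp.notMem_support_iff.1 h
  rw [h1]
  have hcl := TrivFun.class_fun hχ
  have hBmem : ∀ a b : G, a * b ∈ B ↔ b * a ∈ B := fun a b => hBn.mem_comm_iff
  let d : G → ℤ := (fun g => if g ∈ B then (1 : ℤ) else 0) + (-χ)
  have hd : ∀ a b, d (a * b) = d (b * a) := by
    intro a b
    simp only [d, Pi.add_apply, Pi.neg_apply, hcl a b, hBmem a b]
  have hdconj : ∀ a b, IsConj a b → d a = d b := by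
    intro a b hab
    obtain ⟨c, rfl⟩ := isConj_iff.1 hab
    rw [hd (c * a) c⁻¹]
    congr 1
    group
  let D : ConjClasses G → ℤ := Quotient.lift d hdconj
  have hD : ∀ x, D (ConjClasses.mk x) = d x := fun x => rfl
  have h3 : Tau d A = 0 := by
    have : d = fun g => D (ConjClasses.mk g) := rfl
    rw [this, Tau_eq_rk, Finsupp.sum]
    refine Finset.sum_eq_zero fun c hc => ?_
    obtain ⟨x, rfl⟩ := ConjClasses.exists_rep c
    have hr : rkAt x A ≠ 0 := by
      rw [rkAt_apply]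
      exact Finsupp.mem_support_iff.1 hc
    change _ • D (ConjClasses.mk x) = 0
    rw [hD]
    have : d x = 0 := by
      simp only [d, Pi.add_apply, Pi.neg_apply]
      by_cases hx1 : x = 1
      · rw [hx1, hχ1, if_pos B.one_mem]
        norm_num
      · have hb := badIn_of_rk_ne_zero hA hE hx1 hr
        by_cases hxB : x ∈ B
        · rw [if_pos hxB, hχB x hb hxB]
          norm_num
        · rw [if_neg hxB, hχB' x hb hxB]
          norm_num
    rw [this, smul_zero]
  have h4 : Tau d A = Tau (fun g => if g ∈ B then (1 : ℤ) else 0) A + Tau (-χ) A :=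
    Tau_add_fun _ _ A
  rw [Tau_neg_fun, TrivFun.tau_eq_zero h𝓡 hχ, neg_zero, add_zero] at h4
  rw [← h4, h3]

end

/-- The condition on a finite set `T` of elements, relative to a set `E`. -/
def Reducible2 {G : Type u} [Group G] (E T : Set G) : Prop :=
  (∃ p : ℕ, p.Prime ∧ ∀ U : Subgroup G, U ≤ Subgroup.normalClosure T → U.FG → T ⊆ U →
    ∃ φ : U →* Multiplicative (ZMod p), φ ≠ 1) ∨
  (∃ (M : Subgroup G) (_ : M.Normal) (B : Subgroup (G ⧸ M)) (_ : B.Normal),
    M ≤ Subgroup.normalClosure T ∧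
    B < (Subgroup.normalClosure T).map (QuotientGroup.mk' M) ∧
    ∃ χ ∈ TrivFun {R : Subgroup (G ⧸ M) | ∃ _ : R.Normal,
        (Subgroup.normalClosure T).map (QuotientGroup.mk' M) ≤ R ∨ NPP ((G ⧸ M) ⧸ R)},
      χ 1 = 1 ∧ ∀ y, BadIn ((QuotientGroup.mk' M) '' E) y →
        (y ∈ B → χ y = 1) ∧ (y ∉ B → χ y = 0))

/-- Core theorem, finitary form. -/
theorem eq_zero_of_kills2 {G : Type u} [Group G] {n : Type} [Fintype n] [DecidableEq n]
    (K : Subgroup G) [hKn : K.Normal] (A : Matrix n n (MonoidAlgebra ℤ G)) (S : Set G)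
    (hS : ∀ i j, ∀ a ∈ (A i j).coeff.support, a ∈ S)
    (hyp : ∀ T : Set G, T.Finite → (∀ y ∈ T, ∃ a ∈ S, ∃ b ∈ S, y = a⁻¹ * b) →
      Subgroup.normalClosure T ≤ K → Subgroup.normalClosure T ≠ ⊥ → Reducible2 S T)
    (hA : A * A = A) (hK : Kills K A) : A = 0 := by
  classical
  obtain ⟨T, hTfin, hTS, hTK, hN, hmin⟩ := exists_minimal' S hS K hK
  by_cases hbot : Subgroup.normalClosure T = ⊥
  · rw [hbot] at hN
    exact hN.eq_zero
  exfalso
  have hNn : (Subgroup.normalClosure T).Normal := Subgroup.normalClosure_normal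
  rcases hyp T hTfin hTS hTK hbot with ⟨p, hp, hU⟩ | ⟨M, hMn, B, hBn, hMN, hB, χ, hχ, hχ1, hχB⟩
  · have : Fact p.Prime := ⟨hp⟩
    have h1 := kills_pcore p (Subgroup.normalClosure T) A hA hN
    have h3 := hmin _ (pcore_normal p _) (pcore_le p _) h1
    obtain ⟨U, hU1, hU2, hU3, hU4⟩ := exists_finset_pcore (p := p)
      (N := Subgroup.normalClosure T) hTfin.toFinset (by
        intro x hx
        rw [h3]
        exact Subgroup.subset_normalClosure (hTfin.mem_toFinset.1 hx))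
    obtain ⟨φ, hφ⟩ := hU U hU1 hU2 fun x hx => hU4 x (hTfin.mem_toFinset.2 hx)
    exact hφ (hU3 φ)
  · set A' := im (QuotientGroup.mk' M) A with hA'def
    have hA' : A' * A' = A' := im_idem _ hA
    have hE : ∀ i j, ∀ a ∈ (A' i j).coeff.support, a ∈ (QuotientGroup.mk' M) '' S := by
      intro i j a ha
      rw [hA'def, im_coeff] at ha
      obtain ⟨b, hb, rfl⟩ := Finset.mem_image.1 (Finsupp.mapDomain_support ha)
      exact ⟨b, hS i j b hb, rfl⟩
    have hKN : Kills ((Subgroup.normalClosure T).map (QuotientGroup.mk' M)) A' :=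
      kills_im _ _ _ (Subgroup.le_comap_map _ _) hN
    have h1 : Kills B A' := by
      refine kills_of_trivFun B A' hA' _ ?_ _ hE χ hχ hχ1 (fun y hy => (hχB y hy).1)
        (fun y hy => (hχB y hy).2)
      rintro R ⟨hRn, hR | hR⟩
      · exact hKN.mono hR
      · rw [kills_iff_im_eq_zero]
        exact hR.matrix _ (im_idem _ hA') (kills_im _ ⊤ ⊤ le_top (hKN.mono le_top))
    rw [hA'def, kills_comap_iff] at h1
    have h4 : B.comap (QuotientGroup.mk' M) ≤ Subgroup.normalClosure T := by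
      intro x hx
      obtain ⟨y, hy, hyx⟩ := hB.le hx
      rw [QuotientGroup.mk'_apply, QuotientGroup.mk'_apply, QuotientGroup.eq] at hyx
      have h6 := (Subgroup.normalClosure T).mul_mem hy (hMN hyx)
      rwa [mul_inv_cancel_left] at h6
    have h5 := hmin _ (hBn.comap _) h4 h1
    apply hB.ne
    rw [← h5, Subgroup.map_comap_eq_self_of_surjective (QuotientGroup.mk'_surjective M)]

/-- The main theorem. -/
theorem npp_main2 {G : Type u} [Group G]
    (hG : ∀ S : Finset G, ∃ (H : Type u) (_ : Group H) (K : Subgroup H) (_ : K.Normal) (φ : G → H),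
      Set.InjOn φ S ∧ (∀ a ∈ S, ∀ b ∈ S, φ (a * b) = φ a * φ b) ∧ NPP (H ⧸ K) ∧
      ∀ T : Set H, T.Finite → (∀ y ∈ T, ∃ a ∈ S, ∃ b ∈ S, y = (φ a)⁻¹ * φ b) →
        Subgroup.normalClosure T ≤ K → Subgroup.normalClosure T ≠ ⊥ → Reducible2 (φ '' S) T) :
    NPP G := by
  classical
  apply NPP.of_matrix
  intro m A hA hK
  let S : Finset G := Finset.univ.biUnion fun ij : Fin m × Fin m => (A ij.1 ij.2).coeff.support
  have hS : ∀ i j, (A i j).coeff.support ⊆ S := fun i j a ha =>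
    Finset.mem_biUnion.2 ⟨(i, j), Finset.mem_univ _, ha⟩
  obtain ⟨H, _, K, _, φ, hinj, hφ, hN, hgood⟩ := hG S
  obtain ⟨A', hA', hK', hsupp, h0⟩ := transfer' A hA hK S hS φ hinj hφ
  apply h0
  apply eq_zero_of_kills2 K A' (φ '' S) hsupp _ hA'
  · rw [kills_iff_im_eq_zero]
    exact hN.matrix _ (im_idem _ hA') (kills_im _ ⊤ ⊤ le_top hK')
  · intro T hT1 hT2 hT3 hT4
    refine hgood T hT1 ?_ hT3 hT4
    intro y hy
    obtain ⟨_, ⟨a, ha, rfl⟩, _, ⟨b, hb, rfl⟩, h⟩ := hT2 y hy
    exact ⟨a, ha, b, hb, h⟩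

end

end Pool.Agent.H677_Perf
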