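import Pool.Agent.H677_Perf.Main

set_option autoImplicit false
set_option linter.unusedSectionVars false

universe u

namespace Pool.Agent.H677_Perf

noncomputable section

/-- a system of representatives of the right cosets of `V` -/
structure Transv {G : Type u} [Group G] (V : Subgroup G) (m : ℕ) where
  /-- the representatives -/
  t : Fin m → G
  /-- the index of the coset -/
  j : G → Fin m
  /-- the element of the subgroup -/
  c : G → V
  hc : ∀ h, (c h : G) * t (j h) = h
  hj : ∀ (v : V) (r : Fin m), j (v * t r) = r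

theorem exists_transv {G : Type u} [Group G] (V : Subgroup G) [hV : V.FiniteIndex] :
    ∃ m : ℕ, Nonempty (Transv V m) := by
  classical
  have hfin : Finite (G ⧸ V) := inferInstance
  let e := Finite.equivFin (G ⧸ V)
  refine ⟨Nat.card (G ⧸ V), ⟨?_⟩⟩
  have h1 : ∀ h : G, ∃ v : V, h * Quotient.out (QuotientGroup.mk h⁻¹ : G ⧸ V) = v := by
    intro h
    obtain ⟨v, hv⟩ := QuotientGroup.mk_out_eq_mul V h⁻¹
    refine ⟨v, ?_⟩
    rw [hv, mul_inv_cancel_left]
  choose c hc using h1
  refine
    { t := fun r => (Quotient.out (e.symm r))⁻¹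
      j := fun h => e (QuotientGroup.mk h⁻¹)
      c := c
      hc := ?_
      hj := ?_ }
  · intro h
    rw [Equiv.symm_apply_apply, ← hc h, mul_inv_cancel_right]
  · intro v r
    rw [← Equiv.eq_symm_apply]
    conv_rhs => rw [← QuotientGroup.out_eq' (e.symm r)]
    rw [QuotientGroup.eq]
    simp

namespace Transv

variable {G : Type u} [Group G] {V : Subgroup G} {m : ℕ} (T : Transv V m)

lemma c_eq (v : V) (r : Fin m) : T.c (v * T.t r) = v := by
  have h := T.hc (v * T.t r)
  rw [T.hj] at h
  exact Subtype.ext (mul_right_cancel h)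

lemma j_eq (v : V) (h : G) : T.j (v * h) = T.j h := by
  conv_lhs => rw [← T.hc h, ← mul_assoc, ← Subgroup.coe_mul]
  rw [T.hj]

lemma c_mul (v : V) (h : G) : T.c (v * h) = v * T.c h := by
  conv_lhs => rw [← T.hc h, ← mul_assoc, ← Subgroup.coe_mul]
  rw [T.c_eq]

lemma eq_iff (s r : Fin m) (v : V) (h : G) :
    (T.j (T.t s * h) = r ∧ T.c (T.t s * h) = v) ↔ h = (T.t s)⁻¹ * v * T.t r := by
  constructor
  · rintro ⟨h1, h2⟩
    have h3 := T.hc (T.t s * h)
    rw [h1, h2] at h3
    rw [mul_assoc, h3, inv_mul_cancel_left]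
  · rintro rfl
    have : T.t s * ((T.t s)⁻¹ * v * T.t r) = v * T.t r := by group
    rw [this]
    exact ⟨T.hj v r, T.c_eq v r⟩

/-- the monomial representation -/
def rep : G →* Matrix (Fin m) (Fin m) (MonoidAlgebra ℤ V) where
  toFun h := fun s r => if T.j (T.t s * h) = r then MonoidAlgebra.single (T.c (T.t s * h)) 1 else 0
  map_one' := by
    refine Matrix.ext fun s r => ?_
    have h1 : T.t s * 1 = ((1 : V) : G) * T.t s := by simp
    rw [h1, T.hj, T.c_eq, Matrix.one_apply]
    rfl
  map_mul' h h' := by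
    refine Matrix.ext fun s r => ?_
    rw [Matrix.mul_apply]
    rw [Finset.sum_eq_single (T.j (T.t s * h))]
    · rw [if_pos rfl]
      have h1 : T.t s * (h * h') = (T.c (T.t s * h) : G) * (T.t (T.j (T.t s * h)) * h') := by
        rw [← mul_assoc, ← mul_assoc, T.hc]
      rw [h1, T.j_eq, T.c_mul]
      split_ifs with h2
      · rw [MonoidAlgebra.single_mul_single, one_mul]
      · rw [mul_zero]
    · intro q _ hq
      rw [if_neg (Ne.symm hq), zero_mul]
    · intro h
      exact absurd (Finset.mem_univ _) h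

/-- the ring homomorphism extending the monomial representation -/
def ringRep : MonoidAlgebra ℤ G →+* Matrix (Fin m) (Fin m) (MonoidAlgebra ℤ V) :=
  (MonoidAlgebra.lift ℤ (Matrix (Fin m) (Fin m) (MonoidAlgebra ℤ V)) G T.rep).toRingHom

lemma ringRep_single (h : G) (a : ℤ) :
    T.ringRep (MonoidAlgebra.single h a) = a • T.rep h := by
  change MonoidAlgebra.lift ℤ _ G T.rep (MonoidAlgebra.single h a) = _
  rw [MonoidAlgebra.lift_single]

lemma ringRep_coeff (x : MonoidAlgebra ℤ G) (s r : Fin m) (v : V) :
    (T.ringRep x s r).coeff v = x.coeff ((T.t s)⁻¹ * v * T.t r) := by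
  classical
  induction x using MonoidAlgebra.induction_linear with
  | zero => simp
  | add x y hx hy =>
    rw [map_add, Matrix.add_apply, MonoidAlgebra.coeff_add, MonoidAlgebra.coeff_add,
      Finsupp.add_apply, Finsupp.add_apply, hx, hy]
  | single h a =>
    rw [ringRep_single, Matrix.smul_apply, MonoidAlgebra.coeff_smul, Finsupp.smul_apply]
    change a • ((if T.j (T.t s * h) = r then MonoidAlgebra.single (T.c (T.t s * h)) (1 : ℤ)
      else 0 : MonoidAlgebra ℤ V).coeff v) = _
    rw [MonoidAlgebra.coeff_single, Finsupp.single_apply]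
    have key := T.eq_iff s r v h
    by_cases hj : T.j (T.t s * h) = r
    · rw [if_pos hj, MonoidAlgebra.coeff_single, Finsupp.single_apply]
      by_cases hcv : T.c (T.t s * h) = v
      · rw [if_pos hcv, if_pos (key.1 ⟨hj, hcv⟩)]
        simp
      · rw [if_neg hcv, if_neg fun h' => hcv (key.2 h').2]
        simp
    · rw [if_neg hj, if_neg fun h' => hj (key.2 h').1]
      simp

end Transv

variable {G : Type u} [Group G] {n : Type*} [Fintype n] [DecidableEq n]

lemma evalFn_eq_zero_of_kills {R : Subgroup G} {A : Matrix n n (MonoidAlgebra ℤ G)}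
    (hA : Kills R A) (χ : G → ℤ) (hχ : ∀ g, ∀ r ∈ R, χ (g * r) = χ g) (i j : n) :
    evalFn χ (A i j) = 0 := by
  have h2 : evalFn χ (A i j) =
      ((A i j).coeff.mapDomain (QuotientGroup.mk : G → G ⧸ R)).sum
        fun c r => r • χ (Quotient.out c) := by
    rw [Finsupp.sum_mapDomain_index (by simp) (by intro b m₁ m₂; rw [add_smul]), evalFn_eq_sum]
    refine Finsupp.sum_congr fun g _ => ?_
    congr 1
    obtain ⟨r, hr⟩ := QuotientGroup.mk_out_eq_mul R g
    rw [hr, hχ g r r.2]
  rw [h2, hA i j, Finsupp.sum_zero_index]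

/-- A normal subgroup contained in a subgroup of finite index without perfect projectives
kills only the zero idempotent. -/
theorem eq_zero_of_finiteIndex {n : Type} [Fintype n] [DecidableEq n]
    (N : Subgroup G) [hN : N.Normal] (V : Subgroup G) [V.FiniteIndex] (hNV : N ≤ V)
    (hV : NPP V) (A : Matrix n n (MonoidAlgebra ℤ G)) (hA : A * A = A) (hK : Kills N A) :
    A = 0 := by
  classical
  obtain ⟨m, ⟨T⟩⟩ := exists_transv V
  let A' : Matrix (n × Fin m) (n × Fin m) (MonoidAlgebra ℤ V) :=
    Matrix.compRingEquiv n (Fin m) (MonoidAlgebra ℤ V) (A.map T.ringRep)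
  have hA'e : ∀ i s j r, A' (i, s) (j, r) = T.ringRep (A i j) s r := fun i s j r => rfl
  have hA' : A' * A' = A' := by
    simp only [A']
    rw [← map_mul, ← Matrix.map_mul, hA]
  have hK' : Kills (⊤ : Subgroup V) A' := by
    rw [kills_top_iff]
    rintro ⟨i, s⟩ ⟨j, r⟩
    rw [hA'e]
    apply MonoidAlgebra.ext
    have h1 : ∀ x : MonoidAlgebra ℤ G, (epsU V (T.ringRep x s r)).coeff =
        Finsupp.single () (evalFn (fun h => if T.j (T.t s * h) = r then (1 : ℤ) else 0) x) := by
      intro x
      induction x using MonoidAlgebra.induction_linear with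
      | zero => simp
      | add x y hx hy =>
        rw [map_add, Matrix.add_apply, map_add, map_add, MonoidAlgebra.coeff_add, hx, hy,
          Finsupp.single_add]
      | single h a =>
        rw [T.ringRep_single, Matrix.smul_apply, map_zsmul, evalFn_single]
        change (a • epsU V (if T.j (T.t s * h) = r then
          MonoidAlgebra.single (T.c (T.t s * h)) (1 : ℤ) else 0)).coeff = _
        by_cases hj : T.j (T.t s * h) = r
        · rw [if_pos hj, if_pos hj]
          unfold epsU
          rw [MonoidAlgebra.mapDomainRingHom_apply, MonoidAlgebra.mapDomain_single,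
            MonoidAlgebra.coeff_smul, MonoidAlgebra.coeff_single, Finsupp.smul_single]
        · rw [if_neg hj, if_neg hj]
          simp
    rw [h1, evalFn_eq_zero_of_kills hK]
    · simp
    · intro g x hx
      have h2 : T.t s * (g * x) = ((⟨(T.t s * g) * x * (T.t s * g)⁻¹,
          hNV (hN.conj_mem x hx _)⟩ : V) : G) * (T.t s * g) := by
        simp only []
        group
      rw [h2, T.j_eq]
  have h0 := hV.matrix A' hA' hK'
  refine Matrix.ext fun i j => ?_
  apply MonoidAlgebra.ext
  ext h
  by_cases hm : m = 0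
  · subst hm
    exact (T.j 1).elim0
  · have s : Fin m := ⟨0, Nat.pos_of_ne_zero hm⟩
    have h1 := T.ringRep_coeff (A i j) s (T.j (T.t s * h)) (T.c (T.t s * h))
    rw [← hA'e, h0] at h1
    rw [← (T.eq_iff s _ _ h).1 ⟨rfl, rfl⟩] at h1
    rw [← h1]
    rfl

end

end Pool.Agent.H677_Perf
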