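import Pool.Agent.H677_Perf.Trace

set_option autoImplicit false
set_option linter.unusedSectionVars false

namespace Pool.Agent.H677_Perf

noncomputable section

variable {G : Type*} [Group G] {n : Type*} [Fintype n] [DecidableEq n]

/-- multiply the entries in positions `j` and `j + 1` of a list -/
def mergeAt : ℕ → List G → List G
  | 0, a :: b :: l => (a * b) :: l
  | j + 1, a :: l => a :: mergeAt j l
  | _, l => l

@[simp] lemma mergeAt_zero_cons (a b : G) (l : List G) :
    mergeAt 0 (a :: b :: l) = (a * b) :: l := rfl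

@[simp] lemma mergeAt_succ_cons (j : ℕ) (a : G) (l : List G) :
    mergeAt (j + 1) (a :: l) = a :: mergeAt j l := by
  cases l <;> rfl

lemma mergeAt_getD (j : ℕ) (l : List G) (hj : j + 1 < l.length) (i : ℕ) :
    (mergeAt j l).getD i 1 = if i < j then l.getD i 1 else
      if i = j then l.getD i 1 * l.getD (i + 1) 1 else l.getD (i + 1) 1 := by
  induction j generalizing l i with
  | zero =>
    match l, hj with
    | a :: b :: l, _ =>
      cases i with
      | zero => simp
      | succ i => simp
  | succ j ih =>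
    match l, hj with
    | a :: l, hj =>
      rw [mergeAt_succ_cons]
      cases i with
      | zero => simp
      | succ i =>
        rw [List.getD_cons_succ, ih l (by simpa using hj) i]
        simp only [List.getD_cons_succ, Nat.add_lt_add_iff_right, Nat.add_right_cancel_iff]

section

variable [DecidableEq G] (A : Matrix n n (MonoidAlgebra ℤ G))

/-- the rational coefficient matrix -/
def cq (g : G) : Matrix n n ℚ := (cf A g).map (Int.cast : ℤ → ℚ)

/-- the sum of `A(g₀) ⋯ A(g_{m-1}) F [g₀, …, g_{m-1}]` over all lists of length `m` in the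
support -/
def Th : ℕ → (List G → ℚ) → Matrix n n ℚ
  | 0, F => F [] • (1 : Matrix n n ℚ)
  | m + 1, F => ∑ g ∈ msupp A, cq A g * Th m (fun l => F (g :: l))

lemma Th_succ (m : ℕ) (F : List G → ℚ) :
    Th A (m + 1) F = ∑ g ∈ msupp A, cq A g * Th A m (fun l => F (g :: l)) := rfl

lemma Th_congr (m : ℕ) (F F' : List G → ℚ) (h : ∀ l, l.length = m → F l = F' l) :
    Th A m F = Th A m F' := by
  induction m generalizing F F' with
  | zero => rw [Th, Th, h [] rfl]
  | succ m ih =>
    rw [Th_succ, Th_succ]
    refine Finset.sum_congr rfl fun g _ => ?_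
    rw [ih _ _ fun l hl => h (g :: l) (by simp [hl])]

lemma Th_add (m : ℕ) (F F' : List G → ℚ) :
    Th A m (fun l => F l + F' l) = Th A m F + Th A m F' := by
  induction m generalizing F F' with
  | zero => rw [Th, Th, Th, add_smul]
  | succ m ih =>
    rw [Th_succ, Th_succ, Th_succ, ← Finset.sum_add_distrib]
    refine Finset.sum_congr rfl fun g _ => ?_
    rw [ih, mul_add]

lemma Th_smul (m : ℕ) (c : ℚ) (F : List G → ℚ) :
    Th A m (fun l => c * F l) = c • Th A m F := by
  induction m generalizing F with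
  | zero => rw [Th, Th, mul_smul]
  | succ m ih =>
    rw [Th_succ, Th_succ, Finset.smul_sum]
    refine Finset.sum_congr rfl fun g _ => ?_
    rw [ih, Matrix.mul_smul]

lemma Th_sum {ι : Type*} (s : Finset ι) (m : ℕ) (F : ι → List G → ℚ) :
    Th A m (fun l => ∑ i ∈ s, F i l) = ∑ i ∈ s, Th A m (F i) := by
  classical
  induction s using Finset.induction_on with
  | empty =>
    simp only [Finset.sum_empty]
    have := Th_smul A m 0 (fun _ => 0)
    simpa using this
  | insert a s ha ih =>
    simp only [Finset.sum_insert ha]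
    rw [Th_add, ih]

lemma Th_snoc (m : ℕ) (F : List G → ℚ) :
    Th A (m + 1) F = ∑ g ∈ msupp A, Th A m (fun l => F (l ++ [g])) * cq A g := by
  induction m generalizing F with
  | zero =>
    rw [Th_succ]
    refine Finset.sum_congr rfl fun g _ => ?_
    rw [Th, Th, Matrix.mul_smul, Matrix.smul_mul, mul_one, one_mul]
    rfl
  | succ m ih =>
    rw [Th_succ]
    have h1 : ∀ g ∈ msupp A, cq A g * Th A (m + 1) (fun l => F (g :: l)) =
        ∑ h ∈ msupp A, cq A g * Th A m (fun l => F (g :: (l ++ [h]))) * cq A h := by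
      intro g _
      rw [ih, Finset.mul_sum]
      refine Finset.sum_congr rfl fun h _ => ?_
      rw [mul_assoc]
    rw [Finset.sum_congr rfl h1, Finset.sum_comm]
    refine Finset.sum_congr rfl fun h _ => ?_
    rw [Th_succ, Finset.sum_mul]
    refine Finset.sum_congr rfl fun g _ => ?_
    rfl

/-- rotation of a list: the first entry is moved to the end -/
def rotL : List G → List G
  | [] => []
  | a :: l => l ++ [a]

lemma trace_Th_rotL (m : ℕ) (F : List G → ℚ) :
    (Th A m (fun l => F (rotL l))).trace = (Th A m F).trace := by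
  cases m with
  | zero => rfl
  | succ m =>
    rw [Th_succ, Th_snoc, Matrix.trace_sum, Matrix.trace_sum]
    refine Finset.sum_congr rfl fun g _ => ?_
    rw [Matrix.trace_mul_comm]
    rfl

variable {A}

lemma cq_eq_zero {k : G} (hk : k ∉ msupp A) : cq A k = 0 := by
  ext i j
  by_contra hne
  apply hk
  refine mem_msupp (i := i) (j := j) ?_
  intro h0
  apply hne
  change (((A i j).coeff k : ℤ) : ℚ) = 0
  rw [h0, Int.cast_zero]

lemma cq_conv (hA : A * A = A) (k : G) : cq A k = ∑ g ∈ msupp A, ∑ h ∈ msupp A,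
    if g * h = k then cq A g * cq A h else 0 := by
  classical
  ext i j
  have h2 : (A i j).coeff k = ((A * A) i j).coeff k := by rw [hA]
  have h3 : cq A k i j = ((A i j).coeff k : ℚ) := rfl
  rw [h3, h2, Matrix.mul_apply]
  simp only [Matrix.sum_apply]
  have h4 : ∀ g h : G, (if g * h = k then cq A g * cq A h else 0 : Matrix n n ℚ) i j =
      ∑ l, if g * h = k then (((A i l).coeff g : ℚ) * ((A l j).coeff h : ℚ)) else 0 := by
    intro g h
    split_ifs with hgh
    · rw [Matrix.mul_apply]
      rfl
    · simp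
  simp only [h4]
  rw [MonoidAlgebra.coeff_sum, Finsupp.coe_finsetSum, Finset.sum_apply, Int.cast_sum]
  have h5 : ∀ l, (((A i l * A l j).coeff k : ℤ) : ℚ) = ∑ g ∈ msupp A, ∑ h ∈ msupp A,
      if g * h = k then (((A i l).coeff g : ℚ) * ((A l j).coeff h : ℚ)) else 0 := by
    intro l
    have h6 : (A i l * A l j).coeff k = ∑ g ∈ msupp A, ∑ h ∈ msupp A,
        if g * h = k then (A i l).coeff g * (A l j).coeff h else 0 := by
      rw [MonoidAlgebra.coeff_mul]
      rw [Finsupp.sum, Finset.sum_subset (s₂ := msupp A)]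
      · refine Finset.sum_congr rfl fun g _ => ?_
        rw [Finsupp.sum, Finset.sum_subset (s₂ := msupp A)]
        · intro h hh
          exact mem_msupp (Finsupp.mem_support_iff.1 hh)
        · intro h _ hh
          rw [Finsupp.notMem_support_iff.1 hh, mul_zero, ite_self]
      · intro g hg
        exact mem_msupp (Finsupp.mem_support_iff.1 hg)
      · intro g _ hg
        rw [Finsupp.notMem_support_iff.1 hg]
        simp
    rw [h6]
    push_cast
    rfl
  rw [Finset.sum_congr rfl fun l _ => h5 l, Finset.sum_comm]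
  refine Finset.sum_congr rfl fun g _ => ?_
  rw [Finset.sum_comm]

lemma cq_mul (hA : A * A = A) (φ : G → Matrix n n ℚ) :
    ∑ g ∈ msupp A, ∑ h ∈ msupp A, cq A g * cq A h * φ (g * h) =
      ∑ k ∈ msupp A, cq A k * φ k := by
  classical
  let P : Finset G := msupp A ∪ ((msupp A) ×ˢ (msupp A)).image fun x => x.1 * x.2
  have h1 : ∑ k ∈ msupp A, cq A k * φ k = ∑ k ∈ P, cq A k * φ k := by
    refine Finset.sum_subset Finset.subset_union_left ?_
    intro k _ hk
    rw [cq_eq_zero hk, zero_mul]
  rw [h1]
  have h2 : ∀ k, cq A k * φ k = ∑ g ∈ msupp A, ∑ h ∈ msupp A,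
      if g * h = k then cq A g * cq A h * φ k else 0 := by
    intro k
    conv_lhs => rw [cq_conv hA k]
    rw [Finset.sum_mul]
    refine Finset.sum_congr rfl fun g _ => ?_
    rw [Finset.sum_mul]
    refine Finset.sum_congr rfl fun h _ => ?_
    rw [ite_mul, zero_mul]
  have h3 : ∑ k ∈ P, cq A k * φ k = ∑ k ∈ P, ∑ g ∈ msupp A, ∑ h ∈ msupp A,
      if g * h = k then cq A g * cq A h * φ k else 0 := Finset.sum_congr rfl fun k _ => h2 k
  rw [h3]
  symm
  rw [Finset.sum_comm]
  refine Finset.sum_congr rfl fun g hg => ?_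
  rw [Finset.sum_comm]
  refine Finset.sum_congr rfl fun h hh => ?_
  rw [Finset.sum_ite_eq]
  have hmem : g * h ∈ P := Finset.mem_union_right _
    (Finset.mem_image.2 ⟨(g, h), Finset.mem_product.2 ⟨hg, hh⟩, rfl⟩)
  rw [if_pos hmem]

lemma Th_mergeAt (hA : A * A = A) (j m : ℕ) (hj : j + 1 ≤ m) (F : List G → ℚ) :
    Th A (m + 1) (fun l => F (mergeAt j l)) = Th A m F := by
  induction j generalizing m F with
  | zero =>
    obtain ⟨m, rfl⟩ : ∃ m', m = m' + 1 := ⟨m - 1, by omega⟩
    rw [Th_succ, Th_succ]
    simp only [Th_succ, mergeAt_zero_cons, Finset.mul_sum, ← mul_assoc]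
    exact cq_mul hA fun k => Th A m fun l => F (k :: l)
  | succ j ih =>
    obtain ⟨m, rfl⟩ : ∃ m', m = m' + 1 := ⟨m - 1, by omega⟩
    rw [Th_succ, Th_succ]
    refine Finset.sum_congr rfl fun g _ => ?_
    simp only [mergeAt_succ_cons]
    rw [ih m (by omega) (fun l => F (g :: l))]

lemma prod_mergeAt_zero (l : List G) : (mergeAt 0 l).prod = l.prod := by
  match l with
  | [] => rfl
  | [a] => rfl
  | a :: b :: l => simp [mul_assoc]

lemma Th_prod (hA : A * A = A) (χ : G → ℚ) (m : ℕ) :
    Th A (m + 1) (fun l => χ l.prod) = Th A 1 (fun l => χ l.prod) := by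
  induction m with
  | zero => rfl
  | succ m ih =>
    rw [← ih, ← Th_mergeAt hA 0 (m + 1) (by omega) (fun l => χ l.prod)]
    refine Th_congr A _ _ _ fun l _ => ?_
    rw [prod_mergeAt_zero]

lemma trace_Th_one (χ : G → ℤ) :
    (Th A 1 (fun l => (χ l.prod : ℚ))).trace = (Tau χ A : ℤ) := by
  rw [Th_succ, Matrix.trace_sum, Tau_apply]
  have h1 : ∀ i, evalFn χ (A i i) = ∑ g ∈ msupp A, (A i i).coeff g * χ g := by
    intro i
    rw [evalFn_eq_sum, Finsupp.sum]
    refine Finset.sum_subset ?_ ?_
    · intro g hg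
      exact mem_msupp (Finsupp.mem_support_iff.1 hg)
    · intro g _ hg
      rw [Finsupp.notMem_support_iff.1 hg, zero_smul]
  rw [Finset.sum_congr rfl fun i _ => h1 i, Finset.sum_comm]
  push_cast
  refine Finset.sum_congr rfl fun g _ => ?_
  rw [Th, Matrix.mul_smul, mul_one, Matrix.trace_smul, smul_eq_mul, Matrix.trace,
    Finset.mul_sum]
  refine Finset.sum_congr rfl fun i _ => ?_
  rw [mul_comm]
  simp [cq, cf]

/-- List form of the vanishing theorem. -/
theorem Tau_eq_zero_of_list (hA : A * A = A) (χ : G → ℤ) (k : ℕ) (hk : 1 ≤ k)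
    (u : List G → ℚ) (hu : ∀ l, l.length = 2 * k → u (rotL l) = - u l)
    (hχ : ∀ a l z, l.length + 1 = 2 * k →
      (∑ j ∈ Finset.range (2 * k), (-1 : ℚ) ^ j * u (mergeAt j (a :: (l ++ [z])))) +
        u ((z * a) :: l) = χ (a * (l.prod * z))) : Tau χ A = 0 := by
  -- the last face
  let last : List G → ℚ := fun l => match l with
    | [] => 0
    | a :: l => u ((l.getLast?.getD 1 * a) :: l.dropLast)
  have hlast : (Th A (2 * k + 1) last).trace = (Th A (2 * k) u).trace := by
    rw [← trace_Th_rotL A (2 * k + 1) last, ← Th_mergeAt hA 0 (2 * k) (by omega) u]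
    congr 1
    refine Th_congr A _ _ _ fun l hl => ?_
    match l, hl with
    | z :: a :: l, _ =>
      simp [rotL, last]
    | [z], hl => simp at hl; omega
  have hflip : (Th A (2 * k) u).trace = 0 := by
    have h1 := trace_Th_rotL A (2 * k) u
    rw [Th_congr A (2 * k) (fun l => u (rotL l)) (fun l => (-1 : ℚ) * u l) (fun l hl => by
      rw [hu l hl]; ring), Th_smul, Matrix.trace_smul, smul_eq_mul] at h1
    linarith
  have hmain : Th A (2 * k + 1) (fun l => (χ l.prod : ℚ)) =
      (∑ j ∈ Finset.range (2 * k), (-1 : ℚ) ^ j • Th A (2 * k) u) +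
        Th A (2 * k + 1) last := by
    have h1 : ∀ j ∈ Finset.range (2 * k), (-1 : ℚ) ^ j • Th A (2 * k) u =
        Th A (2 * k + 1) (fun l => (-1 : ℚ) ^ j * u (mergeAt j l)) := by
      intro j hj
      rw [Finset.mem_range] at hj
      rw [Th_smul, Th_mergeAt hA j (2 * k) (by omega)]
    rw [Finset.sum_congr rfl h1, ← Th_sum, ← Th_add]
    refine Th_congr A _ _ _ fun l hl => ?_
    match l, hl with
    | a :: l, hl =>
      have hne : l ≠ [] := by
        rintro rfl
        simp at hl
        omega
      obtain ⟨l', z, rfl⟩ : ∃ l' z, l = l' ++ [z] :=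
        ⟨l.dropLast, l.getLast hne, (List.dropLast_append_getLast hne).symm⟩
      have h2 := hχ a l' z (by simpa using hl)
      have h3 : last (a :: (l' ++ [z])) = u ((z * a) :: l') := by simp [last]
      rw [h3, h2]
      simp
  have h1 := congrArg Matrix.trace hmain
  rw [Th_prod hA (fun g => (χ g : ℚ)) (2 * k), Matrix.trace_add, hlast, Matrix.trace_sum,
    hflip, add_zero] at h1
  have h2 : (Th A 1 (fun l => (χ l.prod : ℚ))).trace = (Tau χ A : ℤ) := trace_Th_one χ
  rw [h2] at h1
  have h3 : ∀ j ∈ Finset.range (2 * k), ((-1 : ℚ) ^ j • Th A (2 * k) u).trace = 0 := by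
    intro j _
    rw [Matrix.trace_smul, hflip, smul_zero]
  rw [Finset.sum_congr rfl h3, Finset.sum_const_zero] at h1
  exact_mod_cast h1

end

/-- The function `χ(g₀ ⋯ g_{2k})` of `2k + 1` variables is a cyclic coboundary. -/
def CycBdry {Q : Type*} [Group Q] (χ : Q → ℤ) : Prop :=
  ∃ (k : ℕ) (_ : 1 ≤ k) (u : (Fin (2 * k) → Q) → ℚ),
    (∀ v, u (v ∘ finRotate (2 * k)) = - u v) ∧
    ∀ g : Fin (2 * k + 1) → Q,
      (∑ j : Fin (2 * k), (-1 : ℚ) ^ (j : ℕ) * u (Fin.contractNth j.castSucc (· * ·) g)) +
        u (fun i => if (i : ℕ) = 0 then g (Fin.last _) * g 0 else g i.castSucc) =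
      χ (List.ofFn g).prod

lemma finRotate_val (N : ℕ) (i : Fin N) :
    (finRotate N i : ℕ) = if (i : ℕ) + 1 = N then 0 else (i : ℕ) + 1 := by
  cases N with
  | zero => exact i.elim0
  | succ N =>
    have h := coe_finRotate i
    rw [h]
    by_cases hi : i = Fin.last N
    · rw [if_pos hi, hi, if_pos (by simp)]
    · have : (i : ℕ) ≠ N := fun h' => hi (Fin.ext (by simpa using h'))
      rw [if_neg hi, if_neg (by omega)]

lemma ofFn_getD (l : List G) (N : ℕ) (h : l.length = N) :
    List.ofFn (fun i : Fin N => l.getD i 1) = l := by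
  subst h
  apply List.ext_getElem
  · simp
  · intro i h1 h2
    simp

/-- The rank function pairs to zero with cyclic coboundaries. -/
theorem Tau_eq_zero_of_cycBdry {A : Matrix n n (MonoidAlgebra ℤ G)} (hA : A * A = A)
    {χ : G → ℤ} (hχ : CycBdry χ) : Tau χ A = 0 := by
  classical
  obtain ⟨k, hk, u, hu, hb⟩ := hχ
  refine Tau_eq_zero_of_list hA χ k hk (fun l => u fun i => l.getD i 1) ?_ ?_
  · intro l hl
    rw [← hu]
    congr 1
    funext i
    simp only [Function.comp]
    rw [finRotate_val]
    match l, hl with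
    | [], hl => simp at hl; omega
    | a :: l, hl =>
      have hl' : l.length + 1 = 2 * k := by simpa using hl
      simp only [rotL]
      split_ifs with hi
      · rw [List.getD_append_right _ _ _ _ (by omega), List.getD_cons_zero]
        have : (i : ℕ) - l.length = 0 := by omega
        rw [this, List.getD_cons_zero]
      · rw [List.getD_append _ _ _ _ (by omega), List.getD_cons_succ]
  · intro a l z hl
    have hlen : (a :: (l ++ [z])).length = 2 * k + 1 := by
      simp
      omega
    have h1 := hb fun i => (a :: (l ++ [z])).getD i 1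
    rw [ofFn_getD _ _ hlen] at h1
    have h2 : (a :: (l ++ [z])).prod = a * (l.prod * z) := by simp
    rw [h2] at h1
    rw [← h1]
    congr 1
    · rw [Finset.sum_range]
      refine Finset.sum_congr rfl fun j _ => ?_
      congr 2
      funext i
      rw [mergeAt_getD _ _ (by rw [hlen]; omega)]
      rfl
    · congr 1
      funext i
      have hi := i.2
      by_cases h0 : (i : ℕ) = 0
      · rw [if_pos h0, h0, List.getD_cons_zero]
        simp only [Fin.val_last, Fin.val_zero, List.getD_cons_zero]
        congr 1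
        obtain ⟨m, hm⟩ : ∃ m, 2 * k = m + 1 := ⟨2 * k - 1, by omega⟩
        rw [hm, List.getD_cons_succ, List.getD_append_right _ _ _ _ (by omega)]
        have : m - l.length = 0 := by omega
        rw [this, List.getD_cons_zero]
      · rw [if_neg h0]
        obtain ⟨m, hm⟩ : ∃ m, (i : ℕ) = m + 1 := ⟨(i : ℕ) - 1, by omega⟩
        simp only [Fin.val_castSucc]
        rw [hm, List.getD_cons_succ, List.getD_cons_succ, List.getD_append _ _ _ _ (by omega)]

end

end Pool.Agent.H677_Perf
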