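import Pool.Agent.H677_Perf.Final2
import Pool.Agent.H677_Perf.HigherCyclic
import Pool.Agent.H677_Perf.FiniteIndex

set_option autoImplicit false
set_option linter.unusedSectionVars false

universe u

namespace Pool.Agent.H677_Perf

noncomputable section

/-- The trace at the identity of an idempotent is non-negative. -/
theorem trace_nonneg {G : Type*} [Group G] {n : Type*} [Fintype n] [DecidableEq n]
    (A : Matrix n n (MonoidAlgebra ℤ G)) (hA : A * A = A) : 0 ≤ ∑ i, (A i i).coeff 1 := by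
  let φ : MonoidAlgebra ℤ G →+* MonoidAlgebra ℝ G :=
    MonoidAlgebra.mapRingHom G (Int.castRingHom ℝ)
  have hB : A.map φ * A.map φ = A.map φ := by
    rw [← Matrix.map_mul, hA]
  have h1 := Kap.trace_eq_sum_norm (A.map φ) hB
  have h2 : 0 ≤ ∑ i, (A.map φ i i).coeff 1 := by
    rw [h1]
    exact Finset.sum_nonneg fun j _ => by positivity
  have h3 : ∑ i, (A.map φ i i).coeff 1 = ((∑ i, (A i i).coeff 1 : ℤ) : ℝ) := by
    rw [Int.cast_sum]
    refine Finset.sum_congr rfl fun i _ => ?_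
    simp [φ]
  rw [h3] at h2
  exact_mod_cast h2

section

variable {G : Type*} [Group G] {n : Type*} [Fintype n] [DecidableEq n]

lemma Tau_indicator_eq (B : Subgroup G) [hBn : B.Normal] [DecidablePred (· ∈ B)]
    (A : Matrix n n (MonoidAlgebra ℤ G)) :
    ∑ i, (im (QuotientGroup.mk' B) A i i).coeff 1 =
      Tau (fun g => if g ∈ B then (1 : ℤ) else 0) A := by
  classical
  rw [Tau_apply]
  refine Finset.sum_congr rfl fun i _ => ?_
  have h2 : evalFn (fun g => if g ∈ B then (1 : ℤ) else 0) (A i i) =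
      ((A i i).coeff.mapDomain (QuotientGroup.mk' B)).sum
        fun c r => r • (if c = 1 then (1 : ℤ) else 0) := by
    rw [Finsupp.sum_mapDomain_index (by simp) (by intro b m₁ m₂; rw [add_smul]), evalFn_eq_sum]
    refine Finsupp.sum_congr fun g _ => ?_
    congr 1
    by_cases hg : g ∈ B
    · rw [if_pos hg, if_pos]
      rw [QuotientGroup.mk'_apply, QuotientGroup.eq_one_iff]
      exact hg
    · rw [if_neg hg, if_neg]
      rw [QuotientGroup.mk'_apply, QuotientGroup.eq_one_iff]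
      exact hg
  rw [h2, im_coeff, Finsupp.sum]
  simp only [smul_eq_mul, mul_ite, mul_one, mul_zero]
  rw [Finset.sum_ite_eq']
  split_ifs with h
  · rfl
  · exact Finsupp.notMem_support_iff.1 h

lemma isConj_fun {χ : G → ℤ} (hχ : ∀ a b, χ (a * b) = χ (b * a)) {a b : G} (hab : IsConj a b) :
    χ a = χ b := by
  obtain ⟨c, rfl⟩ := isConj_iff.1 hab
  rw [hχ (c * a) c⁻¹]
  congr 1
  group

/-- a class function as a function on classes -/
def onClasses (χ : G → ℤ) (hχ : ∀ a b, χ (a * b) = χ (b * a)) : ConjClasses G → ℤ :=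
  Quotient.lift χ fun _ _ h => isConj_fun hχ h

lemma onClasses_mk (χ : G → ℤ) (hχ : ∀ a b, χ (a * b) = χ (b * a)) (x : G) :
    onClasses χ hχ (ConjClasses.mk x) = χ x := rfl

lemma Tau_eq_sum_classes (χ : G → ℤ) (hχ : ∀ a b, χ (a * b) = χ (b * a))
    (A : Matrix n n (MonoidAlgebra ℤ G)) :
    Tau χ A = (rk A).sum fun c r => r • onClasses χ hχ c := by
  rw [← Tau_eq_rk]
  rfl

/-- The rank function is orthogonal to the differences `ψ(x) - ψ(x ^ m)`. -/
lemma Tau_pow {A : Matrix n n (MonoidAlgebra ℤ G)} (hA : A * A = A) (ψ : G → ℤ)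
    (hψ : ∀ a b, ψ (a * b) = ψ (b * a)) (m : ℕ) (hm : 1 ≤ m) :
    Tau (fun x => ψ (x ^ m)) A = Tau ψ A := by
  classical
  have h1 : (fun x => ψ (x ^ m)) = fun x => onClasses ψ hψ (powC m (ConjClasses.mk x)) := by
    funext x
    rw [powC_mk, onClasses_mk]
  rw [h1, Tau_eq_rk (fun c => onClasses ψ hψ (powC m c)) A, Tau_eq_sum_classes ψ hψ A]
  conv_rhs => rw [← rk_powC hA m hm]
  rw [Finsupp.sum_mapDomain_index (by simp) (by intro b m₁ m₂; rw [add_smul])]

/-- The class functions whose trace on `A` is known to vanish. -/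
def NullFun (𝓡 : Set (Subgroup G)) : AddSubgroup (G → ℤ) :=
  AddSubgroup.closure {χ : G → ℤ | (∀ a b, χ (a * b) = χ (b * a)) ∧
    ((∃ R ∈ 𝓡, ∀ g, ∀ r ∈ R, χ (g * r) = χ g) ∨
      (∃ (m : ℕ) (ψ : G → ℤ), 1 ≤ m ∧ (∀ a b, ψ (a * b) = ψ (b * a)) ∧
        ∀ g, χ g = ψ g - ψ (g ^ m)) ∨
      CycBdry χ)}

lemma NullFun.class_fun {𝓡 : Set (Subgroup G)} {χ : G → ℤ} (hχ : χ ∈ NullFun 𝓡) :
    ∀ a b, χ (a * b) = χ (b * a) := by
  induction hχ using AddSubgroup.closure_induction with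
  | mem χ h => exact h.1
  | zero => intro a b; rfl
  | add χ χ' _ _ h h' => intro a b; rw [Pi.add_apply, Pi.add_apply, h, h']
  | neg χ _ h => intro a b; rw [Pi.neg_apply, Pi.neg_apply, h]

lemma NullFun.tau_eq_zero {𝓡 : Set (Subgroup G)} {A : Matrix n n (MonoidAlgebra ℤ G)}
    (hA : A * A = A) (h𝓡 : ∀ R ∈ 𝓡, Kills R A) {χ : G → ℤ} (hχ : χ ∈ NullFun 𝓡) :
    Tau χ A = 0 := by
  induction hχ using AddSubgroup.closure_induction with
  | mem χ h =>
    rcases h.2 with ⟨R, hR, hper⟩ | ⟨m, ψ, hm, hψ, h⟩ | h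
    · exact Tau_periodic (h𝓡 R hR) χ hper
    · have h1 : χ = ψ + (-(fun g => ψ (g ^ m))) := by
        funext g
        rw [h g]
        simp [sub_eq_add_neg]
      rw [h1, Tau_add_fun, Tau_neg_fun, Tau_pow hA ψ hψ m hm, add_neg_cancel]
    · exact Tau_eq_zero_of_cycBdry hA h
  | zero => exact Tau_zero_fun A
  | add χ χ' _ _ h h' => rw [Tau_add_fun, h, h', add_zero]
  | neg χ _ h => rw [Tau_neg_fun, h, neg_zero]

lemma Tau_sum_fun {ι : Type*} (s : Finset ι) (χ : ι → G → ℤ)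
    (A : Matrix n n (MonoidAlgebra ℤ G)) :
    Tau (fun g => ∑ i ∈ s, χ i g) A = ∑ i ∈ s, Tau (χ i) A := by
  classical
  induction s using Finset.induction_on with
  | empty =>
    simp only [Finset.sum_empty]
    exact Tau_zero_fun A
  | insert a s ha ih =>
    rw [Finset.sum_insert ha, ← ih, ← Tau_add_fun]
    have : (fun g => ∑ i ∈ insert a s, χ i g) = χ a + fun g => ∑ i ∈ s, χ i g := by
      funext g
      rw [Finset.sum_insert ha, Pi.add_apply]
    rw [this]

/-- If a class function with vanishing trace agrees with the sum of the indicator functions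
of normal subgroups `B i` at the identity and at the exceptional elements, then every `B i`
kills `A`. -/
theorem kills_of_nullFun {ι : Type*} [Fintype ι] (B : ι → Subgroup G) (hBn : ∀ i, (B i).Normal)
    [∀ i, DecidablePred (· ∈ B i)]
    (A : Matrix n n (MonoidAlgebra ℤ G)) (hA : A * A = A) (𝓡 : Set (Subgroup G))
    (h𝓡 : ∀ R ∈ 𝓡, Kills R A) (E : Set G)
    (hE : ∀ i j, ∀ a ∈ (A i j).coeff.support, a ∈ E) (χ : G → ℤ) (hχ : χ ∈ NullFun 𝓡)
    (hχB : ∀ y, (y = 1 ∨ BadIn E y) →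
      χ y = ∑ i, if y ∈ B i then (1 : ℤ) else 0) (i : ι) : Kills (B i) A := by
  classical
  have hcl := NullFun.class_fun hχ
  let d : G → ℤ := (fun g => ∑ i, if g ∈ B i then (1 : ℤ) else 0) + (-χ)
  have hd : ∀ a b, d (a * b) = d (b * a) := by
    intro a b
    simp only [d, Pi.add_apply, Pi.neg_apply, hcl a b]
    congr 1
    refine Finset.sum_congr rfl fun i _ => ?_
    have : a * b ∈ B i ↔ b * a ∈ B i := (hBn i).mem_comm_iff
    by_cases h : a * b ∈ B i
    · rw [if_pos h, if_pos (this.1 h)]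
    · rw [if_neg h, if_neg fun h' => h (this.2 h')]
  have h3 : Tau d A = 0 := by
    rw [Tau_eq_sum_classes d hd, Finsupp.sum]
    refine Finset.sum_eq_zero fun c hc => ?_
    obtain ⟨x, rfl⟩ := ConjClasses.exists_rep c
    have hr : rkAt x A ≠ 0 := by
      rw [rkAt_apply]
      exact Finsupp.mem_support_iff.1 hc
    change _ • onClasses d hd (ConjClasses.mk x) = 0
    rw [onClasses_mk]
    have : d x = 0 := by
      simp only [d, Pi.add_apply, Pi.neg_apply]
      rw [hχB x]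
      · ring
      · by_cases hx1 : x = 1
        · exact Or.inl hx1
        · exact Or.inr (badIn_of_rk_ne_zero hA hE hx1 hr)
    rw [this, smul_zero]
  have h4 : Tau d A = Tau (fun g => ∑ i, if g ∈ B i then (1 : ℤ) else 0) A + Tau (-χ) A :=
    Tau_add_fun _ _ A
  rw [Tau_neg_fun, NullFun.tau_eq_zero hA h𝓡 hχ, neg_zero, add_zero, h3,
    Tau_sum_fun Finset.univ (fun i g => if g ∈ B i then (1 : ℤ) else 0) A] at h4
  have h5 : ∀ i, 0 ≤ Tau (fun g => if g ∈ B i then (1 : ℤ) else 0) A := by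
    intro i
    have := hBn i
    rw [← Tau_indicator_eq]
    exact trace_nonneg _ (im_idem _ hA)
  have h6 := (Finset.sum_eq_zero_iff_of_nonneg fun i _ => h5 i).1 h4.symm i (Finset.mem_univ i)
  have := hBn i
  rw [kills_iff_im_eq_zero]
  apply eq_zero_of_trace _ (im_idem _ hA)
  rw [Tau_indicator_eq]
  exact h6

/-- Minimal normal subgroups killing `A`, with control on the generators. -/
theorem exists_minimal'' {A : Matrix n n (MonoidAlgebra ℤ G)} (S : Set G)
    (hS : ∀ i j, ∀ a ∈ (A i j).coeff.support, a ∈ S) (K : Subgroup G)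
    [hKn : K.Normal] (hK : Kills K A) :
    ∃ N : Subgroup G, N.Normal ∧ N ≤ K ∧ Kills N A ∧
      Subgroup.normalClosure {y | y ∈ N ∧ ∃ a ∈ S, ∃ b ∈ S, y = a⁻¹ * b} = N ∧
      ∀ M : Subgroup G, M.Normal → M ≤ N → Kills M A → M = N := by
  obtain ⟨T, _, hTS, hTK, hN, hmin⟩ := exists_minimal' S hS K hK
  refine ⟨Subgroup.normalClosure T, Subgroup.normalClosure_normal, hTK, hN, ?_, hmin⟩
  apply le_antisymm
  · have : (Subgroup.normalClosure T).Normal := Subgroup.normalClosure_normal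
    apply Subgroup.normalClosure_le_normal
    intro y hy
    exact hy.1
  · apply Subgroup.normalClosure_mono
    intro y hy
    exact ⟨Subgroup.subset_normalClosure hy, hTS y hy⟩

end

/-- The condition on a normal subgroup `N`, relative to a set `E`. -/
def Reducible3 {G : Type u} [Group G] (E : Set G) (N : Subgroup G) : Prop :=
  (∃ p : ℕ, p.Prime ∧ ∀ U : Subgroup G, U ≤ N → U.FG →
    {y | y ∈ N ∧ ∃ a ∈ E, ∃ b ∈ E, y = a⁻¹ * b} ⊆ (U : Set G) →
    ∃ φ : U →* Multiplicative (ZMod p), φ ≠ 1) ∨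
  (∃ (M : Subgroup G) (_ : M.Normal) (k : ℕ) (B : Fin (k + 1) → Subgroup (G ⧸ M)),
    M ≤ N ∧ (∀ i, (B i).Normal) ∧ B 0 < N.map (QuotientGroup.mk' M) ∧
    ∃ χ ∈ NullFun {R : Subgroup (G ⧸ M) | ∃ _ : R.Normal,
        N.map (QuotientGroup.mk' M) ≤ R ∨ NPP ((G ⧸ M) ⧸ R)},
      ∀ y, (y = 1 ∨ BadIn ((QuotientGroup.mk' M) '' E) y) →
        χ y = Nat.card {i // y ∈ B i}) ∨
  (∃ V : Subgroup G, V.FiniteIndex ∧ N ≤ V ∧ NPP V)

/-- Core theorem. -/
theorem eq_zero_of_kills3 {G : Type u} [Group G] {n : Type} [Fintype n] [DecidableEq n]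
    (K : Subgroup G) [hKn : K.Normal] (A : Matrix n n (MonoidAlgebra ℤ G)) (S : Set G)
    (hSf : S.Finite) (hS : ∀ i j, ∀ a ∈ (A i j).coeff.support, a ∈ S)
    (hyp : ∀ N : Subgroup G, N.Normal → N ≤ K → N ≠ ⊥ →
      Subgroup.normalClosure {y | y ∈ N ∧ ∃ a ∈ S, ∃ b ∈ S, y = a⁻¹ * b} = N → Reducible3 S N)
    (hA : A * A = A) (hK : Kills K A) : A = 0 := by
  classical
  obtain ⟨N, hNn, hNK, hN, hNT, hmin⟩ := exists_minimal'' S hS K hK
  by_cases hbot : N = ⊥
  · rw [hbot] at hN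
    exact hN.eq_zero
  exfalso
  have hTfin : {y | y ∈ N ∧ ∃ a ∈ S, ∃ b ∈ S, y = a⁻¹ * b}.Finite := by
    refine Set.Finite.subset (Set.Finite.image2 (fun a b => a⁻¹ * b) hSf hSf) ?_
    rintro y ⟨_, a, ha, b, hb, rfl⟩
    exact ⟨a, ha, b, hb, rfl⟩
  have hzero : A ≠ 0 := by
    rintro rfl
    apply hbot
    symm
    apply hmin ⊥ inferInstance bot_le
    intro i j
    rfl
  rcases hyp N hNn hNK hbot hNT with ⟨p, hp, hU⟩ | ⟨M, hMn, k, B, hMN, hBn, hB, χ, hχ, hχB⟩ |
      ⟨V, hVf, hNV, hV⟩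
  · have : Fact p.Prime := ⟨hp⟩
    have h1 := kills_pcore p N A hA hN
    have h3 := hmin _ (pcore_normal p _) (pcore_le p _) h1
    obtain ⟨U, hU1, hU2, hU3, hU4⟩ := exists_finset_pcore (p := p)
      (N := N) hTfin.toFinset (by
        intro x hx
        rw [h3]
        exact (hTfin.mem_toFinset.1 hx).1)
    obtain ⟨φ, hφ⟩ := hU U hU1 hU2 fun x hx => hU4 x (hTfin.mem_toFinset.2 hx)
    exact hφ (hU3 φ)
  · set A' := im (QuotientGroup.mk' M) A with hA'def
    have hA' : A' * A' = A' := im_idem _ hA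
    have hE : ∀ i j, ∀ a ∈ (A' i j).coeff.support, a ∈ (QuotientGroup.mk' M) '' S := by
      intro i j a ha
      rw [hA'def, im_coeff] at ha
      obtain ⟨b, hb, rfl⟩ := Finset.mem_image.1 (Finsupp.mapDomain_support ha)
      exact ⟨b, hS i j b hb, rfl⟩
    have hKN : Kills (N.map (QuotientGroup.mk' M)) A' :=
      kills_im _ _ _ (Subgroup.le_comap_map _ _) hN
    have h1 : Kills (B 0) A' := by
      refine kills_of_nullFun B hBn A' hA' _ ?_ _ hE χ hχ ?_ 0
      · rintro R ⟨hRn, hR | hR⟩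
        · exact hKN.mono hR
        · rw [kills_iff_im_eq_zero]
          exact hR.matrix _ (im_idem _ hA') (kills_im _ ⊤ ⊤ le_top (hKN.mono le_top))
      · intro y hy
        rw [hχB y hy, Finset.sum_boole, Nat.card_eq_fintype_card, Fintype.card_subtype]
    rw [hA'def, kills_comap_iff] at h1
    have h4 : (B 0).comap (QuotientGroup.mk' M) ≤ N := by
      intro x hx
      obtain ⟨y, hy, hyx⟩ := hB.le hx
      rw [QuotientGroup.mk'_apply, QuotientGroup.mk'_apply, QuotientGroup.eq] at hyx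
      have h6 := N.mul_mem hy (hMN hyx)
      rwa [mul_inv_cancel_left] at h6
    have h5 := hmin _ ((hBn 0).comap _) h4 h1
    apply hB.ne
    rw [← h5, Subgroup.map_comap_eq_self_of_surjective (QuotientGroup.mk'_surjective M)]
  · exact hzero (eq_zero_of_finiteIndex N V hNV hV A hA hN)

/-- The main theorem. -/
theorem npp_main3 {G : Type u} [Group G]
    (hG : ∀ S : Finset G, ∃ (H : Type u) (_ : Group H) (K : Subgroup H) (_ : K.Normal) (φ : G → H),
      Set.InjOn φ S ∧ (∀ a ∈ S, ∀ b ∈ S, φ (a * b) = φ a * φ b) ∧ NPP (H ⧸ K) ∧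
      ∀ N : Subgroup H, N.Normal → N ≤ K → N ≠ ⊥ →
        Subgroup.normalClosure {y | y ∈ N ∧ ∃ a ∈ φ '' S, ∃ b ∈ φ '' S, y = a⁻¹ * b} = N →
        Reducible3 (φ '' S) N) :
    NPP G := by
  classical
  apply NPP.of_matrix
  intro m A hA hK
  let S : Finset G := Finset.univ.biUnion fun ij : Fin m × Fin m => (A ij.1 ij.2).coeff.support
  have hS : ∀ i j, (A i j).coeff.support ⊆ S := fun i j a ha =>
    Finset.mem_biUnion.2 ⟨(i, j), Finset.mem_univ _, ha⟩
  obtain ⟨H, _, K, _, φ, hinj, hφ, hN, hgood⟩ := hG S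
  obtain ⟨A', hA', hK', hsupp, h0⟩ := transfer' A hA hK S hS φ hinj hφ
  apply h0
  apply eq_zero_of_kills3 K A' (φ '' S) (S.finite_toSet.image φ) hsupp hgood hA'
  rw [kills_iff_im_eq_zero]
  exact hN.matrix _ (im_idem _ hA') (kills_im _ ⊤ ⊤ le_top hK')

end

end Pool.Agent.H677_Perf
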