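import Pool.Agent.H677_Perf.Final3

set_option autoImplicit false
set_option linter.unusedSectionVars false

universe u

namespace Pool.Agent.H677_Perf

noncomputable section

section

lemma injOn_of_onto {α : Type*} {f : α → α} {C : Set α} (hC : C.Finite) (h1 : Set.MapsTo f C C)
    (h2 : Set.SurjOn f C C) : Set.InjOn f C := by
  classical
  have h := Finset.injOn_of_surjOn_of_card_le (s := hC.toFinset) (t := hC.toFinset) f
    (by simpa using h1) (by simpa using h2) le_rfl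
  simpa using h

lemma onto_of_injOn {α : Type*} {f : α → α} {C : Set α} (hC : C.Finite) (h1 : Set.MapsTo f C C)
    (h2 : Set.InjOn f C) : Set.SurjOn f C C := by
  classical
  have h := Finset.surjOn_of_injOn_of_card_le (s := hC.toFinset) (t := hC.toFinset) f
    (by simpa using h1) (by simpa using h2) le_rfl
  simpa using h

variable {G : Type*} [Group G]

lemma powC_injOn {F : Set G} (hF : F.Finite) (m : ℕ)
    (h : (∀ z ∈ F, ∃ w ∈ F, IsConj (z ^ m) w) ∧ (∀ w ∈ F, ∃ z ∈ F, IsConj (z ^ m) w)) :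
    Set.InjOn (powC m) (ConjClasses.mk '' F) := by
  refine injOn_of_onto (hF.image _) ?_ ?_
  · rintro _ ⟨a, ha, rfl⟩
    obtain ⟨b, hb, hab⟩ := h.1 a ha
    exact ⟨b, hb, (ConjClasses.mk_eq_mk_iff_isConj.2 hab).symm⟩
  · rintro _ ⟨b, hb, rfl⟩
    obtain ⟨a, ha, hab⟩ := h.2 b hb
    exact ⟨_, ⟨a, ha, rfl⟩, ConjClasses.mk_eq_mk_iff_isConj.2 hab⟩

lemma BadIn.not_isOfFinOrder {E : Set G} (hE : E.Finite) {y : G} (hy : BadIn E y) :
    ¬ IsOfFinOrder y := by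
  intro hfin
  obtain ⟨m, hm, hym⟩ := isOfFinOrder_iff_pow_eq_one.1 hfin
  obtain ⟨h1, _, F, hFE, ⟨z, hz, hyz⟩, hF⟩ := hy
  have hzm : z ^ m = 1 := by
    have := isConj_pow hyz m
    rw [hym] at this
    exact isConj_one_right.1 this
  obtain ⟨w, hw, hzw⟩ := (hF m hm).1 z hz
  rw [hzm] at hzw
  have hw1 : w = 1 := isConj_one_right.1 hzw
  have hinj := powC_injOn (hE.subset hFE) m (hF m hm)
  have h2 : ConjClasses.mk z = ConjClasses.mk 1 := by
    apply hinj ⟨z, hz, rfl⟩ ⟨w, hw, by rw [hw1]⟩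
    rw [powC_mk, powC_mk, hzm, one_pow]
  rw [ConjClasses.mk_eq_mk_iff_isConj] at h2
  apply h1
  exact isConj_one_left.1 (hyz.trans h2)

lemma mem_of_isConj {L : Subgroup G} (hL : L.Normal) {a b : G} (hab : IsConj a b) (ha : a ∈ L) :
    b ∈ L := by
  obtain ⟨c, rfl⟩ := isConj_iff.1 hab
  exact hL.conj_mem a ha c

lemma BadIn.exists_root {E : Set G} (hE : E.Finite) {y : G} (hy : BadIn E y) {L : Subgroup G}
    (hL : L.Normal) (hyL : y ∈ L) (m : ℕ) (hm : 1 ≤ m) : ∃ x ∈ L, x ^ m = y := by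
  obtain ⟨_, _, F, hFE, ⟨z, hz, hyz⟩, hF⟩ := hy
  have hinj := powC_injOn (hE.subset hFE) m (hF m hm)
  have hmaps : Set.MapsTo (powC m) (ConjClasses.mk '' {x | x ∈ F ∧ x ∈ L})
      (ConjClasses.mk '' {x | x ∈ F ∧ x ∈ L}) := by
    rintro _ ⟨a, ⟨ha, haL⟩, rfl⟩
    obtain ⟨b, hb, hab⟩ := (hF m hm).1 a ha
    exact ⟨b, ⟨hb, mem_of_isConj hL hab (L.pow_mem haL m)⟩,
      (ConjClasses.mk_eq_mk_iff_isConj.2 hab).symm⟩
  have hsurj : Set.SurjOn (powC m) (ConjClasses.mk '' {x | x ∈ F ∧ x ∈ L})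
      (ConjClasses.mk '' {x | x ∈ F ∧ x ∈ L}) := by
    apply onto_of_injOn _ hmaps
    · exact hinj.mono (Set.image_mono fun x hx => hx.1)
    · exact ((hE.subset hFE).subset fun x hx => hx.1).image _
  obtain ⟨_, ⟨x, ⟨_, hxL⟩, rfl⟩, hxz⟩ := hsurj ⟨z, ⟨hz, mem_of_isConj hL hyz hyL⟩, rfl⟩
  rw [powC_mk, ConjClasses.mk_eq_mk_iff_isConj] at hxz
  obtain ⟨c, hc⟩ := isConj_iff.1 (hxz.trans hyz.symm)
  refine ⟨c * x * c⁻¹, hL.conj_mem x hxL c, ?_⟩
  rw [conj_pow, hc]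

end

/-- The condition on a normal subgroup `N`, relative to a set `E`. -/
def Reducible4 {G : Type u} [Group G] (E : Set G) (N : Subgroup G) : Prop :=
  (∃ p : ℕ, p.Prime ∧ ∀ U : Subgroup G, U ≤ N → U.FG →
    {y | y ∈ N ∧ ∃ a ∈ E, ∃ b ∈ E, y = a⁻¹ * b} ⊆ (U : Set G) →
    ∃ φ : U →* Multiplicative (ZMod p), φ ≠ 1) ∨
  (∃ (M : Subgroup G) (_ : M.Normal), M ≤ N ∧
    Subgroup.closure {y : G ⧸ M | y ∈ N.map (QuotientGroup.mk' M) ∧ ¬ IsOfFinOrder y ∧
        y ∈ ⁅Subgroup.centralizer {y}, Subgroup.centralizer {y}⁆ ∧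
        ∀ m : ℕ, 1 ≤ m → ∃ x ∈ N.map (QuotientGroup.mk' M), x ^ m = y} ≠
      N.map (QuotientGroup.mk' M)) ∨
  (∃ (M : Subgroup G) (_ : M.Normal) (k : ℕ) (B : Fin (k + 1) → Subgroup (G ⧸ M)),
    M ≤ N ∧ (∀ i, (B i).Normal) ∧ B 0 < N.map (QuotientGroup.mk' M) ∧
    ∃ χ ∈ NullFun {R : Subgroup (G ⧸ M) | ∃ _ : R.Normal,
        N.map (QuotientGroup.mk' M) ≤ R ∨ NPP ((G ⧸ M) ⧸ R)},
      ∀ y, (y = 1 ∨ (y ∈ ⁅Subgroup.centralizer {y}, Subgroup.centralizer {y}⁆ ∧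
          ∃ z ∈ (QuotientGroup.mk' M) '' E, IsConj y z)) →
        χ y = Nat.card {i // y ∈ B i}) ∨
  (∃ V : Subgroup G, V.FiniteIndex ∧ N ≤ V ∧ NPP V)

/-- Core theorem. -/
theorem eq_zero_of_kills4 {G : Type u} [Group G] {n : Type} [Fintype n] [DecidableEq n]
    (K : Subgroup G) [hKn : K.Normal] (A : Matrix n n (MonoidAlgebra ℤ G)) (S : Set G)
    (hSf : S.Finite) (hS : ∀ i j, ∀ a ∈ (A i j).coeff.support, a ∈ S)
    (hyp : ∀ N : Subgroup G, N.Normal → N ≤ K → N ≠ ⊥ →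
      Subgroup.normalClosure {y | y ∈ N ∧ ∃ a ∈ S, ∃ b ∈ S, y = a⁻¹ * b} = N → Reducible4 S N)
    (hA : A * A = A) (hK : Kills K A) : A = 0 := by
  classical
  obtain ⟨N, hNn, hNK, hN, hNT, hmin⟩ := exists_minimal'' S hS K hK
  by_cases hbot : N = ⊥
  · rw [hbot] at hN
    exact hN.eq_zero
  exfalso
  have hTfin : {y | y ∈ N ∧ ∃ a ∈ S, ∃ b ∈ S, y = a⁻¹ * b}.Finite := by
    refine Set.Finite.subset (Set.Finite.image2 (fun a b => a⁻¹ * b) hSf hSf) ?_
    rintro y ⟨_, a, ha, b, hb, rfl⟩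
    exact ⟨a, ha, b, hb, rfl⟩
  have hzero : A ≠ 0 := by
    rintro rfl
    apply hbot
    symm
    apply hmin ⊥ inferInstance bot_le
    intro i j
    rfl
  have hpull : ∀ (M : Subgroup G) (hMn : M.Normal) (C : Subgroup (G ⧸ M)), C.Normal → M ≤ N →
      C ≤ N.map (QuotientGroup.mk' M) → Kills C (im (QuotientGroup.mk' M) A) →
      C = N.map (QuotientGroup.mk' M) := by
    intro M hMn C hCn hMN hC h1
    rw [kills_comap_iff] at h1
    have h4 : C.comap (QuotientGroup.mk' M) ≤ N := by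
      intro x hx
      obtain ⟨y, hy, hyx⟩ := hC hx
      rw [QuotientGroup.mk'_apply, QuotientGroup.mk'_apply, QuotientGroup.eq] at hyx
      have h6 := N.mul_mem hy (hMN hyx)
      rwa [mul_inv_cancel_left] at h6
    have h5 := hmin _ (hCn.comap _) h4 h1
    rw [← h5, Subgroup.map_comap_eq_self_of_surjective (QuotientGroup.mk'_surjective M)]
  have hE : ∀ (M : Subgroup G) (_ : M.Normal) i j,
      ∀ a ∈ (im (QuotientGroup.mk' M) A i j).coeff.support, a ∈ (QuotientGroup.mk' M) '' S := by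
    intro M _ i j a ha
    rw [im_coeff] at ha
    obtain ⟨b, hb, rfl⟩ := Finset.mem_image.1 (Finsupp.mapDomain_support ha)
    exact ⟨b, hS i j b hb, rfl⟩
  rcases hyp N hNn hNK hbot hNT with ⟨p, hp, hU⟩ | ⟨M, hMn, hMN, hcl⟩ |
      ⟨M, hMn, k, B, hMN, hBn, hB, χ, hχ, hχB⟩ | ⟨V, hVf, hNV, hV⟩
  · have : Fact p.Prime := ⟨hp⟩
    have h1 := kills_pcore p N A hA hN
    have h3 := hmin _ (pcore_normal p _) (pcore_le p _) h1
    obtain ⟨U, hU1, hU2, hU3, hU4⟩ := exists_finset_pcore (p := p)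
      (N := N) hTfin.toFinset (by
        intro x hx
        rw [h3]
        exact (hTfin.mem_toFinset.1 hx).1)
    obtain ⟨φ, hφ⟩ := hU U hU1 hU2 fun x hx => hU4 x (hTfin.mem_toFinset.2 hx)
    exact hφ (hU3 φ)
  · have hLn : (N.map (QuotientGroup.mk' M)).Normal :=
      Subgroup.Normal.map hNn _ (QuotientGroup.mk'_surjective M)
    obtain ⟨h1, h2⟩ := kills_badIn (N.map (QuotientGroup.mk' M)) (im (QuotientGroup.mk' M) A)
      (im_idem _ hA) (kills_im _ _ _ (Subgroup.le_comap_map _ _) hN) _ (hE M hMn)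
    have h3 := hpull M hMn _ h2 hMN ((Subgroup.closure_le _).2 fun y hy => hy.1) h1
    apply hcl
    apply le_antisymm
    · exact (Subgroup.closure_le _).2 fun y hy => hy.1
    · conv_lhs => rw [← h3]
      apply Subgroup.closure_mono
      rintro y ⟨hyN, hy⟩
      have hfin : ((QuotientGroup.mk' M) '' S).Finite := hSf.image _
      exact ⟨hyN, hy.not_isOfFinOrder hfin, hy.2.1, fun m hm => hy.exists_root hfin hLn hyN m hm⟩
  · have hKN : Kills (N.map (QuotientGroup.mk' M)) (im (QuotientGroup.mk' M) A) :=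
      kills_im _ _ _ (Subgroup.le_comap_map _ _) hN
    have h1 : Kills (B 0) (im (QuotientGroup.mk' M) A) := by
      refine kills_of_nullFun B hBn _ (im_idem _ hA) _ ?_ _ (hE M hMn) χ hχ ?_ 0
      · rintro R ⟨hRn, hR | hR⟩
        · exact hKN.mono hR
        · rw [kills_iff_im_eq_zero]
          exact hR.matrix _ (im_idem _ (im_idem _ hA))
            (kills_im _ ⊤ ⊤ le_top (hKN.mono le_top))
      · intro y hy
        rw [hχB y, Finset.sum_boole, Nat.card_eq_fintype_card, Fintype.card_subtype]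
        rcases hy with hy | ⟨_, hy, F, hFE, ⟨z, hz, hyz⟩, _⟩
        · exact Or.inl hy
        · exact Or.inr ⟨hy, z, hFE hz, hyz⟩
    exact hB.ne (hpull M hMn _ (hBn 0) hMN hB.le h1)
  · exact hzero (eq_zero_of_finiteIndex N V hNV hV A hA hN)

/-- The main theorem. -/
theorem npp_main4 {G : Type u} [Group G]
    (hG : ∀ S : Finset G, ∃ (H : Type u) (_ : Group H) (K : Subgroup H) (_ : K.Normal) (φ : G → H),
      Set.InjOn φ S ∧ (∀ a ∈ S, ∀ b ∈ S, φ (a * b) = φ a * φ b) ∧ NPP (H ⧸ K) ∧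
      ∀ N : Subgroup H, N.Normal → N ≤ K → N ≠ ⊥ →
        Subgroup.normalClosure {y | y ∈ N ∧ ∃ a ∈ φ '' S, ∃ b ∈ φ '' S, y = a⁻¹ * b} = N →
        Reducible4 (φ '' S) N) :
    NPP G := by
  classical
  apply NPP.of_matrix
  intro m A hA hK
  let S : Finset G := Finset.univ.biUnion fun ij : Fin m × Fin m => (A ij.1 ij.2).coeff.support
  have hS : ∀ i j, (A i j).coeff.support ⊆ S := fun i j a ha =>
    Finset.mem_biUnion.2 ⟨(i, j), Finset.mem_univ _, ha⟩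
  obtain ⟨H, _, K, _, φ, hinj, hφ, hN, hgood⟩ := hG S
  obtain ⟨A', hA', hK', hsupp, h0⟩ := transfer' A hA hK S hS φ hinj hφ
  apply h0
  apply eq_zero_of_kills4 K A' (φ '' S) (S.finite_toSet.image φ) hsupp hgood hA'
  rw [kills_iff_im_eq_zero]
  exact hN.matrix _ (im_idem _ hA') (kills_im _ ⊤ ⊤ le_top hK')

end

end Pool.Agent.H677_Perf
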