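import Pool.Agent.H677_Perf.KillRep

set_option autoImplicit false
set_option linter.unusedSectionVars false

universe u

namespace Pool.Agent.H677_Perf

noncomputable section

/-- The elements of `ℤQ` with image zero in `ℤ[Q ⧸ L]` and in all matrix representations over
group rings without perfect projectives. -/
def KilledSet {Q : Type u} [Group Q] (L : Subgroup Q) : Set (MonoidAlgebra ℤ Q) :=
  {x | x.coeff.mapDomain (QuotientGroup.mk : Q → Q ⧸ L) = 0 ∧
    ∀ (Γ : Type u) (_ : Group Γ), NPP Γ → ∀ (d : ℕ)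
      (ρ : Q →* Matrix (Fin d) (Fin d) (MonoidAlgebra ℤ Γ)),
      MonoidAlgebra.lift ℤ (Matrix (Fin d) (Fin d) (MonoidAlgebra ℤ Γ)) Q ρ x = 0}

/-- The intersection of the powers of the span of `KilledSet L`. -/
def KilledIdeal {Q : Type u} [Group Q] (L : Subgroup Q) : Submodule ℤ (MonoidAlgebra ℤ Q) :=
  ⨅ m : ℕ, (Submodule.span ℤ (KilledSet L)) ^ (m + 1)

/-- The class functions whose trace is known to vanish. -/
def NullReal {Q : Type u} [Group Q] (L : Subgroup Q) : Submodule ℝ (Q → ℝ) :=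
  Submodule.span ℝ {h : Q → ℝ | (∀ a b, h (a * b) = h (b * a)) ∧
    ((∃ (m : ℕ) (c : Q → ℝ), 1 ≤ m ∧ (∀ a b, c (a * b) = c (b * a)) ∧
        ∀ g, h g = c g - c (g ^ m)) ∨
      RC.CycOn (KilledIdeal L : Set (MonoidAlgebra ℤ Q)) fun x => x.coeff.sum fun g a => a * h g)}

section

variable {Q : Type u} [Group Q] {n : Type} [Fintype n] [DecidableEq n]
  {A : Matrix n n (MonoidAlgebra ℤ Q)}

lemma mem_killedSet (hA : A * A = A) {L : Subgroup Q} (hL : Kills L A) (i j : n) :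
    A i j ∈ KilledSet L := by
  refine ⟨hL i j, fun Γ _ hΓ d ρ => ?_⟩
  exact kills_rep hΓ hA (hL.mono le_top) ρ i j

lemma mem_killedIdeal (hA : A * A = A) {L : Subgroup Q} (hL : Kills L A) (i j : n) :
    A i j ∈ KilledIdeal L := by
  have h1 : ∀ i j, A i j ∈ Submodule.span ℤ (KilledSet L) := fun i j =>
    Submodule.subset_span (mem_killedSet hA hL i j)
  have h2 : ∀ m : ℕ, ∀ i j, A i j ∈ (Submodule.span ℤ (KilledSet L)) ^ (m + 1) := by
    intro m
    induction m with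
    | zero => intro i j; simpa using h1 i j
    | succ m ih =>
      intro i j
      have h3 : A i j = (A * A) i j := by rw [hA]
      rw [h3, Matrix.mul_apply, pow_succ _ (m + 1)]
      exact Submodule.sum_mem _ fun k _ => Submodule.mul_mem_mul (ih i k) (h1 k j)
  rw [KilledIdeal, Submodule.mem_iInf]
  exact fun m => h2 m i j

lemma evalFn_real (h : Q → ℝ) (x : MonoidAlgebra ℤ Q) :
    evalFn h x = x.coeff.sum fun g a => a * h g := by
  rw [evalFn_eq_sum]
  refine Finsupp.sum_congr fun g _ => ?_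
  rw [zsmul_eq_mul]

lemma Tau_cycOn (hA : A * A = A) {L : Subgroup Q} (hL : Kills L A) {h : Q → ℝ}
    (hh : RC.CycOn (KilledIdeal L : Set (MonoidAlgebra ℤ Q)) fun x => x.coeff.sum fun g a => a * h g) :
    Tau h A = 0 := by
  rw [Tau_apply]
  refine RC.trace_eq_zero_of_cycOn hA (J := (KilledIdeal L : Set (MonoidAlgebra ℤ Q)))
    (fun i j => mem_killedIdeal hA hL i j) (evalFn h) ?_
  have e : (fun x : MonoidAlgebra ℤ Q => evalFn h x) =
      fun x => x.coeff.sum fun g a => a * h g := funext fun x => evalFn_real h x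
  change RC.CycOn _ (fun x : MonoidAlgebra ℤ Q => evalFn h x)
  rw [e]
  exact hh

/-- a class function as a function on classes -/
def onCl {B : Type*} (χ : Q → B) (hχ : ∀ a b, χ (a * b) = χ (b * a)) : ConjClasses Q → B :=
  Quotient.lift χ fun _ _ hab => by
    obtain ⟨c, rfl⟩ := isConj_iff.1 hab
    rw [hχ (c * _) c⁻¹]
    congr 1
    group

lemma onCl_mk {B : Type*} (χ : Q → B) (hχ : ∀ a b, χ (a * b) = χ (b * a)) (x : Q) :
    onCl χ hχ (ConjClasses.mk x) = χ x := rfl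

lemma Tau_eq_sum_cl {B : Type*} [AddCommGroup B] (χ : Q → B)
    (hχ : ∀ a b, χ (a * b) = χ (b * a)) :
    Tau χ A = (rk A).sum fun c r => r • onCl χ hχ c := by
  rw [← Tau_eq_rk]
  rfl

lemma Tau_pow' {B : Type*} [AddCommGroup B] (hA : A * A = A) (ψ : Q → B)
    (hψ : ∀ a b, ψ (a * b) = ψ (b * a)) (m : ℕ) (hm : 1 ≤ m) :
    Tau (fun x => ψ (x ^ m)) A = Tau ψ A := by
  classical
  have h1 : (fun x => ψ (x ^ m)) = fun x => onCl ψ hψ (powC m (ConjClasses.mk x)) := by
    funext x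
    rw [powC_mk, onCl_mk]
  rw [h1, Tau_eq_rk (fun c => onCl ψ hψ (powC m c)) A, Tau_eq_sum_cl ψ hψ]
  conv_rhs => rw [← rk_powC hA m hm]
  rw [Finsupp.sum_mapDomain_index (by simp) (by intro b m₁ m₂; rw [add_smul])]

lemma evalFn_add_fun {B : Type*} [AddCommGroup B] (χ₁ χ₂ : Q → B) (x : MonoidAlgebra ℤ Q) :
    evalFn (χ₁ + χ₂) x = evalFn χ₁ x + evalFn χ₂ x := by
  rw [evalFn_eq_sum, evalFn_eq_sum, evalFn_eq_sum, ← Finsupp.sum_add]
  refine Finsupp.sum_congr fun g _ => ?_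
  rw [Pi.add_apply, smul_add]

lemma Tau_add_fun' {B : Type*} [AddCommGroup B] (χ₁ χ₂ : Q → B) :
    Tau (χ₁ + χ₂) A = Tau χ₁ A + Tau χ₂ A := by
  rw [Tau_apply, Tau_apply, Tau_apply, ← Finset.sum_add_distrib]
  exact Finset.sum_congr rfl fun i _ => evalFn_add_fun _ _ _

lemma Tau_smul_fun (r : ℝ) (χ : Q → ℝ) : Tau (r • χ) A = r * Tau χ A := by
  rw [Tau_apply, Tau_apply, Finset.mul_sum]
  refine Finset.sum_congr rfl fun i _ => ?_
  rw [evalFn_eq_sum, evalFn_eq_sum, Finsupp.mul_sum]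
  refine Finsupp.sum_congr fun g _ => ?_
  rw [Pi.smul_apply, smul_eq_mul, zsmul_eq_mul, zsmul_eq_mul]
  ring

lemma NullReal.tau_eq_zero (hA : A * A = A) {L : Subgroup Q} (hL : Kills L A) {h : Q → ℝ}
    (hh : h ∈ NullReal L) : Tau h A = 0 := by
  induction hh using Submodule.span_induction with
  | mem h hh =>
    rcases hh.2 with ⟨m, c, hm, hc, hh⟩ | hh
    · have h1 : h = c + (-1 : ℝ) • fun g => c (g ^ m) := by
        funext g
        rw [hh g]
        simp [sub_eq_add_neg]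
      rw [h1, Tau_add_fun', Tau_smul_fun, Tau_pow' hA c hc m hm]
      ring
    · exact Tau_cycOn hA hL hh
  | zero =>
    have := Tau_smul_fun (A := A) 0 (0 : Q → ℝ)
    simpa using this
  | add h h' _ _ e e' => rw [Tau_add_fun', e, e', add_zero]
  | smul r h _ e => rw [Tau_smul_fun, e, mul_zero]

lemma NullReal.class_fun {L : Subgroup Q} {h : Q → ℝ} (hh : h ∈ NullReal L) :
    ∀ a b, h (a * b) = h (b * a) := by
  induction hh using Submodule.span_induction with
  | mem h hh => exact hh.1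
  | zero => intro a b; rfl
  | add h h' _ _ e e' => intro a b; rw [Pi.add_apply, Pi.add_apply, e, e']
  | smul r h _ e => intro a b; rw [Pi.smul_apply, Pi.smul_apply, e]

lemma coeff_one_mul_comm {Γ : Type*} [Group Γ] (x y : MonoidAlgebra ℝ Γ) :
    (x * y).coeff 1 = (y * x).coeff 1 := by
  induction x using MonoidAlgebra.induction_linear with
  | zero => simp
  | add x x' hx hx' =>
    rw [add_mul, mul_add, MonoidAlgebra.coeff_add, MonoidAlgebra.coeff_add, Finsupp.add_apply,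
      Finsupp.add_apply, hx, hx']
  | single g r =>
    induction y using MonoidAlgebra.induction_linear with
    | zero => simp
    | add y y' hy hy' =>
      rw [add_mul, mul_add, MonoidAlgebra.coeff_add, MonoidAlgebra.coeff_add, Finsupp.add_apply,
        Finsupp.add_apply, hy, hy']
    | single h s =>
      rw [MonoidAlgebra.single_mul_single, MonoidAlgebra.single_mul_single,
        MonoidAlgebra.coeff_single, MonoidAlgebra.coeff_single, mul_comm s r]
      by_cases e : g * h = 1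
      · have e' : h * g = 1 := mul_eq_one_comm.1 e
        rw [e, e']
      · have e' : h * g ≠ 1 := fun e' => e (mul_eq_one_comm.1 e')
        rw [Finsupp.single_eq_of_ne (Ne.symm e), Finsupp.single_eq_of_ne (Ne.symm e')]

lemma trace_rep_comm {Γ : Type*} [Group Γ] {d : ℕ}
    (ρ : Q →* Matrix (Fin d) (Fin d) (MonoidAlgebra ℝ Γ)) (a b : Q) :
    ((ρ (a * b)).trace).coeff 1 = ((ρ (b * a)).trace).coeff 1 := by
  have key : ∀ X Y : Matrix (Fin d) (Fin d) (MonoidAlgebra ℝ Γ),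
      ((X * Y).trace).coeff 1 = ∑ i, ∑ j, (X i j * Y j i).coeff 1 := by
    intro X Y
    rw [Matrix.trace, MonoidAlgebra.coeff_sum, Finsupp.coe_finsetSum, Finset.sum_apply]
    refine Finset.sum_congr rfl fun i _ => ?_
    rw [Matrix.diag_apply, Matrix.mul_apply, MonoidAlgebra.coeff_sum, Finsupp.coe_finsetSum,
      Finset.sum_apply]
  rw [map_mul, map_mul, key, key, Finset.sum_comm]
  refine Finset.sum_congr rfl fun i _ => Finset.sum_congr rfl fun j _ => ?_
  exact coeff_one_mul_comm _ _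

lemma Tau_real_indicator (B : Subgroup Q) [hBn : B.Normal] [DecidablePred (· ∈ B)] :
    Tau ((B : Set Q).indicator fun _ => (1 : ℝ)) A =
      ((∑ i, (im (QuotientGroup.mk' B) A i i).coeff 1 : ℤ) : ℝ) := by
  rw [Tau_indicator_eq, Tau_apply, Tau_apply, Int.cast_sum]
  refine Finset.sum_congr rfl fun i _ => ?_
  have h1 := map_evalFn (Int.castAddHom ℝ) (fun g => if g ∈ B then (1 : ℤ) else 0) (A i i)
  change ((evalFn (fun g => if g ∈ B then (1 : ℤ) else 0) (A i i) : ℤ) : ℝ) = _ at h1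
  rw [h1]
  congr 1
  congr 1
  funext g
  by_cases hg : g ∈ B
  · rw [if_pos hg, Set.indicator_of_mem (by exact hg)]
    simp
  · rw [if_neg hg, Set.indicator_of_notMem (by exact hg)]
    simp

/-- The trace criterion. -/
theorem kills_of_nullReal (B : Subgroup Q) [hBn : B.Normal] (hA : A * A = A) {L : Subgroup Q}
    (hL : Kills L A) (E : Set Q) (hE : ∀ i j, ∀ a ∈ (A i j).coeff.support, a ∈ E)
    {Γ : Type*} [Group Γ] {d : ℕ} (ρ : Q →* Matrix (Fin d) (Fin d) (MonoidAlgebra ℝ Γ))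
    (h : Q → ℝ) (hh : h ∈ NullReal L)
    (hB : ∀ y, (y = 1 ∨ BadIn E y) →
      h y = (B : Set Q).indicator (fun _ => (1 : ℝ)) y + ((ρ y).trace).coeff 1) :
    Kills B A := by
  classical
  have hcl := NullReal.class_fun hh
  have hBcl : ∀ a b : Q, (B : Set Q).indicator (fun _ => (1 : ℝ)) (a * b) =
      (B : Set Q).indicator (fun _ => (1 : ℝ)) (b * a) := by
    intro a b
    have h1 : a * b ∈ B ↔ b * a ∈ B := hBn.mem_comm_iff
    by_cases h2 : a * b ∈ B
    · rw [Set.indicator_of_mem (by exact h2), Set.indicator_of_mem (by exact h1.1 h2)]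
    · rw [Set.indicator_of_notMem (by exact h2),
        Set.indicator_of_notMem (by exact fun h3 => h2 (h1.2 h3))]
  set ind : Q → ℝ := (B : Set Q).indicator (fun _ => (1 : ℝ)) with hind
  set θ : Q → ℝ := fun y => ((ρ y).trace).coeff 1 with hθ
  let e : Q → ℝ := (ind + θ) + (-1 : ℝ) • h
  have he : ∀ a b, e (a * b) = e (b * a) := by
    intro a b
    simp only [e, Pi.add_apply, Pi.smul_apply, smul_eq_mul]
    rw [hBcl, hcl a b, hθ]
    simp only []
    rw [trace_rep_comm]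
  have h3 : Tau e A = 0 := by
    rw [Tau_eq_sum_cl e he, Finsupp.sum]
    refine Finset.sum_eq_zero fun c hc => ?_
    obtain ⟨x, rfl⟩ := ConjClasses.exists_rep c
    have hr : rkAt x A ≠ 0 := by
      rw [rkAt_apply]
      exact Finsupp.mem_support_iff.1 hc
    change _ • onCl e he (ConjClasses.mk x) = 0
    rw [onCl_mk]
    have : e x = 0 := by
      simp only [e, Pi.add_apply, Pi.smul_apply, smul_eq_mul]
      rw [hB x]
      · ring
      · by_cases hx1 : x = 1
        · exact Or.inl hx1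
        · exact Or.inr (badIn_of_rk_ne_zero hA hE hx1 hr)
    rw [this, smul_zero]
  have h4 : Tau e A = (Tau ind A + Tau θ A) + (-1 : ℝ) * Tau h A := by
    rw [← Tau_smul_fun, ← Tau_add_fun', ← Tau_add_fun']
  rw [NullReal.tau_eq_zero hA hL hh, mul_zero, add_zero, h3] at h4
  have h5 : 0 ≤ Tau θ A := rep_trace_nonneg ρ hA
  have h6 : Tau ind A = ((∑ i, (im (QuotientGroup.mk' B) A i i).coeff 1 : ℤ) : ℝ) :=
    Tau_real_indicator B
  have h7 : 0 ≤ ∑ i, (im (QuotientGroup.mk' B) A i i).coeff 1 := trace_nonneg _ (im_idem _ hA)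
  have h8 : ((∑ i, (im (QuotientGroup.mk' B) A i i).coeff 1 : ℤ) : ℝ) = 0 := by
    have h9 : (0 : ℝ) ≤ ((∑ i, (im (QuotientGroup.mk' B) A i i).coeff 1 : ℤ) : ℝ) := by
      exact_mod_cast h7
    rw [h6] at h4
    linarith
  rw [kills_iff_im_eq_zero]
  apply eq_zero_of_trace _ (im_idem _ hA)
  exact_mod_cast h8

end

/-- The condition on a normal subgroup `N`, relative to a set `E`. -/
def Reducible5 {G : Type u} [Group G] (E : Set G) (N : Subgroup G) : Prop :=
  (∃ p : ℕ, p.Prime ∧ ∀ U : Subgroup G, U ≤ N → U.FG →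
    {y | y ∈ N ∧ ∃ a ∈ E, ∃ b ∈ E, y = a⁻¹ * b} ⊆ (U : Set G) →
    ∃ φ : U →* Multiplicative (ZMod p), φ ≠ 1) ∨
  (∃ (M : Subgroup G) (_ : M.Normal) (B : Subgroup (G ⧸ M)) (_ : B.Normal)
    (Γ : Type u) (_ : Group Γ) (d : ℕ)
    (ρ : (G ⧸ M) →* Matrix (Fin d) (Fin d) (MonoidAlgebra ℝ Γ)),
    M ≤ N ∧ B < N.map (QuotientGroup.mk' M) ∧
    ∃ h ∈ NullReal (N.map (QuotientGroup.mk' M)),
      ∀ y, (y = 1 ∨ BadIn ((QuotientGroup.mk' M) '' E) y) →
        h y = (B : Set (G ⧸ M)).indicator (fun _ => (1 : ℝ)) y + ((ρ y).trace).coeff 1)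

/-- Core theorem. -/
theorem eq_zero_of_kills5 {G : Type u} [Group G] {n : Type} [Fintype n] [DecidableEq n]
    (K : Subgroup G) [hKn : K.Normal] (A : Matrix n n (MonoidAlgebra ℤ G)) (S : Set G)
    (hSf : S.Finite) (hS : ∀ i j, ∀ a ∈ (A i j).coeff.support, a ∈ S)
    (hyp : ∀ N : Subgroup G, N.Normal → N ≤ K → N ≠ ⊥ →
      Subgroup.normalClosure {y | y ∈ N ∧ ∃ a ∈ S, ∃ b ∈ S, y = a⁻¹ * b} = N → Reducible5 S N)
    (hA : A * A = A) (hK : Kills K A) : A = 0 := by
  classical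
  obtain ⟨N, hNn, hNK, hN, hNT, hmin⟩ := exists_minimal'' S hS K hK
  by_cases hbot : N = ⊥
  · rw [hbot] at hN
    exact hN.eq_zero
  exfalso
  have hTfin : {y | y ∈ N ∧ ∃ a ∈ S, ∃ b ∈ S, y = a⁻¹ * b}.Finite := by
    refine Set.Finite.subset (Set.Finite.image2 (fun a b => a⁻¹ * b) hSf hSf) ?_
    rintro y ⟨_, a, ha, b, hb, rfl⟩
    exact ⟨a, ha, b, hb, rfl⟩
  rcases hyp N hNn hNK hbot hNT with ⟨p, hp, hU⟩ | ⟨M, hMn, B, hBn, Γ, _, d, ρ, hMN, hB, h, hh, hhB⟩
  · have : Fact p.Prime := ⟨hp⟩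
    have h1 := kills_pcore p N A hA hN
    have h3 := hmin _ (pcore_normal p _) (pcore_le p _) h1
    obtain ⟨U, hU1, hU2, hU3, hU4⟩ := exists_finset_pcore (p := p)
      (N := N) hTfin.toFinset (by
        intro x hx
        rw [h3]
        exact (hTfin.mem_toFinset.1 hx).1)
    obtain ⟨φ, hφ⟩ := hU U hU1 hU2 fun x hx => hU4 x (hTfin.mem_toFinset.2 hx)
    exact hφ (hU3 φ)
  · have hE : ∀ i j, ∀ a ∈ (im (QuotientGroup.mk' M) A i j).coeff.support,
        a ∈ (QuotientGroup.mk' M) '' S := by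
      intro i j a ha
      rw [im_coeff] at ha
      obtain ⟨b, hb, rfl⟩ := Finset.mem_image.1 (Finsupp.mapDomain_support ha)
      exact ⟨b, hS i j b hb, rfl⟩
    have hKN : Kills (N.map (QuotientGroup.mk' M)) (im (QuotientGroup.mk' M) A) :=
      kills_im _ _ _ (Subgroup.le_comap_map _ _) hN
    have h1 : Kills B (im (QuotientGroup.mk' M) A) :=
      kills_of_nullReal B (im_idem _ hA) hKN _ hE ρ h hh hhB
    rw [kills_comap_iff] at h1
    have h4 : B.comap (QuotientGroup.mk' M) ≤ N := by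
      intro x hx
      obtain ⟨y, hy, hyx⟩ := hB.le hx
      rw [QuotientGroup.mk'_apply, QuotientGroup.mk'_apply, QuotientGroup.eq] at hyx
      have h6 := N.mul_mem hy (hMN hyx)
      rwa [mul_inv_cancel_left] at h6
    have h5 := hmin _ (hBn.comap _) h4 h1
    apply hB.ne
    rw [← h5, Subgroup.map_comap_eq_self_of_surjective (QuotientGroup.mk'_surjective M)]

/-- The main theorem. -/
theorem npp_main5 {G : Type u} [Group G]
    (hG : ∀ S : Finset G, ∃ (H : Type u) (_ : Group H) (K : Subgroup H) (_ : K.Normal) (φ : G → H),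
      Set.InjOn φ S ∧ (∀ a ∈ S, ∀ b ∈ S, φ (a * b) = φ a * φ b) ∧ NPP (H ⧸ K) ∧
      ∀ N : Subgroup H, N.Normal → N ≤ K → N ≠ ⊥ →
        Subgroup.normalClosure {y | y ∈ N ∧ ∃ a ∈ φ '' S, ∃ b ∈ φ '' S, y = a⁻¹ * b} = N →
        Reducible5 (φ '' S) N) :
    NPP G := by
  classical
  apply NPP.of_matrix
  intro m A hA hK
  let S : Finset G := Finset.univ.biUnion fun ij : Fin m × Fin m => (A ij.1 ij.2).coeff.support
  have hS : ∀ i j, (A i j).coeff.support ⊆ S := fun i j a ha =>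
    Finset.mem_biUnion.2 ⟨(i, j), Finset.mem_univ _, ha⟩
  obtain ⟨H, _, K, _, φ, hinj, hφ, hN, hgood⟩ := hG S
  obtain ⟨A', hA', hK', hsupp, h0⟩ := transfer' A hA hK S hS φ hinj hφ
  apply h0
  apply eq_zero_of_kills5 K A' (φ '' S) (S.finite_toSet.image φ) hsupp hgood hA'
  rw [kills_iff_im_eq_zero]
  exact hN.matrix _ (im_idem _ hA') (kills_im _ ⊤ ⊤ le_top hK')

end

end Pool.Agent.H677_Perf
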