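import Pool.Agent.H677_Perf.Final5

set_option autoImplicit false
set_option linter.unusedSectionVars false

universe u

namespace Pool.Agent.H677_Perf

noncomputable section

/-- The condition on a normal subgroup `N`, relative to a set `E`. -/
def Reducible6 {G : Type u} [Group G] (E : Set G) (N : Subgroup G) : Prop :=
  (∃ p : ℕ, p.Prime ∧ ∀ U : Subgroup G, U ≤ N → U.FG →
    {y | y ∈ N ∧ ∃ a ∈ E, ∃ b ∈ E, y = a⁻¹ * b} ⊆ (U : Set G) →
    ∃ φ : U →* Multiplicative (ZMod p), φ ≠ 1) ∨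
  (∃ (B : Subgroup G) (_ : B.Normal) (Γ : Type u) (_ : Group Γ) (d : ℕ)
    (ρ : G →* Matrix (Fin d) (Fin d) (MonoidAlgebra ℝ Γ)),
    B < N ∧ ∃ h ∈ NullReal N, ∀ y, (y = 1 ∨ BadIn E y) →
      h y = (B : Set G).indicator (fun _ => (1 : ℝ)) y + ((ρ y).trace).coeff 1)

/-- Core theorem. -/
theorem eq_zero_of_kills6 {G : Type u} [Group G] {n : Type} [Fintype n] [DecidableEq n]
    (K : Subgroup G) [hKn : K.Normal] (A : Matrix n n (MonoidAlgebra ℤ G)) (S : Set G)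
    (hSf : S.Finite) (hS : ∀ i j, ∀ a ∈ (A i j).coeff.support, a ∈ S)
    (hyp : ∀ N : Subgroup G, N.Normal → N ≤ K → N ≠ ⊥ →
      Subgroup.normalClosure {y | y ∈ N ∧ ∃ a ∈ S, ∃ b ∈ S, y = a⁻¹ * b} = N → Reducible6 S N)
    (hA : A * A = A) (hK : Kills K A) : A = 0 := by
  classical
  obtain ⟨N, hNn, hNK, hN, hNT, hmin⟩ := exists_minimal'' S hS K hK
  by_cases hbot : N = ⊥
  · rw [hbot] at hN
    exact hN.eq_zero
  exfalso
  have hTfin : {y | y ∈ N ∧ ∃ a ∈ S, ∃ b ∈ S, y = a⁻¹ * b}.Finite := by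
    refine Set.Finite.subset (Set.Finite.image2 (fun a b => a⁻¹ * b) hSf hSf) ?_
    rintro y ⟨_, a, ha, b, hb, rfl⟩
    exact ⟨a, ha, b, hb, rfl⟩
  rcases hyp N hNn hNK hbot hNT with ⟨p, hp, hU⟩ | ⟨B, hBn, Γ, _, d, ρ, hB, h, hh, hhB⟩
  · have : Fact p.Prime := ⟨hp⟩
    have h1 := kills_pcore p N A hA hN
    have h3 := hmin _ (pcore_normal p _) (pcore_le p _) h1
    obtain ⟨U, hU1, hU2, hU3, hU4⟩ := exists_finset_pcore (p := p)
      (N := N) hTfin.toFinset (by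
        intro x hx
        rw [h3]
        exact (hTfin.mem_toFinset.1 hx).1)
    obtain ⟨φ, hφ⟩ := hU U hU1 hU2 fun x hx => hU4 x (hTfin.mem_toFinset.2 hx)
    exact hφ (hU3 φ)
  · exact hB.ne (hmin _ hBn hB.le (kills_of_nullReal B hA hN _ hS ρ h hh hhB))

/-- The main theorem. -/
theorem npp_main6 {G : Type u} [Group G]
    (hG : ∀ S : Finset G, ∃ (H : Type u) (_ : Group H) (K : Subgroup H) (_ : K.Normal) (φ : G → H),
      Set.InjOn φ S ∧ (∀ a ∈ S, ∀ b ∈ S, φ (a * b) = φ a * φ b) ∧ NPP (H ⧸ K) ∧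
      ∀ N : Subgroup H, N.Normal → N ≤ K → N ≠ ⊥ →
        Subgroup.normalClosure {y | y ∈ N ∧ ∃ a ∈ φ '' S, ∃ b ∈ φ '' S, y = a⁻¹ * b} = N →
        Reducible6 (φ '' S) N) :
    NPP G := by
  classical
  apply NPP.of_matrix
  intro m A hA hK
  let S : Finset G := Finset.univ.biUnion fun ij : Fin m × Fin m => (A ij.1 ij.2).coeff.support
  have hS : ∀ i j, (A i j).coeff.support ⊆ S := fun i j a ha =>
    Finset.mem_biUnion.2 ⟨(i, j), Finset.mem_univ _, ha⟩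
  obtain ⟨H, _, K, _, φ, hinj, hφ, hN, hgood⟩ := hG S
  obtain ⟨A', hA', hK', hsupp, h0⟩ := transfer' A hA hK S hS φ hinj hφ
  apply h0
  apply eq_zero_of_kills6 K A' (φ '' S) (S.finite_toSet.image φ) hsupp hgood hA'
  rw [kills_iff_im_eq_zero]
  exact hN.matrix _ (im_idem _ hA') (kills_im _ ⊤ ⊤ le_top hK')

end

end Pool.Agent.H677_Perf
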