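import Pool.Agent.H677_Perf.Final5
import Pool.Agent.H677_Perf.KillRepK

set_option autoImplicit false
set_option linter.unusedSectionVars false

universe u

namespace Pool.Agent.H677_Perf

noncomputable section

/-- The elements of `ℤQ` with image zero in `ℤ[Q ⧸ L]` and in all matrix representations over
group rings without perfect projectives, with coefficients in residually finite commutative
rings. -/
def KilledSetK {Q : Type u} [Group Q] (L : Subgroup Q) : Set (MonoidAlgebra ℤ Q) :=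
  {x : MonoidAlgebra ℤ Q |
    x.coeff.mapDomain (QuotientGroup.mk : Q → Q ⧸ L) = 0 ∧
    ∀ (k : Type) (_ : CommRing k), RFRing k → ∀ (Γ : Type u) (_ : Group Γ), NPPk k Γ → ∀ (d : ℕ)
      (ρ : Q →* Matrix (Fin d) (Fin d) (MonoidAlgebra k Γ)),
      MonoidAlgebra.lift ℤ (Matrix (Fin d) (Fin d) (MonoidAlgebra k Γ)) Q ρ x = 0}

/-- The intersection of the powers of the ideal `KilledSetK`. -/
def KilledIdealK {Q : Type u} [Group Q] (L : Subgroup Q) : Submodule ℤ (MonoidAlgebra ℤ Q) :=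
  ⨅ m : ℕ, (Submodule.span ℤ (KilledSetK L)) ^ (m + 1)

/-- The class functions whose trace is known to vanish. -/
def NullOn {Q : Type u} [Group Q] (J : Submodule ℤ (MonoidAlgebra ℤ Q)) : Submodule ℝ (Q → ℝ) :=
  Submodule.span ℝ {h : Q → ℝ | (∀ a b, h (a * b) = h (b * a)) ∧
    ((∃ (m : ℕ) (c : Q → ℝ), 1 ≤ m ∧ (∀ a b, c (a * b) = c (b * a)) ∧
        ∀ g, h g = c g - c (g ^ m)) ∨
      RC.CycOn (J : Set (MonoidAlgebra ℤ Q)) fun x => x.coeff.sum fun g a => a * h g)}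

section

variable {Q : Type u} [Group Q] {n : Type} [Fintype n] [DecidableEq n]
  {A : Matrix n n (MonoidAlgebra ℤ Q)}

lemma mem_iInf_pow (hA : A * A = A) (X : Set (MonoidAlgebra ℤ Q)) (hX : ∀ i j, A i j ∈ X)
    (i j : n) : A i j ∈ ⨅ m : ℕ, (Submodule.span ℤ X) ^ (m + 1) := by
  have h1 : ∀ i j, A i j ∈ Submodule.span ℤ X := fun i j => Submodule.subset_span (hX i j)
  have h2 : ∀ m : ℕ, ∀ i j, A i j ∈ (Submodule.span ℤ X) ^ (m + 1) := by
    intro m
    induction m with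
    | zero => intro i j; simpa using h1 i j
    | succ m ih =>
      intro i j
      have h3 : A i j = (A * A) i j := by rw [hA]
      rw [h3, Matrix.mul_apply, pow_succ _ (m + 1)]
      exact Submodule.sum_mem _ fun k _ => Submodule.mul_mem_mul (ih i k) (h1 k j)
  rw [Submodule.mem_iInf]
  exact fun m => h2 m i j

lemma mem_killedIdealK (hA : A * A = A) {L : Subgroup Q} (hL : Kills L A) (i j : n) :
    A i j ∈ KilledIdealK L := by
  have key : ∀ i j, A i j ∈ KilledSetK L := fun i j =>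
    ⟨hL i j, fun k _ hk Γ _ hΓ d ρ => kills_repk hk hΓ hA (hL.mono le_top) ρ i j⟩
  exact mem_iInf_pow hA _ key i j

lemma Tau_cycOn' (hA : A * A = A) {J : Submodule ℤ (MonoidAlgebra ℤ Q)}
    (hJ : ∀ i j, A i j ∈ J) {h : Q → ℝ}
    (hh : RC.CycOn (J : Set (MonoidAlgebra ℤ Q)) fun x => x.coeff.sum fun g a => a * h g) :
    Tau h A = 0 := by
  rw [Tau_apply]
  refine RC.trace_eq_zero_of_cycOn hA (J := (J : Set (MonoidAlgebra ℤ Q)))
    (fun i j => hJ i j) (evalFn h) ?_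
  have e : (fun x : MonoidAlgebra ℤ Q => evalFn h x) =
      fun x => x.coeff.sum fun g a => a * h g := funext fun x => evalFn_real h x
  change RC.CycOn _ (fun x : MonoidAlgebra ℤ Q => evalFn h x)
  rw [e]
  exact hh

lemma NullOn.tau_eq_zero (hA : A * A = A) {J : Submodule ℤ (MonoidAlgebra ℤ Q)}
    (hJ : ∀ i j, A i j ∈ J) {h : Q → ℝ} (hh : h ∈ NullOn J) : Tau h A = 0 := by
  induction hh using Submodule.span_induction with
  | mem h hh =>
    rcases hh.2 with ⟨m, c, hm, hc, hh⟩ | hh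
    · have h1 : h = c + (-1 : ℝ) • fun g => c (g ^ m) := by
        funext g
        rw [hh g]
        simp [sub_eq_add_neg]
      rw [h1, Tau_add_fun', Tau_smul_fun, Tau_pow' hA c hc m hm]
      ring
    · exact Tau_cycOn' hA hJ hh
  | zero =>
    have := Tau_smul_fun (A := A) 0 (0 : Q → ℝ)
    simpa using this
  | add h h' _ _ e e' => rw [Tau_add_fun', e, e', add_zero]
  | smul r h _ e => rw [Tau_smul_fun, e, mul_zero]

lemma NullOn.class_fun {J : Submodule ℤ (MonoidAlgebra ℤ Q)} {h : Q → ℝ} (hh : h ∈ NullOn J) :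
    ∀ a b, h (a * b) = h (b * a) := by
  induction hh using Submodule.span_induction with
  | mem h hh => exact hh.1
  | zero => intro a b; rfl
  | add h h' _ _ e e' => intro a b; rw [Pi.add_apply, Pi.add_apply, e, e']
  | smul r h _ e => intro a b; rw [Pi.smul_apply, Pi.smul_apply, e]

/-- The trace criterion. -/
theorem kills_of_nullOn (B : Subgroup Q) [hBn : B.Normal] (hA : A * A = A)
    {J : Submodule ℤ (MonoidAlgebra ℤ Q)} (hJ : ∀ i j, A i j ∈ J)
    (E : Set Q) (hE : ∀ i j, ∀ a ∈ (A i j).coeff.support, a ∈ E)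
    {Γ : Type*} [Group Γ] {d : ℕ} (ρ : Q →* Matrix (Fin d) (Fin d) (MonoidAlgebra ℝ Γ))
    (h : Q → ℝ) (hh : h ∈ NullOn J)
    (hB : ∀ y, (y = 1 ∨ BadIn E y) →
      h y = (B : Set Q).indicator (fun _ => (1 : ℝ)) y + ((ρ y).trace).coeff 1) :
    Kills B A := by
  classical
  have hcl := NullOn.class_fun hh
  have hBcl : ∀ a b : Q, (B : Set Q).indicator (fun _ => (1 : ℝ)) (a * b) =
      (B : Set Q).indicator (fun _ => (1 : ℝ)) (b * a) := by
    intro a b
    have h1 : a * b ∈ B ↔ b * a ∈ B := hBn.mem_comm_iff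
    by_cases h2 : a * b ∈ B
    · rw [Set.indicator_of_mem (by exact h2), Set.indicator_of_mem (by exact h1.1 h2)]
    · rw [Set.indicator_of_notMem (by exact h2),
        Set.indicator_of_notMem (by exact fun h3 => h2 (h1.2 h3))]
  set ind : Q → ℝ := (B : Set Q).indicator (fun _ => (1 : ℝ)) with hind
  set θ : Q → ℝ := fun y => ((ρ y).trace).coeff 1 with hθ
  let e : Q → ℝ := (ind + θ) + (-1 : ℝ) • h
  have he : ∀ a b, e (a * b) = e (b * a) := by
    intro a b
    simp only [e, Pi.add_apply, Pi.smul_apply, smul_eq_mul]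
    rw [hBcl, hcl a b, hθ]
    simp only []
    rw [trace_rep_comm]
  have h3 : Tau e A = 0 := by
    rw [Tau_eq_sum_cl e he, Finsupp.sum]
    refine Finset.sum_eq_zero fun c hc => ?_
    obtain ⟨x, rfl⟩ := ConjClasses.exists_rep c
    have hr : rkAt x A ≠ 0 := by
      rw [rkAt_apply]
      exact Finsupp.mem_support_iff.1 hc
    change _ • onCl e he (ConjClasses.mk x) = 0
    rw [onCl_mk]
    have : e x = 0 := by
      simp only [e, Pi.add_apply, Pi.smul_apply, smul_eq_mul]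
      rw [hB x]
      · ring
      · by_cases hx1 : x = 1
        · exact Or.inl hx1
        · exact Or.inr (badIn_of_rk_ne_zero hA hE hx1 hr)
    rw [this, smul_zero]
  have h4 : Tau e A = (Tau ind A + Tau θ A) + (-1 : ℝ) * Tau h A := by
    rw [← Tau_smul_fun, ← Tau_add_fun', ← Tau_add_fun']
  rw [NullOn.tau_eq_zero hA hJ hh, mul_zero, add_zero, h3] at h4
  have h5 : 0 ≤ Tau θ A := rep_trace_nonneg ρ hA
  have h6 : Tau ind A = ((∑ i, (im (QuotientGroup.mk' B) A i i).coeff 1 : ℤ) : ℝ) :=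
    Tau_real_indicator B
  have h7 : 0 ≤ ∑ i, (im (QuotientGroup.mk' B) A i i).coeff 1 := trace_nonneg _ (im_idem _ hA)
  have h8 : ((∑ i, (im (QuotientGroup.mk' B) A i i).coeff 1 : ℤ) : ℝ) = 0 := by
    have h9 : (0 : ℝ) ≤ ((∑ i, (im (QuotientGroup.mk' B) A i i).coeff 1 : ℤ) : ℝ) := by
      exact_mod_cast h7
    rw [h6] at h4
    linarith
  rw [kills_iff_im_eq_zero]
  apply eq_zero_of_trace _ (im_idem _ hA)
  exact_mod_cast h8

end

/-- The condition on a normal subgroup `N`, relative to a set `E`. -/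
def Reducible7 {G : Type u} [Group G] (E : Set G) (N : Subgroup G) : Prop :=
  (∃ p : ℕ, p.Prime ∧ ∀ U : Subgroup G, U ≤ N → U.FG →
    {y | y ∈ N ∧ ∃ a ∈ E, ∃ b ∈ E, y = a⁻¹ * b} ⊆ (U : Set G) →
    ∃ φ : U →* Multiplicative (ZMod p), φ ≠ 1) ∨
  (∃ (B : Subgroup G) (_ : B.Normal) (Γ : Type u) (_ : Group Γ) (d : ℕ)
    (ρ : G →* Matrix (Fin d) (Fin d) (MonoidAlgebra ℝ Γ)),
    B < N ∧ ∃ h ∈ NullOn (KilledIdealK N), ∀ y, (y = 1 ∨ BadIn E y) →
      h y = (B : Set G).indicator (fun _ => (1 : ℝ)) y + ((ρ y).trace).coeff 1)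

/-- Core theorem. -/
theorem eq_zero_of_kills7 {G : Type u} [Group G] {n : Type} [Fintype n] [DecidableEq n]
    (K : Subgroup G) [hKn : K.Normal] (A : Matrix n n (MonoidAlgebra ℤ G)) (S : Set G)
    (hSf : S.Finite) (hS : ∀ i j, ∀ a ∈ (A i j).coeff.support, a ∈ S)
    (hyp : ∀ N : Subgroup G, N.Normal → N ≤ K → N ≠ ⊥ →
      Subgroup.normalClosure {y | y ∈ N ∧ ∃ a ∈ S, ∃ b ∈ S, y = a⁻¹ * b} = N → Reducible7 S N)
    (hA : A * A = A) (hK : Kills K A) : A = 0 := by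
  classical
  obtain ⟨N, hNn, hNK, hN, hNT, hmin⟩ := exists_minimal'' S hS K hK
  by_cases hbot : N = ⊥
  · rw [hbot] at hN
    exact hN.eq_zero
  exfalso
  have hTfin : {y | y ∈ N ∧ ∃ a ∈ S, ∃ b ∈ S, y = a⁻¹ * b}.Finite := by
    refine Set.Finite.subset (Set.Finite.image2 (fun a b => a⁻¹ * b) hSf hSf) ?_
    rintro y ⟨_, a, ha, b, hb, rfl⟩
    exact ⟨a, ha, b, hb, rfl⟩
  rcases hyp N hNn hNK hbot hNT with ⟨p, hp, hU⟩ | ⟨B, hBn, Γ, _, d, ρ, hB, h, hh, hhB⟩
  · have : Fact p.Prime := ⟨hp⟩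
    have h1 := kills_pcore p N A hA hN
    have h3 := hmin _ (pcore_normal p _) (pcore_le p _) h1
    obtain ⟨U, hU1, hU2, hU3, hU4⟩ := exists_finset_pcore (p := p)
      (N := N) hTfin.toFinset (by
        intro x hx
        rw [h3]
        exact (hTfin.mem_toFinset.1 hx).1)
    obtain ⟨φ, hφ⟩ := hU U hU1 hU2 fun x hx => hU4 x (hTfin.mem_toFinset.2 hx)
    exact hφ (hU3 φ)
  · exact hB.ne (hmin _ hBn hB.le
      (kills_of_nullOn B hA (mem_killedIdealK hA hN) _ hS ρ h hh hhB))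

/-- The main theorem. -/
theorem npp_main7 {G : Type u} [Group G]
    (hG : ∀ S : Finset G, ∃ (H : Type u) (_ : Group H) (K : Subgroup H) (_ : K.Normal) (φ : G → H),
      Set.InjOn φ S ∧ (∀ a ∈ S, ∀ b ∈ S, φ (a * b) = φ a * φ b) ∧ NPP (H ⧸ K) ∧
      ∀ N : Subgroup H, N.Normal → N ≤ K → N ≠ ⊥ →
        Subgroup.normalClosure {y | y ∈ N ∧ ∃ a ∈ φ '' S, ∃ b ∈ φ '' S, y = a⁻¹ * b} = N →
        Reducible7 (φ '' S) N) :
    NPP G := by
  classical
  apply NPP.of_matrix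
  intro m A hA hK
  let S : Finset G := Finset.univ.biUnion fun ij : Fin m × Fin m => (A ij.1 ij.2).coeff.support
  have hS : ∀ i j, (A i j).coeff.support ⊆ S := fun i j a ha =>
    Finset.mem_biUnion.2 ⟨(i, j), Finset.mem_univ _, ha⟩
  obtain ⟨H, _, K, _, φ, hinj, hφ, hN, hgood⟩ := hG S
  obtain ⟨A', hA', hK', hsupp, h0⟩ := transfer' A hA hK S hS φ hinj hφ
  apply h0
  apply eq_zero_of_kills7 K A' (φ '' S) (S.finite_toSet.image φ) hsupp hgood hA'
  rw [kills_iff_im_eq_zero]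
  exact hN.matrix _ (im_idem _ hA') (kills_im _ ⊤ ⊤ le_top hK')

end

end Pool.Agent.H677_Perf
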