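import Pool.Agent.H677_Perf.Linear4

set_option autoImplicit false
set_option linter.unusedSectionVars false

universe u v v' w

namespace Pool.Agent.H677_Perf

noncomputable section

namespace Lin

/-- commutative rings which are finitely generated as rings are residually finite -/
theorem rf_of_finiteType' (k : Type v) [CommRing k] [Algebra.FiniteType ℤ k] : RF k := by
  intro a ha
  have hN : IsNoetherianRing k := Algebra.FiniteType.isNoetherianRing ℤ k
  have hI : Ideal.span {a} ≠ ⊥ := by simpa using ha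
  let I : Ideal k := (⊥ : Ideal k).colon {a}
  have hmem : ∀ x : k, x ∈ I ↔ x * a = 0 := by
    intro x
    simp only [I]
    rw [Submodule.mem_colon_singleton]
    simp
  have hI1 : I ≠ ⊤ := by
    intro h
    apply ha
    have : (1 : k) ∈ I := by rw [h]; exact Submodule.mem_top
    rw [hmem, one_mul] at this
    exact this
  obtain ⟨m, hm, hIm⟩ := Ideal.exists_le_maximal I hI1
  let i : Field (k ⧸ m) := Ideal.Quotient.field m
  have hfin : Finite (k ⧸ m) := finite_of_surjective k (k ⧸ m) (Ideal.Quotient.mk m)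
    Ideal.Quotient.mk_surjective
  have hex : ∃ n : ℕ, a ∉ m ^ n := by
    by_contra hcon
    push Not at hcon
    have h1 : a ∈ (⨅ i : ℕ, m ^ i • (⊤ : Submodule k k)) := by
      rw [Submodule.mem_iInf]
      intro i
      rw [smul_eq_mul, Ideal.mul_top]
      exact hcon i
    obtain ⟨r, hr⟩ := (m.mem_iInf_smul_pow_eq_bot_iff a).1 h1
    have h2 : (1 - (r : k)) ∈ m := by
      apply hIm
      rw [hmem, sub_mul, one_mul]
      rw [smul_eq_mul] at hr
      rw [hr, sub_self]
    have h3 : (1 : k) ∈ m := by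
      have := m.add_mem h2 r.2
      simpa using this
    exact hm.ne_top ((Ideal.eq_top_iff_one m).2 h3)
  obtain ⟨n, hn⟩ := hex
  have hfin' : Finite (k ⧸ m ^ n) := Ideal.finite_quotient_pow (IsNoetherian.noetherian m) n
  exact ⟨k ⧸ m ^ n, inferInstance, hfin', Ideal.Quotient.mk (m ^ n), fun h =>
    hn (Ideal.Quotient.eq_zero_iff_mem.1 h)⟩

section transfer

variable {Q : Type u} [Group Q] {n : Type} [Fintype n] [DecidableEq n]
  {A : Matrix n n (MonoidAlgebra ℤ Q)}

/-- Transfer along a map which is multiplicative on the support. -/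
theorem transferEv {H : Type w} [Group H] (hA : A * A = A)
    (hK : Kills (⊤ : Subgroup Q) A) (S : Finset Q)
    (hS : ∀ i j, (A i j).coeff.support ⊆ S) (φ : Q → H)
    (hφ : ∀ a ∈ S, ∀ b ∈ S, φ (a * b) = φ a * φ b) :
    ∃ A' : Matrix n n (MonoidAlgebra ℤ H), A' * A' = A' ∧ Kills (⊤ : Subgroup H) A' ∧
      ∀ (B : Type v) [AddCommGroup B] (f : H → B) i j,
        evalFn f (A' i j) = evalFn (fun g => f (φ g)) (A i j) := by
  classical
  let F : MonoidAlgebra ℤ Q →+ MonoidAlgebra ℤ H :=
    { toFun := MonoidAlgebra.mapDomain φ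
      map_zero' := MonoidAlgebra.mapDomain_zero φ
      map_add' := MonoidAlgebra.mapDomain_add φ }
  have hFc : ∀ x, (F x).coeff = x.coeff.mapDomain φ := fun x => rfl
  refine ⟨A.map F, ?_, ?_, ?_⟩
  · refine Matrix.ext fun i j => ?_
    have h1 : (A * A) i j = A i j := by rw [hA]
    rw [Matrix.map_apply, ← h1, Matrix.mul_apply, Matrix.mul_apply, map_sum]
    refine Finset.sum_congr rfl fun l _ => ?_
    rw [Matrix.map_apply, Matrix.map_apply]
    exact (mapDomain_mul_of_on φ S hφ (A i l) (A l j) (hS i l) (hS l j)).symm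
  · intro i j
    rw [Matrix.map_apply, hFc, ← Finsupp.mapDomain_comp]
    refine mapDomain_eq_zero_of_fiber (QuotientGroup.mk : Q → Q ⧸ (⊤ : Subgroup Q)) _ _ ?_ (hK i j)
    intro a _ b _ _
    simp only [Function.comp]
    rw [QuotientGroup.eq]
    exact Subgroup.mem_top _
  · intro B _ f i j
    rw [Matrix.map_apply, evalFn_eq_sum, evalFn_eq_sum, hFc]
    rw [Finsupp.sum_mapDomain_index (by simp) (by intro b m₁ m₂; rw [add_smul])]

/-- lifting of invertible matrices along injective ring homomorphisms -/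
lemma exists_unit_of_range {R₀ R : Type*} [Ring R₀] [Ring R] (inc : R₀ →+* R)
    (hinc : Function.Injective inc) {I : Type} [Fintype I] [DecidableEq I]
    (u : (Matrix I I R)ˣ)
    (h1 : ∀ i j, (u : Matrix I I R) i j ∈ inc.range)
    (h2 : ∀ i j, ((u⁻¹ : (Matrix I I R)ˣ) : Matrix I I R) i j ∈ inc.range) :
    ∃ u₀ : (Matrix I I R₀)ˣ, Units.map (inc.mapMatrix (m := I)).toMonoidHom u₀ = u := by
  have hinj : Function.Injective (inc.mapMatrix (m := I)) := by
    intro x y h
    refine Matrix.ext fun i j => ?_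
    apply hinc
    exact congrFun (congrFun h i) j
  choose x hx using h1
  choose y hy using h2
  have hx' : inc.mapMatrix (Matrix.of x) = u := Matrix.ext fun i j => hx i j
  have hy' : inc.mapMatrix (Matrix.of y) = ((u⁻¹ : (Matrix I I R)ˣ) : Matrix I I R) :=
    Matrix.ext fun i j => hy i j
  refine ⟨⟨Matrix.of x, Matrix.of y, ?_, ?_⟩, ?_⟩
  · apply hinj
    rw [map_mul, hx', hy', map_one, Units.mul_inv]
  · apply hinj
    rw [map_mul, hx', hy', map_one, Units.inv_mul]
  · apply Units.ext
    exact hx'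

/-- Linear representations over arbitrary commutative rings kill perfect idempotents. -/
theorem evalFn_any {k : Type v} [CommRing k] (hA : A * A = A) (hK : Kills (⊤ : Subgroup Q) A)
    {I : Type} [Fintype I] [DecidableEq I]
    (σ : Q →* Matrix I I k) (s r : I) (i j : n) :
    evalFn (fun g => σ g s r) (A i j) = 0 := by
  classical
  let S : Finset Q := Finset.univ.biUnion fun ij : n × n => (A ij.1 ij.2).coeff.support
  have hS : ∀ i j, (A i j).coeff.support ⊆ S := fun i j a ha =>
    Finset.mem_biUnion.2 ⟨(i, j), Finset.mem_univ _, ha⟩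
  let X : Finset k := S.biUnion fun g => Finset.univ.biUnion fun ij : I × I =>
    {σ g ij.1 ij.2, σ g⁻¹ ij.1 ij.2}
  let k₀ : Subalgebra ℤ k := Algebra.adjoin ℤ (X : Set k)
  have hk₀ : k₀.FG := ⟨X, rfl⟩
  have hft : Algebra.FiniteType ℤ k₀ := (Subalgebra.fg_iff_finiteType k₀).1 hk₀
  let inc : k₀ →+* k := k₀.val.toRingHom
  have hinc : Function.Injective inc := Subtype.val_injective
  have hrange : ∀ x ∈ k₀, x ∈ inc.range := fun x hx => ⟨⟨x, hx⟩, rfl⟩
  let ρ : Q →* (Matrix I I k)ˣ := σ.toHomUnits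
  have hρ : ∀ g, ((ρ g : (Matrix I I k)ˣ) : Matrix I I k) = σ g := fun g => rfl
  let ι : (Matrix I I k₀)ˣ →* (Matrix I I k)ˣ := Units.map (inc.mapMatrix (m := I)).toMonoidHom
  have hι : Function.Injective ι := by
    intro u u' h
    apply Units.ext
    refine Matrix.ext fun i j => ?_
    apply hinc
    have h1 : inc.mapMatrix (u : Matrix I I k₀) = inc.mapMatrix (u' : Matrix I I k₀) :=
      (Units.ext_iff (α := Matrix I I k)).1 h
    exact congrFun (congrFun h1 i) j
  have hun : ∀ g ∈ S, ∃ u₀, ι u₀ = ρ g := by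
    intro g hg
    apply exists_unit_of_range inc hinc
    · intro i j
      apply hrange
      apply Algebra.subset_adjoin
      rw [hρ]
      exact Finset.mem_coe.2 (Finset.mem_biUnion.2 ⟨g, hg, Finset.mem_biUnion.2
        ⟨(i, j), Finset.mem_univ _, by simp⟩⟩)
    · intro i j
      apply hrange
      apply Algebra.subset_adjoin
      rw [← map_inv, hρ]
      exact Finset.mem_coe.2 (Finset.mem_biUnion.2 ⟨g, hg, Finset.mem_biUnion.2
        ⟨(i, j), Finset.mem_univ _, by simp⟩⟩)
  let back : (Matrix I I k)ˣ → (Matrix I I k₀)ˣ := fun u =>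
    if h : ∃ u₀, ι u₀ = u then h.choose else 1
  have hback : ∀ u, (∃ u₀, ι u₀ = u) → ι (back u) = u := by
    intro u hu
    simp only [back, dif_pos hu]
    exact hu.choose_spec
  let φ : Q → (Matrix I I k₀)ˣ := fun g => back (ρ g)
  have hφ : ∀ g ∈ S, ι (φ g) = ρ g := fun g hg => hback _ (hun g hg)
  have hmul : ∀ a ∈ S, ∀ b ∈ S, φ (a * b) = φ a * φ b := by
    intro a ha b hb
    apply hι
    have h0 : ρ (a * b) = ρ a * ρ b := ρ.map_mul a b
    have h1 : ι (φ a * φ b) = ρ (a * b) := by
      rw [h0, ← hφ a ha, ← hφ b hb]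
      exact ι.map_mul _ _
    rw [h1]
    exact hback _ ⟨_, h1⟩
  obtain ⟨A', hA', hK', hev⟩ := transferEv.{u, v, v} hA hK S hS φ hmul
  have h1 := evalFn_rf (rf_of_finiteType' k₀) hA' hK'
    (Units.coeHom (Matrix I I k₀)) s r i j
  rw [hev] at h1
  have h2 := map_evalFn inc.toAddMonoidHom
    (fun g => ((φ g : (Matrix I I k₀)ˣ) : Matrix I I k₀) s r) (A i j)
  have h3 : evalFn (fun g => σ g s r) (A i j) = evalFn (fun g => inc.toAddMonoidHom
      (((φ g : (Matrix I I k₀)ˣ) : Matrix I I k₀) s r)) (A i j) := by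
    rw [evalFn_eq_sum, evalFn_eq_sum]
    refine Finsupp.sum_congr fun g hg => ?_
    congr 1
    have h4 := congrArg (fun u : (Matrix I I k)ˣ => (u : Matrix I I k) s r) (hφ g (hS i j hg))
    exact h4.symm
  rw [h3, ← h2]
  have h5 : evalFn (fun g => ((φ g : (Matrix I I k₀)ˣ) : Matrix I I k₀) s r) (A i j) = 0 := h1
  rw [h5, map_zero]

/-- Matrix representations over group rings without perfect projectives kill perfect
idempotents. -/
theorem kills_rep_any {k : Type v} [CommRing k] {Γ : Type w} [Group Γ] (hΓ : MP k Γ)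
    (hA : A * A = A) (hK : Kills (⊤ : Subgroup Q) A) {I : Type} [Fintype I] [DecidableEq I]
    (ρ : Q →* Matrix I I (MonoidAlgebra k Γ)) (i j : n) : liftI ρ (A i j) = 0 := by
  classical
  let A' : Matrix (n × I) (n × I) (MonoidAlgebra k Γ) :=
    Matrix.compRingEquiv n I (MonoidAlgebra k Γ) (A.map (liftI ρ))
  have hA'e : ∀ i s j r, A' (i, s) (j, r) = liftI ρ (A i j) s r := fun i s j r => rfl
  have hA' : A' * A' = A' := by
    simp only [A']
    rw [← map_mul, ← Matrix.map_mul, hA]
  have hK' : ∀ x y, aug k Γ (A' x y) = 0 := by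
    rintro ⟨i, s⟩ ⟨j, r⟩
    rw [hA'e]
    let σ : Q →* Matrix I I k := ((aug k Γ).mapMatrix (m := I)).toMonoidHom.comp ρ
    have h1 : ∀ x : MonoidAlgebra ℤ Q, aug k Γ (liftI ρ x s r) = evalFn (fun g => σ g s r) x := by
      intro x
      induction x using MonoidAlgebra.induction_linear with
      | zero => simp
      | add x y hx hy => rw [map_add, Matrix.add_apply, map_add, map_add, hx, hy]
      | single g a =>
        rw [liftI_single, evalFn_single, Matrix.smul_apply, map_zsmul]
        rfl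
    rw [h1, evalFn_any hA hK σ s r i j]
  have h0 := hΓ _ A' hA' hK'
  refine Matrix.ext fun s r => ?_
  rw [← hA'e, h0]
  rfl

end transfer

end Lin

end

end Pool.Agent.H677_Perf
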