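import Pool.Agent.H677_Perf.Final7
import Pool.Agent.H677_Perf.Linear5

set_option autoImplicit false
set_option linter.unusedSectionVars false

universe u

namespace Pool.Agent.H677_Perf

noncomputable section

/-- The elements of `ℤQ` with image zero in `ℤ[Q ⧸ L]` and in all matrix representations over
group rings without perfect projectives. -/
def KilledSet8 {Q : Type u} [Group Q] (L : Subgroup Q) : Set (MonoidAlgebra ℤ Q) :=
  {x : MonoidAlgebra ℤ Q |
    x.coeff.mapDomain (QuotientGroup.mk : Q → Q ⧸ L) = 0 ∧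
    ∀ (k : Type u) (_ : CommRing k) (Γ : Type u) (_ : Group Γ), Lin.NPPg k Γ → ∀ (d : ℕ)
      (ρ : Q →* Matrix (Fin d) (Fin d) (MonoidAlgebra k Γ)),
      MonoidAlgebra.lift ℤ (Matrix (Fin d) (Fin d) (MonoidAlgebra k Γ)) Q ρ x = 0}

/-- The intersection of the powers of the ideal `KilledSet8`. -/
def KilledIdeal8 {Q : Type u} [Group Q] (L : Subgroup Q) : Submodule ℤ (MonoidAlgebra ℤ Q) :=
  ⨅ m : ℕ, (Submodule.span ℤ (KilledSet8 L)) ^ (m + 1)

section

variable {Q : Type u} [Group Q] {n : Type} [Fintype n] [DecidableEq n]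
  {A : Matrix n n (MonoidAlgebra ℤ Q)}

lemma mem_killedIdeal8 (hA : A * A = A) {L : Subgroup Q} (hL : Kills L A) (i j : n) :
    A i j ∈ KilledIdeal8 L := by
  have key : ∀ i j, A i j ∈ KilledSet8 L := fun i j =>
    ⟨hL i j, fun k _ Γ _ hΓ d ρ => Lin.kills_rep_any hΓ.mp hA (hL.mono le_top) ρ i j⟩
  exact mem_iInf_pow hA _ key i j

/-- If the trace of a representation over a real group ring vanishes on `A`, then the
representation kills `A`. -/
theorem rep_eq_zero_of_trace {Γ : Type*} [Group Γ] {d : ℕ}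
    (ρ : Q →* Matrix (Fin d) (Fin d) (MonoidAlgebra ℝ Γ)) (hA : A * A = A)
    (h : Tau (fun g => ((ρ g).trace).coeff 1) A = 0) (i j : n) : liftR ρ (A i j) = 0 := by
  classical
  let A' : Matrix (n × Fin d) (n × Fin d) (MonoidAlgebra ℝ Γ) :=
    Matrix.compRingEquiv n (Fin d) (MonoidAlgebra ℝ Γ) (A.map (liftR ρ))
  have hA'e : ∀ i s j r, A' (i, s) (j, r) = liftR ρ (A i j) s r := fun i s j r => rfl
  have hA' : A' * A' = A' := by
    simp only [A']
    rw [← map_mul, ← Matrix.map_mul, hA]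
  have h3 : ∀ x : MonoidAlgebra ℤ Q, evalFn (fun g => ((ρ g).trace).coeff 1) x =
      ∑ s, (liftR ρ x s s).coeff 1 := by
    intro x
    induction x using MonoidAlgebra.induction_linear with
    | zero => simp
    | add x y hx hy =>
      rw [map_add, map_add, hx, hy, ← Finset.sum_add_distrib]
      refine Finset.sum_congr rfl fun s _ => ?_
      rw [Matrix.add_apply, MonoidAlgebra.coeff_add, Finsupp.add_apply]
    | single g a =>
      rw [evalFn_single, liftR_single, Matrix.trace, MonoidAlgebra.coeff_sum,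
        Finsupp.coe_finsetSum, Finset.sum_apply, Finset.smul_sum]
      refine Finset.sum_congr rfl fun s _ => ?_
      rw [Matrix.smul_apply, MonoidAlgebra.coeff_smul, Finsupp.smul_apply]
      rfl
  rw [Tau_apply, Finset.sum_congr rfl fun i _ => h3 (A i i)] at h
  have h2 : ∑ x, (A' x x).coeff 1 = 0 := by
    rw [Fintype.sum_prod_type]
    exact h
  have h4 := Kap.eq_zero_of_trace_real A' hA' h2
  refine Matrix.ext fun s r => ?_
  rw [← hA'e, h4]
  rfl

/-- The trace criterion. -/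
theorem kills_of_nullOn8 (B : Subgroup Q) (hA : A * A = A)
    {J : Submodule ℤ (MonoidAlgebra ℤ Q)} (hJ : ∀ i j, A i j ∈ J)
    (E : Set Q) (hE : ∀ i j, ∀ a ∈ (A i j).coeff.support, a ∈ E)
    {Γ : Type*} [Group Γ] {d : ℕ} (ρ : Q →* Matrix (Fin d) (Fin d) (MonoidAlgebra ℝ Γ))
    (hρ : ∀ x ∈ J, (∀ g ∈ x.coeff.support, g ∈ E) →
      MonoidAlgebra.lift ℤ (Matrix (Fin d) (Fin d) (MonoidAlgebra ℝ Γ)) Q ρ x = 0 →
      x.coeff.mapDomain (QuotientGroup.mk : Q → Q ⧸ B) = 0)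
    (h : Q → ℝ) (hh : h ∈ NullOn J)
    (hB : ∀ y, (y = 1 ∨ BadIn E y) → h y = ((ρ y).trace).coeff 1) :
    Kills B A := by
  classical
  have hcl := NullOn.class_fun hh
  set θ : Q → ℝ := fun y => ((ρ y).trace).coeff 1 with hθ
  let e : Q → ℝ := θ + (-1 : ℝ) • h
  have he : ∀ a b, e (a * b) = e (b * a) := by
    intro a b
    simp only [e, Pi.add_apply, Pi.smul_apply, smul_eq_mul]
    rw [hcl a b, hθ]
    simp only []
    rw [trace_rep_comm]
  have h3 : Tau e A = 0 := by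
    rw [Tau_eq_sum_cl e he, Finsupp.sum]
    refine Finset.sum_eq_zero fun c hc => ?_
    obtain ⟨x, rfl⟩ := ConjClasses.exists_rep c
    have hr : rkAt x A ≠ 0 := by
      rw [rkAt_apply]
      exact Finsupp.mem_support_iff.1 hc
    change _ • onCl e he (ConjClasses.mk x) = 0
    rw [onCl_mk]
    have : e x = 0 := by
      simp only [e, Pi.add_apply, Pi.smul_apply, smul_eq_mul]
      rw [hB x]
      · ring
      · by_cases hx1 : x = 1
        · exact Or.inl hx1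
        · exact Or.inr (badIn_of_rk_ne_zero hA hE hx1 hr)
    rw [this, smul_zero]
  have h4 : Tau e A = Tau θ A + (-1 : ℝ) * Tau h A := by
    rw [← Tau_smul_fun, ← Tau_add_fun']
  rw [NullOn.tau_eq_zero hA hJ hh, mul_zero, add_zero, h3] at h4
  intro i j
  exact hρ _ (hJ i j) (hE i j) (rep_eq_zero_of_trace ρ hA h4.symm i j)

end

/-- The condition on a normal subgroup `N`, relative to a set `E`. -/
def Reducible8 {G : Type u} [Group G] (E : Set G) (N : Subgroup G) : Prop :=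
  (∃ p : ℕ, p.Prime ∧ ∀ U : Subgroup G, U ≤ N → U.FG →
    {y | y ∈ N ∧ ∃ a ∈ E, ∃ b ∈ E, y = a⁻¹ * b} ⊆ (U : Set G) →
    ∃ φ : U →* Multiplicative (ZMod p), φ ≠ 1) ∨
  (∃ (B : Subgroup G) (_ : B.Normal) (Γ : Type u) (_ : Group Γ) (d : ℕ)
    (ρ : G →* Matrix (Fin d) (Fin d) (MonoidAlgebra ℝ Γ)),
    B < N ∧ (∀ x ∈ KilledIdeal8 N, (∀ g ∈ x.coeff.support, g ∈ E) →
      MonoidAlgebra.lift ℤ (Matrix (Fin d) (Fin d) (MonoidAlgebra ℝ Γ)) G ρ x = 0 →
      x.coeff.mapDomain (QuotientGroup.mk : G → G ⧸ B) = 0) ∧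
    ∃ h ∈ NullOn (KilledIdeal8 N), ∀ y, (y = 1 ∨ BadIn E y) → h y = ((ρ y).trace).coeff 1)

/-- Core theorem. -/
theorem eq_zero_of_kills8 {G : Type u} [Group G] {n : Type} [Fintype n] [DecidableEq n]
    (K : Subgroup G) [hKn : K.Normal] (A : Matrix n n (MonoidAlgebra ℤ G)) (S : Set G)
    (hSf : S.Finite) (hS : ∀ i j, ∀ a ∈ (A i j).coeff.support, a ∈ S)
    (hyp : ∀ N : Subgroup G, N.Normal → N ≤ K → N ≠ ⊥ →
      Subgroup.normalClosure {y | y ∈ N ∧ ∃ a ∈ S, ∃ b ∈ S, y = a⁻¹ * b} = N → Reducible8 S N)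
    (hA : A * A = A) (hK : Kills K A) : A = 0 := by
  classical
  obtain ⟨N, hNn, hNK, hN, hNT, hmin⟩ := exists_minimal'' S hS K hK
  by_cases hbot : N = ⊥
  · rw [hbot] at hN
    exact hN.eq_zero
  exfalso
  have hTfin : {y | y ∈ N ∧ ∃ a ∈ S, ∃ b ∈ S, y = a⁻¹ * b}.Finite := by
    refine Set.Finite.subset (Set.Finite.image2 (fun a b => a⁻¹ * b) hSf hSf) ?_
    rintro y ⟨_, a, ha, b, hb, rfl⟩
    exact ⟨a, ha, b, hb, rfl⟩
  rcases hyp N hNn hNK hbot hNT with ⟨p, hp, hU⟩ | ⟨B, hBn, Γ, _, d, ρ, hB, hρ, h, hh, hhB⟩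
  · have : Fact p.Prime := ⟨hp⟩
    have h1 := kills_pcore p N A hA hN
    have h3 := hmin _ (pcore_normal p _) (pcore_le p _) h1
    obtain ⟨U, hU1, hU2, hU3, hU4⟩ := exists_finset_pcore (p := p)
      (N := N) hTfin.toFinset (by
        intro x hx
        rw [h3]
        exact (hTfin.mem_toFinset.1 hx).1)
    obtain ⟨φ, hφ⟩ := hU U hU1 hU2 fun x hx => hU4 x (hTfin.mem_toFinset.2 hx)
    exact hφ (hU3 φ)
  · exact hB.ne (hmin _ hBn hB.le
      (kills_of_nullOn8 B hA (mem_killedIdeal8 hA hN) _ hS ρ hρ h hh hhB))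

/-- The main theorem. -/
theorem npp_main8 {G : Type u} [Group G]
    (hG : ∀ S : Finset G, ∃ (H : Type u) (_ : Group H) (K : Subgroup H) (_ : K.Normal) (φ : G → H),
      Set.InjOn φ S ∧ (∀ a ∈ S, ∀ b ∈ S, φ (a * b) = φ a * φ b) ∧ NPP (H ⧸ K) ∧
      ∀ N : Subgroup H, N.Normal → N ≤ K → N ≠ ⊥ →
        Subgroup.normalClosure {y | y ∈ N ∧ ∃ a ∈ φ '' S, ∃ b ∈ φ '' S, y = a⁻¹ * b} = N →
        Reducible8 (φ '' S) N) :
    NPP G := by
  classical
  apply NPP.of_matrix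
  intro m A hA hK
  let S : Finset G := Finset.univ.biUnion fun ij : Fin m × Fin m => (A ij.1 ij.2).coeff.support
  have hS : ∀ i j, (A i j).coeff.support ⊆ S := fun i j a ha =>
    Finset.mem_biUnion.2 ⟨(i, j), Finset.mem_univ _, ha⟩
  obtain ⟨H, _, K, _, φ, hinj, hφ, hN, hgood⟩ := hG S
  obtain ⟨A', hA', hK', hsupp, h0⟩ := transfer' A hA hK S hS φ hinj hφ
  apply h0
  apply eq_zero_of_kills8 K A' (φ '' S) (S.finite_toSet.image φ) hsupp hgood hA'
  rw [kills_iff_im_eq_zero]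
  exact hN.matrix _ (im_idem _ hA') (kills_im _ ⊤ ⊤ le_top hK')

end

end Pool.Agent.H677_Perf
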