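import Mathlib

set_option autoImplicit false
set_option linter.unusedSectionVars false

open scoped InnerProductSpace lp ENNReal

namespace Pool.Agent.H677_Perf

noncomputable section

namespace Kap

variable {G : Type*} [Group G] {n : Type*} [Fintype n] [DecidableEq n]

/-- Square summable real functions on `G × n`. -/
abbrev Hs (G : Type*) (n : Type*) : Type _ := lp (fun _ : G × n => ℝ) 2

/-- The finitely supported vector of a row over the real group ring. -/
def emb (v : n → MonoidAlgebra ℝ G) : Hs G n :=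
  ⟨fun x => (v x.2).coeff x.1, by
    refine Memℓp.of_exponent_ge (memℓp_zero ?_) zero_le
    classical
    refine Set.Finite.subset (Finset.finite_toSet
      (Finset.univ.biUnion fun i : n => (v i).coeff.support ×ˢ ({i} : Finset n))) ?_
    rintro ⟨g, i⟩ h
    simp only [Finset.coe_biUnion, Finset.mem_coe, Finset.mem_univ, Set.iUnion_true,
      Finset.coe_product, Finset.coe_singleton, Set.mem_iUnion, Set.mem_prod,
      Finsupp.mem_support_iff, Set.mem_singleton_iff]
    exact ⟨i, h, rfl⟩⟩

@[simp] lemma emb_apply (v : n → MonoidAlgebra ℝ G) (x : G × n) :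
    emb v x = (v x.2).coeff x.1 := rfl

lemma emb_add (v w : n → MonoidAlgebra ℝ G) : emb (v + w) = emb v + emb w := by
  apply lp.ext
  funext x
  simp [emb]

lemma emb_smul (c : ℝ) (v : n → MonoidAlgebra ℝ G) : emb (c • v) = c • emb v := by
  apply lp.ext
  funext x
  simp [emb]

/-- translation on `Hs G n`. -/
def tr (g : G) : Hs G n →ₗᵢ[ℝ] Hs G n where
  toFun f := ⟨fun x => f (g⁻¹ * x.1, x.2), by
    have hf : Memℓp (fun x => f x) 2 := lp.memℓp f
    have h2 : (0 : ℝ) < (2 : ℝ≥0∞).toReal := by norm_num
    have hf' := (memℓp_gen_iff h2).1 hf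
    refine (memℓp_gen_iff (E := fun _ : G × n => ℝ) h2).2 ?_
    exact ((Equiv.prodCongr (Equiv.mulLeft g⁻¹) (Equiv.refl n)).summable_iff
      (f := fun x => ‖f x‖ ^ (2 : ℝ≥0∞).toReal)).2 hf'⟩
  map_add' f f' := by
    apply lp.ext
    funext x
    simp
  map_smul' c f := by
    apply lp.ext
    funext x
    simp
  norm_map' f := by
    have h2 : (0 : ℝ) < (2 : ℝ≥0∞).toReal := by norm_num
    rw [lp.norm_eq_tsum_rpow h2, lp.norm_eq_tsum_rpow h2]
    congr 1
    exact (Equiv.prodCongr (Equiv.mulLeft g⁻¹) (Equiv.refl n)).tsum_eq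
      (fun x => ‖f x‖ ^ (2 : ℝ≥0∞).toReal)

@[simp] lemma tr_apply (g : G) (f : Hs G n) (x : G × n) : tr g f x = f (g⁻¹ * x.1, x.2) := rfl

lemma tr_tr_inv (g : G) (f : Hs G n) : tr g (tr g⁻¹ f) = f := by
  apply lp.ext
  funext x
  simp

lemma inner_tr (g : G) (f k : Hs G n) : ⟪tr g f, k⟫_ℝ = ⟪f, tr g⁻¹ k⟫_ℝ := by
  conv_lhs => rw [← tr_tr_inv g k]
  exact (tr g).inner_map_map f _

/-- the basis vector at `(g, i)` -/
def dl (g : G) (i : n) : Hs G n := emb (Pi.single i (MonoidAlgebra.single g 1))

lemma inner_dl (g : G) (i : n) (f : Hs G n) : ⟪dl g i, f⟫_ℝ = f (g, i) := by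
  classical
  have : (dl g i : Hs G n) = lp.single 2 (g, i) (1 : ℝ) := by
    apply lp.ext
    funext x
    rcases x with ⟨h, j⟩
    simp only [dl, emb_apply, lp.coeFn_single]
    by_cases hj : j = i
    · subst hj
      by_cases hg : h = g
      · subst hg; simp
      · simp [hg]
    · simp [hj]
  rw [this, lp.inner_single_left]
  simp

lemma tr_dl (g h : G) (i : n) : tr g (dl h i) = dl (g * h) i := by
  apply lp.ext
  funext x
  rcases x with ⟨k, j⟩
  simp only [dl, emb_apply, tr_apply]
  by_cases hj : j = i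
  · subst hj
    simp only [Pi.single_eq_same, MonoidAlgebra.coeff_single]
    classical
    rw [Finsupp.single_apply, Finsupp.single_apply]
    simp [eq_inv_mul_iff_mul_eq]
  · simp [hj]

lemma tr_emb (g : G) (v : n → MonoidAlgebra ℝ G) :
    tr g (emb v) = emb (fun i => MonoidAlgebra.single g 1 * v i) := by
  apply lp.ext
  funext x
  rcases x with ⟨k, j⟩
  simp only [emb_apply, tr_apply]
  rw [MonoidAlgebra.coeff_single_mul_eq_mul_coeff (g⁻¹ * k)]
  · simp
  · intro m' _
    constructor
    · rintro rfl; simp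
    · rintro rfl; simp

variable (A : Matrix n n (MonoidAlgebra ℝ G))

/-- the real row space of `A`, inside `Hs G n`. -/
def rowSp : Submodule ℝ (Hs G n) where
  carrier := {x | ∃ v : n → MonoidAlgebra ℝ G, x = emb (Matrix.vecMul v A)}
  zero_mem' := ⟨0, by
    apply lp.ext
    funext x
    simp⟩
  add_mem' := by
    rintro _ _ ⟨v, rfl⟩ ⟨w, rfl⟩
    exact ⟨v + w, by rw [Matrix.add_vecMul, emb_add]⟩
  smul_mem' := by
    rintro c _ ⟨v, rfl⟩
    exact ⟨c • v, by rw [Matrix.smul_vecMul, emb_smul]⟩

/-- its closure -/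
def K : Submodule ℝ (Hs G n) := (rowSp A).topologicalClosure

instance : CompleteSpace (K A) :=
  (Submodule.isClosed_topologicalClosure (rowSp A)).completeSpace_coe

lemma tr_mem_rowSp (g : G) {x : Hs G n} (hx : x ∈ rowSp A) : tr g x ∈ rowSp A := by
  obtain ⟨v, rfl⟩ := hx
  refine ⟨fun i => MonoidAlgebra.single g 1 * v i, ?_⟩
  rw [tr_emb]
  congr 1
  funext j
  simp [Matrix.vecMul, dotProduct, Finset.mul_sum, mul_assoc]

lemma tr_mem_K (g : G) {x : Hs G n} (hx : x ∈ K A) : tr g x ∈ K A := by
  have hx' : x ∈ closure (rowSp A : Set (Hs G n)) := by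
    rw [← Submodule.topologicalClosure_coe]; exact hx
  have : tr g x ∈ closure (rowSp A : Set (Hs G n)) := by
    refine map_mem_closure (tr g).continuous hx' ?_
    intro y hy
    exact tr_mem_rowSp A g hy
  rw [← Submodule.topologicalClosure_coe] at this
  exact this

lemma proj_tr (g : G) (x : Hs G n) :
    (K A).starProjection (tr g x) = tr g ((K A).starProjection x) := by
  apply Submodule.eq_starProjection_of_mem_of_inner_eq_zero
  · exact tr_mem_K A g (Submodule.starProjection_apply_mem _ _)
  · intro w hw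
    rw [← map_sub, inner_tr]
    exact Submodule.starProjection_inner_eq_zero _ _ (tr_mem_K A g⁻¹ hw)

/-- the coordinates of the projected basis vectors are symmetric -/
lemma proj_symm (i j : n) (g : G) :
    (K A).starProjection (dl 1 i) (g, j) = (K A).starProjection (dl 1 j) (g⁻¹, i) := by
  rw [← inner_dl, ← inner_dl]
  have h1 : (dl g j : Hs G n) = tr g (dl 1 j) := by rw [tr_dl, mul_one]
  have h2 : (dl g⁻¹ i : Hs G n) = tr g⁻¹ (dl 1 i) := by rw [tr_dl, mul_one]
  calc ⟪dl g j, (K A).starProjection (dl 1 i)⟫_ℝ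
      = ⟪(K A).starProjection (dl g j), dl 1 i⟫_ℝ :=
        (Submodule.inner_starProjection_left_eq_right _ _ _).symm
    _ = ⟪(K A).starProjection (dl 1 j), dl g⁻¹ i⟫_ℝ := by
        rw [h1, proj_tr, inner_tr, h2]
    _ = ⟪dl g⁻¹ i, (K A).starProjection (dl 1 j)⟫_ℝ := real_inner_comm _ _

/-- the trace identity for vectors in the closed row space -/
lemma coord_of_mem_K (hA : A * A = A) (j : n) {f : Hs G n} (hf : f ∈ K A) :
    ∑ i, (A i j).coeff.sum (fun g r => f (g⁻¹, i) * r) = f (1, j) := by
  have hf' : f ∈ closure (rowSp A : Set (Hs G n)) := by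
    rw [← Submodule.topologicalClosure_coe]; exact hf
  have hev : ∀ x : G × n, Continuous fun f : Hs G n => (f x : ℝ) := by
    intro x
    have : (fun f : Hs G n => (f x : ℝ)) = fun f => ⟪dl x.1 x.2, f⟫_ℝ := by
      funext f; rw [inner_dl]
    rw [this]
    exact continuous_const.inner continuous_id
  have hcl : IsClosed {f : Hs G n |
      ∑ i, (A i j).coeff.sum (fun g r => f (g⁻¹, i) * r) = f (1, j)} := by
    apply isClosed_eq
    · refine continuous_finsetSum _ fun i _ => ?_
      simp only [Finsupp.sum]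
      refine continuous_finsetSum _ fun g _ => ?_
      exact (hev _).mul continuous_const
    · exact hev _
  refine closure_minimal ?_ hcl hf'
  rintro _ ⟨v, rfl⟩
  have h1 : Matrix.vecMul (Matrix.vecMul v A) A = Matrix.vecMul v A := by
    rw [Matrix.vecMul_vecMul, hA]
  have h2 := congrArg (fun w : n → MonoidAlgebra ℝ G => (w j).coeff 1) h1
  simp only [Set.mem_ofPred_eq, emb_apply]
  rw [← h2]
  conv_rhs => rw [Matrix.vecMul]
  simp only [dotProduct, MonoidAlgebra.coeff_sum, Finsupp.coe_finsetSum, Finset.sum_apply]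
  refine Finset.sum_congr rfl fun i _ => ?_
  rw [MonoidAlgebra.coeff_mul_apply_right]
  simp

/-- pairing of finitely supported vectors with arbitrary ones -/
lemma inner_emb (v : n → MonoidAlgebra ℝ G) (f : Hs G n) :
    ⟪emb v, f⟫_ℝ = ∑ i, (v i).coeff.sum (fun g r => f (g, i) * r) := by
  have hv : emb v = ∑ i, ∑ g ∈ (v i).coeff.support, (v i).coeff g • dl g i := by
    apply lp.ext
    funext x
    rcases x with ⟨h, j⟩
    rw [emb_apply]
    have hsum : (⇑(∑ i, ∑ g ∈ (v i).coeff.support, (v i).coeff g • dl g i : Hs G n) :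
        ∀ x : G × n, ℝ) (h, j)
        = ⟪dl h j, (∑ i, ∑ g ∈ (v i).coeff.support, (v i).coeff g • dl g i : Hs G n)⟫_ℝ := by
      rw [inner_dl]
    rw [hsum, inner_sum]
    rw [Finset.sum_eq_single j]
    · rw [inner_sum]
      simp only [inner_smul_right, inner_dl]
      simp only [dl, emb_apply, Pi.single_eq_same, MonoidAlgebra.coeff_single]
      rw [Finset.sum_eq_single h]
      · simp
      · intro g _ hg
        simp [hg]
      · intro hh
        simp only [Finsupp.mem_support_iff, not_not] at hh
        simp [hh]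
    · intro i _ hi
      rw [inner_sum]
      apply Finset.sum_eq_zero
      intro g _
      rw [inner_smul_right, inner_dl]
      simp [dl, Ne.symm hi]
    · simp
  rw [hv, sum_inner]
  refine Finset.sum_congr rfl fun i _ => ?_
  rw [sum_inner, Finsupp.sum]
  refine Finset.sum_congr rfl fun g _ => ?_
  rw [inner_smul_left, inner_dl]
  simp [mul_comm]

/-- the trace of an idempotent is a sum of squares -/
lemma trace_eq_sum_norm (hA : A * A = A) :
    ∑ i, (A i i).coeff 1 = ∑ j, ‖(K A).starProjection (dl 1 j)‖ ^ 2 := by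
  have hrow : ∀ i, emb (A i) ∈ K A := by
    intro i
    apply Submodule.le_topologicalClosure
    refine ⟨Pi.single i 1, ?_⟩
    rw [Matrix.single_one_vecMul]
    rfl
  have h1 : ∀ i, (A i i).coeff 1 = ⟪emb (A i), (K A).starProjection (dl 1 i)⟫_ℝ := by
    intro i
    rw [← Submodule.inner_starProjection_left_eq_right,
      Submodule.starProjection_eq_self_iff.2 (hrow i), real_inner_comm, inner_dl, emb_apply]
  calc ∑ i, (A i i).coeff 1
      = ∑ i, ∑ j, (A i j).coeff.sum
          (fun g r => ((K A).starProjection (dl 1 i) : Hs G n) (g, j) * r) := by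
        refine Finset.sum_congr rfl fun i _ => ?_
        rw [h1, inner_emb]
    _ = ∑ j, ∑ i, (A i j).coeff.sum
          (fun g r => ((K A).starProjection (dl 1 j) : Hs G n) (g⁻¹, i) * r) := by
        rw [Finset.sum_comm]
        refine Finset.sum_congr rfl fun j _ => Finset.sum_congr rfl fun i _ => ?_
        refine Finsupp.sum_congr fun g _ => ?_
        rw [proj_symm]
    _ = ∑ j, ((K A).starProjection (dl 1 j) : Hs G n) (1, j) := by
        refine Finset.sum_congr rfl fun j _ => ?_
        exact coord_of_mem_K A hA j (Submodule.starProjection_apply_mem _ _)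
    _ = ∑ j, ‖(K A).starProjection (dl 1 j)‖ ^ 2 := by
        refine Finset.sum_congr rfl fun j _ => ?_
        rw [← inner_dl, ← real_inner_self_eq_norm_sq,
          Submodule.inner_starProjection_left_eq_right,
          Submodule.starProjection_eq_self_iff.2 (Submodule.starProjection_apply_mem _ _)]

/-- Kaplansky: an idempotent matrix over the real group ring with vanishing trace is zero. -/
theorem eq_zero_of_trace_real (hA : A * A = A) (h : ∑ i, (A i i).coeff 1 = 0) : A = 0 := by
  rw [trace_eq_sum_norm A hA] at h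
  have h0 : ∀ j, (K A).starProjection (dl 1 j) = 0 := by
    intro j
    have := (Finset.sum_eq_zero_iff_of_nonneg (fun j _ => by positivity)).1 h j (Finset.mem_univ j)
    simpa using this
  have h1 : ∀ g j, (K A).starProjection (dl g j) = 0 := by
    intro g j
    have : (dl g j : Hs G n) = tr g (dl 1 j) := by rw [tr_dl, mul_one]
    rw [this, proj_tr, h0, map_zero]
  have hrow : ∀ i, emb (A i) ∈ K A := by
    intro i
    apply Submodule.le_topologicalClosure
    refine ⟨Pi.single i 1, ?_⟩
    rw [Matrix.single_one_vecMul]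
    rfl
  ext i j g
  have : (A i j).coeff g = ⟪dl g j, emb (A i)⟫_ℝ := by rw [inner_dl, emb_apply]
  rw [this, ← Submodule.starProjection_eq_self_iff.2 (hrow i),
    ← Submodule.inner_starProjection_left_eq_right, h1]
  simp

end Kap

/-- Kaplansky: an idempotent matrix over the integral group ring whose trace has zero
coefficient at the identity is zero. -/
theorem eq_zero_of_trace {G : Type*} [Group G] {n : Type*} [Fintype n] [DecidableEq n]
    (A : Matrix n n (MonoidAlgebra ℤ G)) (hA : A * A = A)
    (h : ∑ i, (A i i).coeff 1 = 0) : A = 0 := by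
  let φ : MonoidAlgebra ℤ G →+* MonoidAlgebra ℝ G :=
    MonoidAlgebra.mapRingHom G (Int.castRingHom ℝ)
  have hB : A.map φ * A.map φ = A.map φ := by
    rw [← Matrix.map_mul, hA]
  have hB0 : A.map φ = 0 := by
    apply Kap.eq_zero_of_trace_real _ hB
    have := congrArg (Int.cast : ℤ → ℝ) h
    simpa [φ] using this
  ext i j g
  have := congrArg (fun M : Matrix n n (MonoidAlgebra ℝ G) => (M i j).coeff g) hB0
  simpa [φ] using this

end

end Pool.Agent.H677_Perf
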