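import Mathlib

set_option autoImplicit false
set_option linter.unusedSectionVars false

namespace Pool.Agent.H677_Perf

noncomputable section

namespace RC

section lists

variable {R : Type*} [Mul R]

/-- multiply the entries in positions `j` and `j + 1` of a list -/
def mergeL : ℕ → List R → List R
  | 0, a :: b :: l => (a * b) :: l
  | j + 1, a :: l => a :: mergeL j l
  | _, l => l

@[simp] lemma mergeL_zero_cons (a b : R) (l : List R) :
    mergeL 0 (a :: b :: l) = (a * b) :: l := rfl

@[simp] lemma mergeL_succ_cons (j : ℕ) (a : R) (l : List R) :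
    mergeL (j + 1) (a :: l) = a :: mergeL j l := by
  cases l <;> rfl

lemma mergeL_getD (d : R) (j : ℕ) (l : List R) (hj : j + 1 < l.length) (i : ℕ) :
    (mergeL j l).getD i d = if i < j then l.getD i d else
      if i = j then l.getD i d * l.getD (i + 1) d else l.getD (i + 1) d := by
  induction j generalizing l i with
  | zero =>
    match l, hj with
    | a :: b :: l, _ =>
      cases i with
      | zero => simp
      | succ i => simp
  | succ j ih =>
    match l, hj with
    | a :: l, hj =>
      rw [mergeL_succ_cons]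
      cases i with
      | zero => simp
      | succ i =>
        rw [List.getD_cons_succ, ih l (by simpa using hj) i]
        simp only [List.getD_cons_succ, Nat.add_lt_add_iff_right, Nat.add_right_cancel_iff]

/-- rotation of a list: the first entry is moved to the end -/
def rot : List R → List R
  | [] => []
  | a :: l => l ++ [a]

/-- the last face of a list: the last entry is multiplied onto the first one -/
def lastF : List R → List R
  | [] => []
  | [_] => []
  | a :: b :: l => (((b :: l).getLast (List.cons_ne_nil b l)) * a) :: (b :: l).dropLast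

lemma lastF_snoc (a z : R) (l : List R) : lastF (a :: (l ++ [z])) = (z * a) :: l := by
  cases l with
  | nil => simp [lastF]
  | cons b l =>
    have h1 : (b :: (l ++ [z])).dropLast = b :: l := by
      change ((b :: l) ++ [z]).dropLast = b :: l
      exact List.dropLast_concat
    simp [lastF, h1]

lemma lastF_rot (a b : R) (l : List R) : lastF (rot (a :: b :: l)) = mergeL 0 (a :: b :: l) := by
  have : rot (a :: b :: l) = b :: (l ++ [a]) := rfl
  rw [this, lastF_snoc]
  rfl

end lists

/-- additivity in every entry, on lists of length `m` -/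
def AddL {R : Type*} [Add R] (m : ℕ) (F : List R → ℝ) : Prop :=
  ∀ l₁ l₂ : List R, l₁.length + (l₂.length + 1) = m → ∀ x y : R,
    F (l₁ ++ (x + y) :: l₂) = F (l₁ ++ x :: l₂) + F (l₁ ++ y :: l₂)

lemma AddL.cons {R : Type*} [Add R] {m : ℕ} {F : List R → ℝ} (hF : AddL (m + 1) F) (a : R) :
    AddL m (fun l => F (a :: l)) := by
  intro l₁ l₂ h x y
  have := hF (a :: l₁) l₂ (by simp only [List.length_cons]; omega) x y
  simpa using this

section

variable {R : Type*} [Ring R] {n : Type*} [Fintype n] [DecidableEq n] (A : Matrix n n R)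

/-- the sum of `F [A a i₁, A i₁ i₂, …, A i_{m-1} b]` over all paths of length `m` -/
def Tm : ℕ → (List R → ℝ) → Matrix n n ℝ
  | 0, F => F [] • (1 : Matrix n n ℝ)
  | m + 1, F => fun a b => ∑ c, Tm m (fun l => F (A a c :: l)) c b

lemma Tm_zero (F : List R → ℝ) : Tm A 0 F = F [] • (1 : Matrix n n ℝ) := rfl

lemma Tm_succ (m : ℕ) (F : List R → ℝ) (a b : n) :
    Tm A (m + 1) F a b = ∑ c, Tm A m (fun l => F (A a c :: l)) c b := rfl

variable {A}

lemma Tm_congr {J : Set R} (hJ : ∀ i j, A i j ∈ J) (m : ℕ) (F F' : List R → ℝ)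
    (h : ∀ l, l.length = m → (∀ x ∈ l, x ∈ J) → F l = F' l) : Tm A m F = Tm A m F' := by
  induction m generalizing F F' with
  | zero => rw [Tm_zero, Tm_zero, h [] rfl (by simp)]
  | succ m ih =>
    ext a b
    rw [Tm_succ, Tm_succ]
    refine Finset.sum_congr rfl fun c _ => ?_
    rw [ih _ _ fun l hl hlJ => h (A a c :: l) (by simp [hl]) (by
      intro x hx
      rcases List.mem_cons.1 hx with rfl | hx
      · exact hJ _ _
      · exact hlJ x hx)]

lemma Tm_congr' (m : ℕ) (F F' : List R → ℝ)
    (h : ∀ l, l.length = m → F l = F' l) : Tm A m F = Tm A m F' :=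
  Tm_congr (J := Set.univ) (fun _ _ => Set.mem_univ _) m F F' fun l hl _ => h l hl

lemma Tm_add (m : ℕ) (F F' : List R → ℝ) :
    Tm A m (fun l => F l + F' l) = Tm A m F + Tm A m F' := by
  induction m generalizing F F' with
  | zero => rw [Tm_zero, Tm_zero, Tm_zero, add_smul]
  | succ m ih =>
    ext a b
    rw [Matrix.add_apply, Tm_succ, Tm_succ, Tm_succ, ← Finset.sum_add_distrib]
    refine Finset.sum_congr rfl fun c _ => ?_
    rw [ih, Matrix.add_apply]

lemma Tm_smul (m : ℕ) (r : ℝ) (F : List R → ℝ) :
    Tm A m (fun l => r * F l) = r • Tm A m F := by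
  induction m generalizing F with
  | zero => rw [Tm_zero, Tm_zero, mul_smul]
  | succ m ih =>
    ext a b
    rw [Matrix.smul_apply, Tm_succ, Tm_succ, Finset.smul_sum]
    refine Finset.sum_congr rfl fun c _ => ?_
    rw [ih, Matrix.smul_apply]

lemma Tm_sum {ι : Type*} (s : Finset ι) (m : ℕ) (F : ι → List R → ℝ) :
    Tm A m (fun l => ∑ i ∈ s, F i l) = ∑ i ∈ s, Tm A m (F i) := by
  classical
  induction s using Finset.induction_on with
  | empty =>
    simp only [Finset.sum_empty]
    have := Tm_smul (A := A) m 0 (fun _ => 0)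
    simpa using this
  | insert a s ha ih =>
    simp only [Finset.sum_insert ha]
    rw [Tm_add, ih]

lemma Tm_snoc (m : ℕ) (F : List R → ℝ) (a b : n) :
    Tm A (m + 1) F a b = ∑ c, Tm A m (fun l => F (l ++ [A c b])) a c := by
  induction m generalizing F a b with
  | zero =>
    rw [Tm_succ, Finset.sum_eq_single b, Finset.sum_eq_single a]
    · simp [Tm_zero]
    · intro c _ hc
      simp [Tm_zero, Matrix.one_apply_ne (Ne.symm hc)]
    · intro h
      exact absurd (Finset.mem_univ _) h
    · intro c _ hc
      simp [Tm_zero, Matrix.one_apply_ne hc]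
    · intro h
      exact absurd (Finset.mem_univ _) h
  | succ m ih =>
    rw [Tm_succ]
    have h1 : ∀ d, Tm A (m + 1) (fun l => F (A a d :: l)) d b =
        ∑ c, Tm A m (fun l => F (A a d :: (l ++ [A c b]))) d c := fun d => ih _ d b
    rw [Finset.sum_congr rfl fun d _ => h1 d, Finset.sum_comm]
    refine Finset.sum_congr rfl fun c _ => ?_
    rw [Tm_succ]
    rfl

lemma trace_rot (m : ℕ) (F : List R → ℝ) :
    (Tm A m (fun l => F (rot l))).trace = (Tm A m F).trace := by
  cases m with
  | zero => rfl
  | succ m =>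
    rw [Matrix.trace, Matrix.trace]
    simp only [Matrix.diag_apply]
    have h1 : ∀ a, Tm A (m + 1) (fun l => F (rot l)) a a =
        ∑ c, Tm A m (fun l => F (l ++ [A a c])) c a := fun a => Tm_succ A m _ a a
    have h2 : ∀ c, Tm A (m + 1) F c c = ∑ a, Tm A m (fun l => F (l ++ [A a c])) c a :=
      fun c => Tm_snoc m F c c
    rw [Finset.sum_congr rfl fun a _ => h1 a, Finset.sum_congr rfl fun c _ => h2 c,
      Finset.sum_comm]

/-- additivity in the first entry for finite sums -/
lemma AddL.head_sum {m : ℕ} {F : List R → ℝ} (hF : AddL (m + 1) F) {ι : Type*} (s : Finset ι)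
    (x : ι → R) (l : List R) (hl : l.length = m) :
    F ((∑ i ∈ s, x i) :: l) = ∑ i ∈ s, F (x i :: l) := by
  classical
  have h0 : F ((0 : R) :: l) = 0 := by
    have := hF [] l (by simp [hl]) 0 0
    simp only [List.nil_append, add_zero] at this
    linarith
  induction s using Finset.induction_on with
  | empty => simpa using h0
  | insert a s ha ih =>
    rw [Finset.sum_insert ha, Finset.sum_insert ha, ← ih]
    have := hF [] l (by simp [hl]) (x a) (∑ i ∈ s, x i)
    simpa using this

lemma Tm_merge (hA : A * A = A) (j m : ℕ) (hj : j + 1 ≤ m) (F : List R → ℝ) (hF : AddL m F) :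
    Tm A (m + 1) (fun l => F (mergeL j l)) = Tm A m F := by
  induction j generalizing m F with
  | zero =>
    obtain ⟨m, rfl⟩ : ∃ m', m = m' + 1 := ⟨m - 1, by omega⟩
    ext a b
    rw [Tm_succ, Tm_succ]
    simp only [Tm_succ, mergeL_zero_cons]
    rw [Finset.sum_comm]
    refine Finset.sum_congr rfl fun d _ => ?_
    have h1 : ∑ c, Tm A m (fun l => F (A a c * A c d :: l)) d b =
        (∑ c, Tm A m (fun l => F (A a c * A c d :: l))) d b := by
      rw [Matrix.sum_apply]
    have h2 : Tm A m (fun l => ∑ c, F (A a c * A c d :: l)) =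
        Tm A m (fun l => F (A a d :: l)) := by
      refine Tm_congr' m _ _ fun l hl => ?_
      rw [← hF.head_sum Finset.univ (fun c => A a c * A c d) l hl, ← Matrix.mul_apply, hA]
    rw [h1, ← Tm_sum, h2]
  | succ j ih =>
    obtain ⟨m, rfl⟩ : ∃ m', m = m' + 1 := ⟨m - 1, by omega⟩
    ext a b
    rw [Tm_succ, Tm_succ]
    refine Finset.sum_congr rfl fun c _ => ?_
    simp only [mergeL_succ_cons]
    rw [ih m (by omega) (fun l => F (A a c :: l)) (hF.cons _)]

lemma prod_mergeL_zero (l : List R) : (mergeL 0 l).prod = l.prod := by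
  match l with
  | [] => rfl
  | [a] => rfl
  | a :: b :: l => simp [mul_assoc]

lemma addL_prod (h : R →+ ℝ) (m : ℕ) : AddL m (fun l => h l.prod) := by
  intro l₁ l₂ _ x y
  simp [add_mul, mul_add]

lemma Tm_prod (hA : A * A = A) (h : R →+ ℝ) (m : ℕ) :
    Tm A (m + 1) (fun l => h l.prod) = Tm A 1 (fun l => h l.prod) := by
  induction m with
  | zero => rfl
  | succ m ih =>
    rw [← ih, ← Tm_merge hA 0 (m + 1) (by omega) (fun l => h l.prod) (addL_prod h _)]
    refine Tm_congr' _ _ _ fun l _ => ?_
    rw [prod_mergeL_zero]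

lemma trace_Tm_one (h : R →+ ℝ) :
    (Tm A 1 (fun l => h l.prod)).trace = ∑ i, h (A i i) := by
  rw [Matrix.trace]
  refine Finset.sum_congr rfl fun i _ => ?_
  rw [Matrix.diag_apply, Tm_succ, Finset.sum_eq_single i]
  · simp [Tm_zero]
  · intro c _ hc
    simp [Tm_zero, Matrix.one_apply_ne hc]
  · intro h
    exact absurd (Finset.mem_univ _) h

/-- List form of the vanishing theorem for rings. -/
theorem trace_eq_zero_of_list (hA : A * A = A) {J : Set R} (hJ : ∀ i j, A i j ∈ J)
    (h : R →+ ℝ) (k : ℕ) (hk : 1 ≤ k) (u : List R → ℝ) (hadd : AddL (2 * k) u)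
    (hu : ∀ l, l.length = 2 * k → (∀ x ∈ l, x ∈ J) → u (rot l) = - u l)
    (hb : ∀ l, l.length = 2 * k + 1 → (∀ x ∈ l, x ∈ J) →
      (∑ j ∈ Finset.range (2 * k), (-1 : ℝ) ^ j * u (mergeL j l)) + u (lastF l) = h l.prod) :
    ∑ i, h (A i i) = 0 := by
  have hlast : (Tm A (2 * k + 1) (fun l => u (lastF l))).trace = (Tm A (2 * k) u).trace := by
    rw [← trace_rot (2 * k + 1) (fun l => u (lastF l)),
      ← Tm_merge hA 0 (2 * k) (by omega) u hadd]
    congr 1
    refine Tm_congr' _ _ _ fun l hl => ?_
    match l, hl with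
    | a :: b :: l, _ => rw [lastF_rot]
    | [a], hl => simp at hl; omega
  have hflip : (Tm A (2 * k) u).trace = 0 := by
    have h1 := trace_rot (A := A) (2 * k) u
    rw [Tm_congr hJ (2 * k) (fun l => u (rot l)) (fun l => (-1 : ℝ) * u l) (fun l hl hlJ => by
      rw [hu l hl hlJ]; ring), Tm_smul, Matrix.trace_smul, smul_eq_mul] at h1
    linarith
  have hmain : Tm A (2 * k + 1) (fun l => h l.prod) =
      (∑ j ∈ Finset.range (2 * k), (-1 : ℝ) ^ j • Tm A (2 * k) u) +
        Tm A (2 * k + 1) (fun l => u (lastF l)) := by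
    have h1 : ∀ j ∈ Finset.range (2 * k), (-1 : ℝ) ^ j • Tm A (2 * k) u =
        Tm A (2 * k + 1) (fun l => (-1 : ℝ) ^ j * u (mergeL j l)) := by
      intro j hj
      rw [Finset.mem_range] at hj
      rw [Tm_smul, Tm_merge hA j (2 * k) (by omega) u hadd]
    rw [Finset.sum_congr rfl h1, ← Tm_sum, ← Tm_add]
    exact Tm_congr hJ _ _ _ fun l hl hlJ => (hb l hl hlJ).symm
  have h1 := congrArg Matrix.trace hmain
  rw [Tm_prod hA h (2 * k), Matrix.trace_add, hlast, Matrix.trace_sum, hflip, add_zero,
    trace_Tm_one] at h1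
  have h3 : ∀ j ∈ Finset.range (2 * k), ((-1 : ℝ) ^ j • Tm A (2 * k) u).trace = 0 := by
    intro j _
    rw [Matrix.trace_smul, hflip, smul_zero]
  rw [Finset.sum_congr rfl h3, Finset.sum_const_zero] at h1
  exact h1

end

lemma finRotate_val' (N : ℕ) (i : Fin N) :
    (finRotate N i : ℕ) = if (i : ℕ) + 1 = N then 0 else (i : ℕ) + 1 := by
  cases N with
  | zero => exact i.elim0
  | succ N =>
    have h := coe_finRotate i
    rw [h]
    by_cases hi : i = Fin.last N
    · rw [if_pos hi, hi, if_pos (by simp)]
    · have : (i : ℕ) ≠ N := fun h' => hi (Fin.ext (by simpa using h'))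
      rw [if_neg hi, if_neg (by omega)]

lemma ofFn_getD' {R : Type*} (d : R) (l : List R) (N : ℕ) (h : l.length = N) :
    List.ofFn (fun i : Fin N => l.getD i d) = l := by
  subst h
  apply List.ext_getElem
  · simp
  · intro i h1 h2
    simp

/-- The tuple form of the hypothesis: the `2k + 1`-linear function `h(x₀ ⋯ x_{2k})` restricted to
`J` is the cyclic coboundary of a `2k`-linear function. -/
def CycOn {R : Type*} [Ring R] (J : Set R) (h : R → ℝ) : Prop :=
  ∃ (k : ℕ) (u : MultilinearMap ℤ (fun _ : Fin (2 * k) => R) ℝ),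
    (∀ x : Fin (2 * k) → R, (∀ i, x i ∈ J) → u (x ∘ finRotate (2 * k)) = - u x) ∧
    ∀ x : Fin (2 * k + 1) → R, (∀ i, x i ∈ J) →
      (∑ j : Fin (2 * k), (-1 : ℝ) ^ (j : ℕ) * u (Fin.contractNth j.castSucc (· * ·) x)) +
        u (fun i => if (i : ℕ) = 0 then x (Fin.last _) * x 0 else x i.castSucc) =
      h (List.ofFn x).prod

/-- The vanishing theorem for rings. -/
theorem trace_eq_zero_of_cycOn {R : Type*} [Ring R] {n : Type*} [Fintype n] [DecidableEq n]
    {A : Matrix n n R} (hA : A * A = A) {J : Set R} (hJ : ∀ i j, A i j ∈ J) (h : R →+ ℝ)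
    (hh : CycOn J h) : ∑ i, h (A i i) = 0 := by
  classical
  obtain ⟨k, u, hu, hb⟩ := hh
  rcases Nat.eq_zero_or_pos k with hk | hk
  · subst hk
    refine Finset.sum_eq_zero fun i _ => ?_
    have h1 := hu (fun i => Fin.elim0 i) (fun i => Fin.elim0 i)
    have h2 := hb (fun _ => A i i) (fun _ => hJ i i)
    have e1 : ∀ f g : Fin (2 * 0) → R, f = g := fun f g => funext fun i => Fin.elim0 i
    have h3 : u (fun i => Fin.elim0 i) = 0 := by
      rw [e1 ((fun i => Fin.elim0 i) ∘ finRotate (2 * 0)) (fun i => Fin.elim0 i)] at h1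
      linarith
    rw [e1 (fun i => if (i : ℕ) = 0 then _ else _) (fun i => Fin.elim0 i), h3, add_zero] at h2
    have h4 : (∑ j : Fin (2 * 0), (-1 : ℝ) ^ (j : ℕ) *
        u (Fin.contractNth j.castSucc (· * ·) (fun _ => A i i))) = 0 := by
      apply Finset.sum_eq_zero
      intro j _
      exact Fin.elim0 j
    rw [h4] at h2
    simpa using h2.symm
  · have hcongr : ∀ l : List R, ∀ i : ℕ, i < l.length → (∀ x ∈ l, x ∈ J) → l.getD i 0 ∈ J := by
      intro l i hi hl
      rw [List.getD_eq_getElem _ _ hi]
      exact hl _ (List.getElem_mem hi)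
    refine trace_eq_zero_of_list hA hJ h k hk (fun l => u fun i => l.getD i 0) ?_ ?_ ?_
    · intro l₁ l₂ hl x y
      have e : ∀ z : R, (fun i : Fin (2 * k) => (l₁ ++ z :: l₂).getD i 0) =
          Function.update (fun i : Fin (2 * k) => (l₁ ++ (0 : R) :: l₂).getD i 0)
            ⟨l₁.length, by omega⟩ z := by
        intro z
        funext i
        by_cases hi : i = ⟨l₁.length, by omega⟩
        · subst hi
          rw [Function.update_self]
          simp
        · rw [Function.update_of_ne hi]
          have hi' : (i : ℕ) ≠ l₁.length := fun h' => hi (Fin.ext h')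
          rcases lt_or_gt_of_ne hi' with h1 | h1
          · rw [List.getD_append _ _ _ _ h1, List.getD_append _ _ _ _ h1]
          · rw [List.getD_append_right _ _ _ _ h1.le, List.getD_append_right _ _ _ _ h1.le]
            obtain ⟨m, hm⟩ : ∃ m, (i : ℕ) - l₁.length = m + 1 := ⟨(i : ℕ) - l₁.length - 1, by omega⟩
            rw [hm, List.getD_cons_succ, List.getD_cons_succ]
      change u (fun i : Fin (2 * k) => (l₁ ++ (x + y) :: l₂).getD i 0) =
        u (fun i : Fin (2 * k) => (l₁ ++ x :: l₂).getD i 0) +
          u (fun i : Fin (2 * k) => (l₁ ++ y :: l₂).getD i 0)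
      rw [e (x + y), e x, e y, u.map_update_add]
    · intro l hl hlJ
      rw [← hu _ fun i => hcongr l i (by rw [hl]; exact i.2) hlJ]
      congr 1
      funext i
      simp only [Function.comp]
      rw [finRotate_val']
      match l, hl with
      | [], hl => simp at hl; omega
      | a :: l, hl =>
        have hl' : l.length + 1 = 2 * k := by simpa using hl
        simp only [rot]
        split_ifs with hi
        · rw [List.getD_append_right _ _ _ _ (by omega), List.getD_cons_zero]
          have : (i : ℕ) - l.length = 0 := by omega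
          rw [this, List.getD_cons_zero]
        · rw [List.getD_append _ _ _ _ (by omega), List.getD_cons_succ]
    · intro l hl hlJ
      have h1 := hb (fun i => l.getD i 0) fun i => hcongr l i (by rw [hl]; exact i.2) hlJ
      rw [ofFn_getD' _ _ _ hl] at h1
      rw [← h1]
      congr 1
      · rw [Finset.sum_range]
        refine Finset.sum_congr rfl fun j _ => ?_
        congr 2
        funext i
        rw [mergeL_getD _ _ _ (by rw [hl]; omega)]
        rfl
      · congr 1
        funext i
        have hi := i.2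
        match l, hl with
        | [], hl => simp at hl
        | a :: l, hl =>
          have hne : l ≠ [] := by
            rintro rfl
            simp at hl
            omega
          obtain ⟨l', z, rfl⟩ : ∃ l' z, l = l' ++ [z] :=
            ⟨l.dropLast, l.getLast hne, (List.dropLast_append_getLast hne).symm⟩
          have hl' : l'.length + 1 = 2 * k := by simpa using hl
          rw [lastF_snoc]
          by_cases h0 : (i : ℕ) = 0
          · rw [if_pos h0, h0, List.getD_cons_zero]
            simp only [Fin.val_last, Fin.val_zero, List.getD_cons_zero]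
            congr 1
            obtain ⟨m, hm⟩ : ∃ m, 2 * k = m + 1 := ⟨2 * k - 1, by omega⟩
            rw [hm, List.getD_cons_succ, List.getD_append_right _ _ _ _ (by omega)]
            have : m - l'.length = 0 := by omega
            rw [this, List.getD_cons_zero]
          · rw [if_neg h0]
            obtain ⟨m, hm⟩ : ∃ m, (i : ℕ) = m + 1 := ⟨(i : ℕ) - 1, by omega⟩
            simp only [Fin.val_castSucc]
            rw [hm, List.getD_cons_succ, List.getD_cons_succ, List.getD_append _ _ _ _ (by omega)]

end RC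

end

end Pool.Agent.H677_Perf
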