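import Pool.Agent.H677_Perf.Final4
import Pool.Agent.H677_Perf.RingCyclic

set_option autoImplicit false
set_option linter.unusedSectionVars false

universe u

namespace Pool.Agent.H677_Perf

noncomputable section

/-- Finite groups have no nonzero finitely generated perfect projective modules. -/
theorem npp_of_finite (F : Type u) [Group F] [Finite F] : NPP F := by
  classical
  apply NPP.of_matrix
  intro m A hA hK
  obtain ⟨h1, _⟩ := kills_badIn (⊤ : Subgroup F) A hA hK Set.univ fun _ _ _ _ => Set.mem_univ _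
  have h2 : Subgroup.closure {y : F | y ∈ (⊤ : Subgroup F) ∧ BadIn Set.univ y} = ⊥ := by
    rw [Subgroup.closure_eq_bot_iff]
    rintro y ⟨_, hy⟩
    exact absurd (isOfFinOrder_of_finite y) (hy.not_isOfFinOrder Set.finite_univ)
  rw [h2] at h1
  exact h1.eq_zero

section

variable {Q : Type u} [Group Q] {n : Type} [Fintype n] [DecidableEq n]
  {A : Matrix n n (MonoidAlgebra ℤ Q)}

lemma kills_of_finiteIndex (hA : A * A = A) (hK : Kills (⊤ : Subgroup Q) A) (R : Subgroup Q)
    [hR : R.Normal] [R.FiniteIndex] : Kills R A := by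
  rw [kills_iff_im_eq_zero]
  exact (npp_of_finite (Q ⧸ R)).matrix _ (im_idem _ hA) (kills_im _ ⊤ ⊤ le_top hK)

lemma evalFn_eq_zero_of_kills' {B : Type*} [AddCommGroup B] {R : Subgroup Q}
    (hA : Kills R A) (χ : Q → B) (hχ : ∀ g, ∀ r ∈ R, χ (g * r) = χ g) (i j : n) :
    evalFn χ (A i j) = 0 := by
  have h2 : evalFn χ (A i j) =
      ((A i j).coeff.mapDomain (QuotientGroup.mk : Q → Q ⧸ R)).sum
        fun c r => r • χ (Quotient.out c) := by
    rw [Finsupp.sum_mapDomain_index (by simp) (by intro b m₁ m₂; rw [add_smul]), evalFn_eq_sum]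
    refine Finsupp.sum_congr fun g _ => ?_
    congr 1
    obtain ⟨r, hr⟩ := QuotientGroup.mk_out_eq_mul R g
    rw [hr, hχ g r r.2]
  rw [h2, hA i j, Finsupp.sum_zero_index]

lemma map_evalFn {B C : Type*} [AddCommGroup B] [AddCommGroup C] (f : B →+ C) (χ : Q → B)
    (x : MonoidAlgebra ℤ Q) : f (evalFn χ x) = evalFn (fun g => f (χ g)) x := by
  induction x using MonoidAlgebra.induction_linear with
  | zero => simp
  | add x y hx hy => rw [map_add, map_add, map_add, hx, hy]
  | single g a => rw [evalFn_single, evalFn_single, map_zsmul]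

/-- Representations over the integers kill perfect idempotents. -/
lemma evalFn_int_rep (hA : A * A = A) (hK : Kills (⊤ : Subgroup Q) A) {d : ℕ}
    (σ : Q →* Matrix (Fin d) (Fin d) ℤ) (s r : Fin d) (i j : n) :
    evalFn (fun g => σ g s r) (A i j) = 0 := by
  classical
  have key : ∀ m : ℕ, 1 ≤ m → ((m : ℤ) ∣ evalFn (fun g => σ g s r) (A i j)) := by
    intro m hm
    have : NeZero m := ⟨by omega⟩
    let f : Q →* Matrix (Fin d) (Fin d) (ZMod m) :=
      ((Int.castRingHom (ZMod m)).mapMatrix (m := Fin d)).toMonoidHom.comp σ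
    let R : Subgroup Q := f.toHomUnits.ker
    have hfin : Finite f.toHomUnits.range := inferInstance
    have hRf : R.FiniteIndex := Subgroup.finiteIndex_ker f.toHomUnits
    have h1 := kills_of_finiteIndex hA hK R
    have hf : ∀ r ∈ R, f r = 1 := by
      intro r hr
      have := congrArg Units.val (MonoidHom.mem_ker.1 hr)
      simpa using this
    have h2 : evalFn (fun g => ((σ g s r : ℤ) : ZMod m)) (A i j) = 0 := by
      apply evalFn_eq_zero_of_kills' h1
      intro g x hx
      have h3 : f (g * x) = f g := by rw [map_mul, hf x hx, mul_one]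
      exact congrFun (congrFun h3 s) r
    have h4 := map_evalFn (Int.castAddHom (ZMod m)) (fun g => σ g s r) (A i j)
    change ((evalFn (fun g => σ g s r) (A i j) : ℤ) : ZMod m) =
      evalFn (fun g => ((σ g s r : ℤ) : ZMod m)) (A i j) at h4
    rw [h2, ZMod.intCast_zmod_eq_zero_iff_dvd] at h4
    exact h4
  by_contra hne
  have h5 := key ((evalFn (fun g => σ g s r) (A i j)).natAbs + 1) (by omega)
  have h6 := Int.le_of_dvd (Int.natAbs_pos.2 hne |> fun h => by exact_mod_cast h)
    ((Int.dvd_natAbs).2 h5)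
  omega

/-- the ring homomorphism extending a matrix representation over a group ring -/
def liftM {Γ : Type*} [Group Γ] {d : ℕ} (ρ : Q →* Matrix (Fin d) (Fin d) (MonoidAlgebra ℤ Γ)) :
    MonoidAlgebra ℤ Q →+* Matrix (Fin d) (Fin d) (MonoidAlgebra ℤ Γ) :=
  (MonoidAlgebra.lift ℤ (Matrix (Fin d) (Fin d) (MonoidAlgebra ℤ Γ)) Q ρ).toRingHom

lemma liftM_single {Γ : Type*} [Group Γ] {d : ℕ}
    (ρ : Q →* Matrix (Fin d) (Fin d) (MonoidAlgebra ℤ Γ)) (g : Q) (a : ℤ) :
    liftM ρ (MonoidAlgebra.single g a) = a • ρ g := by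
  change MonoidAlgebra.lift ℤ _ Q ρ (MonoidAlgebra.single g a) = _
  rw [MonoidAlgebra.lift_single]

/-- the augmentation as a ring homomorphism to the integers -/
def augZ (Γ : Type*) [Group Γ] : MonoidAlgebra ℤ Γ →+* ℤ :=
  (MonoidAlgebra.lift ℤ ℤ Γ 1).toRingHom

lemma augZ_single {Γ : Type*} [Group Γ] (g : Γ) (a : ℤ) : augZ Γ (MonoidAlgebra.single g a) = a := by
  change MonoidAlgebra.lift ℤ ℤ Γ 1 (MonoidAlgebra.single g a) = _
  rw [MonoidAlgebra.lift_single]
  simp

lemma epsU_eq_single {Γ : Type u} [Group Γ] (y : MonoidAlgebra ℤ Γ) :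
    epsU Γ y = MonoidAlgebra.single () (augZ Γ y) := by
  induction y using MonoidAlgebra.induction_linear with
  | zero => simp
  | add x y hx hy => rw [map_add, map_add, hx, hy, MonoidAlgebra.single_add]
  | single g a =>
    rw [augZ_single]
    unfold epsU
    rw [MonoidAlgebra.mapDomainRingHom_apply, MonoidAlgebra.mapDomain_single]

/-- Matrix representations over group rings without perfect projectives kill perfect
idempotents. -/
theorem kills_rep {Γ : Type u} [Group Γ] (hΓ : NPP Γ) (hA : A * A = A)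
    (hK : Kills (⊤ : Subgroup Q) A) {d : ℕ}
    (ρ : Q →* Matrix (Fin d) (Fin d) (MonoidAlgebra ℤ Γ)) (i j : n) : liftM ρ (A i j) = 0 := by
  classical
  let A' : Matrix (n × Fin d) (n × Fin d) (MonoidAlgebra ℤ Γ) :=
    Matrix.compRingEquiv n (Fin d) (MonoidAlgebra ℤ Γ) (A.map (liftM ρ))
  have hA'e : ∀ i s j r, A' (i, s) (j, r) = liftM ρ (A i j) s r := fun i s j r => rfl
  have hA' : A' * A' = A' := by
    simp only [A']
    rw [← map_mul, ← Matrix.map_mul, hA]
  have hK' : Kills (⊤ : Subgroup Γ) A' := by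
    rw [kills_top_iff]
    rintro ⟨i, s⟩ ⟨j, r⟩
    rw [hA'e, epsU_eq_single]
    let σ : Q →* Matrix (Fin d) (Fin d) ℤ := ((augZ Γ).mapMatrix (m := Fin d)).toMonoidHom.comp ρ
    have h1 : ∀ x : MonoidAlgebra ℤ Q, augZ Γ (liftM ρ x s r) = evalFn (fun g => σ g s r) x := by
      intro x
      induction x using MonoidAlgebra.induction_linear with
      | zero => simp
      | add x y hx hy => rw [map_add, Matrix.add_apply, map_add, map_add, hx, hy]
      | single g a =>
        rw [liftM_single, evalFn_single, Matrix.smul_apply, map_zsmul]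
        rfl
    rw [h1, evalFn_int_rep hA hK σ s r i j]
    simp
  have h0 := hΓ.matrix A' hA' hK'
  refine Matrix.ext fun s r => ?_
  rw [← hA'e, h0]
  rfl

/-- the ring homomorphism extending a matrix representation over a real group ring -/
def liftR {Γ : Type*} [Group Γ] {d : ℕ} (ρ : Q →* Matrix (Fin d) (Fin d) (MonoidAlgebra ℝ Γ)) :
    MonoidAlgebra ℤ Q →+* Matrix (Fin d) (Fin d) (MonoidAlgebra ℝ Γ) :=
  (MonoidAlgebra.lift ℤ (Matrix (Fin d) (Fin d) (MonoidAlgebra ℝ Γ)) Q ρ).toRingHom

lemma liftR_single {Γ : Type*} [Group Γ] {d : ℕ}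
    (ρ : Q →* Matrix (Fin d) (Fin d) (MonoidAlgebra ℝ Γ)) (g : Q) (a : ℤ) :
    liftR ρ (MonoidAlgebra.single g a) = a • ρ g := by
  change MonoidAlgebra.lift ℤ _ Q ρ (MonoidAlgebra.single g a) = _
  rw [MonoidAlgebra.lift_single]

/-- Positivity of the trace in matrix representations over real group rings. -/
theorem rep_trace_nonneg {Γ : Type*} [Group Γ] {d : ℕ}
    (ρ : Q →* Matrix (Fin d) (Fin d) (MonoidAlgebra ℝ Γ)) (hA : A * A = A) :
    0 ≤ Tau (fun g => ((ρ g).trace).coeff 1) A := by
  classical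
  let A' : Matrix (n × Fin d) (n × Fin d) (MonoidAlgebra ℝ Γ) :=
    Matrix.compRingEquiv n (Fin d) (MonoidAlgebra ℝ Γ) (A.map (liftR ρ))
  have hA'e : ∀ i s j r, A' (i, s) (j, r) = liftR ρ (A i j) s r := fun i s j r => rfl
  have hA' : A' * A' = A' := by
    simp only [A']
    rw [← map_mul, ← Matrix.map_mul, hA]
  have h1 := Kap.trace_eq_sum_norm A' hA'
  have h2 : 0 ≤ ∑ x, (A' x x).coeff 1 := by
    rw [h1]
    exact Finset.sum_nonneg fun j _ => by positivity
  have h3 : ∀ x : MonoidAlgebra ℤ Q, evalFn (fun g => ((ρ g).trace).coeff 1) x =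
      ∑ s, (liftR ρ x s s).coeff 1 := by
    intro x
    induction x using MonoidAlgebra.induction_linear with
    | zero => simp
    | add x y hx hy =>
      rw [map_add, map_add, hx, hy, ← Finset.sum_add_distrib]
      refine Finset.sum_congr rfl fun s _ => ?_
      rw [Matrix.add_apply, MonoidAlgebra.coeff_add, Finsupp.add_apply]
    | single g a =>
      rw [evalFn_single, liftR_single, Matrix.trace, MonoidAlgebra.coeff_sum,
        Finsupp.coe_finsetSum, Finset.sum_apply, Finset.smul_sum]
      refine Finset.sum_congr rfl fun s _ => ?_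
      rw [Matrix.smul_apply, MonoidAlgebra.coeff_smul, Finsupp.smul_apply]
      rfl
  rw [Tau_apply, Finset.sum_congr rfl fun i _ => h3 (A i i)]
  rw [Fintype.sum_prod_type] at h2
  exact h2

end

end

end Pool.Agent.H677_Perf
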