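import Pool.Agent.H677_Perf.Trace

set_option autoImplicit false
set_option linter.unusedSectionVars false

namespace Pool.Agent.H677_Perf

noncomputable section

variable {R : Type*} [Semiring R] {G : Type*} {n : Type*} [Fintype n] [DecidableEq n]

/-- the entries of `A` are mapped to zero by `e` -/
def KillsF {Z : Type*} (e : G → Z) (A : Matrix n n (MonoidAlgebra R G)) : Prop :=
  ∀ i j, (A i j).coeff.mapDomain e = 0

lemma mapDomain_eq_zero_of_fiber {Z Z' : Type*} (e : G → Z) (e' : G → Z') (v : G →₀ R)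
    (h : ∀ a ∈ v.support, ∀ b ∈ v.support, e a = e b → e' a = e' b)
    (hv : v.mapDomain e = 0) : v.mapDomain e' = 0 := by
  classical
  by_cases h0 : v = 0
  · rw [h0, Finsupp.mapDomain_zero]
  · obtain ⟨a0, ha0⟩ := Finsupp.support_nonempty_iff.2 h0
    let u : Z → Z' := fun z => if hz : ∃ a, a ∈ v.support ∧ e a = z then e' hz.choose else e' a0
    have hu : ∀ a ∈ v.support, u (e a) = e' a := by
      intro a ha
      have hz : ∃ b, b ∈ v.support ∧ e b = e a := ⟨a, ha, rfl⟩
      simp only [u, dif_pos hz]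
      exact h _ hz.choose_spec.1 _ ha hz.choose_spec.2
    have h1 : v.mapDomain e' = v.mapDomain (u ∘ e) :=
      Finsupp.mapDomain_congr fun a ha => (hu a ha).symm
    rw [h1, Finsupp.mapDomain_comp, hv, Finsupp.mapDomain_zero]

lemma KillsF.of_fiber {Z Z' : Type*} {e : G → Z} {e' : G → Z'}
    {A : Matrix n n (MonoidAlgebra R G)} (hA : KillsF e A)
    (h : ∀ i j, ∀ a ∈ (A i j).coeff.support, ∀ b ∈ (A i j).coeff.support,
      e a = e b → e' a = e' b) : KillsF e' A :=
  fun i j => mapDomain_eq_zero_of_fiber e e' _ (h i j) (hA i j)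

lemma KillsF.of_comp {Z Z' : Type*} {e : G → Z} {A : Matrix n n (MonoidAlgebra R G)}
    (hA : KillsF e A) (u : Z → Z') : KillsF (fun g => u (e g)) A :=
  hA.of_fiber fun _ _ _ _ _ _ h => congrArg u h

variable [Group G]

/-- the subgroup `N` kills `A`: the image of `A` in the free module on `G ⧸ N` is zero -/
def Kills (N : Subgroup G) (A : Matrix n n (MonoidAlgebra R G)) : Prop :=
  KillsF (QuotientGroup.mk : G → G ⧸ N) A

lemma Kills.mono {N N' : Subgroup G} {A : Matrix n n (MonoidAlgebra R G)} (hA : Kills N A)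
    (h : N ≤ N') : Kills N' A :=
  KillsF.of_fiber hA fun _ _ a _ b _ hab => by
    rw [QuotientGroup.eq] at hab ⊢
    exact h hab

lemma Kills.eq_zero {A : Matrix n n (MonoidAlgebra R G)} (hA : Kills (⊥ : Subgroup G) A) :
    A = 0 := by
  have h1 : KillsF (id : G → G) A := KillsF.of_fiber hA fun _ _ a _ b _ hab => by
    rw [QuotientGroup.eq, Subgroup.mem_bot] at hab
    exact (inv_mul_eq_one.1 hab)
  refine Matrix.ext fun i j => ?_
  have h2 := h1 i j
  rw [Finsupp.mapDomain_id] at h2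
  rw [Matrix.zero_apply]
  apply MonoidAlgebra.ext
  rw [h2]
  rfl

/-- Minimal normal subgroups killing `A`. -/
theorem exists_minimal [DecidableEq G] {A : Matrix n n (MonoidAlgebra R G)} (K : Subgroup G)
    [hKn : K.Normal] (hK : Kills K A) :
    ∃ N : Subgroup G, N.Normal ∧ N ≤ K ∧ Kills N A ∧
      (∃ T : Set G, T.Finite ∧ N = Subgroup.normalClosure T) ∧
      ∀ M : Subgroup G, M.Normal → M ≤ N → Kills M A → M = N := by
  classical
  let S : Finset G := Finset.univ.biUnion fun ij : n × n => (A ij.1 ij.2).coeff.support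
  have hS : ∀ i j, ∀ a ∈ (A i j).coeff.support, a ∈ S := by
    intro i j a ha
    exact Finset.mem_biUnion.2 ⟨(i, j), Finset.mem_univ _, ha⟩
  let prs : Subgroup G → Finset (G × G) := fun N =>
    (S ×ˢ S).filter fun ab => ab.1⁻¹ * ab.2 ∈ N
  let P : Subgroup G → Prop := fun N => N.Normal ∧ N ≤ K ∧ Kills N A
  have hex : ∃ m, ∃ N, P N ∧ (prs N).card = m := ⟨_, K, ⟨hKn, le_rfl, hK⟩, rfl⟩
  obtain ⟨N₀, ⟨hN0n, hN0K, hN0⟩, hm⟩ := Nat.find_spec hex
  have hmin : ∀ N, P N → (prs N₀).card ≤ (prs N).card := by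
    intro N hN
    rw [hm]
    exact Nat.find_min' hex ⟨N, hN, rfl⟩
  let T : Set G := ↑((prs N₀).image fun ab => ab.1⁻¹ * ab.2)
  have hTN : Subgroup.normalClosure T ≤ N₀ := by
    apply Subgroup.normalClosure_le_normal
    intro g hg
    obtain ⟨ab, hab, rfl⟩ := Finset.mem_image.1 (Finset.mem_coe.1 hg)
    exact (Finset.mem_filter.1 hab).2
  have hkill : Kills (Subgroup.normalClosure T) A := by
    refine KillsF.of_fiber hN0 fun i j a ha b hb hab => ?_
    rw [QuotientGroup.eq] at hab ⊢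
    apply Subgroup.subset_normalClosure
    exact Finset.mem_coe.2 (Finset.mem_image.2 ⟨(a, b), Finset.mem_filter.2
      ⟨Finset.mem_product.2 ⟨hS i j a ha, hS i j b hb⟩, hab⟩, rfl⟩)
  refine ⟨Subgroup.normalClosure T, Subgroup.normalClosure_normal, hTN.trans hN0K, hkill,
    ⟨T, Finset.finite_toSet _, rfl⟩, ?_⟩
  intro M hMn hMle hM
  refine le_antisymm hMle ?_
  have h1 : prs M ⊆ prs N₀ := by
    intro ab hab
    rw [Finset.mem_filter] at hab ⊢
    exact ⟨hab.1, hTN (hMle hab.2)⟩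
  have h2 : prs M = prs N₀ :=
    Finset.eq_of_subset_of_card_le h1 (hmin M ⟨hMn, (hMle.trans hTN).trans hN0K, hM⟩)
  apply Subgroup.normalClosure_le_normal
  intro g hg
  obtain ⟨ab, hab, rfl⟩ := Finset.mem_image.1 (Finset.mem_coe.1 hg)
  rw [← h2] at hab
  exact (Finset.mem_filter.1 hab).2

end

end Pool.Agent.H677_Perf
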