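import Pool.Agent.H677_Perf.Main

set_option autoImplicit false
set_option linter.unusedSectionVars false

universe u

namespace Pool.Agent.H677_Perf

noncomputable section

section transfer

variable {G : Type*} [Group G] {H : Type*} [Group H] {n : Type*} [Fintype n] [DecidableEq n]

lemma mapDomain_mul_of_on (φ : G → H) (S : Finset G)
    (hφ : ∀ a ∈ S, ∀ b ∈ S, φ (a * b) = φ a * φ b) (x y : MonoidAlgebra ℤ G)
    (hx : x.coeff.support ⊆ S) (hy : y.coeff.support ⊆ S) :
    MonoidAlgebra.mapDomain φ (x * y) = MonoidAlgebra.mapDomain φ x * MonoidAlgebra.mapDomain φ y := by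
  classical
  have hsum : ∀ z : MonoidAlgebra ℤ G,
      z = ∑ a ∈ z.coeff.support, MonoidAlgebra.single a (z.coeff a) := by
    intro z
    conv_lhs => rw [← MonoidAlgebra.sum_coeff_single z]
    rfl
  let F : MonoidAlgebra ℤ G →+ MonoidAlgebra ℤ H :=
    { toFun := MonoidAlgebra.mapDomain φ
      map_zero' := MonoidAlgebra.mapDomain_zero φ
      map_add' := MonoidAlgebra.mapDomain_add φ }
  change F (x * y) = F x * F y
  have hF : ∀ g r, F (MonoidAlgebra.single g r) = MonoidAlgebra.single (φ g) r := fun g r =>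
    MonoidAlgebra.mapDomain_single
  have h1 : x * y = ∑ a ∈ x.coeff.support, ∑ b ∈ y.coeff.support,
      MonoidAlgebra.single (a * b) (x.coeff a * y.coeff b) := by
    conv_lhs => rw [hsum x, hsum y]
    rw [Finset.sum_mul_sum]
    refine Finset.sum_congr rfl fun a _ => Finset.sum_congr rfl fun b _ => ?_
    rw [MonoidAlgebra.single_mul_single]
  have h2 : F x = ∑ a ∈ x.coeff.support, MonoidAlgebra.single (φ a) (x.coeff a) := by
    conv_lhs => rw [hsum x]
    rw [map_sum]
    exact Finset.sum_congr rfl fun a _ => hF _ _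
  have h3 : F y = ∑ a ∈ y.coeff.support, MonoidAlgebra.single (φ a) (y.coeff a) := by
    conv_lhs => rw [hsum y]
    rw [map_sum]
    exact Finset.sum_congr rfl fun a _ => hF _ _
  rw [h1, h2, h3, map_sum, Finset.sum_mul_sum]
  refine Finset.sum_congr rfl fun a ha => ?_
  rw [map_sum]
  refine Finset.sum_congr rfl fun b hb => ?_
  rw [hF, MonoidAlgebra.single_mul_single, hφ a (hx ha) b (hy hb)]

/-- Transfer of an idempotent along a local embedding. -/
theorem transfer (A : Matrix n n (MonoidAlgebra ℤ G)) (hA : A * A = A)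
    (hK : Kills (⊤ : Subgroup G) A) (S : Finset G)
    (hS : ∀ i j, (A i j).coeff.support ⊆ S) (φ : G → H) (hinj : Set.InjOn φ S)
    (hφ : ∀ a ∈ S, ∀ b ∈ S, φ (a * b) = φ a * φ b) :
    ∃ A' : Matrix n n (MonoidAlgebra ℤ H), A' * A' = A' ∧ Kills (⊤ : Subgroup H) A' ∧
      (A' = 0 → A = 0) := by
  classical
  let F : MonoidAlgebra ℤ G →+ MonoidAlgebra ℤ H :=
    { toFun := MonoidAlgebra.mapDomain φ
      map_zero' := MonoidAlgebra.mapDomain_zero φ
      map_add' := MonoidAlgebra.mapDomain_add φ }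
  have hFc : ∀ x, (F x).coeff = x.coeff.mapDomain φ := fun x => rfl
  refine ⟨A.map F, ?_, ?_, ?_⟩
  · refine Matrix.ext fun i j => ?_
    have h1 : (A * A) i j = A i j := by rw [hA]
    rw [Matrix.map_apply, ← h1, Matrix.mul_apply, Matrix.mul_apply, map_sum]
    refine Finset.sum_congr rfl fun l _ => ?_
    rw [Matrix.map_apply, Matrix.map_apply]
    exact (mapDomain_mul_of_on φ S hφ (A i l) (A l j) (hS i l) (hS l j)).symm
  · intro i j
    rw [Matrix.map_apply, hFc, ← Finsupp.mapDomain_comp]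
    refine mapDomain_eq_zero_of_fiber (QuotientGroup.mk : G → G ⧸ (⊤ : Subgroup G)) _ _ ?_ (hK i j)
    intro a _ b _ _
    simp only [Function.comp]
    rw [QuotientGroup.eq]
    exact Subgroup.mem_top _
  · intro h
    have h1 : KillsF φ A := by
      intro i j
      have := congrFun (congrFun h i) j
      rw [Matrix.map_apply] at this
      rw [← hFc, this]
      rfl
    have h2 : KillsF (id : G → G) A := h1.of_fiber fun i j a ha b hb hab =>
      hinj (hS i j ha) (hS i j hb) hab
    refine Matrix.ext fun i j => ?_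
    have h3 := h2 i j
    rw [Finsupp.mapDomain_id] at h3
    apply MonoidAlgebra.ext
    rw [h3]
    rfl

end transfer

/-- the hypothesis on the kernel -/
def GoodKernel {H : Type u} [Group H] (K : Subgroup H) : Prop :=
  ∀ (N : Subgroup H) (_ : N.Normal), N ≤ K → N ≠ ⊥ →
    (∃ T : Set H, T.Finite ∧ N = Subgroup.normalClosure T) →
    ((∃ (p : ℕ) (_ : p.Prime) (L : Type u) (_ : Group L) (θ : N →* L),
        LocPInd p L ∧ θ ≠ 1) ∨
      (∃ (M : Subgroup H) (_ : M.Normal), M ≤ N ∧
        Subgroup.closure {y : H ⧸ M | y ∈ N.map (QuotientGroup.mk' M) ∧ Bad y} ≠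
          N.map (QuotientGroup.mk' M)))

theorem npp_of_local {G : Type u} [Group G]
    (hG : ∀ S : Finset G, ∃ (H : Type u) (_ : Group H) (K : Subgroup H) (_ : K.Normal) (φ : G → H),
      Set.InjOn φ S ∧ (∀ a ∈ S, ∀ b ∈ S, φ (a * b) = φ a * φ b) ∧ NPP (H ⧸ K) ∧ GoodKernel K) :
    NPP G := by
  classical
  apply NPP.of_matrix
  intro m A hA hK
  let S : Finset G := Finset.univ.biUnion fun ij : Fin m × Fin m => (A ij.1 ij.2).coeff.support
  have hS : ∀ i j, (A i j).coeff.support ⊆ S := fun i j a ha =>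
    Finset.mem_biUnion.2 ⟨(i, j), Finset.mem_univ _, ha⟩
  obtain ⟨H, _, K, _, φ, hinj, hφ, hN, hgood⟩ := hG S
  obtain ⟨A', hA', hK', h0⟩ := transfer A hA hK S hS φ hinj hφ
  apply h0
  apply eq_zero_of_kills K hgood A' hA'
  rw [kills_iff_im_eq_zero]
  exact hN.matrix _ (im_idem _ hA') (kills_im _ ⊤ ⊤ le_top hK')

end

end Pool.Agent.H677_Perf
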