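import Pool.Agent.H677_Perf.KillRep

set_option autoImplicit false
set_option linter.unusedSectionVars false

universe u v w

namespace Pool.Agent.H677_Perf

noncomputable section

namespace Lin

/-- Every finitely generated perfect projective `kG`-module is zero. -/
def NPPg (k : Type v) [CommRing k] (G : Type u) [Group G] : Prop :=
  ∀ (P : Type (max u v)) [AddCommGroup P] [Module (MonoidAlgebra k G) P],
    Module.Finite (MonoidAlgebra k G) P → Module.Projective (MonoidAlgebra k G) P →
    Submodule.span (MonoidAlgebra k G)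
      {x : P | ∃ r : MonoidAlgebra k G,
        r ∈ (Ideal.span (Set.range (fun g : G =>
              (MonoidAlgebra.single g (1 : k) - 1 : MonoidAlgebra k G))) :
              Ideal (MonoidAlgebra k G)) ∧
        ∃ m : P, x = r • m} = ⊤ →
    Subsingleton P

/-- the augmentation -/
def aug (k : Type v) [CommRing k] (Y : Type w) [Group Y] : MonoidAlgebra k Y →+* k :=
  (MonoidAlgebra.lift k k Y 1).toRingHom

lemma aug_single {k : Type v} [CommRing k] {Y : Type w} [Group Y] (g : Y) (a : k) :
    aug k Y (MonoidAlgebra.single g a) = a := by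
  change MonoidAlgebra.lift k k Y 1 (MonoidAlgebra.single g a) = _
  rw [MonoidAlgebra.lift_single]
  simp

lemma aug_eq_sum {k : Type v} [CommRing k] {Y : Type w} [Group Y] (x : MonoidAlgebra k Y) :
    aug k Y x = x.coeff.sum fun _ a => a := by
  induction x using MonoidAlgebra.induction_linear with
  | zero => simp
  | add x y hx hy =>
    rw [map_add, hx, hy, MonoidAlgebra.coeff_add, Finsupp.sum_add_index'] <;> simp
  | single g a =>
    rw [aug_single, MonoidAlgebra.coeff_single, Finsupp.sum_single_index rfl]

lemma mem_augI_of_aug {k : Type v} [CommRing k] {Y : Type w} [Group Y] {x : MonoidAlgebra k Y}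
    (hx : aug k Y x = 0) :
    x ∈ (Ideal.span (Set.range (fun g : Y =>
              (MonoidAlgebra.single g (1 : k) - 1 : MonoidAlgebra k Y))) :
              Ideal (MonoidAlgebra k Y)) := by
  have h1 : ∀ y : MonoidAlgebra k Y, y - MonoidAlgebra.single 1 (aug k Y y) ∈
      (Ideal.span (Set.range (fun g : Y =>
              (MonoidAlgebra.single g (1 : k) - 1 : MonoidAlgebra k Y))) :
              Ideal (MonoidAlgebra k Y)) := by
    intro y
    induction y using MonoidAlgebra.induction_linear with
    | zero => simp
    | add y y' hy hy' =>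
      have : y + y' - MonoidAlgebra.single 1 (aug k Y (y + y')) =
          (y - MonoidAlgebra.single 1 (aug k Y y)) +
            (y' - MonoidAlgebra.single 1 (aug k Y y')) := by
        rw [map_add, MonoidAlgebra.single_add]
        abel
      rw [this]
      exact Ideal.add_mem _ hy hy'
    | single g r =>
      rw [aug_single]
      have h3 : (MonoidAlgebra.single g r - MonoidAlgebra.single 1 r : MonoidAlgebra k Y) =
          MonoidAlgebra.single 1 r * (MonoidAlgebra.single g 1 - 1) := by
        rw [mul_sub, MonoidAlgebra.single_mul_single, one_mul, mul_one, mul_one]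
      rw [h3]
      exact Ideal.mul_mem_left _ _ (Ideal.subset_span ⟨g, rfl⟩)
  have h2 := h1 x
  rw [hx] at h2
  simpa using h2

/-- the matrix form: idempotent matrices with augmentation zero vanish -/
def MP (k : Type v) [CommRing k] (Y : Type w) [Group Y] : Prop :=
  ∀ (n : Type) [Fintype n] (A : Matrix n n (MonoidAlgebra k Y)),
    A * A = A → (∀ i j, aug k Y (A i j) = 0) → A = 0

lemma pi_eq_sum {n : Type} [Fintype n] [DecidableEq n] {R : Type*} [Ring R] (w : n → R) :
    w = ∑ i, w i • (Pi.single i (1 : R) : n → R) := by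
  ext j
  rw [Finset.sum_apply, Finset.sum_eq_single j]
  · simp
  · intro i _ hi
    simp [Ne.symm hi]
  · intro h
    exact absurd (Finset.mem_univ _) h

/-- from matrices to modules -/
theorem NPPg.mp {k : Type v} [CommRing k] {Y : Type w} [Group Y] (hY : NPPg k Y) : MP k Y := by
  intro n _ A hA hK
  classical
  let e : (n → MonoidAlgebra k Y) →ₗ[MonoidAlgebra k Y] (n → MonoidAlgebra k Y) :=
    Matrix.vecMulLinear A
  have he : ∀ v, e v = Matrix.vecMul v A := fun v => rfl
  have hee : ∀ v, e (e v) = e v := by
    intro v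
    rw [he, he, Matrix.vecMul_vecMul, hA]
  let P := LinearMap.range e
  let s : (n → MonoidAlgebra k Y) →ₗ[MonoidAlgebra k Y] P := e.rangeRestrict
  have hs : s.comp P.subtype = LinearMap.id := by
    ext x : 1
    obtain ⟨_, v, rfl⟩ := x
    apply Subtype.ext
    exact hee v
  have hfin : Module.Finite (MonoidAlgebra k Y) P :=
    Module.Finite.of_surjective s e.surjective_rangeRestrict
  have hproj : Module.Projective (MonoidAlgebra k Y) P :=
    Module.Projective.of_split P.subtype s hs
  have hrow : ∀ (w : n → MonoidAlgebra k Y), s w = ∑ i, w i • s (Pi.single i 1) := by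
    intro w
    conv_lhs => rw [pi_eq_sum w]
    rw [map_sum]
    refine Finset.sum_congr rfl fun i _ => ?_
    rw [← map_smul]
  have hspan : Submodule.span (MonoidAlgebra k Y)
      {x : P | ∃ r : MonoidAlgebra k Y, r ∈ (Ideal.span (Set.range (fun g : Y =>
              (MonoidAlgebra.single g (1 : k) - 1 : MonoidAlgebra k Y))) :
              Ideal (MonoidAlgebra k Y)) ∧ ∃ m : P, x = r • m} = ⊤ := by
    rw [eq_top_iff]
    rintro ⟨_, v, rfl⟩ -
    have h0 : (⟨e v, ⟨v, rfl⟩⟩ : P) = s v := rfl
    rw [h0, hrow]
    refine Submodule.sum_mem _ fun i _ => Submodule.smul_mem _ _ ?_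
    have h1 : s (Pi.single i 1) = s (s (Pi.single i 1) : n → MonoidAlgebra k Y) := by
      apply Subtype.ext
      exact (hee _).symm
    rw [h1, hrow]
    refine Submodule.sum_mem _ fun j _ => Submodule.subset_span ⟨_, ?_, _, rfl⟩
    have h2 : (s (Pi.single i 1) : n → MonoidAlgebra k Y) j = A i j := by
      change Matrix.vecMul (Pi.single i 1) A j = A i j
      rw [Matrix.single_one_vecMul]
      rfl
    rw [h2]
    exact mem_augI_of_aug (hK i j)
  have hsub := hY P hfin hproj hspan
  refine Matrix.ext fun i j => ?_
  have h1 : s (Pi.single i 1) = 0 := Subsingleton.elim _ _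
  have h2 : e (Pi.single i 1) = 0 := congrArg Subtype.val h1
  rw [he, Matrix.single_one_vecMul] at h2
  exact congrFun h2 j

/-- restriction of coefficients -/
theorem MP.of_injective {k : Type v} [CommRing k] {k₀ : Type*} [CommRing k₀] {Y : Type w} [Group Y]
    (h : MP k Y) (ι : k₀ →+* k) (hι : Function.Injective ι) : MP k₀ Y := by
  intro n _ A hA hK
  let F : MonoidAlgebra k₀ Y →+* MonoidAlgebra k Y := MonoidAlgebra.mapRingHom Y ι
  have hF : ∀ x g, (F x).coeff g = ι (x.coeff g) := fun x g => by simp [F]
  have h1 : A.map F = 0 := by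
    apply h n (A.map F)
    · rw [← Matrix.map_mul, hA]
    · intro i j
      have h2 : ∀ x, aug k Y (F x) = ι (aug k₀ Y x) := by
        intro x
        induction x using MonoidAlgebra.induction_linear with
        | zero => simp
        | add x y hx hy => simp only [map_add, hx, hy]
        | single g a =>
          have : F (MonoidAlgebra.single g a) = MonoidAlgebra.single g (ι a) := by
            simp [F]
          rw [this, aug_single, aug_single]
      rw [Matrix.map_apply, h2, hK i j, map_zero]
  refine Matrix.ext fun i j => ?_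
  apply MonoidAlgebra.ext
  ext g
  apply hι
  rw [← hF]
  have := congrFun (congrFun h1 i) j
  rw [Matrix.map_apply] at this
  rw [this]
  simp

/-- every nonzero element of `k` survives in a finite quotient ring -/
def RF (k : Type v) [CommRing k] : Prop :=
  ∀ a : k, a ≠ 0 → ∃ (F : Type v) (_ : CommRing F) (_ : Finite F) (ψ : k →+* F), ψ a ≠ 0

section

variable {k : Type v} [CommRing k] {Q : Type u} [Group Q] {n : Type} [Fintype n] [DecidableEq n]
  {A : Matrix n n (MonoidAlgebra ℤ Q)}

/-- Representations over residually finite rings kill perfect idempotents. -/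
lemma evalFn_rf (hk : RF k) (hA : A * A = A) (hK : Kills (⊤ : Subgroup Q) A)
    {I : Type} [Fintype I] [DecidableEq I]
    (σ : Q →* Matrix I I k) (s r : I) (i j : n) :
    evalFn (fun g => σ g s r) (A i j) = 0 := by
  classical
  by_contra hne
  obtain ⟨F, _, _, ψ, hψ⟩ := hk _ hne
  apply hψ
  let f : Q →* Matrix I I F := (ψ.mapMatrix (m := I)).toMonoidHom.comp σ
  let R : Subgroup Q := f.toHomUnits.ker
  have hfin : Finite f.toHomUnits.range := inferInstance
  have hRf : R.FiniteIndex := Subgroup.finiteIndex_ker f.toHomUnits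
  have h1 := kills_of_finiteIndex hA hK R
  have hf : ∀ r ∈ R, f r = 1 := by
    intro r hr
    have := congrArg Units.val (MonoidHom.mem_ker.1 hr)
    simpa using this
  have h4 := map_evalFn ψ.toAddMonoidHom (fun g => σ g s r) (A i j)
  change ψ (evalFn (fun g => σ g s r) (A i j)) = evalFn (fun g => ψ (σ g s r)) (A i j) at h4
  rw [h4]
  apply evalFn_eq_zero_of_kills' h1
  intro g x hx
  have h3 : f (g * x) = f g := by rw [map_mul, hf x hx, mul_one]
  exact congrFun (congrFun h3 s) r

/-- the ring homomorphism extending a matrix representation over a group ring -/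
def liftI {Γ : Type w} [Group Γ] {I : Type} [Fintype I] [DecidableEq I]
    (ρ : Q →* Matrix I I (MonoidAlgebra k Γ)) :
    MonoidAlgebra ℤ Q →+* Matrix I I (MonoidAlgebra k Γ) :=
  (MonoidAlgebra.lift ℤ (Matrix I I (MonoidAlgebra k Γ)) Q ρ).toRingHom

lemma liftI_single {Γ : Type w} [Group Γ] {I : Type} [Fintype I] [DecidableEq I]
    (ρ : Q →* Matrix I I (MonoidAlgebra k Γ)) (g : Q) (a : ℤ) :
    liftI ρ (MonoidAlgebra.single g a) = a • ρ g := by
  change MonoidAlgebra.lift ℤ _ Q ρ (MonoidAlgebra.single g a) = _
  rw [MonoidAlgebra.lift_single]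

/-- Matrix representations over group rings without perfect projectives kill perfect
idempotents. -/
theorem kills_repI (hk : RF k) {Γ : Type w} [Group Γ] (hΓ : MP k Γ) (hA : A * A = A)
    (hK : Kills (⊤ : Subgroup Q) A) {I : Type} [Fintype I] [DecidableEq I]
    (ρ : Q →* Matrix I I (MonoidAlgebra k Γ)) (i j : n) : liftI ρ (A i j) = 0 := by
  classical
  let A' : Matrix (n × I) (n × I) (MonoidAlgebra k Γ) :=
    Matrix.compRingEquiv n I (MonoidAlgebra k Γ) (A.map (liftI ρ))
  have hA'e : ∀ i s j r, A' (i, s) (j, r) = liftI ρ (A i j) s r := fun i s j r => rfl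
  have hA' : A' * A' = A' := by
    simp only [A']
    rw [← map_mul, ← Matrix.map_mul, hA]
  have hK' : ∀ x y, aug k Γ (A' x y) = 0 := by
    rintro ⟨i, s⟩ ⟨j, r⟩
    rw [hA'e]
    let σ : Q →* Matrix I I k := ((aug k Γ).mapMatrix (m := I)).toMonoidHom.comp ρ
    have h1 : ∀ x : MonoidAlgebra ℤ Q, aug k Γ (liftI ρ x s r) = evalFn (fun g => σ g s r) x := by
      intro x
      induction x using MonoidAlgebra.induction_linear with
      | zero => simp
      | add x y hx hy => rw [map_add, Matrix.add_apply, map_add, map_add, hx, hy]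
      | single g a =>
        rw [liftI_single, evalFn_single, Matrix.smul_apply, map_zsmul]
        rfl
    rw [h1, evalFn_rf hk hA hK σ s r i j]
  have h0 := hΓ _ A' hA' hK'
  refine Matrix.ext fun s r => ?_
  rw [← hA'e, h0]
  rfl

/-- Matrix coefficients of representations over group rings without perfect projectives. -/
lemma evalFn_coeff (hk : RF k) {Γ : Type w} [Group Γ] (hΓ : MP k Γ) (hA : A * A = A)
    (hK : Kills (⊤ : Subgroup Q) A) {I : Type} [Fintype I] [DecidableEq I]
    (ρ : Q →* Matrix I I (MonoidAlgebra k Γ)) (s r : I) (γ : Γ) (i j : n) :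
    evalFn (fun g => (ρ g s r).coeff γ) (A i j) = 0 := by
  have h1 : ∀ x : MonoidAlgebra ℤ Q, (liftI ρ x s r).coeff γ =
      evalFn (fun g => (ρ g s r).coeff γ) x := by
    intro x
    induction x using MonoidAlgebra.induction_linear with
    | zero => simp
    | add x y hx hy =>
      rw [map_add, Matrix.add_apply, MonoidAlgebra.coeff_add, Finsupp.add_apply, map_add, hx, hy]
    | single g a =>
      rw [liftI_single, evalFn_single, Matrix.smul_apply, MonoidAlgebra.coeff_smul,
        Finsupp.smul_apply]
  rw [← h1, kills_repI hk hΓ hA hK ρ i j]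
  simp

end

end Lin

end

end Pool.Agent.H677_Perf
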