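import Pool.Agent.H677_Perf.Linear9
import Pool.Agent.H677_Perf.PCore

set_option autoImplicit false
set_option linter.unusedSectionVars false

universe u v v' w w'

namespace Pool.Agent.H677_Perf

noncomputable section

namespace Lin

/-- the condition on one element: infinite order in the abelianised centraliser, or not
conjugate to any of its `p ^ n`-th powers for some prime `p` not invertible in `k` -/
def NonExc (k : Type v) [CommRing k] {Y : Type w} [Group Y] (y : Y) : Prop :=
  (∀ n : ℕ, 1 ≤ n → y ^ n ∉ ⁅Subgroup.centralizer {y}, Subgroup.centralizer {y}⁆) ∨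
    ∃ p : ℕ, p.Prime ∧ ¬ IsUnit (p : k) ∧ ∀ n : ℕ, 1 ≤ n → ¬ IsConj y (y ^ (p ^ n))

lemma NonExc.pi {k : Type v} [CommRing k] {Y : Type w} [Group Y] {j : ℕ} {y : Fin j → Y}
    (i : Fin j) (hY : NonExc k (y i)) : NonExc k y := by
  let π : (Fin j → Y) →* Y := Pi.evalMonoidHom (fun _ => Y) i
  rcases hY with h | ⟨p, hp, hpk, h⟩
  · left
    intro n hn hmem
    apply h n hn
    have h1 : (Subgroup.centralizer {y}).map π ≤ Subgroup.centralizer {y i} := by
      rintro _ ⟨c, hc, rfl⟩
      rw [SetLike.mem_coe, Subgroup.mem_centralizer_singleton_iff] at hc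
      rw [Subgroup.mem_centralizer_singleton_iff]
      exact congrFun hc i
    have h2 := Subgroup.mem_map_of_mem π hmem
    rw [Subgroup.map_commutator] at h2
    exact Subgroup.commutator_mono h1 h1 h2
  · right
    refine ⟨p, hp, hpk, fun n hn hc => h n hn ?_⟩
    exact π.map_isConj hc

section

variable {Y : Type w} [Group Y] {n : Type} [Fintype n] [DecidableEq n]

/-- the rank of an idempotent matrix at a non-exceptional element vanishes -/
theorem rkK_eq_zero_of_nonExc (k : Type v) [CommRing k] [IsDomain k] [CharZero k]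
    [Algebra.FiniteType ℤ k] {A : Matrix n n (MonoidAlgebra k Y)} (hA : A * A = A) (x : Y)
    (hx : NonExc k x) : rkK x A = 0 := by
  classical
  rcases hx with h | ⟨p, hp, hpk, h⟩
  · -- rational characters
    let L := FractionRing k
    have hcz : CharZero L := charZero_of_injective_algebraMap (IsFractionRing.injective k L)
    let A' := A.map (MonoidAlgebra.mapRingHom Y (algebraMap k L))
    have hA' : A' * A' = A' := by
      simp only [A']
      rw [← Matrix.map_mul, hA]
    have h1 : x ∈ Subgroup.centralizer ({x} : Set Y) :=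
      Subgroup.mem_centralizer_singleton_iff.2 rfl
    obtain ⟨f, hf, hfx⟩ := exists_rat (⟨x, h1⟩ : Subgroup.centralizer ({x} : Set Y)) (by
      intro m hm hmem
      apply h m hm
      have h2 := Subgroup.mem_map_of_mem (Subgroup.centralizer ({x} : Set Y)).subtype hmem
      have h3 : (commutator (Subgroup.centralizer ({x} : Set Y))).map
          (Subgroup.centralizer ({x} : Set Y)).subtype =
          ⁅Subgroup.centralizer {x}, Subgroup.centralizer {x}⁆ := by
        rw [commutator_def, Subgroup.map_commutator]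
        simp [← MonoidHom.range_eq_map]
      rw [h3] at h2
      simpa using h2)
    have hC : ∀ a, Commute a x → a ∈ Subgroup.centralizer ({x} : Set Y) := by
      intro a ha
      rw [Subgroup.mem_centralizer_singleton_iff]
      exact ha
    let F : Y → L := fun a =>
      if h : a ∈ Subgroup.centralizer ({x} : Set Y) then ((f ⟨a, h⟩ : ℚ) : L) else 0
    have hF : ∀ a b, Commute a x → Commute b x → F (a * b) = F a + F b := by
      intro a b ha hb
      have h1 := hC a ha
      have h2 := hC b hb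
      have h3 := (Subgroup.centralizer ({x} : Set Y)).mul_mem h1 h2
      simp only [F, dif_pos h1, dif_pos h2, dif_pos h3]
      rw [← Rat.cast_add, ← hf]
      rfl
    have h4 := rkK_mul_eq_zero hA' x F hF
    have h5 : F x = 1 := by
      simp only [F, dif_pos h1]
      rw [hfx, Rat.cast_one]
    rw [h5, one_mul, rkK_map] at h4
    exact (IsFractionRing.injective k L) (by rw [h4, map_zero])
  · -- powers of a prime
    by_contra hne
    have hN : IsNoetherianRing k := Algebra.FiniteType.isNoetherianRing ℤ k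
    have hI : Ideal.span {(p : k)} ≠ ⊤ := by
      rwa [Ne, Ideal.span_singleton_eq_top]
    have h1 := Ideal.iInf_pow_eq_bot_of_isDomain (Ideal.span {(p : k)}) hI
    have h2 : ∃ m : ℕ, ¬ (p : k) ^ (m + 1) ∣ rkK x A := by
      by_contra hcon
      push Not at hcon
      apply hne
      have : rkK x A ∈ (⨅ i : ℕ, Ideal.span {(p : k)} ^ i) := by
        rw [Submodule.mem_iInf]
        intro i
        rw [Ideal.span_singleton_pow, Ideal.mem_span_singleton]
        exact (pow_dvd_pow _ (Nat.le_succ i)).trans (hcon i)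
      rw [h1] at this
      simpa using this
    obtain ⟨m, hm⟩ := h2
    obtain ⟨m', hm', hc⟩ := exists_pow_primeK hA x p hp m hm
    exact h m' hm' hc

open Classical in
/-- class functions supported at `1` on the ranks -/
lemma evlL_ker_eq {L : Type v} [CommRing L] {H' : Type w'} [Group H'] (π : Y →* H')
    (A : Matrix n n (MonoidAlgebra L Y))
    (h : ∀ x : Y, x ∈ π.ker → x ≠ 1 → rkK x A = 0) :
    ∑ i, (A i i).coeff 1 =
      ∑ i, (MonoidAlgebra.mapDomainRingHom L π (A i i)).coeff 1 := by
  let t : MonoidAlgebra L Y := ∑ i, A i i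
  let r : ConjClasses Y →₀ L := t.coeff.mapDomain ConjClasses.mk
  have h1 : ∀ (x : Y) (z : MonoidAlgebra L Y), evlL (indC L x) z =
      (z.coeff.mapDomain ConjClasses.mk) (ConjClasses.mk x) := by
    intro x z
    induction z using MonoidAlgebra.induction_linear with
    | zero => simp
    | add z z' hz hz' =>
      rw [map_add, hz, hz', MonoidAlgebra.coeff_add, Finsupp.mapDomain_add, Finsupp.add_apply]
    | single g a =>
      rw [evlL_single, MonoidAlgebra.coeff_single, Finsupp.mapDomain_single,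
        Finsupp.single_apply]
      unfold indC
      by_cases h : IsConj x g
      · rw [if_pos h, if_pos ((ConjClasses.mk_eq_mk_iff_isConj).2 h.symm), mul_one]
      · rw [if_neg h, if_neg, mul_zero]
        intro h'
        exact h ((ConjClasses.mk_eq_mk_iff_isConj).1 h').symm
  have hr : ∀ x, rkK x A = r (ConjClasses.mk x) := by
    intro x
    rw [rkK_apply, ← map_sum]
    exact h1 x t
  have hr1 : r (ConjClasses.mk 1) = t.coeff 1 := by
    rw [← h1 1 t, evlL_apply, Finsupp.sum]
    unfold indC
    simp only [isConj_one_right, mul_ite, mul_one, mul_zero]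
    rw [Finset.sum_ite_eq']
    split_ifs with h
    · rfl
    · exact (Finsupp.notMem_support_iff.1 h).symm
  -- the class function
  let χ : ConjClasses Y → L := fun c => if ConjClasses.map π c = 1 then 1 else 0
  have hχ : ∀ x : Y, χ (ConjClasses.mk x) = if π x = 1 then 1 else 0 := by
    intro x
    simp only [χ]
    have : ConjClasses.map π (ConjClasses.mk x) = ConjClasses.mk (π x) := rfl
    rw [this]
    by_cases hx : π x = 1
    · rw [if_pos hx, hx]
      exact if_pos rfl
    · rw [if_neg hx, if_neg]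
      intro h'
      apply hx
      have h2 : ConjClasses.mk (π x) = ConjClasses.mk 1 := h'
      rw [ConjClasses.mk_eq_mk_iff_isConj] at h2
      exact isConj_one_left.1 h2
  have hr2 : r.sum (fun c a => a * χ c) = r (ConjClasses.mk 1) := by
    rw [Finsupp.sum, Finset.sum_eq_single (ConjClasses.mk 1)]
    · rw [hχ, map_one, if_pos rfl, mul_one]
    · intro c _ hc
      obtain ⟨x, rfl⟩ := ConjClasses.exists_rep c
      change r (ConjClasses.mk x) * χ (ConjClasses.mk x) = 0
      rw [← hr, hχ]
      by_cases hx : π x = 1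
      · rw [h x hx, zero_mul]
        rintro rfl
        exact hc rfl
      · rw [if_neg hx, mul_zero]
    · intro h
      rw [Finsupp.notMem_support_iff.1 h, zero_mul]
  have hsum : (MonoidAlgebra.mapDomainRingHom L π t).coeff 1 = r.sum fun c a => a * χ c := by
    simp only [r]
    rw [Finsupp.sum_mapDomain_index (by intro b; simp) (by intro b m₁ m₂; ring)]
    generalize t = z
    induction z using MonoidAlgebra.induction_linear with
    | zero => simp
    | add z z' hz hz' =>
      rw [map_add, MonoidAlgebra.coeff_add, Finsupp.add_apply, hz, hz', MonoidAlgebra.coeff_add,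
        Finsupp.sum_add_index' (by intro b; simp) (by intro b m₁ m₂; ring)]
    | single g a =>
      rw [MonoidAlgebra.mapDomainRingHom_apply, MonoidAlgebra.mapDomain_single,
        MonoidAlgebra.coeff_single, MonoidAlgebra.coeff_single,
        Finsupp.sum_single_index (by simp), Finsupp.single_apply, hχ]
      split_ifs <;> simp
  have hcoeff : t.coeff 1 = ∑ i, (A i i).coeff 1 := by
    simp only [t]
    rw [MonoidAlgebra.coeff_sum, Finsupp.finsetSum_apply]
  rw [← hcoeff, ← hr1, ← hr2, ← hsum]
  simp only [t]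
  rw [map_sum, MonoidAlgebra.coeff_sum, Finsupp.finsetSum_apply]


/-- idempotent matrices with coefficients in a proper ideal of a noetherian domain vanish -/
lemma eq_zero_of_coeff_mem {k : Type v} [CommRing k] [IsDomain k] [IsNoetherianRing k]
    {A : Matrix n n (MonoidAlgebra k Y)} (hA : A * A = A) (I : Ideal k) (hI : I ≠ ⊤)
    (h : ∀ i j g, (A i j).coeff g ∈ I) : A = 0 := by
  classical
  have hpow : ∀ m : ℕ, ∀ i j g, (A i j).coeff g ∈ I ^ m := by
    intro m
    induction m with
    | zero => intro i j g; simp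
    | succ m ih =>
      intro i j g
      rw [← hA, Matrix.mul_apply, MonoidAlgebra.coeff_sum, Finsupp.finsetSum_apply]
      refine Ideal.sum_mem _ fun l _ => ?_
      rw [MonoidAlgebra.coeff_mul, Finsupp.sum]
      refine Ideal.sum_mem _ fun u _ => ?_
      rw [Finsupp.sum]
      refine Ideal.sum_mem _ fun v _ => ?_
      split_ifs
      · rw [pow_succ]
        exact Ideal.mul_mem_mul (ih i l u) (h l j v)
      · exact Ideal.zero_mem _
  refine Matrix.ext fun i j => ?_
  rw [Matrix.zero_apply]
  apply MonoidAlgebra.ext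
  ext g
  have h1 : (A i j).coeff g ∈ (⨅ m : ℕ, I ^ m) := by
    rw [Submodule.mem_iInf]
    intro m
    exact hpow m i j g
  rw [Ideal.iInf_pow_eq_bot_of_isDomain I hI] at h1
  simpa using h1

/-- idempotent matrices killed by a locally `p`-indicable normal subgroup vanish -/
theorem eq_zero_of_locPInd (k : Type v) [CommRing k] [IsDomain k] [Algebra.FiniteType ℤ k]
    {p : ℕ} (hp : p.Prime) (hpk : ¬ IsUnit (p : k)) (N : Subgroup Y) [N.Normal]
    (hN : LocPInd p N) {A : Matrix n n (MonoidAlgebra k Y)} (hA : A * A = A)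
    (hK : Kills N A) : A = 0 := by
  classical
  have : Fact p.Prime := ⟨hp⟩
  have hnoeth : IsNoetherianRing k := Algebra.FiniteType.isNoetherianRing ℤ k
  obtain ⟨m, hm, hpm⟩ := exists_max_ideal_of_mem_nonunits (a := (p : k)) hpk
  let κ := k ⧸ m
  let i : Field κ := Ideal.Quotient.field m
  let ψ : k →+* κ := Ideal.Quotient.mk m
  have hfin : Finite κ := finite_of_surjective k κ ψ Ideal.Quotient.mk_surjective
  have hp0 : (p : κ) = 0 := by
    have h1 : ψ (p : k) = 0 := Ideal.Quotient.eq_zero_iff_mem.2 hpm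
    rwa [map_natCast] at h1
  have hchar : CharP κ p := by
    obtain ⟨q, hq⟩ := CharP.exists κ
    have h1 : q ∣ p := (CharP.cast_eq_zero_iff κ q p).1 hp0
    rcases (Nat.dvd_prime hp).1 h1 with h2 | h2
    · exact absurd h2 (CharP.char_ne_one κ q)
    · rw [← h2]; exact hq
  let alg : Algebra (ZMod p) κ := ZMod.algebra κ p
  have hmf : Module.Finite (ZMod p) κ := Module.Finite.of_finite
  let b := Module.finBasis (ZMod p) κ
  let θ : κ →+* Matrix (Fin (Module.finrank (ZMod p) κ)) (Fin (Module.finrank (ZMod p) κ))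
    (ZMod p) := (Algebra.leftMulMatrix b).toRingHom
  have hθ : Function.Injective θ := Algebra.leftMulMatrix_injective b
  let I := Fin (Module.finrank (ZMod p) κ)
  let Ψ : MonoidAlgebra k Y →+* MonoidAlgebra κ Y := MonoidAlgebra.mapRingHom Y ψ
  have hΨ : ∀ x g, (Ψ x).coeff g = ψ (x.coeff g) := fun x g => by simp [Ψ]
  let Θ : MonoidAlgebra k Y →+* Matrix I I (MonoidAlgebra (ZMod p) Y) := (coefHom θ).comp Ψ
  have hΘ : ∀ x s t g, (Θ x s t).coeff g = θ (ψ (x.coeff g)) s t := by
    intro x s t g
    change (coefHom θ (Ψ x) s t).coeff g = _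
    rw [coefHom_coeff, hΨ]
  let A' : Matrix (n × I) (n × I) (MonoidAlgebra (ZMod p) Y) :=
    Matrix.compRingEquiv n I (MonoidAlgebra (ZMod p) Y) (A.map Θ)
  have hA'e : ∀ i s j r, A' (i, s) (j, r) = Θ (A i j) s r := fun i s j r => rfl
  have hA' : A' * A' = A' := by
    simp only [A']
    rw [← map_mul, ← Matrix.map_mul, hA]
  have hK' : Kills N A' := by
    rintro ⟨a, s⟩ ⟨c, r⟩
    rw [hA'e]
    let e : k →+ ZMod p :=
      { toFun := fun x => θ (ψ x) s r
        map_zero' := by rw [map_zero, map_zero]; rfl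
        map_add' := fun x y => by rw [map_add, map_add]; rfl }
    have h3 : (Θ (A a c) s r).coeff = (A a c).coeff.mapRange e (map_zero e) := by
      ext g
      rw [hΘ]
      rfl
    rw [h3, Finsupp.mapDomain_mapRange]
    · rw [hK a c, Finsupp.mapRange_zero]
    · intro x y; exact map_add e x y
  have h0 := tower_zero_modp N hN A' hA' hK'
  apply eq_zero_of_coeff_mem hA m hm.ne_top
  intro a c g
  rw [← Ideal.Quotient.eq_zero_iff_mem]
  change ψ ((A a c).coeff g) = 0
  apply hθ
  refine Matrix.ext fun s r => ?_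
  rw [← hΘ, ← hA'e, h0]
  simp

/-- Perfect idempotents over `kY` vanish if `Y` has a normal subgroup which is non-exceptional
or locally `p`-indicable, modulo which they vanish. -/
theorem MP_of_normal (k : Type v) [CommRing k] [IsDomain k] [Algebra.FiniteType ℤ k]
    {H' : Type w'} [Group H'] (π : Y →* H')
    (hN : (CharZero k ∧ ∀ z ∈ π.ker, z ≠ 1 → NonExc k z) ∨
      ∃ p : ℕ, p.Prime ∧ ¬ IsUnit (p : k) ∧ LocPInd p π.ker)
    (hres : ∀ a : k, a ≠ 0 → ∃ (F : Type v') (_ : CommRing F) (ψ : k →+* F), ψ a ≠ 0 ∧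
      MP F H') : MP k Y := by
  intro m _ A hA hK
  classical
  let Pm : MonoidAlgebra k Y →+* MonoidAlgebra k H' := MonoidAlgebra.mapDomainRingHom k π
  have hB : A.map Pm * A.map Pm = A.map Pm := by
    rw [← Matrix.map_mul, hA]
  have hPma : ∀ x, aug k H' (Pm x) = aug k Y x := by
    intro x
    induction x using MonoidAlgebra.induction_linear with
    | zero => simp
    | add x y hx hy => simp only [map_add, hx, hy]
    | single g a =>
      have : Pm (MonoidAlgebra.single g a) = MonoidAlgebra.single (π g) a := by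
        simp only [Pm]
        rw [MonoidAlgebra.mapDomainRingHom_apply, MonoidAlgebra.mapDomain_single]
      rw [this, aug_single, aug_single]
  have hBa : ∀ i j, aug k H' (A.map Pm i j) = 0 := by
    intro i j
    rw [Matrix.map_apply, hPma, hK]
  have hB0 : A.map Pm = 0 := by
    refine Matrix.ext fun i j => ?_
    rw [Matrix.zero_apply]
    apply MonoidAlgebra.ext
    ext g
    by_contra hne
    obtain ⟨F, _, ψ, hψ, hF⟩ := hres _ hne
    apply hψ
    let Ψ : MonoidAlgebra k H' →+* MonoidAlgebra F H' := MonoidAlgebra.mapRingHom H' ψ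
    have hΨ : ∀ x g, (Ψ x).coeff g = ψ (x.coeff g) := fun x g => by simp [Ψ]
    have hΨa : ∀ x, aug F H' (Ψ x) = ψ (aug k H' x) := by
      intro x
      induction x using MonoidAlgebra.induction_linear with
      | zero => simp
      | add x y hx hy => simp only [map_add, hx, hy]
      | single g a =>
        have : Ψ (MonoidAlgebra.single g a) = MonoidAlgebra.single g (ψ a) := by
          simp [Ψ]
        rw [this, aug_single, aug_single]
    have h1 := hF m ((A.map Pm).map Ψ) (by rw [← Matrix.map_mul, hB]) (by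
      intro i j
      rw [Matrix.map_apply, hΨa, hBa, map_zero])
    rw [← hΨ]
    have h2 := congrFun (congrFun h1 i) j
    rw [Matrix.map_apply] at h2
    rw [h2]
    simp
  rcases hN with ⟨hz, h⟩ | ⟨p, hp, hpk, h⟩
  · apply kaplansky_domain k A hA
    rw [evlL_ker_eq π A fun x hx hx1 => rkK_eq_zero_of_nonExc k hA x (h x hx hx1)]
    refine Finset.sum_eq_zero fun i _ => ?_
    have h2 := congrFun (congrFun hB0 i) i
    rw [Matrix.map_apply] at h2
    change (Pm (A i i)).coeff 1 = 0
    rw [h2]
    simp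
  · apply eq_zero_of_locPInd k hp hpk π.ker h hA
    intro i j
    have h2 := congrFun (congrFun hB0 i) j
    rw [Matrix.map_apply] at h2
    refine mapDomain_eq_zero_of_fiber π _ _ ?_ ?_
    · intro a _ b _ hab
      rw [QuotientGroup.eq, MonoidHom.mem_ker, map_mul, map_inv, hab, inv_mul_cancel]
    · have h3 : (Pm (A i j)).coeff = (A i j).coeff.mapDomain π := rfl
      rw [← h3, h2]
      simp

end


lemma locPInd_pi {Y : Type w} [Group Y] (Z : Subgroup Y) [Z.Normal] {p : ℕ} (hp : p.Prime)
    (h : ∀ T : Subgroup Y, T ≤ Z → T.FG → T ≠ ⊥ →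
      ∃ χ : T →* Multiplicative (ZMod p), χ ≠ 1) (j : ℕ) :
    LocPInd p ((QuotientGroup.mk' Z).compLeft (Fin j)).ker := by
  have : Fact p.Prime := ⟨hp⟩
  intro S hS hne
  obtain ⟨s, hs, hs1⟩ : ∃ s : ((QuotientGroup.mk' Z).compLeft (Fin j)).ker, s ∈ S ∧ s ≠ 1 := by
    by_contra hcon
    push Not at hcon
    exact hne ((Subgroup.eq_bot_iff_forall S).2 hcon)
  have hmem : ∀ (s : ((QuotientGroup.mk' Z).compLeft (Fin j)).ker) (i : Fin j),
      (s : Fin j → Y) i ∈ Z := by
    intro s i
    have h1 := congrFun (MonoidHom.mem_ker.1 s.2) i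
    exact (QuotientGroup.eq_one_iff _).1 h1
  obtain ⟨i, hi⟩ : ∃ i, (s : Fin j → Y) i ≠ 1 := by
    by_contra hcon
    push Not at hcon
    exact hs1 (Subtype.ext (funext hcon))
  let ev : ((QuotientGroup.mk' Z).compLeft (Fin j)).ker →* Y :=
    (Pi.evalMonoidHom (fun _ : Fin j => Y) i).comp (Subgroup.subtype _)
  have hT1 : S.map ev ≤ Z := by
    rintro _ ⟨t, _, rfl⟩
    exact hmem t i
  have hT2 : S.map ev ≠ ⊥ := by
    intro hb
    apply hi
    have h1 : ev s ∈ S.map ev := Subgroup.mem_map_of_mem ev hs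
    rw [hb, Subgroup.mem_bot] at h1
    exact h1
  obtain ⟨χ, hχ⟩ := h (S.map ev) hT1 (fg_map hS ev) hT2
  exact ⟨χ.comp (ev.subgroupMap S), (surjective_of_ne_one χ hχ).comp
    (ev.subgroupMap_surjective S)⟩

/-- the second alternative -/
def LocInd (k : Type v) [CommRing k] {Y : Type w} [Group Y] (Z : Subgroup Y) : Prop :=
  ∃ p : ℕ, p.Prime ∧ ¬ IsUnit (p : k) ∧ ∀ T : Subgroup Y, T ≤ Z → T.FG → T ≠ ⊥ →
    ∃ χ : T →* Multiplicative (ZMod p), χ ≠ 1

/-- the residual condition -/
def ResGood (k : Type v) [CommRing k] (Q : Type w) [Group Q] : Prop :=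
  ∀ a : k, a ≠ 0 → ∃ (F : Type v') (_ : CommRing F) (ψ : k →+* F), ψ a ≠ 0 ∧
    ∀ j : ℕ, NPPg F (Fin j → Q)

/-- the condition on the pair `(k, Y)` -/
def Adm (k : Type v) [CommRing k] (Y : Type w) [Group Y] : Prop :=
  ∃ (Z : Subgroup Y) (_ : Z.Normal),
    ((CharZero k ∧ ∀ z ∈ Z, z ≠ 1 → NonExc k z) ∨ LocInd k Z) ∧
      (Z = ⊤ ∨ ResGood.{v, v', w} k (Y ⧸ Z))

/-- there are no perfect idempotents over the trivial group -/
lemma MP_of_subsingleton (k : Type v) [CommRing k] (H : Type w) [Group H] [Subsingleton H] :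
    MP k H := by
  intro n _ A _ hK
  refine Matrix.ext fun i j => ?_
  rw [Matrix.zero_apply]
  apply MonoidAlgebra.ext
  ext g
  have h1 := hK i j
  have h2 : A i j = MonoidAlgebra.single g ((A i j).coeff g) := by
    apply MonoidAlgebra.ext
    ext g'
    rw [Subsingleton.elim g' g]
    simp
  rw [h2, aug_single] at h1
  rw [h1]
  simp

/-- Groups which are locally linear over suitable group rings have no perfect projectives. -/
theorem npp_linear10 {G : Type u} [Group G]
    (hG : ∀ S : Finset G, ∃ (k : Type v) (_ : CommRing k) (_ : IsDomain k) (Y : Type w)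
      (_ : Group Y) (d : ℕ) (φ : G → (Matrix (Fin d) (Fin d) (MonoidAlgebra k Y))ˣ),
      Set.InjOn φ S ∧ (∀ a ∈ S, ∀ b ∈ S, φ (a * b) = φ a * φ b) ∧
      ∀ k₀ : Subalgebra ℤ k, k₀.FG → ∀ Y₀ : Subgroup Y, Y₀.FG → Adm.{v, v', w} k₀ Y₀) :
    NPP G := by
  classical
  apply NPP.of_matrix
  intro m A hA hK
  let S : Finset G := Finset.univ.biUnion fun ij : Fin m × Fin m => (A ij.1 ij.2).coeff.support
  have hS : ∀ i j, (A i j).coeff.support ⊆ S := fun i j a ha =>
    Finset.mem_biUnion.2 ⟨(i, j), Finset.mem_univ _, ha⟩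
  obtain ⟨k, _, _, Y, _, d, φ, hinj, hφ, hk⟩ := hG S
  refine eq_zero_of_linear.{u, v, v, w} hA hK S hS φ hinj hφ ?_
  intro k₀ hk₀ Y₀ hY₀ a ha
  have hft : Algebra.FiniteType ℤ k₀ := (Subalgebra.fg_iff_finiteType k₀).1 hk₀
  obtain ⟨Z, hZn, hZ, hres⟩ := hk k₀ hk₀ Y₀ hY₀
  refine ⟨k₀, inferInstance, RingHom.id k₀, ha, fun j => ?_⟩
  have hZ' : (CharZero k₀ ∧ ∀ z ∈ ((QuotientGroup.mk' Z).compLeft (Fin j)).ker,
        z ≠ 1 → NonExc k₀ z) ∨
      ∃ p : ℕ, p.Prime ∧ ¬ IsUnit (p : k₀) ∧
        LocPInd p ((QuotientGroup.mk' Z).compLeft (Fin j)).ker := by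
    rcases hZ with ⟨hz, h⟩ | ⟨p, hp, hpk, h⟩
    · left
      refine ⟨hz, ?_⟩
      intro z hz hz1
      obtain ⟨i, hi⟩ : ∃ i, z i ≠ 1 := by
        by_contra hcon
        push Not at hcon
        exact hz1 (funext hcon)
      refine NonExc.pi i (h (z i) ?_ hi)
      have h1 := congrFun (MonoidHom.mem_ker.1 hz) i
      exact (QuotientGroup.eq_one_iff _).1 h1
    · exact Or.inr ⟨p, hp, hpk, locPInd_pi Z hp h j⟩
  rcases hres with rfl | hres
  · refine MP_of_normal k₀ (π := (QuotientGroup.mk' ⊤).compLeft (Fin j)) hZ' ?_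
    intro b hb
    have hsub : Subsingleton (Fin j → Y₀ ⧸ (⊤ : Subgroup Y₀)) := by
      have : Subsingleton (Y₀ ⧸ (⊤ : Subgroup Y₀)) := QuotientGroup.subsingleton_quotient_top
      infer_instance
    exact ⟨k₀, inferInstance, RingHom.id k₀, hb, MP_of_subsingleton _ _⟩
  · refine MP_of_normal k₀ (π := (QuotientGroup.mk' Z).compLeft (Fin j)) hZ' ?_
    intro b hb
    obtain ⟨F, _, ψ, hψ, hN⟩ := hres b hb
    exact ⟨F, inferInstance, ψ, hψ, (hN j).mp⟩

end Lin

end

end Pool.Agent.H677_Perf
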