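import Pool.Agent.H677_Perf.Linear1

set_option autoImplicit false
set_option linter.unusedSectionVars false

universe u v v' w

namespace Pool.Agent.H677_Perf

noncomputable section

namespace Lin

section tensor

variable {k : Type v} [CommRing k] {Y : Type w} [Group Y] {j : ℕ}

/-- the tensor product of elements of a group ring, in the group ring of the power of the group -/
def ten (x : Fin j → MonoidAlgebra k Y) : MonoidAlgebra k (Fin j → Y) :=
  ∑ y ∈ Fintype.piFinset (fun i => (x i).coeff.support),
    MonoidAlgebra.single y (∏ i, (x i).coeff (y i))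

lemma ten_coeff (x : Fin j → MonoidAlgebra k Y) (y : Fin j → Y) :
    (ten x).coeff y = ∏ i, (x i).coeff (y i) := by
  classical
  unfold ten
  rw [MonoidAlgebra.coeff_sum, Finsupp.finsetSum_apply]
  simp only [MonoidAlgebra.coeff_single, Finsupp.single_apply]
  rw [Finset.sum_ite_eq']
  split_ifs with h
  · rfl
  · rw [Fintype.mem_piFinset] at h
    push Not at h
    obtain ⟨i, hi⟩ := h
    rw [Finset.prod_eq_zero (Finset.mem_univ i)]
    exact Finsupp.notMem_support_iff.1 hi

lemma coeff_mul_of_subset {Z : Type*} [Group Z] (a b : MonoidAlgebra k Z) (s : Finset Z)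
    (hs : a.coeff.support ⊆ s) (c : Z) :
    (a * b).coeff c = ∑ y ∈ s, a.coeff y * b.coeff (y⁻¹ * c) := by
  rw [MonoidAlgebra.coeff_mul_apply_left, Finsupp.sum]
  refine Finset.sum_subset hs fun y _ hy => ?_
  rw [Finsupp.notMem_support_iff.1 hy, zero_mul]

lemma ten_mul (x x' : Fin j → MonoidAlgebra k Y) :
    ten x * ten x' = ten (fun i => x i * x' i) := by
  classical
  apply MonoidAlgebra.ext
  ext z
  rw [ten_coeff, coeff_mul_of_subset _ _ (Fintype.piFinset (fun i => (x i).coeff.support)) _ z]
  · have h1 : ∀ i, (x i * x' i).coeff (z i) =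
        ∑ y ∈ (x i).coeff.support, (x i).coeff y * (x' i).coeff (y⁻¹ * z i) := fun i =>
      coeff_mul_of_subset _ _ _ subset_rfl _
    simp only [h1]
    rw [Finset.prod_univ_sum]
    refine Finset.sum_congr rfl fun y _ => ?_
    rw [ten_coeff, ten_coeff, ← Finset.prod_mul_distrib]
    rfl
  · intro y hy
    rw [Fintype.mem_piFinset]
    intro i
    rw [Finsupp.mem_support_iff] at hy ⊢
    intro h0
    apply hy
    rw [ten_coeff]
    exact Finset.prod_eq_zero (Finset.mem_univ i) h0

lemma ten_sum {I : Type} [Fintype I] (x : Fin j → I → MonoidAlgebra k Y) :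
    ten (fun i => ∑ u, x i u) = ∑ u : Fin j → I, ten (fun i => x i (u i)) := by
  classical
  apply MonoidAlgebra.ext
  ext z
  rw [ten_coeff, MonoidAlgebra.coeff_sum, Finsupp.finsetSum_apply]
  simp only [ten_coeff, MonoidAlgebra.coeff_sum, Finsupp.finsetSum_apply]
  rw [Fintype.prod_sum]

variable {Q : Type u} [Group Q] {I : Type} [Fintype I] [DecidableEq I]

/-- the tensor power of a matrix representation -/
def tenRep (ρ : Q →* Matrix I I (MonoidAlgebra k Y)) (j : ℕ) :
    Q →* Matrix (Fin j → I) (Fin j → I) (MonoidAlgebra k (Fin j → Y)) where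
  toFun g := fun s t => ten fun i => ρ g (s i) (t i)
  map_one' := by
    classical
    refine Matrix.ext fun s t => ?_
    apply MonoidAlgebra.ext
    ext z
    rw [ten_coeff, map_one]
    have h1 : ∀ i, ((1 : Matrix I I (MonoidAlgebra k Y)) (s i) (t i)).coeff (z i) =
        if s i = t i ∧ z i = 1 then 1 else 0 := by
      intro i
      rw [Matrix.one_apply]
      by_cases hst : s i = t i
      · rw [if_pos hst, MonoidAlgebra.one_def, MonoidAlgebra.coeff_single, Finsupp.single_apply]
        by_cases hz : z i = 1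
        · rw [if_pos hz.symm, if_pos ⟨hst, hz⟩]
        · rw [if_neg (Ne.symm hz), if_neg fun h => hz h.2]
      · rw [if_neg hst, if_neg fun h => hst h.1]
        simp
    simp only [h1]
    rw [Matrix.one_apply]
    by_cases hst : s = t
    · subst hst
      rw [if_pos rfl, MonoidAlgebra.one_def, MonoidAlgebra.coeff_single, Finsupp.single_apply]
      by_cases hz : 1 = z
      · subst hz
        simp
      · rw [if_neg hz]
        obtain ⟨i, hi⟩ : ∃ i, z i ≠ 1 := by
          by_contra hcon
          push Not at hcon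
          exact hz (funext fun i => (hcon i).symm)
        exact Finset.prod_eq_zero (Finset.mem_univ i) (if_neg fun h => hi h.2)
    · rw [if_neg hst]
      obtain ⟨i, hi⟩ : ∃ i, s i ≠ t i := by
        by_contra hcon
        push Not at hcon
        exact hst (funext hcon)
      rw [Finset.prod_eq_zero (Finset.mem_univ i) (if_neg fun h => hi h.1)]
      simp
  map_mul' g h := by
    refine Matrix.ext fun s t => ?_
    rw [Matrix.mul_apply, map_mul]
    have h1 : ∀ i, (ρ g * ρ h) (s i) (t i) = ∑ u, ρ g (s i) u * ρ h u (t i) := fun i =>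
      Matrix.mul_apply
    simp only [h1]
    rw [ten_sum]
    refine Finset.sum_congr rfl fun u _ => ?_
    rw [ten_mul]

lemma tenRep_coeff (ρ : Q →* Matrix I I (MonoidAlgebra k Y)) (j : ℕ) (g : Q) (s t : Fin j → I)
    (y : Fin j → Y) : (tenRep ρ j g s t).coeff y = ∏ i, (ρ g (s i) (t i)).coeff (y i) :=
  ten_coeff _ _

end tensor

section separation

variable {k : Type v} [CommRing k] {Q : Type u} [Group Q]

/-- evaluation at `x` as a linear map on functions -/
def evL (k : Type v) [CommRing k] {Q : Type u} [Group Q] (x : MonoidAlgebra ℤ Q) :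
    (Q → k) →ₗ[k] k where
  toFun f := evalFn f x
  map_add' f f' := by
    rw [evalFn_eq_sum, evalFn_eq_sum, evalFn_eq_sum, ← Finsupp.sum_add]
    refine Finsupp.sum_congr fun g _ => ?_
    rw [Pi.add_apply, smul_add]
  map_smul' c f := by
    rw [evalFn_eq_sum, evalFn_eq_sum, RingHom.id_apply, Finsupp.smul_sum]
    refine Finsupp.sum_congr fun g _ => ?_
    rw [Pi.smul_apply, smul_comm]

lemma evL_apply (x : MonoidAlgebra ℤ Q) (f : Q → k) : evL k x f = evalFn f x := rfl

/-- Functions with values in a domain which separate the support, and all of whose products are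
killed, force the coefficients to vanish. -/
theorem coeff_eq_zero_of_products [IsDomain k] (C : Set (Q → k)) (x : MonoidAlgebra ℤ Q)
    (hC : ∀ l : List (Q → k), (∀ c ∈ l, c ∈ C) → evalFn l.prod x = 0)
    (hsep : ∀ g ∈ x.coeff.support, ∀ h ∈ x.coeff.support, g ≠ h → ∃ c ∈ C, c g ≠ c h)
    (g : Q) : ((x.coeff g : ℤ) : k) = 0 := by
  classical
  by_cases hg : g ∈ x.coeff.support
  · have h0 : ∀ f ∈ Submodule.span k (Submonoid.closure C : Set (Q → k)), evL k x f = 0 := by
      intro f hf
      induction hf using Submodule.span_induction with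
      | mem f hf =>
        obtain ⟨l, hl, rfl⟩ := Submonoid.exists_list_of_mem_closure hf
        exact hC l hl
      | zero => exact map_zero _
      | add f f' h h' e e' => rw [map_add, e, e', add_zero]
      | smul r f h e => rw [map_smul, e, smul_zero]
    have h1 : ∀ f ∈ Algebra.adjoin k C, evL k x f = 0 := by
      intro f hf
      apply h0
      rw [← Algebra.adjoin_eq_span]
      exact hf
    have h2 : ∀ h : Q, ∃ c : Q → k, (c ∈ Algebra.adjoin k C) ∧ c h = 0 ∧
        ((h ∈ x.coeff.support ∧ h ≠ g) → c g ≠ 0) := by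
      intro h
      by_cases hh : h ∈ x.coeff.support ∧ h ≠ g
      · obtain ⟨c, hc, hcg⟩ := hsep g hg h hh.1 (Ne.symm hh.2)
        refine ⟨c - algebraMap k (Q → k) (c h), ?_, ?_, fun _ => ?_⟩
        · exact Subalgebra.sub_mem _ (Algebra.subset_adjoin hc) (Subalgebra.algebraMap_mem _ _)
        · simp
        · simpa [sub_eq_zero] using hcg
      · exact ⟨0, Subalgebra.zero_mem _, rfl, fun h' => absurd h' hh⟩
    choose c hcC hc0 hcg using h2
    let f : Q → k := ∏ h ∈ x.coeff.support.erase g, c h
    have hf : f ∈ Algebra.adjoin k C := Subalgebra.prod_mem _ fun h _ => hcC h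
    have hfa : ∀ g', f g' = ∏ h ∈ x.coeff.support.erase g, c h g' := fun g' =>
      Finset.prod_apply _ _ _
    have h3 := h1 f hf
    rw [evL_apply, evalFn_eq_sum, Finsupp.sum, Finset.sum_eq_single g] at h3
    · have h4 : f g ≠ 0 := by
        rw [hfa, Finset.prod_ne_zero_iff]
        intro h hh
        rw [Finset.mem_erase] at hh
        exact hcg h ⟨hh.2, hh.1⟩
      rw [zsmul_eq_mul] at h3
      exact (mul_eq_zero.1 h3).resolve_right h4
    · intro h hh hne
      have : f h = 0 := by
        rw [hfa]
        exact Finset.prod_eq_zero (Finset.mem_erase.2 ⟨hne, hh⟩) (hc0 h)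
      rw [this, smul_zero]
    · intro h
      exact absurd hg h
  · rw [Finsupp.notMem_support_iff.1 hg]
    simp

end separation

section main

variable {k : Type v} [CommRing k] {Q : Type u} [Group Q] {n : Type} [Fintype n] [DecidableEq n]
  {A : Matrix n n (MonoidAlgebra ℤ Q)}

lemma eq_zero_of_dvd {p : ℕ} (hp : 1 < p) (hA : A * A = A)
    (hdvd : ∀ i j g, (p : ℤ) ∣ (A i j).coeff g) : A = 0 := by
  have hpow : ∀ m : ℕ, ∀ i j g, (p : ℤ) ^ m ∣ (A i j).coeff g := by
    intro m
    induction m with
    | zero => intro i j g; simp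
    | succ m ih =>
      intro i j g
      rw [← hA, Matrix.mul_apply, MonoidAlgebra.coeff_sum, Finsupp.finsetSum_apply]
      refine Finset.dvd_sum fun l _ => ?_
      rw [pow_succ]
      exact dvd_coeff_mul (ih i l) (hdvd l j) g
  refine Matrix.ext fun i j => ?_
  rw [Matrix.zero_apply]
  apply MonoidAlgebra.ext
  ext g
  by_contra hne
  have h1 := hpow ((A i j).coeff g).natAbs i j g
  have h2 := Int.natAbs_dvd_natAbs.2 h1
  rw [Int.natAbs_pow, Int.natAbs_natCast] at h2
  have h3 := Nat.le_of_dvd (Int.natAbs_pos.2 hne) h2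
  exact absurd (Nat.lt_pow_self hp) (not_lt.2 h3)

/-- Matrix coefficients of representations over group rings which map to group rings without
perfect projectives. -/
lemma map_evalFn_coeff (hk : RF k) {F : Type*} [CommRing F] (ψ : k →+* F) {Γ : Type w} [Group Γ]
    (hΓ : MP F Γ) (hA : A * A = A)
    (hK : Kills (⊤ : Subgroup Q) A) {I : Type} [Fintype I] [DecidableEq I]
    (ρ : Q →* Matrix I I (MonoidAlgebra k Γ)) (s r : I) (γ : Γ) (i j : n) :
    ψ (evalFn (fun g => (ρ g s r).coeff γ) (A i j)) = 0 := by
  classical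
  let Ψ : MonoidAlgebra k Γ →+* MonoidAlgebra F Γ := MonoidAlgebra.mapRingHom Γ ψ
  have hΨ : ∀ x g, (Ψ x).coeff g = ψ (x.coeff g) := fun x g => by simp [Ψ]
  have hΨa : ∀ x, aug F Γ (Ψ x) = ψ (aug k Γ x) := by
    intro x
    induction x using MonoidAlgebra.induction_linear with
    | zero => simp
    | add x y hx hy => simp only [map_add, hx, hy]
    | single g a =>
      have : Ψ (MonoidAlgebra.single g a) = MonoidAlgebra.single g (ψ a) := by
        simp [Ψ]
      rw [this, aug_single, aug_single]
  let L : MonoidAlgebra ℤ Q →+* Matrix I I (MonoidAlgebra F Γ) :=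
    (Ψ.mapMatrix (m := I)).comp (liftI ρ)
  let A' : Matrix (n × I) (n × I) (MonoidAlgebra F Γ) :=
    Matrix.compRingEquiv n I (MonoidAlgebra F Γ) (A.map L)
  have hA'e : ∀ i s j r, A' (i, s) (j, r) = Ψ (liftI ρ (A i j) s r) := fun i s j r => rfl
  have hA' : A' * A' = A' := by
    simp only [A']
    rw [← map_mul, ← Matrix.map_mul, hA]
  have hK' : ∀ x y, aug F Γ (A' x y) = 0 := by
    rintro ⟨i, s⟩ ⟨j, r⟩
    rw [hA'e, hΨa]
    let σ : Q →* Matrix I I k := ((aug k Γ).mapMatrix (m := I)).toMonoidHom.comp ρ
    have h1 : ∀ x : MonoidAlgebra ℤ Q, aug k Γ (liftI ρ x s r) = evalFn (fun g => σ g s r) x := by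
      intro x
      induction x using MonoidAlgebra.induction_linear with
      | zero => simp
      | add x y hx hy => rw [map_add, Matrix.add_apply, map_add, map_add, hx, hy]
      | single g a =>
        rw [liftI_single, evalFn_single, Matrix.smul_apply, map_zsmul]
        rfl
    rw [h1, evalFn_rf hk hA hK σ s r i j, map_zero]
  have h0 := hΓ _ A' hA' hK'
  have h1 : ∀ x : MonoidAlgebra ℤ Q, (liftI ρ x s r).coeff γ =
      evalFn (fun g => (ρ g s r).coeff γ) x := by
    intro x
    induction x using MonoidAlgebra.induction_linear with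
    | zero => simp
    | add x y hx hy =>
      rw [map_add, Matrix.add_apply, MonoidAlgebra.coeff_add, Finsupp.add_apply, map_add, hx, hy]
    | single g a =>
      rw [liftI_single, evalFn_single, Matrix.smul_apply, MonoidAlgebra.coeff_smul,
        Finsupp.smul_apply]
  rw [← h1, ← hΨ, ← hA'e, h0]
  simp

/-- A perfect idempotent vanishes if the group has a matrix representation, injective on the
support, over a suitable group ring. -/
theorem eq_zero_of_rep [IsDomain k] (hk : RF k) {Y : Type w} [Group Y]
    (hY : ∀ a : k, a ≠ 0 → ∃ (F : Type v') (_ : CommRing F) (ψ : k →+* F), ψ a ≠ 0 ∧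
      ∀ j : ℕ, MP F (Fin j → Y)) (hA : A * A = A) (hK : Kills (⊤ : Subgroup Q) A)
    {I : Type} [Fintype I] [DecidableEq I] (ρ : Q →* Matrix I I (MonoidAlgebra k Y)) (S : Set Q)
    (hS : ∀ i j, ∀ a ∈ (A i j).coeff.support, a ∈ S) (hρ : Set.InjOn ρ S) : A = 0 := by
  classical
  let C : Set (Q → k) := {c | ∃ (s t : I) (y : Y), c = fun g => (ρ g s t).coeff y}
  have key : ∀ i j g, (((A i j).coeff g : ℤ) : k) = 0 := by
    intro a b g
    apply coeff_eq_zero_of_products C
    · intro l hl
      have h1 : ∀ i : Fin l.length, ∃ (s t : I) (y : Y), l.get i = fun g => (ρ g s t).coeff y :=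
        fun i => hl _ (List.get_mem l i)
      choose s t y hst using h1
      have h2 : l.prod = fun g => (tenRep ρ l.length g s t).coeff y := by
        funext g
        rw [tenRep_coeff]
        have h3 : l.prod = ∏ i : Fin l.length, l.get i := by
          rw [← List.prod_ofFn, List.ofFn_get]
        rw [h3, Finset.prod_apply]
        refine Finset.prod_congr rfl fun i _ => ?_
        rw [hst i]
      rw [h2]
      by_contra hne
      obtain ⟨F, _, ψ, hψ, hF⟩ := hY _ hne
      exact hψ (map_evalFn_coeff hk ψ (hF _) hA hK (tenRep ρ l.length) s t y a b)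
    · intro g hg h hh hne
      by_contra hcon
      push Not at hcon
      apply hne
      apply hρ (hS a b g hg) (hS a b h hh)
      refine Matrix.ext fun s t => ?_
      apply MonoidAlgebra.ext
      ext y
      exact hcon _ ⟨s, t, y, rfl⟩
  obtain ⟨p, hp⟩ := CharP.exists k
  rcases Nat.lt_trichotomy p 1 with h | h | h
  · have hp0 : p = 0 := by omega
    subst hp0
    refine Matrix.ext fun i j => ?_
    rw [Matrix.zero_apply]
    apply MonoidAlgebra.ext
    ext g
    have := key i j g
    rw [CharP.intCast_eq_zero_iff k 0] at this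
    simpa using this
  · exact absurd h (CharP.char_ne_one k p)
  · exact eq_zero_of_dvd h hA fun i j g => (CharP.intCast_eq_zero_iff k p _).1 (key i j g)

end main

end Lin

end

end Pool.Agent.H677_Perf
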