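import Pool.Agent.H677_Perf.Linear2

set_option autoImplicit false
set_option linter.unusedSectionVars false

universe u v v' w

namespace Pool.Agent.H677_Perf

noncomputable section

namespace Lin

lemma isJacobsonRing_int : IsJacobsonRing ℤ := by
  rw [isJacobsonRing_iff_prime_eq]
  intro P hP
  by_cases h0 : P = ⊥
  · subst h0
    rw [eq_bot_iff]
    intro x hx
    rw [Ideal.mem_jacobson_bot] at hx
    have h1 := hx x
    rw [Int.isUnit_iff] at h1
    rw [Ideal.mem_bot]
    rcases h1 with h1 | h1
    · have : x * x = 0 := by linarith
      simpa using this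
    · nlinarith [mul_self_nonneg x]
  · have : P.IsMaximal := IsPrime.to_maximal_ideal h0
    exact Ideal.jacobson_eq_self_of_isMaximal

/-- fields which are finitely generated as rings are finite -/
theorem finite_of_field (K : Type v) [Field K] [Algebra.FiniteType ℤ K] : Finite K := by
  have hJ := isJacobsonRing_int
  have hfin : Module.Finite ℤ K := finite_of_finite_type_of_isJacobsonRing ℤ K
  obtain ⟨p, hp⟩ := CharP.exists K
  have hp0 : p ≠ 0 := by
    rintro rfl
    have : CharZero K := CharP.charP_to_charZero K
    have h1 : IsField ℤ := isField_of_isIntegral_of_isField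
      (algebraMap ℤ K).injective_int (Field.toIsField K)
    exact Int.not_isField h1
  refine Module.finite_of_fg_torsion K ?_
  intro x
  refine ⟨⟨(p : ℤ), ?_⟩, ?_⟩
  · rw [mem_nonZeroDivisors_iff_ne_zero]
    exact_mod_cast hp0
  · change (p : ℤ) • x = 0
    rw [zsmul_eq_mul]
    simp

/-- residue fields of rings which are finitely generated as rings are finite -/
theorem finite_of_surjective (k : Type v) [CommRing k] [Algebra.FiniteType ℤ k] (K : Type v)
    [Field K] (f : k →+* K) (hf : Function.Surjective f) : Finite K := by
  have h : Algebra.FiniteType ℤ K := Algebra.FiniteType.of_surjective f.toIntAlgHom hf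
  exact finite_of_field K

/-- domains which are finitely generated as rings are residually finite -/
theorem rf_of_finiteType (k : Type v) [CommRing k] [IsDomain k] [Algebra.FiniteType ℤ k] : RF k := by
  intro a ha
  have hJ := isJacobsonRing_int
  have hk : IsJacobsonRing k := isJacobsonRing_of_finiteType (A := ℤ)
  have h1 : a ∉ (⊥ : Ideal k).jacobson := by
    rw [← Ideal.radical_eq_jacobson]
    rw [Ideal.IsPrime.radical Ideal.isPrime_bot]
    exact ha
  rw [Ideal.jacobson, Ideal.mem_sInf] at h1
  push Not at h1
  obtain ⟨m, ⟨_, hm⟩, ham⟩ := h1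
  let i : Field (k ⧸ m) := Ideal.Quotient.field m
  exact ⟨k ⧸ m, inferInstance, finite_of_surjective k (k ⧸ m) (Ideal.Quotient.mk m)
    Ideal.Quotient.mk_surjective, Ideal.Quotient.mk m, fun h =>
    ham (Ideal.Quotient.eq_zero_iff_mem.1 h)⟩

end Lin

end

end Pool.Agent.H677_Perf
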