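import Pool.Agent.H677_Perf.Linear3

set_option autoImplicit false
set_option linter.unusedSectionVars false

universe u v v' w

namespace Pool.Agent.H677_Perf

noncomputable section

namespace Lin

section descent

variable {k : Type v} [CommRing k] {Y : Type w} [Group Y] (k₀ : Subalgebra ℤ k)

/-- the inclusion of group rings -/
def incl : MonoidAlgebra k₀ Y →+* MonoidAlgebra k Y := MonoidAlgebra.mapRingHom Y k₀.val.toRingHom

lemma incl_coeff (x : MonoidAlgebra k₀ Y) (g : Y) : (incl k₀ x).coeff g = (x.coeff g : k) := by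
  simp [incl]

lemma incl_injective : Function.Injective (incl k₀ (Y := Y)) := by
  intro x y h
  apply MonoidAlgebra.ext
  ext g
  rw [← incl_coeff, ← incl_coeff, h]

lemma exists_incl (x : MonoidAlgebra k Y) (hx : ∀ g, x.coeff g ∈ k₀) :
    ∃ x₀ : MonoidAlgebra k₀ Y, incl k₀ x₀ = x := by
  classical
  refine ⟨∑ g ∈ x.coeff.support, MonoidAlgebra.single g ⟨x.coeff g, hx g⟩, ?_⟩
  apply MonoidAlgebra.ext
  ext h
  rw [incl_coeff, MonoidAlgebra.coeff_sum, Finsupp.finsetSum_apply]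
  simp only [MonoidAlgebra.coeff_single, Finsupp.single_apply]
  rw [Finset.sum_ite_eq']
  split_ifs with h1
  · rfl
  · rw [Finsupp.notMem_support_iff.1 h1]
    rfl

variable {I : Type} [Fintype I] [DecidableEq I]

/-- the inclusion of matrix rings -/
def inclM : Matrix I I (MonoidAlgebra k₀ Y) →+* Matrix I I (MonoidAlgebra k Y) :=
  (incl k₀).mapMatrix

lemma inclM_injective : Function.Injective (inclM k₀ (Y := Y) (I := I)) := by
  intro x y h
  refine Matrix.ext fun i j => ?_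
  apply incl_injective k₀
  exact congrFun (congrFun h i) j

lemma exists_inclM (x : Matrix I I (MonoidAlgebra k Y)) (hx : ∀ i j g, (x i j).coeff g ∈ k₀) :
    ∃ x₀ : Matrix I I (MonoidAlgebra k₀ Y), inclM k₀ x₀ = x := by
  choose x₀ hx₀ using fun i j => exists_incl k₀ (x i j) (hx i j)
  exact ⟨fun i j => x₀ i j, Matrix.ext fun i j => hx₀ i j⟩

lemma exists_unit (u : (Matrix I I (MonoidAlgebra k Y))ˣ)
    (h1 : ∀ i j g, ((u : Matrix I I (MonoidAlgebra k Y)) i j).coeff g ∈ k₀)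
    (h2 : ∀ i j g, (((u⁻¹ : (Matrix I I (MonoidAlgebra k Y))ˣ) :
      Matrix I I (MonoidAlgebra k Y)) i j).coeff g ∈ k₀) :
    ∃ u₀ : (Matrix I I (MonoidAlgebra k₀ Y))ˣ,
      Units.map (inclM k₀ (Y := Y) (I := I)).toMonoidHom u₀ = u := by
  obtain ⟨x, hx⟩ := exists_inclM k₀ _ h1
  obtain ⟨y, hy⟩ := exists_inclM k₀ _ h2
  refine ⟨⟨x, y, ?_, ?_⟩, ?_⟩
  · apply inclM_injective k₀
    rw [map_mul, hx, hy, map_one, Units.mul_inv]
  · apply inclM_injective k₀
    rw [map_mul, hx, hy, map_one, Units.inv_mul]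
  · apply Units.ext
    exact hx

end descent

/-- Groups which are locally linear over suitable group rings have no perfect projectives. -/
theorem npp_linear {G : Type u} [Group G]
    (hG : ∀ S : Finset G, ∃ (k : Type v) (_ : CommRing k) (_ : IsDomain k) (Y : Type w)
      (_ : Group Y) (d : ℕ) (φ : G → (Matrix (Fin d) (Fin d) (MonoidAlgebra k Y))ˣ),
      Set.InjOn φ S ∧ (∀ a ∈ S, ∀ b ∈ S, φ (a * b) = φ a * φ b) ∧
      ∀ k₀ : Subalgebra ℤ k, k₀.FG → ∀ a : k₀, a ≠ 0 →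
        ∃ (F : Type v') (_ : CommRing F) (ψ : k₀ →+* F), ψ a ≠ 0 ∧
          ∀ j : ℕ, NPPg F (Fin j → Y)) : NPP G := by
  classical
  apply NPP.of_matrix
  intro m A hA hK
  let S : Finset G := Finset.univ.biUnion fun ij : Fin m × Fin m => (A ij.1 ij.2).coeff.support
  have hS : ∀ i j, (A i j).coeff.support ⊆ S := fun i j a ha =>
    Finset.mem_biUnion.2 ⟨(i, j), Finset.mem_univ _, ha⟩
  obtain ⟨k, _, _, Y, _, d, φ, hinj, hφ, hk⟩ := hG S
  let M := Matrix (Fin d) (Fin d) (MonoidAlgebra k Y)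
  let cs : M → Finset k := fun x => Finset.univ.biUnion fun ij : Fin d × Fin d =>
    (x ij.1 ij.2).coeff.support.image (x ij.1 ij.2).coeff
  let X : Finset k := S.biUnion fun s => cs ((φ s : Mˣ) : M) ∪ cs (((φ s)⁻¹ : Mˣ) : M)
  let k₀ : Subalgebra ℤ k := Algebra.adjoin ℤ (X : Set k)
  have hk₀ : k₀.FG := ⟨X, rfl⟩
  have hft : Algebra.FiniteType ℤ k₀ := (Subalgebra.fg_iff_finiteType k₀).1 hk₀
  have hX : ∀ x : M, (cs x : Set k) ⊆ X → ∀ i j g, (x i j).coeff g ∈ k₀ := by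
    intro x hx i j g
    by_cases hg : g ∈ (x i j).coeff.support
    · apply Algebra.subset_adjoin
      apply hx
      exact Finset.mem_coe.2 (Finset.mem_biUnion.2 ⟨(i, j), Finset.mem_univ _,
        Finset.mem_image_of_mem _ hg⟩)
    · rw [Finsupp.notMem_support_iff.1 hg]
      exact k₀.zero_mem
  have hun : ∀ s ∈ S, ∃ u₀ : (Matrix (Fin d) (Fin d) (MonoidAlgebra k₀ Y))ˣ,
      Units.map (inclM k₀ (Y := Y) (I := Fin d)).toMonoidHom u₀ = φ s := by
    intro s hs
    apply exists_unit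
    · apply hX
      intro a ha
      exact Finset.mem_coe.2 (Finset.mem_biUnion.2 ⟨s, hs, Finset.mem_union_left _ ha⟩)
    · apply hX
      intro a ha
      exact Finset.mem_coe.2 (Finset.mem_biUnion.2 ⟨s, hs, Finset.mem_union_right _ ha⟩)
  let ι : (Matrix (Fin d) (Fin d) (MonoidAlgebra k₀ Y))ˣ →* Mˣ :=
    Units.map (inclM k₀ (Y := Y) (I := Fin d)).toMonoidHom
  have hι : Function.Injective ι := by
    intro u u' h
    apply Units.ext
    apply inclM_injective k₀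
    exact congrArg Units.val h
  let back : Mˣ → (Matrix (Fin d) (Fin d) (MonoidAlgebra k₀ Y))ˣ := fun u =>
    if h : ∃ u₀, ι u₀ = u then h.choose else 1
  have hback : ∀ u, (∃ u₀, ι u₀ = u) → ι (back u) = u := by
    intro u hu
    simp only [back, dif_pos hu]
    exact hu.choose_spec
  let φ₀ : G → (Matrix (Fin d) (Fin d) (MonoidAlgebra k₀ Y))ˣ := fun g => back (φ g)
  have hφ₀ : ∀ s ∈ S, ι (φ₀ s) = φ s := fun s hs => hback _ (hun s hs)
  have hinj₀ : Set.InjOn φ₀ S := by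
    intro a ha b hb hab
    apply hinj ha hb
    rw [← hφ₀ a ha, ← hφ₀ b hb, hab]
  have hmul₀ : ∀ a ∈ S, ∀ b ∈ S, φ₀ (a * b) = φ₀ a * φ₀ b := by
    intro a ha b hb
    apply hι
    have h1 : ι (φ₀ a * φ₀ b) = φ (a * b) := by
      rw [map_mul, hφ₀ a ha, hφ₀ b hb, hφ a ha b hb]
    rw [h1]
    exact hback _ ⟨_, h1⟩
  obtain ⟨A', hA', hK', hsupp, h0⟩ := transfer' A hA hK S hS φ₀ hinj₀ hmul₀
  apply h0
  refine eq_zero_of_rep (k := k₀) (Y := Y) (rf_of_finiteType k₀) ?_ hA' hK'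
    (Units.coeHom (Matrix (Fin d) (Fin d) (MonoidAlgebra k₀ Y))) (φ₀ '' S) hsupp ?_
  · intro a ha
    obtain ⟨F, hF, ψ, hψ, hN⟩ := hk k₀ hk₀ a ha
    exact ⟨F, hF, ψ, hψ, fun j => (hN j).mp⟩
  · intro a _ b _ hab
    exact Units.ext hab

end Lin

end

end Pool.Agent.H677_Perf
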