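import Pool.Agent.H677_Perf.Linear5
import Pool.Agent.H677_Perf.NecklaceK

set_option autoImplicit false
set_option linter.unusedSectionVars false

universe u v v' w

namespace Pool.Agent.H677_Perf

noncomputable section

namespace Lin

section ring

variable {R : Type*} [Ring R] {n : Type*} [Fintype n] [DecidableEq n] {L : Type*} [CommRing L]

/-- matrix version of a bilinear form on a ring -/
def BilR (β : R →+ R →+ L) (X Y : Matrix n n R) : L := ∑ i, ∑ j, β (X i j) (Y j i)

lemma BilR_cocycle {β : R →+ R →+ L}
    (hβ : ∀ x y z, β (x * y) z - β x (y * z) + β (z * x) y = 0)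
    (X Y Z : Matrix n n R) :
    BilR β (X * Y) Z - BilR β X (Y * Z) + BilR β (Z * X) Y = 0 := by
  have h1 : BilR β (X * Y) Z = ∑ i, ∑ j, ∑ k, β (X i j * Y j k) (Z k i) := by
    unfold BilR
    refine Finset.sum_congr rfl fun i _ => ?_
    rw [Finset.sum_comm]
    refine Finset.sum_congr rfl fun k _ => ?_
    rw [Matrix.mul_apply, map_sum, AddMonoidHom.finsetSum_apply]
  have h2 : BilR β X (Y * Z) = ∑ i, ∑ j, ∑ k, β (X i j) (Y j k * Z k i) := by
    unfold BilR
    refine Finset.sum_congr rfl fun i _ => Finset.sum_congr rfl fun j _ => ?_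
    rw [Matrix.mul_apply, map_sum]
  have h3 : BilR β (Z * X) Y = ∑ i, ∑ j, ∑ k, β (Z k i * X i j) (Y j k) := by
    unfold BilR
    have : ∀ k j, β ((Z * X) k j) (Y j k) = ∑ i, β (Z k i * X i j) (Y j k) := by
      intro k j
      rw [Matrix.mul_apply, map_sum, AddMonoidHom.finsetSum_apply]
    simp only [this]
    rw [Finset.sum_comm]
    conv_lhs =>
      enter [2, j]
      rw [Finset.sum_comm]
    rw [Finset.sum_comm]
  rw [h1, h2, h3, ← Finset.sum_sub_distrib, ← Finset.sum_add_distrib]
  refine Finset.sum_eq_zero fun i _ => ?_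
  rw [← Finset.sum_sub_distrib, ← Finset.sum_add_distrib]
  refine Finset.sum_eq_zero fun j _ => ?_
  rw [← Finset.sum_sub_distrib, ← Finset.sum_add_distrib]
  exact Finset.sum_eq_zero fun k _ => hβ _ _ _

lemma BilR_symm {β : R →+ R →+ L} {h : R →+ L} (hβ : ∀ x y, β x y + β y x = h (x * y))
    (X Y : Matrix n n R) : BilR β X Y + BilR β Y X = ∑ i, h ((X * Y) i i) := by
  have h1 : BilR β Y X = ∑ i, ∑ j, β (Y j i) (X i j) := by
    unfold BilR
    rw [Finset.sum_comm]
  rw [h1, BilR, ← Finset.sum_add_distrib]
  refine Finset.sum_congr rfl fun i _ => ?_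
  rw [← Finset.sum_add_distrib, Matrix.mul_apply, map_sum]
  exact Finset.sum_congr rfl fun j _ => hβ _ _

/-- a cyclic cocycle kills the functional it symmetrises to, on idempotents -/
lemma trace_eq_zero_of_bil {β : R →+ R →+ L} {h : R →+ L}
    (h1 : ∀ x y z, β (x * y) z - β x (y * z) + β (z * x) y = 0)
    (h2 : ∀ x y, β x y + β y x = h (x * y)) {A : Matrix n n R}
    (hA : A * A = A) : ∑ i, h (A i i) = 0 := by
  have h3 := BilR_cocycle h1 A A A
  rw [hA] at h3
  have h4 : BilR β A A = 0 := by simpa using h3
  have h5 := BilR_symm h2 A A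
  rw [hA, h4, add_zero] at h5
  exact h5.symm

end ring

section coef

variable {L : Type v} [CommRing L] {Y : Type w} [Group Y]

/-- linear functional on the group ring given by a function on the group -/
def evlL (χ : Y → L) : MonoidAlgebra L Y →ₗ[L] L where
  toFun x := x.coeff.sum fun q a => a * χ q
  map_add' x y := by
    rw [MonoidAlgebra.coeff_add, Finsupp.sum_add_index']
    · intro a; simp
    · intro a b c; ring
  map_smul' r x := by
    rw [MonoidAlgebra.coeff_smul, Finsupp.sum_smul_index (by intro i; simp), RingHom.id_apply,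
      Finsupp.smul_sum]
    refine Finsupp.sum_congr fun g _ => ?_
    rw [smul_eq_mul]
    ring

lemma evlL_apply (χ : Y → L) (x : MonoidAlgebra L Y) :
    evlL χ x = x.coeff.sum fun q a => a * χ q := rfl

@[simp] lemma evlL_single (χ : Y → L) (g : Y) (r : L) :
    evlL χ (MonoidAlgebra.single g r) = r * χ g := by
  rw [evlL_apply, MonoidAlgebra.coeff_single, Finsupp.sum_single_index (by simp)]

/-- additive map on the group ring given by a function on the group -/
def evl {M : Type*} [AddCommGroup M] [Module L M] (χ : Y → M) : MonoidAlgebra L Y →+ M :=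
  (Finsupp.liftAddHom (fun g => (smulAddHom L M).flip (χ g))).comp
    (MonoidAlgebra.coeffAddEquiv (R := L) (M := Y)).toAddMonoidHom

@[simp] lemma evl_single {M : Type*} [AddCommGroup M] [Module L M] (χ : Y → M) (g : Y) (r : L) :
    evl χ (MonoidAlgebra.single g r) = r • χ g := by
  simp [evl]

/-- bilinear extension of a function of two group elements -/
def bilr (ψ : Y → Y → L) : MonoidAlgebra L Y →+ MonoidAlgebra L Y →+ L :=
  LinearMap.toAddMonoidHom'.comp (evl fun g => evlL (ψ g))

@[simp] lemma bilr_single (ψ : Y → Y → L) (g h : Y) (r s : L) :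
    bilr ψ (MonoidAlgebra.single g r) (MonoidAlgebra.single h s) = r * s * ψ g h := by
  unfold bilr
  rw [AddMonoidHom.comp_apply, evl_single]
  change (r • evlL (ψ g)) (MonoidAlgebra.single h s) = _
  rw [LinearMap.smul_apply, evlL_single, smul_eq_mul]
  ring

lemma bilr_cocycle {ψ : Y → Y → L}
    (hψ : ∀ a b c, ψ (a * b) c - ψ a (b * c) + ψ (c * a) b = 0) (x y z : MonoidAlgebra L Y) :
    bilr ψ (x * y) z - bilr ψ x (y * z) + bilr ψ (z * x) y = 0 := by
  induction x using MonoidAlgebra.induction_linear with
  | zero => simp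
  | add x x' hx hx' =>
    simp only [add_mul, mul_add, map_add, AddMonoidHom.add_apply]
    linear_combination hx + hx'
  | single g r =>
    induction y using MonoidAlgebra.induction_linear with
    | zero => simp
    | add y y' hy hy' =>
      simp only [add_mul, mul_add, map_add, AddMonoidHom.add_apply]
      linear_combination hy + hy'
    | single h s =>
      induction z using MonoidAlgebra.induction_linear with
      | zero => simp
      | add z z' hz hz' =>
        simp only [add_mul, mul_add, map_add, AddMonoidHom.add_apply]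
        linear_combination hz + hz'
      | single k t =>
        simp only [MonoidAlgebra.single_mul_single, bilr_single]
        have := hψ g h k
        linear_combination (r * s * t) * this

lemma bilr_symm {ψ : Y → Y → L} {χ : Y → L} (hψ : ∀ a b, ψ a b + ψ b a = χ (a * b))
    (x y : MonoidAlgebra L Y) : bilr ψ x y + bilr ψ y x = evlL χ (x * y) := by
  induction x using MonoidAlgebra.induction_linear with
  | zero => simp
  | add x x' hx hx' =>
    simp only [add_mul, map_add, AddMonoidHom.add_apply]
    linear_combination hx + hx'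
  | single g r =>
    induction y using MonoidAlgebra.induction_linear with
    | zero => simp
    | add y y' hy hy' =>
      simp only [mul_add, map_add, AddMonoidHom.add_apply]
      linear_combination hy + hy'
    | single h s =>
      simp only [MonoidAlgebra.single_mul_single, bilr_single, evlL_single]
      have := hψ g h
      linear_combination (r * s) * this

lemma evlL_mul_comm {χ : Y → L} (hχ : ∀ g h, χ (g * h) = χ (h * g)) (x y : MonoidAlgebra L Y) :
    evlL χ (x * y) = evlL χ (y * x) := by
  induction x using MonoidAlgebra.induction_linear with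
  | zero => simp
  | add x x' hx hx' => rw [add_mul, mul_add, map_add, map_add, hx, hx']
  | single g r =>
    induction y using MonoidAlgebra.induction_linear with
    | zero => simp
    | add y y' hy hy' => rw [add_mul, mul_add, map_add, map_add, hy, hy']
    | single h s =>
      rw [MonoidAlgebra.single_mul_single, MonoidAlgebra.single_mul_single, evlL_single,
        evlL_single, hχ g h, mul_comm r s]

open Classical in
/-- the indicator function of the conjugacy class of `x` -/
def indC (L : Type v) [CommRing L] (x : Y) (g : Y) : L := if IsConj x g then 1 else 0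

lemma indC_comm (x a b : Y) : indC L x (a * b) = indC L x (b * a) := by
  unfold indC
  by_cases h : IsConj x (a * b)
  · rw [if_pos h, if_pos ((isConj_mul_comm x a b).1 h)]
  · rw [if_neg h, if_neg fun h' => h ((isConj_mul_comm x a b).2 h')]

variable {n : Type} [Fintype n] [DecidableEq n]

/-- the rank of a matrix at the class of `x` -/
def rkK (x : Y) : Matrix n n (MonoidAlgebra L Y) →+ L :=
  (evlL (indC L x)).toAddMonoidHom.comp (Matrix.traceAddMonoidHom n (MonoidAlgebra L Y))

lemma rkK_apply (x : Y) (A : Matrix n n (MonoidAlgebra L Y)) :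
    rkK x A = ∑ i, evlL (indC L x) (A i i) := by
  simp [rkK, Matrix.trace, map_sum]

lemma rkK_mul_comm (x : Y) (A B : Matrix n n (MonoidAlgebra L Y)) :
    rkK x (A * B) = rkK x (B * A) := by
  simp only [rkK_apply, Matrix.mul_apply, map_sum]
  rw [Finset.sum_comm]
  refine Finset.sum_congr rfl fun i _ => Finset.sum_congr rfl fun j _ => ?_
  exact evlL_mul_comm (indC_comm x) _ _

/-- The rank of an idempotent matrix at the class of `x`, times `f x`, vanishes, for every
additive function `f` on the centraliser of `x`. -/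
theorem rkK_mul_eq_zero {A : Matrix n n (MonoidAlgebra L Y)} (hA : A * A = A) (x : Y)
    (f : Y → L) (hf : ∀ a b, Commute a x → Commute b x → f (a * b) = f a + f b) :
    f x * rkK x A = 0 := by
  have h1 : ∑ i, evlL (chi x f) (A i i) = 0 :=
    trace_eq_zero_of_bil (h := (evlL (chi x f)).toAddMonoidHom)
      (bilr_cocycle (psi_cocycle x f hf)) (bilr_symm (psi_symm x f hf)) hA
  have h6 : ∀ z : MonoidAlgebra L Y, evlL (chi x f) z = f x * evlL (indC L x) z := by
    intro z
    induction z using MonoidAlgebra.induction_linear with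
    | zero => simp
    | add z z' hz hz' => rw [map_add, map_add, hz, hz', mul_add]
    | single g a =>
      rw [evlL_single, evlL_single]
      unfold chi indC
      split_ifs <;> ring
  rw [rkK_apply, Finset.mul_sum, ← h1]
  exact Finset.sum_congr rfl fun i _ => (h6 _).symm

/-- the monomial matrix `M ⊗ g` -/
def monoK (M : Matrix n n L) (g : Y) : Matrix n n (MonoidAlgebra L Y) :=
  M.map fun r => MonoidAlgebra.single g r

lemma monoK_mul (M M' : Matrix n n L) (g g' : Y) :
    monoK M g * monoK M' g' = monoK (M * M') (g * g') := by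
  refine Matrix.ext fun i j => ?_
  simp only [monoK, Matrix.mul_apply, Matrix.map_apply, MonoidAlgebra.single_mul_single]
  exact (map_sum (MonoidAlgebra.singleAddHom (R := L) (g * g')) _ _).symm

lemma monoK_one : monoK (1 : Matrix n n L) (1 : Y) = 1 := by
  refine Matrix.ext fun i j => ?_
  simp only [monoK, Matrix.map_apply, Matrix.one_apply]
  split_ifs <;> simp [MonoidAlgebra.one_def]

lemma monoK_pow (M : Matrix n n L) (g : Y) (k : ℕ) : monoK M g ^ k = monoK (M ^ k) (g ^ k) := by
  induction k with
  | zero => simp [monoK_one]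
  | succ k ih => rw [pow_succ, pow_succ, pow_succ, ih, monoK_mul]

lemma monoK_list_prod {ι : Type*} (M : ι → Matrix n n L) (g : ι → Y) (l : List ι) :
    ∃ M' : Matrix n n L, (l.map fun i => monoK (M i) (g i)).prod = monoK M' (l.map g).prod := by
  induction l with
  | nil => exact ⟨1, by simp [monoK_one]⟩
  | cons a l ih =>
    obtain ⟨M', hM'⟩ := ih
    refine ⟨M a * M', ?_⟩
    rw [List.map_cons, List.prod_cons, hM', monoK_mul, List.map_cons, List.prod_cons]

lemma rkK_monoK_ne_zero {x g : Y} {M : Matrix n n L} (h : rkK x (monoK M g) ≠ 0) :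
    IsConj g x := by
  by_contra hc
  apply h
  rw [rkK_apply]
  refine Finset.sum_eq_zero fun i _ => ?_
  simp only [monoK, Matrix.map_apply, evlL_single]
  unfold indC
  rw [if_neg fun h' => hc h'.symm, mul_zero]

/-- the union of the supports of the entries -/
def msuppK [DecidableEq Y] (A : Matrix n n (MonoidAlgebra L Y)) : Finset Y :=
  Finset.univ.biUnion fun ij : n × n => (A ij.1 ij.2).coeff.support

lemma mem_msuppK [DecidableEq Y] {A : Matrix n n (MonoidAlgebra L Y)} {i j : n} {g : Y}
    (h : (A i j).coeff g ≠ 0) : g ∈ msuppK A := by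
  simp only [msuppK, Finset.mem_biUnion, Finset.mem_univ, true_and]
  exact ⟨(i, j), Finsupp.mem_support_iff.2 h⟩

/-- the coefficient matrix at `g` -/
def cfK (A : Matrix n n (MonoidAlgebra L Y)) (g : Y) : Matrix n n L :=
  fun i j => (A i j).coeff g

lemma eq_sum_monoK [DecidableEq Y] (A : Matrix n n (MonoidAlgebra L Y)) :
    A = ∑ g : msuppK A, monoK (cfK A g) (g : Y) := by
  refine Matrix.ext fun i j => ?_
  rw [Matrix.sum_apply]
  simp only [monoK, cfK, Matrix.map_apply]
  rw [Finset.sum_coe_sort (msuppK A)
    (fun g => (MonoidAlgebra.single g ((A i j).coeff g) : MonoidAlgebra L Y))]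
  conv_lhs => rw [← MonoidAlgebra.sum_coeff_single (A i j)]
  rw [Finsupp.sum]
  refine Finset.sum_subset ?_ ?_
  · intro g hg
    exact mem_msuppK (Finsupp.mem_support_iff.1 hg)
  · intro g _ hg
    rw [Finsupp.notMem_support_iff.1 hg, MonoidAlgebra.single_zero]

lemma pow_idemK {A : Matrix n n (MonoidAlgebra L Y)} (hA : A * A = A) (k : ℕ) (hk : 1 ≤ k) :
    A ^ k = A := by
  induction k, hk using Nat.le_induction with
  | base => exact pow_one A
  | succ k _ ih => rw [pow_succ, ih, hA]

lemma exists_wordK [DecidableEq Y] {A : Matrix n n (MonoidAlgebra L Y)} (hA : A * A = A) (x : Y)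
    (p : ℕ) [hp : Fact p.Prime] (k N : ℕ) (hk : k ≤ N) (hr : ¬ (p : L) ^ (k + 1) ∣ rkK x A) :
    ∃ u : Fin (p ^ k) → msuppK A,
      IsConj ((List.ofFn fun j => ((u j : msuppK A) : Y)).prod ^ (p ^ (N - k))) x := by
  have h1 : (∑ g : msuppK A, monoK (cfK A g) (g : Y)) ^ (p ^ N) = A := by
    rw [← eq_sum_monoK A]
    exact pow_idemK hA _ (Nat.one_le_iff_ne_zero.2 (pow_ne_zero _ hp.out.ne_zero))
  obtain ⟨u, hu⟩ := necklaceK (rkK x) (rkK_mul_comm x)
    (fun g : msuppK A => monoK (cfK A g) (g : Y)) p k N hk (by rw [h1]; exact hr)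
  refine ⟨u, ?_⟩
  obtain ⟨M', hM'⟩ := monoK_list_prod (fun g : msuppK A => cfK A g)
    (fun g : msuppK A => (g : Y)) (List.ofFn u)
  have h2 : (List.ofFn fun j => monoK (cfK A (u j : msuppK A)) ((u j : msuppK A) : Y)).prod =
      monoK M' (List.ofFn fun j => ((u j : msuppK A) : Y)).prod := by
    rw [List.map_ofFn, List.map_ofFn] at hM'
    exact hM'
  rw [h2, monoK_pow] at hu
  exact rkK_monoK_ne_zero hu

/-- If the rank at `x` is not divisible by all powers of the prime `p`, then `x` is conjugate
to `x ^ (p ^ n)` for some `n ≥ 1`. -/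
theorem exists_pow_primeK {A : Matrix n n (MonoidAlgebra L Y)} (hA : A * A = A) (x : Y)
    (p : ℕ) (hp : p.Prime) (k : ℕ) (hk : ¬ (p : L) ^ (k + 1) ∣ rkK x A) :
    ∃ m, 1 ≤ m ∧ IsConj x (x ^ (p ^ m)) := by
  classical
  have : Fact p.Prime := ⟨hp⟩
  choose u hu using fun N : ℕ => exists_wordK hA x p k (k + N) (Nat.le_add_right k N) hk
  obtain ⟨N₁, N₂, hne, heq⟩ := Finite.exists_ne_map_eq_of_infinite u
  wlog hlt : N₁ < N₂ generalizing N₁ N₂
  · exact this N₂ N₁ hne.symm heq.symm (by omega)
  refine ⟨(k + N₂) - (k + N₁), by omega, ?_⟩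
  refine isConj_pow_of_word (k := k) (g := (List.ofFn fun j => ((u N₁ j : msuppK A) : Y)).prod)
    (by omega) (by omega) (hu N₁) ?_
  rw [heq]
  exact hu N₂

end coef

end Lin

end

end Pool.Agent.H677_Perf
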