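import Pool.Agent.H677_Perf.Linear6

set_option autoImplicit false
set_option linter.unusedSectionVars false

universe u v v' w

namespace Pool.Agent.H677_Perf

noncomputable section

namespace Lin

section coefficients

variable {Y : Type w} [Group Y] {F : Type v} [CommRing F] {K : Type v'} [CommRing K]
  {I : Type} [Fintype I] [DecidableEq I]

/-- extension of a matrix representation of the coefficients -/
def coefHom (θ : F →+* Matrix I I K) : MonoidAlgebra F Y →+* Matrix I I (MonoidAlgebra K Y) :=
  MonoidAlgebra.liftNCRingHom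
    (((MonoidAlgebra.singleOneRingHom (R := K) (M := Y)).mapMatrix (m := I)).comp θ)
    (((Matrix.scalar I : MonoidAlgebra K Y →+* Matrix I I (MonoidAlgebra K Y)) :
      MonoidAlgebra K Y →* Matrix I I (MonoidAlgebra K Y)).comp (MonoidAlgebra.of K Y)) (by
      intro x y
      change ((θ x).map (MonoidAlgebra.single (1 : Y))) *
          (Matrix.scalar I (MonoidAlgebra.single y (1 : K))) =
        (Matrix.scalar I (MonoidAlgebra.single y (1 : K))) *
          ((θ x).map (MonoidAlgebra.single (1 : Y)))
      refine Matrix.ext fun i j => ?_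
      rw [Matrix.scalar_apply, Matrix.mul_diagonal, Matrix.diagonal_mul, Matrix.map_apply,
        MonoidAlgebra.single_mul_single, MonoidAlgebra.single_mul_single, one_mul, mul_one,
        mul_one, one_mul])

lemma coefHom_single (θ : F →+* Matrix I I K) (y : Y) (a : F) (s t : I) :
    coefHom θ (MonoidAlgebra.single y a) s t = MonoidAlgebra.single y (θ a s t) := by
  unfold coefHom
  rw [MonoidAlgebra.liftNCRingHom_single]
  change (((θ a).map (MonoidAlgebra.single (1 : Y))) *
          (Matrix.scalar I (MonoidAlgebra.single y (1 : K)))) s t = _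
  rw [Matrix.scalar_apply, Matrix.mul_diagonal, Matrix.map_apply,
        MonoidAlgebra.single_mul_single, one_mul, mul_one]

lemma coefHom_coeff (θ : F →+* Matrix I I K) (x : MonoidAlgebra F Y) (s t : I) (g : Y) :
    (coefHom θ x s t).coeff g = θ (x.coeff g) s t := by
  classical
  induction x using MonoidAlgebra.induction_linear with
  | zero => simp
  | add x y hx hy =>
    rw [map_add, Matrix.add_apply, MonoidAlgebra.coeff_add, Finsupp.add_apply, hx, hy,
      MonoidAlgebra.coeff_add, Finsupp.add_apply, map_add, Matrix.add_apply]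
  | single y a =>
    rw [coefHom_single, MonoidAlgebra.coeff_single, MonoidAlgebra.coeff_single,
      Finsupp.single_apply, Finsupp.single_apply]
    split_ifs
    · rfl
    · rw [map_zero]
      rfl

lemma aug_coefHom (θ : F →+* Matrix I I K) (x : MonoidAlgebra F Y) (s t : I) :
    aug K Y (coefHom θ x s t) = θ (aug F Y x) s t := by
  induction x using MonoidAlgebra.induction_linear with
  | zero => simp
  | add x y hx hy =>
    rw [map_add, Matrix.add_apply, map_add, hx, hy, map_add, map_add, Matrix.add_apply]
  | single y a => rw [coefHom_single, aug_single, aug_single]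

/-- transfer of coefficients along an injective matrix representation -/
theorem MP.of_matrixHom (h : MP K Y) (θ : F →+* Matrix I I K) (hθ : Function.Injective θ) :
    MP F Y := by
  intro n _ A hA hK
  classical
  let A' : Matrix (n × I) (n × I) (MonoidAlgebra K Y) :=
    Matrix.compRingEquiv n I (MonoidAlgebra K Y) (A.map (coefHom θ))
  have hA'e : ∀ i s j r, A' (i, s) (j, r) = coefHom θ (A i j) s r := fun i s j r => rfl
  have hA' : A' * A' = A' := by
    simp only [A']
    rw [← map_mul, ← Matrix.map_mul, hA]
  have h0 := h _ A' hA' (by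
    rintro ⟨i, s⟩ ⟨j, r⟩
    rw [hA'e, aug_coefHom, hK i j, map_zero]
    rfl)
  refine Matrix.ext fun i j => ?_
  rw [Matrix.zero_apply]
  apply MonoidAlgebra.ext
  ext g
  apply hθ
  refine Matrix.ext fun s r => ?_
  rw [← coefHom_coeff, ← hA'e, h0]
  simp

end coefficients

section numberfield

variable {Y : Type w} [Group Y]

theorem MP_of_finite_rat (h : MP ℝ Y) (F : Type v) [Field F] [Algebra ℚ F] [Module.Finite ℚ F] :
    MP F Y := by
  let b := Module.finBasis ℚ F
  let θ : F →+* Matrix (Fin (Module.finrank ℚ F)) (Fin (Module.finrank ℚ F)) ℝ :=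
    ((algebraMap ℚ ℝ).mapMatrix).comp (Algebra.leftMulMatrix b).toRingHom
  refine MP.of_matrixHom h θ ?_
  intro x y hxy
  apply Algebra.leftMulMatrix_injective b
  refine Matrix.ext fun i j => ?_
  apply (algebraMap ℚ ℝ).injective
  exact congrFun (congrFun hxy i) j

/-- domains of characteristic zero which are finitely generated as rings have enough
homomorphisms to number fields -/
theorem exists_numberField (k : Type v) [CommRing k] [IsDomain k] [CharZero k]
    [Algebra.FiniteType ℤ k] (a : k) (ha : a ≠ 0) :
    ∃ (F : Type v) (_ : Field F) (_ : Algebra ℚ F) (_ : Module.Finite ℚ F) (ψ : k →+* F),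
      ψ a ≠ 0 := by
  let K := FractionRing k
  have : CharZero K := charZero_of_injective_algebraMap (IsFractionRing.injective k K)
  obtain ⟨X, hX⟩ := (Algebra.FiniteType.out : (⊤ : Subalgebra ℤ k).FG)
  let f : k →+* K := algebraMap k K
  have hf : Function.Injective f := IsFractionRing.injective k K
  classical
  let X' : Finset K := X.image f
  let k₁ : Subalgebra ℚ K := Algebra.adjoin ℚ (X' : Set K)
  have hk₁ : k₁.FG := ⟨X', rfl⟩
  have hft : Algebra.FiniteType ℚ k₁ := (Subalgebra.fg_iff_finiteType k₁).1 hk₁
  have hmem : ∀ x : k, f x ∈ k₁ := by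
    intro x
    have hx : x ∈ Algebra.adjoin ℤ (X : Set k) := by rw [hX]; exact Algebra.mem_top
    induction hx using Algebra.adjoin_induction with
    | mem x hx =>
      apply Algebra.subset_adjoin
      exact Finset.mem_coe.2 (Finset.mem_image_of_mem f hx)
    | algebraMap r =>
      rw [eq_intCast, map_intCast]
      exact intCast_mem k₁ r
    | add x y _ _ hx hy => rw [map_add]; exact k₁.add_mem hx hy
    | mul x y _ _ hx hy => rw [map_mul]; exact k₁.mul_mem hx hy
  let g : k →+* k₁ := f.codRestrict k₁ hmem
  have hg : ∀ x, ((g x : k₁) : K) = f x := fun x => rfl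
  have hga : g a ≠ 0 := by
    intro h
    apply ha
    apply hf
    rw [← hg, h, map_zero]
    rfl
  have hJ : IsJacobsonRing k₁ := isJacobsonRing_of_finiteType (A := ℚ)
  have h1 : g a ∉ (⊥ : Ideal k₁).jacobson := by
    rw [← Ideal.radical_eq_jacobson, Ideal.IsPrime.radical Ideal.isPrime_bot]
    exact hga
  rw [Ideal.jacobson, Ideal.mem_sInf] at h1
  push Not at h1
  obtain ⟨m, ⟨_, hm⟩, ham⟩ := h1
  let i : Field (k₁ ⧸ m) := Ideal.Quotient.field m
  have hft2 : Algebra.FiniteType ℚ (k₁ ⧸ m) :=
    Algebra.FiniteType.of_surjective (Ideal.Quotient.mkₐ ℚ m) Ideal.Quotient.mk_surjective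
  have hfin : Module.Finite ℚ (k₁ ⧸ m) := finite_of_finite_type_of_isJacobsonRing ℚ (k₁ ⧸ m)
  refine ⟨k₁ ⧸ m, i, inferInstance, hfin, (Ideal.Quotient.mk m).comp g, fun h => ham ?_⟩
  exact Ideal.Quotient.eq_zero_iff_mem.1 h

end numberfield

end Lin

end

end Pool.Agent.H677_Perf
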