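import Pool.Agent.H677_Perf.Linear7

set_option autoImplicit false
set_option linter.unusedSectionVars false

universe u v v' w

namespace Pool.Agent.H677_Perf

noncomputable section

namespace Lin

/-- every nontrivial element has infinite order in the abelianised centraliser, or is not
conjugate to any of its `p ^ n`-th powers, `n ≥ 1`, for some prime `p` not invertible in `k` -/
def EStar (k : Type v) [CommRing k] (Y : Type w) [Group Y] : Prop :=
  ∀ y : Y, y ≠ 1 →
    (∀ n : ℕ, 1 ≤ n → y ^ n ∉ ⁅Subgroup.centralizer {y}, Subgroup.centralizer {y}⁆) ∨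
    ∃ p : ℕ, p.Prime ∧ ¬ IsUnit (p : k) ∧ ∀ n : ℕ, 1 ≤ n → ¬ IsConj y (y ^ (p ^ n))

lemma EStar.pi {k : Type v} [CommRing k] {Y : Type w} [Group Y] (hY : EStar k Y) (j : ℕ) :
    EStar k (Fin j → Y) := by
  intro y hy
  obtain ⟨i, hi⟩ : ∃ i, y i ≠ 1 := by
    by_contra hcon
    push Not at hcon
    exact hy (funext hcon)
  let π : (Fin j → Y) →* Y := Pi.evalMonoidHom (fun _ => Y) i
  rcases hY (y i) hi with h | ⟨p, hp, hpk, h⟩
  · left
    intro n hn hmem
    apply h n hn
    have h1 : (Subgroup.centralizer {y}).map π ≤ Subgroup.centralizer {y i} := by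
      rintro _ ⟨c, hc, rfl⟩
      rw [SetLike.mem_coe, Subgroup.mem_centralizer_singleton_iff] at hc
      rw [Subgroup.mem_centralizer_singleton_iff]
      exact congrFun hc i
    have h2 := Subgroup.mem_map_of_mem π hmem
    rw [Subgroup.map_commutator] at h2
    exact Subgroup.commutator_mono h1 h1 h2
  · right
    refine ⟨p, hp, hpk, fun n hn hc => h n hn ?_⟩
    exact π.map_isConj hc

lemma EStar.of_injective {k : Type v} [CommRing k] {k₀ : Type v'} [CommRing k₀] {Y : Type w}
    [Group Y] (hY : EStar k Y) (ι : k₀ →+* k) : EStar k₀ Y := by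
  intro y hy
  rcases hY y hy with h | ⟨p, hp, hpk, h⟩
  · exact Or.inl h
  · refine Or.inr ⟨p, hp, fun hu => hpk ?_, h⟩
    have := hu.map ι
    rwa [map_natCast] at this

/-- an element of infinite order in the abelianisation is detected by a rational character -/
lemma exists_rat {C : Type w} [Group C] (y : C) (hy : ∀ n : ℕ, 1 ≤ n → y ^ n ∉ commutator C) :
    ∃ f : C → ℚ, (∀ a b, f (a * b) = f a + f b) ∧ f y = 1 := by
  let B := Additive (Abelianization C)
  let yb : B := Additive.ofMul (Abelianization.of y)
  let g₀ : ℤ →+ B := (zmultiplesHom B) yb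
  have hg₀ : Function.Injective g₀ := by
    rw [injective_iff_map_eq_zero]
    intro m hm
    have h1 : m • yb = 0 := hm
    have h2 : m.natAbs • yb = 0 := by
      rcases Int.natAbs_eq m with h | h
      · rw [h, natCast_zsmul] at h1
        exact h1
      · rw [h, neg_smul, neg_eq_zero, natCast_zsmul] at h1
        exact h1
    by_contra hne
    apply hy m.natAbs (Int.natAbs_pos.2 hne)
    rw [← Abelianization.ker_of, MonoidHom.mem_ker, map_pow]
    exact h2
  let g : ℤ →+ ℚ := Int.castAddHom ℚ
  obtain ⟨h, hh⟩ := (Module.Baer.of_divisible ℚ).extension_property_addMonoidHom g₀ hg₀ g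
  refine ⟨fun a => h (Additive.ofMul (Abelianization.of a)), ?_, ?_⟩
  · intro a b
    change h (Additive.ofMul (Abelianization.of (a * b))) = _
    rw [map_mul, ofMul_mul, map_add]
  · have h1 := DFunLike.congr_fun hh (1 : ℤ)
    have h2 : g₀ 1 = yb := one_zsmul yb
    rw [AddMonoidHom.comp_apply, h2] at h1
    change h yb = 1
    rw [h1]
    simp [g]

section

variable {Y : Type w} [Group Y] {n : Type} [Fintype n] [DecidableEq n]

lemma rkK_map {L : Type v} [CommRing L] {L' : Type v'} [CommRing L'] (ψ : L →+* L') (x : Y)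
    (A : Matrix n n (MonoidAlgebra L Y)) :
    rkK x (A.map (MonoidAlgebra.mapRingHom Y ψ)) = ψ (rkK x A) := by
  rw [rkK_apply, rkK_apply, map_sum]
  refine Finset.sum_congr rfl fun i _ => ?_
  rw [Matrix.map_apply]
  generalize A i i = z
  induction z using MonoidAlgebra.induction_linear with
  | zero => simp
  | add z z' hz hz' => simp only [map_add, hz, hz']
  | single g a =>
    have : MonoidAlgebra.mapRingHom Y ψ (MonoidAlgebra.single g a) =
        MonoidAlgebra.single g (ψ a) := by simp
    rw [this, evlL_single, evlL_single, map_mul]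
    unfold indC
    split_ifs <;> simp

lemma aug_eq_sum_rkK {L : Type v} [CommRing L] (A : Matrix n n (MonoidAlgebra L Y))
    (h : ∀ x : Y, x ≠ 1 → rkK x A = 0) : ∑ i, (A i i).coeff 1 = ∑ i, aug L Y (A i i) := by
  classical
  let t : MonoidAlgebra L Y := ∑ i, A i i
  let r : ConjClasses Y →₀ L := t.coeff.mapDomain ConjClasses.mk
  have h1 : ∀ (x : Y) (z : MonoidAlgebra L Y), evlL (indC L x) z =
      (z.coeff.mapDomain ConjClasses.mk) (ConjClasses.mk x) := by
    intro x z
    induction z using MonoidAlgebra.induction_linear with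
    | zero => simp
    | add z z' hz hz' =>
      rw [map_add, hz, hz', MonoidAlgebra.coeff_add, Finsupp.mapDomain_add, Finsupp.add_apply]
    | single g a =>
      rw [evlL_single, MonoidAlgebra.coeff_single, Finsupp.mapDomain_single,
        Finsupp.single_apply]
      unfold indC
      by_cases h : IsConj x g
      · rw [if_pos h, if_pos ((ConjClasses.mk_eq_mk_iff_isConj).2 h.symm), mul_one]
      · rw [if_neg h, if_neg, mul_zero]
        intro h'
        exact h ((ConjClasses.mk_eq_mk_iff_isConj).1 h').symm
  have hr : ∀ x, rkK x A = r (ConjClasses.mk x) := by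
    intro x
    rw [rkK_apply, ← map_sum]
    exact h1 x t
  have hr1 : r (ConjClasses.mk 1) = t.coeff 1 := by
    rw [← h1 1 t, evlL_apply, Finsupp.sum]
    unfold indC
    simp only [isConj_one_right, mul_ite, mul_one, mul_zero]
    rw [Finset.sum_ite_eq']
    split_ifs with h
    · rfl
    · exact (Finsupp.notMem_support_iff.1 h).symm
  have hr2 : r.sum (fun _ a => a) = r (ConjClasses.mk 1) := by
    rw [Finsupp.sum, Finset.sum_eq_single (ConjClasses.mk 1)]
    · intro c _ hc
      obtain ⟨x, rfl⟩ := ConjClasses.exists_rep c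
      rw [← hr]
      apply h
      rintro rfl
      exact hc rfl
    · intro h
      exact Finsupp.notMem_support_iff.1 h
  have hsum : aug L Y t = r.sum fun _ a => a := by
    rw [aug_eq_sum]
    simp only [r]
    rw [Finsupp.sum_mapDomain_index (by simp) (by intros; rfl)]
  have hcoeff : t.coeff 1 = ∑ i, (A i i).coeff 1 := by
    simp only [t]
    rw [MonoidAlgebra.coeff_sum, Finsupp.finsetSum_apply]
  rw [← hcoeff, ← hr1, ← hr2, ← hsum]
  simp only [t]
  rw [map_sum]

/-- Idempotent matrices over a group ring with coefficients in a domain of characteristic zero,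
finitely generated as a ring, vanish if the coefficient of the trace at the identity does. -/
theorem kaplansky_domain (k : Type v) [CommRing k] [IsDomain k] [CharZero k]
    [Algebra.FiniteType ℤ k] (A : Matrix n n (MonoidAlgebra k Y)) (hA : A * A = A)
    (h : ∑ i, (A i i).coeff 1 = 0) : A = 0 := by
  refine Matrix.ext fun i j => ?_
  rw [Matrix.zero_apply]
  apply MonoidAlgebra.ext
  ext g
  by_contra hne
  obtain ⟨F, _, _, _, ψ, hψ⟩ := exists_numberField k _ hne
  apply hψ
  let b := Module.finBasis ℚ F
  let I := Fin (Module.finrank ℚ F)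
  let θ : F →+* Matrix I I ℝ :=
    ((algebraMap ℚ ℝ).mapMatrix).comp (Algebra.leftMulMatrix b).toRingHom
  have hθ : Function.Injective θ := by
    intro x y hxy
    apply Algebra.leftMulMatrix_injective b
    refine Matrix.ext fun i j => ?_
    apply (algebraMap ℚ ℝ).injective
    exact congrFun (congrFun hxy i) j
  let Ψ : MonoidAlgebra k Y →+* MonoidAlgebra F Y := MonoidAlgebra.mapRingHom Y ψ
  have hΨ : ∀ x g, (Ψ x).coeff g = ψ (x.coeff g) := fun x g => by simp [Ψ]
  let Θ : MonoidAlgebra k Y →+* Matrix I I (MonoidAlgebra ℝ Y) := (coefHom θ).comp Ψ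
  have hΘ : ∀ x s t g, (Θ x s t).coeff g = θ (ψ (x.coeff g)) s t := by
    intro x s t g
    change (coefHom θ (Ψ x) s t).coeff g = _
    rw [coefHom_coeff, hΨ]
  let A' : Matrix (n × I) (n × I) (MonoidAlgebra ℝ Y) :=
    Matrix.compRingEquiv n I (MonoidAlgebra ℝ Y) (A.map Θ)
  have hA'e : ∀ i s j r, A' (i, s) (j, r) = Θ (A i j) s r := fun i s j r => rfl
  have hA' : A' * A' = A' := by
    simp only [A']
    rw [← map_mul, ← Matrix.map_mul, hA]
  have htr : ∑ x, (A' x x).coeff 1 = 0 := by
    rw [Fintype.sum_prod_type, Finset.sum_comm]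
    refine Finset.sum_eq_zero fun s _ => ?_
    have h1 : ∀ i, (A' (i, s) (i, s)).coeff 1 = θ (ψ ((A i i).coeff 1)) s s := fun i => by
      rw [hA'e, hΘ]
    simp only [h1]
    have h2 : ∑ i, θ (ψ ((A i i).coeff 1)) s s = (∑ i, θ (ψ ((A i i).coeff 1))) s s := by
      rw [Matrix.sum_apply]
    rw [h2, ← map_sum, ← map_sum, h, map_zero, map_zero]
    rfl
  have h0 := Kap.eq_zero_of_trace_real A' hA' htr
  apply hθ
  refine Matrix.ext fun s r => ?_
  rw [← hΘ, ← hA'e, h0]
  simp

/-- Perfect idempotents over `kY` vanish, for `k` a domain of characteristic zero finitely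
generated as a ring and `Y` in the class `EStar k`. -/
theorem MP_of_EStar (k : Type v) [CommRing k] [IsDomain k] [CharZero k] [Algebra.FiniteType ℤ k]
    (hY : EStar k Y) : MP k Y := by
  intro n _ A hA hK
  classical
  apply kaplansky_domain k A hA
  rw [aug_eq_sum_rkK A]
  · exact Finset.sum_eq_zero fun i _ => hK i i
  intro x hx
  rcases hY x hx with h | ⟨p, hp, hpk, h⟩
  · -- rational characters
    let L := FractionRing k
    have hcz : CharZero L := charZero_of_injective_algebraMap (IsFractionRing.injective k L)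
    let A' := A.map (MonoidAlgebra.mapRingHom Y (algebraMap k L))
    have hA' : A' * A' = A' := by
      simp only [A']
      rw [← Matrix.map_mul, hA]
    have h1 : x ∈ Subgroup.centralizer ({x} : Set Y) :=
      Subgroup.mem_centralizer_singleton_iff.2 rfl
    obtain ⟨f, hf, hfx⟩ := exists_rat (⟨x, h1⟩ : Subgroup.centralizer ({x} : Set Y)) (by
      intro m hm hmem
      apply h m hm
      have h2 := Subgroup.mem_map_of_mem (Subgroup.centralizer ({x} : Set Y)).subtype hmem
      have h3 : (commutator (Subgroup.centralizer ({x} : Set Y))).map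
          (Subgroup.centralizer ({x} : Set Y)).subtype =
          ⁅Subgroup.centralizer {x}, Subgroup.centralizer {x}⁆ := by
        rw [commutator_def, Subgroup.map_commutator]
        simp [← MonoidHom.range_eq_map]
      rw [h3] at h2
      simpa using h2)
    have hC : ∀ a, Commute a x → a ∈ Subgroup.centralizer ({x} : Set Y) := by
      intro a ha
      rw [Subgroup.mem_centralizer_singleton_iff]
      exact ha
    let F : Y → L := fun a =>
      if h : a ∈ Subgroup.centralizer ({x} : Set Y) then ((f ⟨a, h⟩ : ℚ) : L) else 0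
    have hF : ∀ a b, Commute a x → Commute b x → F (a * b) = F a + F b := by
      intro a b ha hb
      have h1 := hC a ha
      have h2 := hC b hb
      have h3 := (Subgroup.centralizer ({x} : Set Y)).mul_mem h1 h2
      simp only [F, dif_pos h1, dif_pos h2, dif_pos h3]
      rw [← Rat.cast_add, ← hf]
      rfl
    have h4 := rkK_mul_eq_zero hA' x F hF
    have h5 : F x = 1 := by
      simp only [F, dif_pos h1]
      rw [hfx, Rat.cast_one]
    rw [h5, one_mul, rkK_map] at h4
    exact (IsFractionRing.injective k L) (by rw [h4, map_zero])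
  · -- powers of a prime
    by_contra hne
    have hN : IsNoetherianRing k := Algebra.FiniteType.isNoetherianRing ℤ k
    have hI : Ideal.span {(p : k)} ≠ ⊤ := by
      rwa [Ne, Ideal.span_singleton_eq_top]
    have h1 := Ideal.iInf_pow_eq_bot_of_isDomain (Ideal.span {(p : k)}) hI
    have h2 : ∃ m : ℕ, ¬ (p : k) ^ (m + 1) ∣ rkK x A := by
      by_contra hcon
      push Not at hcon
      apply hne
      have : rkK x A ∈ (⨅ i : ℕ, Ideal.span {(p : k)} ^ i) := by
        rw [Submodule.mem_iInf]
        intro i
        rw [Ideal.span_singleton_pow, Ideal.mem_span_singleton]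
        exact (pow_dvd_pow _ (Nat.le_succ i)).trans (hcon i)
      rw [h1] at this
      simpa using this
    obtain ⟨m, hm⟩ := h2
    obtain ⟨m', hm', hc⟩ := exists_pow_primeK hA x p hp m hm
    exact h m' hm' hc

end

end Lin

end

end Pool.Agent.H677_Perf
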