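import Pool.Agent.H677_Perf.Linear8

set_option autoImplicit false
set_option linter.unusedSectionVars false

universe u v v' w

namespace Pool.Agent.H677_Perf

noncomputable section

namespace Lin

section inc2

variable {k : Type v} [CommRing k] {Y : Type w} [Group Y] (k₀ : Subalgebra ℤ k) (Y₀ : Subgroup Y)

/-- the inclusion of the group ring of a subgroup over a subring -/
def inc2 : MonoidAlgebra k₀ Y₀ →+* MonoidAlgebra k Y :=
  (MonoidAlgebra.mapDomainRingHom k Y₀.subtype).comp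
    (MonoidAlgebra.mapRingHom Y₀ k₀.val.toRingHom)

lemma inc2_single (y : Y₀) (a : k₀) :
    inc2 k₀ Y₀ (MonoidAlgebra.single y a) = MonoidAlgebra.single (y : Y) (a : k) := by
  unfold inc2
  rw [RingHom.comp_apply]
  have : MonoidAlgebra.mapRingHom Y₀ k₀.val.toRingHom (MonoidAlgebra.single y a) =
      MonoidAlgebra.single y (a : k) := by simp
  rw [this, MonoidAlgebra.mapDomainRingHom_apply, MonoidAlgebra.mapDomain_single]
  rfl

lemma inc2_coeff (x : MonoidAlgebra k₀ Y₀) (y : Y₀) :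
    (inc2 k₀ Y₀ x).coeff (y : Y) = (x.coeff y : k) := by
  classical
  induction x using MonoidAlgebra.induction_linear with
  | zero => simp
  | add x x' hx hx' =>
    rw [map_add, MonoidAlgebra.coeff_add, Finsupp.add_apply, hx, hx', MonoidAlgebra.coeff_add,
      Finsupp.add_apply]
    rfl
  | single z a =>
    rw [inc2_single, MonoidAlgebra.coeff_single, MonoidAlgebra.coeff_single,
      Finsupp.single_apply, Finsupp.single_apply]
    by_cases h : z = y
    · rw [if_pos h, if_pos (congrArg Subtype.val h)]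
    · rw [if_neg h, if_neg fun h' => h (Subtype.ext h')]
      rfl

lemma inc2_injective : Function.Injective (inc2 k₀ Y₀) := by
  intro x y h
  apply MonoidAlgebra.ext
  ext g
  rw [← inc2_coeff, ← inc2_coeff, h]

lemma mem_range_inc2 (x : MonoidAlgebra k Y) (h1 : ∀ g ∈ x.coeff.support, x.coeff g ∈ k₀)
    (h2 : ∀ g ∈ x.coeff.support, g ∈ Y₀) : x ∈ (inc2 k₀ Y₀).range := by
  classical
  have h3 : x = ∑ g ∈ x.coeff.support, MonoidAlgebra.single g (x.coeff g) := by
    conv_lhs => rw [← MonoidAlgebra.sum_coeff_single x]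
    rfl
  rw [h3]
  refine Subring.sum_mem _ fun g hg => ?_
  exact ⟨MonoidAlgebra.single ⟨g, h2 g hg⟩ ⟨x.coeff g, h1 g hg⟩, inc2_single _ _ _ _⟩

end inc2

/-- The core of the theorem on linear groups over group rings. -/
theorem eq_zero_of_linear {G : Type u} [Group G] {n : Type} [Fintype n] [DecidableEq n]
    {A : Matrix n n (MonoidAlgebra ℤ G)} (hA : A * A = A) (hK : Kills (⊤ : Subgroup G) A)
    (S : Finset G) (hS : ∀ i j, (A i j).coeff.support ⊆ S)
    {k : Type v} [CommRing k] [IsDomain k] {Y : Type w} [Group Y] {d : ℕ}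
    (φ : G → (Matrix (Fin d) (Fin d) (MonoidAlgebra k Y))ˣ)
    (hinj : Set.InjOn φ S) (hφ : ∀ a ∈ S, ∀ b ∈ S, φ (a * b) = φ a * φ b)
    (hk : ∀ k₀ : Subalgebra ℤ k, k₀.FG → ∀ Y₀ : Subgroup Y, Y₀.FG → ∀ a : k₀, a ≠ 0 →
      ∃ (F : Type v') (_ : CommRing F) (ψ : k₀ →+* F), ψ a ≠ 0 ∧
        ∀ j : ℕ, MP F (Fin j → Y₀)) : A = 0 := by
  classical
  let M := Matrix (Fin d) (Fin d) (MonoidAlgebra k Y)
  let cs : M → Finset k := fun x => Finset.univ.biUnion fun ij : Fin d × Fin d =>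
    (x ij.1 ij.2).coeff.support.image (x ij.1 ij.2).coeff
  let ss : M → Finset Y := fun x => Finset.univ.biUnion fun ij : Fin d × Fin d =>
    (x ij.1 ij.2).coeff.support
  let X : Finset k := S.biUnion fun s => cs ((φ s : Mˣ) : M) ∪ cs (((φ s)⁻¹ : Mˣ) : M)
  let Z : Finset Y := S.biUnion fun s => ss ((φ s : Mˣ) : M) ∪ ss (((φ s)⁻¹ : Mˣ) : M)
  let k₀ : Subalgebra ℤ k := Algebra.adjoin ℤ (X : Set k)
  let Y₀ : Subgroup Y := Subgroup.closure (Z : Set Y)
  have hk₀ : k₀.FG := ⟨X, rfl⟩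
  have hY₀ : Y₀.FG := ⟨Z, rfl⟩
  have hft : Algebra.FiniteType ℤ k₀ := (Subalgebra.fg_iff_finiteType k₀).1 hk₀
  have hX : ∀ x : M, (cs x : Set k) ⊆ X → (ss x : Set Y) ⊆ Z → ∀ i j,
      x i j ∈ (inc2 k₀ Y₀).range := by
    intro x hx hx' i j
    apply mem_range_inc2
    · intro g hg
      apply Algebra.subset_adjoin
      apply hx
      exact Finset.mem_coe.2 (Finset.mem_biUnion.2 ⟨(i, j), Finset.mem_univ _,
        Finset.mem_image_of_mem _ hg⟩)
    · intro g hg
      apply Subgroup.subset_closure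
      apply hx'
      exact Finset.mem_coe.2 (Finset.mem_biUnion.2 ⟨(i, j), Finset.mem_univ _, hg⟩)
  let ι : (Matrix (Fin d) (Fin d) (MonoidAlgebra k₀ Y₀))ˣ →* Mˣ :=
    Units.map ((inc2 k₀ Y₀).mapMatrix (m := Fin d)).toMonoidHom
  have hun : ∀ s ∈ S, ∃ u₀, ι u₀ = φ s := by
    intro s hs
    apply exists_unit_of_range (inc2 k₀ Y₀) (inc2_injective k₀ Y₀)
    · apply hX
      · intro a ha
        exact Finset.mem_coe.2 (Finset.mem_biUnion.2 ⟨s, hs, Finset.mem_union_left _ ha⟩)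
      · intro a ha
        exact Finset.mem_coe.2 (Finset.mem_biUnion.2 ⟨s, hs, Finset.mem_union_left _ ha⟩)
    · apply hX
      · intro a ha
        exact Finset.mem_coe.2 (Finset.mem_biUnion.2 ⟨s, hs, Finset.mem_union_right _ ha⟩)
      · intro a ha
        exact Finset.mem_coe.2 (Finset.mem_biUnion.2 ⟨s, hs, Finset.mem_union_right _ ha⟩)
  have hι : Function.Injective ι := by
    intro u u' h
    apply Units.ext
    refine Matrix.ext fun i j => ?_
    apply inc2_injective k₀ Y₀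
    have h1 := congrArg Units.val h
    exact congrFun (congrFun h1 i) j
  let back : Mˣ → (Matrix (Fin d) (Fin d) (MonoidAlgebra k₀ Y₀))ˣ := fun u =>
    if h : ∃ u₀, ι u₀ = u then h.choose else 1
  have hback : ∀ u, (∃ u₀, ι u₀ = u) → ι (back u) = u := by
    intro u hu
    simp only [back, dif_pos hu]
    exact hu.choose_spec
  let φ₀ : G → (Matrix (Fin d) (Fin d) (MonoidAlgebra k₀ Y₀))ˣ := fun g => back (φ g)
  have hφ₀ : ∀ s ∈ S, ι (φ₀ s) = φ s := fun s hs => hback _ (hun s hs)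
  have hinj₀ : Set.InjOn φ₀ S := by
    intro a ha b hb hab
    apply hinj ha hb
    rw [← hφ₀ a ha, ← hφ₀ b hb, hab]
  have hmul₀ : ∀ a ∈ S, ∀ b ∈ S, φ₀ (a * b) = φ₀ a * φ₀ b := by
    intro a ha b hb
    apply hι
    have h1 : ι (φ₀ a * φ₀ b) = φ (a * b) := by
      rw [map_mul, hφ₀ a ha, hφ₀ b hb, hφ a ha b hb]
    rw [h1]
    exact hback _ ⟨_, h1⟩
  obtain ⟨A', hA', hK', hsupp, h0⟩ := transfer' A hA hK S hS φ₀ hinj₀ hmul₀
  apply h0
  have hρ : Set.InjOn (Units.coeHom (Matrix (Fin d) (Fin d) (MonoidAlgebra k₀ Y₀)))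
      (φ₀ '' S) := by
    intro a _ b _ hab
    exact Units.ext hab
  exact eq_zero_of_rep.{max v w, v, v', w} (k := k₀) (Y := Y₀) (rf_of_finiteType k₀)
    (hk k₀ hk₀ Y₀ hY₀) hA' hK'
    (Units.coeHom (Matrix (Fin d) (Fin d) (MonoidAlgebra k₀ Y₀))) (φ₀ '' S) hsupp hρ

end Lin

end

end Pool.Agent.H677_Perf
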