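import Pool.Agent.H677_Perf.Steps

set_option autoImplicit false
set_option linter.unusedSectionVars false

universe u

namespace Pool.Agent.H677_Perf

noncomputable section

/-- Core theorem: descent of the killing subgroup. -/
theorem eq_zero_of_kills {G : Type u} [Group G] {n : Type*} [Fintype n] [DecidableEq n]
    (K : Subgroup G) [hKn : K.Normal]
    (hyp : ∀ (N : Subgroup G) (_ : N.Normal), N ≤ K → N ≠ ⊥ →
      (∃ T : Set G, T.Finite ∧ N = Subgroup.normalClosure T) →
      ((∃ (p : ℕ) (_ : p.Prime) (L : Type u) (_ : Group L) (θ : N →* L),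
          LocPInd p L ∧ θ ≠ 1) ∨
        (∃ (M : Subgroup G) (_ : M.Normal), M ≤ N ∧
          Subgroup.closure {y : G ⧸ M | y ∈ N.map (QuotientGroup.mk' M) ∧ Bad y} ≠
            N.map (QuotientGroup.mk' M))))
    (A : Matrix n n (MonoidAlgebra ℤ G)) (hA : A * A = A) (hK : Kills K A) : A = 0 := by
  classical
  obtain ⟨N, hNn, hNK, hN, hfin, hmin⟩ := exists_minimal K hK
  by_cases hbot : N = ⊥
  · rw [hbot] at hN
    exact hN.eq_zero
  exfalso
  rcases hyp N hNn hNK hbot hfin with ⟨p, hp, L, hL, θ, hLoc, hθ⟩ | ⟨M, hMn, hMN, hB⟩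
  · have : Fact p.Prime := ⟨hp⟩
    have h1 := kills_coreKer hLoc N θ A hA hN
    have h2 : coreKer N θ ≤ N := by
      intro x hx
      rw [mem_coreKer] at hx
      exact hx.1
    have h3 := hmin _ (coreKer_normal N θ) h2 h1
    apply hθ
    ext x
    have h4 : (x : G) ∈ coreKer N θ := by rw [h3]; exact x.2
    rw [mem_coreKer] at h4
    obtain ⟨_, h5⟩ := h4
    have h6 := h5 1
    rw [conjHom_apply] at h6
    rw [MonoidHom.one_apply, ← h6]
    congr 1
    apply Subtype.ext
    simp
  · have hLn : (N.map (QuotientGroup.mk' M)).Normal :=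
      Subgroup.Normal.map hNn _ (QuotientGroup.mk'_surjective M)
    obtain ⟨h1, h2⟩ := kills_bad (N.map (QuotientGroup.mk' M)) (im (QuotientGroup.mk' M) A)
      (im_idem _ hA) (kills_im _ N _ (Subgroup.le_comap_map _ _) hN)
    set B := Subgroup.closure {y : G ⧸ M | y ∈ N.map (QuotientGroup.mk' M) ∧ Bad y} with hBdef
    rw [kills_comap_iff] at h1
    have h3 : B ≤ N.map (QuotientGroup.mk' M) := (Subgroup.closure_le _).2 fun y hy => hy.1
    have h4 : B.comap (QuotientGroup.mk' M) ≤ N := by
      intro x hx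
      have h5 := h3 hx
      obtain ⟨y, hy, hyx⟩ := h5
      rw [QuotientGroup.mk'_apply, QuotientGroup.mk'_apply, QuotientGroup.eq] at hyx
      have h6 := N.mul_mem hy (hMN hyx)
      rwa [mul_inv_cancel_left] at h6
    have h5 := hmin _ (h2.comap _) h4 h1
    apply hB
    rw [← h5, Subgroup.map_comap_eq_self_of_surjective (QuotientGroup.mk'_surjective M)]

/-- the augmentation ideal as in the frozen statement -/
def augI (G : Type u) [Group G] : Ideal (MonoidAlgebra ℤ G) :=
  Ideal.span (Set.range (fun g : G =>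
    (MonoidAlgebra.single g (1 : ℤ) - 1 : MonoidAlgebra ℤ G)))

/-- the augmentation as a ring homomorphism to the group ring of the trivial group -/
def epsU (G : Type u) [Group G] : MonoidAlgebra ℤ G →+* MonoidAlgebra ℤ Unit :=
  MonoidAlgebra.mapDomainRingHom ℤ (1 : G →* Unit)

lemma epsU_eq_zero_of_mem {G : Type u} [Group G] {x : MonoidAlgebra ℤ G} (hx : x ∈ augI G) :
    epsU G x = 0 := by
  have h : augI G ≤ RingHom.ker (epsU G) := by
    unfold augI
    rw [Ideal.span_le]
    rintro _ ⟨g, rfl⟩
    rw [SetLike.mem_coe, RingHom.mem_ker]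
    simp only [map_sub, map_one]
    unfold epsU
    rw [MonoidAlgebra.mapDomainRingHom_apply, MonoidAlgebra.mapDomain_single]
    simp [MonoidAlgebra.one_def]
  exact h hx

lemma mem_augI_of_epsU {G : Type u} [Group G] {x : MonoidAlgebra ℤ G} (hx : epsU G x = 0) :
    x ∈ augI G := by
  have h1 : ∀ y : MonoidAlgebra ℤ G,
      y - MonoidAlgebra.single 1 ((epsU G y).coeff ()) ∈ augI G := by
    intro y
    induction y using MonoidAlgebra.induction_linear with
    | zero => simp
    | add y y' hy hy' =>
      have : y + y' - MonoidAlgebra.single 1 ((epsU G (y + y')).coeff ()) =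
          (y - MonoidAlgebra.single 1 ((epsU G y).coeff ())) +
          (y' - MonoidAlgebra.single 1 ((epsU G y').coeff ())) := by
        rw [(epsU G).map_add, MonoidAlgebra.coeff_add, Finsupp.add_apply,
          MonoidAlgebra.single_add]
        abel
      rw [this]
      exact (augI G).add_mem hy hy'
    | single g r =>
      have h2 : (epsU G (MonoidAlgebra.single g r)).coeff () = r := by
        unfold epsU
        rw [MonoidAlgebra.mapDomainRingHom_apply, MonoidAlgebra.mapDomain_single,
          MonoidAlgebra.coeff_single]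
        simp
      rw [h2]
      have h3 : (MonoidAlgebra.single g r - MonoidAlgebra.single 1 r : MonoidAlgebra ℤ G) =
          MonoidAlgebra.single 1 r * (MonoidAlgebra.single g 1 - 1) := by
        rw [mul_sub, MonoidAlgebra.single_mul_single, one_mul, mul_one, mul_one]
      rw [h3]
      exact (augI G).mul_mem_left _ (Ideal.subset_span ⟨g, rfl⟩)
  have h2 := h1 x
  rw [hx] at h2
  simpa using h2

/-- Every finitely generated projective perfect module is zero. -/
def NPP (G : Type u) [Group G] : Prop :=
  ∀ (P : Type u) [AddCommGroup P] [Module (MonoidAlgebra ℤ G) P],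
    Module.Finite (MonoidAlgebra ℤ G) P → Module.Projective (MonoidAlgebra ℤ G) P →
    Submodule.span (MonoidAlgebra ℤ G)
      {x : P | ∃ r : MonoidAlgebra ℤ G, r ∈ augI G ∧ ∃ m : P, x = r • m} = ⊤ →
    Subsingleton P

lemma kills_top_iff {G : Type u} [Group G] {n : Type*} [Fintype n] [DecidableEq n]
    (A : Matrix n n (MonoidAlgebra ℤ G)) :
    Kills (⊤ : Subgroup G) A ↔ ∀ i j, epsU G (A i j) = 0 := by
  have h1 : Kills (⊤ : Subgroup G) A ↔ KillsF (1 : G →* Unit) A := by
    constructor
    · intro h
      exact KillsF.of_fiber h fun _ _ _ _ _ _ _ => rfl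
    · intro h
      refine KillsF.of_fiber h fun _ _ a _ b _ _ => ?_
      rw [QuotientGroup.eq]
      exact Subgroup.mem_top _
  rw [h1]
  constructor
  · intro h i j
    apply MonoidAlgebra.ext
    exact h i j
  · intro h i j
    exact congrArg MonoidAlgebra.coeff (h i j)

/-- from matrices to modules -/
theorem NPP.matrix {G : Type u} [Group G] (hG : NPP G) {n : Type} [Fintype n] [DecidableEq n]
    (A : Matrix n n (MonoidAlgebra ℤ G)) (hA : A * A = A) (hK : Kills (⊤ : Subgroup G) A) :
    A = 0 := by
  rw [kills_top_iff] at hK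
  let e : (n → MonoidAlgebra ℤ G) →ₗ[MonoidAlgebra ℤ G] (n → MonoidAlgebra ℤ G) :=
    Matrix.vecMulLinear A
  have he : ∀ v, e v = Matrix.vecMul v A := fun v => rfl
  have hee : ∀ v, e (e v) = e v := by
    intro v
    rw [he, he, Matrix.vecMul_vecMul, hA]
  let P := LinearMap.range e
  let s : (n → MonoidAlgebra ℤ G) →ₗ[MonoidAlgebra ℤ G] P := e.rangeRestrict
  have hs : s.comp P.subtype = LinearMap.id := by
    ext x : 1
    obtain ⟨_, v, rfl⟩ := x
    apply Subtype.ext
    exact hee v
  have hfin : Module.Finite (MonoidAlgebra ℤ G) P :=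
    Module.Finite.of_surjective s e.surjective_rangeRestrict
  have hproj : Module.Projective (MonoidAlgebra ℤ G) P :=
    Module.Projective.of_split P.subtype s hs
  have hrow : ∀ (w : n → MonoidAlgebra ℤ G), s w = ∑ i, w i • s (Pi.single i 1) := by
    intro w
    conv_lhs => rw [pi_eq_sum_univ' w]
    rw [map_sum]
    refine Finset.sum_congr rfl fun i _ => ?_
    rw [← map_smul]
  have hspan : Submodule.span (MonoidAlgebra ℤ G)
      {x : P | ∃ r : MonoidAlgebra ℤ G, r ∈ augI G ∧ ∃ m : P, x = r • m} = ⊤ := by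
    rw [eq_top_iff]
    rintro ⟨_, v, rfl⟩ -
    have h0 : (⟨e v, ⟨v, rfl⟩⟩ : P) = s v := rfl
    rw [h0, hrow]
    refine Submodule.sum_mem _ fun i _ => Submodule.smul_mem _ _ ?_
    have h1 : s (Pi.single i 1) = s (s (Pi.single i 1) : n → MonoidAlgebra ℤ G) := by
      apply Subtype.ext
      exact (hee _).symm
    rw [h1, hrow]
    refine Submodule.sum_mem _ fun j _ => Submodule.subset_span ⟨_, ?_, _, rfl⟩
    have h2 : (s (Pi.single i 1) : n → MonoidAlgebra ℤ G) j = A i j := by
      change Matrix.vecMul (Pi.single i 1) A j = A i j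
      rw [Matrix.single_one_vecMul]
      rfl
    rw [h2]
    exact mem_augI_of_epsU (hK i j)
  have hsub := hG P hfin hproj hspan
  refine Matrix.ext fun i j => ?_
  have h1 : s (Pi.single i 1) = 0 := Subsingleton.elim _ _
  have h2 : e (Pi.single i 1) = 0 := congrArg Subtype.val h1
  rw [he, Matrix.single_one_vecMul] at h2
  exact congrFun h2 j

/-- from modules to matrices -/
theorem NPP.of_matrix {G : Type u} [Group G]
    (h : ∀ (m : ℕ) (A : Matrix (Fin m) (Fin m) (MonoidAlgebra ℤ G)), A * A = A →
      Kills (⊤ : Subgroup G) A → A = 0) : NPP G := by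
  intro P _ _ hfin hproj hspan
  obtain ⟨m, f, hf⟩ := Module.Finite.exists_fin' (MonoidAlgebra ℤ G) P
  obtain ⟨s, hs⟩ := Module.projective_lifting_property f LinearMap.id hf
  have hs' : ∀ x, f (s x) = x := fun x => LinearMap.congr_fun hs x
  let A : Matrix (Fin m) (Fin m) (MonoidAlgebra ℤ G) := fun i j => s (f (Pi.single i 1)) j
  have hlin : ∀ w : Fin m → MonoidAlgebra ℤ G, s (f w) = ∑ i, w i • s (f (Pi.single i 1)) := by
    intro w
    conv_lhs => rw [pi_eq_sum_univ' w]
    rw [map_sum, map_sum]
    refine Finset.sum_congr rfl fun i _ => ?_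
    rw [← map_smul, ← map_smul]
  have hA : A * A = A := by
    refine Matrix.ext fun i j => ?_
    rw [Matrix.mul_apply]
    have h1 := congrFun (hlin (s (f (Pi.single i 1)))) j
    rw [hs', Finset.sum_apply] at h1
    exact h1.symm
  have hK : Kills (⊤ : Subgroup G) A := by
    rw [kills_top_iff]
    have h1 : ∀ x : P, ∀ j, epsU G (s x j) = 0 := by
      intro x
      have hx : x ∈ Submodule.span (MonoidAlgebra ℤ G)
          {x : P | ∃ r : MonoidAlgebra ℤ G, r ∈ augI G ∧ ∃ m : P, x = r • m} := by
        rw [hspan]; trivial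
      induction hx using Submodule.span_induction with
      | mem x hx =>
        obtain ⟨r, hr, y, rfl⟩ := hx
        intro j
        rw [map_smul, Pi.smul_apply, smul_eq_mul, map_mul, epsU_eq_zero_of_mem hr, zero_mul]
      | zero => intro j; simp
      | add x y _ _ hx hy =>
        intro j
        rw [map_add, Pi.add_apply, map_add, hx, hy, add_zero]
      | smul a x _ hx =>
        intro j
        rw [map_smul, Pi.smul_apply, smul_eq_mul, map_mul, hx, mul_zero]
    intro i j
    exact h1 _ j
  have hA0 := h m A hA hK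
  have hsf : ∀ w, s (f w) = 0 := by
    intro w
    rw [hlin]
    refine Finset.sum_eq_zero fun i _ => ?_
    have : s (f (Pi.single i 1)) = 0 := by
      funext j
      exact congrFun (congrFun hA0 i) j
    rw [this, smul_zero]
  refine ⟨fun x y => ?_⟩
  have hx0 : ∀ x : P, x = 0 := by
    intro x
    obtain ⟨w, rfl⟩ := hf x
    have := hs' (f w)
    rw [hsf, map_zero] at this
    exact this.symm
  rw [hx0 x, hx0 y]

end

end Pool.Agent.H677_Perf
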