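import Mathlib

set_option autoImplicit false
set_option linter.unusedSectionVars false

namespace Pool.Agent.H677_Perf

section

variable {Ω : Type*} [Fintype Ω] [DecidableEq Ω]

/-- Sums of an invariant function over the points moved by a power of a permutation of
prime power order. -/
lemma sum_not_fixed (σ : Equiv.Perm Ω) (F : Ω → ℤ) (hF : ∀ w, F (σ w) = F w)
    (p : ℕ) [hp : Fact p.Prime] (k N : ℕ) (hσ : ∀ w, (σ ^ (p ^ N)) w = w) :
    (p : ℤ) ^ (k + 1) ∣ ∑ w with (σ ^ (p ^ k)) w ≠ w, F w := by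
  classical
  let s := MulAction.orbitRel (Subgroup.zpowers σ) Ω
  have hFz : ∀ (g : Subgroup.zpowers σ) (w : Ω), F (g • w) = F w := by
    rintro ⟨g, hg⟩ w
    obtain ⟨z, rfl⟩ := Subgroup.mem_zpowers_iff.1 hg
    have hz : ∀ n : ℕ, ∀ w, F ((σ ^ n) w) = F w := by
      intro n
      induction n with
      | zero => intro w; simp
      | succ n ih => intro w; rw [pow_succ, Equiv.Perm.mul_apply, ih, hF]
    change F ((σ ^ z) w) = F w
    obtain ⟨n, rfl | rfl⟩ := z.eq_nat_or_neg
    · rw [zpow_natCast]; exact hz n w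
    · rw [zpow_neg, zpow_natCast]
      have := hz n ((σ ^ n)⁻¹ w)
      rw [show (σ ^ n) ((σ ^ n)⁻¹ w) = w from (σ ^ n).apply_symm_apply w] at this
      exact this.symm
  have hper : ∀ w, (σ ^ (p ^ k)) w ≠ w → p ^ (k + 1) ∣ Function.minimalPeriod σ w := by
    intro w hw
    have h1 : Function.minimalPeriod σ w ∣ p ^ N := by
      apply Function.IsPeriodicPt.minimalPeriod_dvd
      change (σ^[p ^ N]) w = w
      rw [Equiv.Perm.iterate_eq_pow]
      exact hσ w
    obtain ⟨j, hj, hj'⟩ := (Nat.dvd_prime_pow hp.out).1 h1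
    rw [hj']
    apply pow_dvd_pow
    by_contra hlt
    apply hw
    have h2 : Function.minimalPeriod σ w ∣ p ^ k := by
      rw [hj']; exact pow_dvd_pow _ (by omega)
    have h3 : Function.IsPeriodicPt σ (p ^ k) w :=
      Function.isPeriodicPt_iff_minimalPeriod_dvd.2 h2
    have h4 : (σ^[p ^ k]) w = w := h3
    rwa [Equiv.Perm.iterate_eq_pow] at h4
  rw [← Finset.sum_fiberwise (s := Finset.univ.filter fun w => (σ ^ (p ^ k)) w ≠ w)
    (g := fun w => (Quotient.mk s w))]
  apply Finset.dvd_sum
  rintro c -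
  by_cases hc : ∃ w, Quotient.mk s w = c ∧ (σ ^ (p ^ k)) w ≠ w
  · obtain ⟨w, rfl, hw⟩ := hc
    have hset : (Finset.univ.filter fun w' => (σ ^ (p ^ k)) w' ≠ w').filter
        (fun w' => Quotient.mk s w' = Quotient.mk s w) =
        (MulAction.orbit (Subgroup.zpowers σ) w).toFinset := by
      ext w'
      simp only [Finset.mem_filter, Finset.mem_univ, true_and, Set.mem_toFinset]
      rw [Quotient.eq]
      change _ ∧ w' ∈ MulAction.orbit (Subgroup.zpowers σ) w ↔ _
      constructor
      · exact fun h => h.2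
      · intro h
        refine ⟨?_, h⟩
        obtain ⟨⟨g, hg⟩, rfl⟩ := h
        obtain ⟨z, rfl⟩ := Subgroup.mem_zpowers_iff.1 hg
        intro h
        apply hw
        change (σ ^ (p ^ k)) ((σ ^ z) w) = (σ ^ z) w at h
        have h' : (σ ^ z) ((σ ^ (p ^ k)) w) = (σ ^ z) w := by
          rw [← h, ← Equiv.Perm.mul_apply, ← Equiv.Perm.mul_apply]
          congr 1
          rw [← zpow_natCast, ← zpow_add, ← zpow_add, add_comm]
        exact (σ ^ z).injective h'
    rw [hset]
    have hconst : ∀ w' ∈ (MulAction.orbit (Subgroup.zpowers σ) w).toFinset, F w' = F w := by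
      intro w' hw'
      rw [Set.mem_toFinset] at hw'
      obtain ⟨g, rfl⟩ := hw'
      exact hFz g w
    rw [Finset.sum_congr rfl hconst, Finset.sum_const, nsmul_eq_mul]
    apply Dvd.dvd.mul_right
    have hcard : (MulAction.orbit (Subgroup.zpowers σ) w).toFinset.card =
        Function.minimalPeriod σ w := by
      rw [Set.toFinset_card]
      exact (MulAction.minimalPeriod_eq_card (a := σ) (b := w)).symm
    rw [hcard]
    exact_mod_cast hper w hw
  · rw [Finset.sum_eq_zero]
    · exact dvd_zero _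
    · intro w hw
      exfalso
      apply hc
      simp only [Finset.mem_filter, Finset.mem_univ, true_and] at hw
      exact ⟨w, hw.2, hw.1⟩

end

section

variable {R ι : Type*} [Ring R] [Fintype ι]

lemma sum_pow_words (X : ι → R) (q : ℕ) :
    (∑ i, X i) ^ q = ∑ w : Fin q → ι, (List.ofFn fun j => X (w j)).prod := by
  induction q with
  | zero => simp
  | succ q ih =>
    rw [pow_succ', ih, ← (Fin.consEquiv (fun _ : Fin (q + 1) => ι)).sum_comp,
      Fintype.sum_prod_type, Finset.sum_mul_sum]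
    refine Finset.sum_congr rfl fun i _ => Finset.sum_congr rfl fun w _ => ?_
    simp [List.ofFn_succ, Fin.consEquiv]

/-- rotation of words -/
def rot (ι : Type*) (q : ℕ) [NeZero q] : Equiv.Perm (Fin q → ι) :=
  Equiv.arrowCongr (Equiv.addRight (1 : Fin q)).symm (Equiv.refl ι)

lemma rot_apply (q : ℕ) [NeZero q] (w : Fin q → ι) (i : Fin q) :
    rot ι q w i = w (i + 1) := rfl

lemma rot_pow_apply (q : ℕ) [NeZero q] (k : ℕ) (w : Fin q → ι) (i : Fin q) :
    (rot ι q ^ k) w i = w (Fin.ofNat q (i.val + k)) := by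
  induction k generalizing i with
  | zero =>
    rw [pow_zero, Equiv.Perm.one_apply]
    congr 1
    apply Fin.ext
    rw [Fin.val_ofNat, add_zero, Nat.mod_eq_of_lt i.2]
  | succ k ih =>
    rw [pow_succ', Equiv.Perm.mul_apply, rot_apply, ih]
    congr 1
    apply Fin.ext
    rw [Fin.val_ofNat, Fin.val_ofNat, Fin.val_add, Fin.val_one']
    simp [add_assoc, add_comm 1 k]

lemma rot_pow_self (q : ℕ) [NeZero q] (w : Fin q → ι) : (rot ι q ^ q) w = w := by
  funext i
  rw [rot_pow_apply]
  congr 1
  apply Fin.ext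
  rw [Fin.val_ofNat, Nat.add_mod_right, Nat.mod_eq_of_lt i.2]

lemma trace_rot (T : R →+ ℤ) (hT : ∀ x y, T (x * y) = T (y * x)) (X : ι → R)
    (q : ℕ) [NeZero q] (w : Fin q → ι) :
    T (List.ofFn fun j => X (rot ι q w j)).prod = T (List.ofFn fun j => X (w j)).prod := by
  obtain ⟨m, rfl⟩ : ∃ m, q = m + 1 := ⟨q - 1, by have := NeZero.ne q; omega⟩
  have h1 : (List.ofFn fun j => X (w j)).prod =
      X (w 0) * (List.ofFn fun j : Fin m => X (w j.succ)).prod := by
    rw [List.ofFn_succ, List.prod_cons]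
  have h2 : (List.ofFn fun j => X (rot ι (m + 1) w j)).prod =
      (List.ofFn fun j : Fin m => X (w j.succ)).prod * X (w 0) := by
    rw [List.ofFn_succ', List.concat_eq_append, List.prod_append, List.prod_singleton]
    congr 3
    · funext j
      rw [rot_apply, Fin.coeSucc_eq_succ]
    · rw [rot_apply, Fin.last_add_one]
  rw [h1, h2, hT]

lemma prod_periodic (X : ι → R) (q a d : ℕ) (hq : q = a * d) [NeZero q] (w : Fin q → ι)
    (hw : (rot ι q ^ d) w = w) :
    ∃ u : Fin d → ι, (List.ofFn fun j => X (w j)).prod =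
      (List.ofFn fun j => X (u j)).prod ^ a := by
  subst hq
  have hper : ∀ (c : ℕ) (j : Fin (a * d)), w (Fin.ofNat (a * d) (j.val + c * d)) = w j := by
    intro c
    induction c with
    | zero =>
      intro j
      congr 1
      apply Fin.ext
      rw [Fin.val_ofNat, zero_mul, add_zero, Nat.mod_eq_of_lt j.2]
    | succ c ih =>
      intro j
      have := congrFun hw (Fin.ofNat (a * d) (j.val + c * d))
      rw [rot_pow_apply, ih] at this
      rw [← this]
      congr 1
      apply Fin.ext
      rw [Fin.val_ofNat, Fin.val_ofNat, Fin.val_ofNat, Nat.mod_add_mod]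
      congr 1
      ring
  refine ⟨fun j => w (Fin.ofNat (a * d) j.val), ?_⟩
  rw [List.ofFn_mul]
  rw [List.prod_flatten, List.map_ofFn]
  have : ∀ i : Fin a, (List.prod ∘ fun i : Fin a => List.ofFn fun j : Fin d =>
      X (w ⟨i.val * d + j.val, by
        calc i.val * d + j.val < i.val * d + d := Nat.add_lt_add_left j.2 _
          _ = (i.val + 1) * d := by ring
          _ ≤ a * d := Nat.mul_le_mul_right _ i.2⟩)) i =
      (List.ofFn fun j : Fin d => X (w (Fin.ofNat (a * d) j.val))).prod := by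
    intro i
    simp only [Function.comp]
    congr 2
    funext j
    congr 1
    have h1 := hper i.val (Fin.ofNat (a * d) j.val)
    rw [← h1]
    congr 1
    apply Fin.ext
    have hlt : j.val < a * d := lt_of_lt_of_le j.2 (Nat.le_mul_of_pos_left _ (by
      have := i.2; omega))
    have hlt2 : i.val * d + j.val < a * d := by
      calc i.val * d + j.val < i.val * d + d := Nat.add_lt_add_left j.2 _
        _ = (i.val + 1) * d := by ring
        _ ≤ a * d := Nat.mul_le_mul_right _ i.2
    rw [Fin.val_ofNat, Fin.val_ofNat, Nat.mod_eq_of_lt hlt, add_comm j.val,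
      Nat.mod_eq_of_lt hlt2]
  rw [show (List.ofFn (List.prod ∘ fun i : Fin a => List.ofFn fun j : Fin d =>
      X (w ⟨i.val * d + j.val, _⟩))) = List.replicate a
      (List.ofFn fun j : Fin d => X (w (Fin.ofNat (a * d) j.val))).prod from ?_]
  · rw [List.prod_replicate]
  · rw [← List.ofFn_const]
    congr 1
    funext i
    exact this i

/-- Necklace congruence. -/
theorem necklace (T : R →+ ℤ) (hT : ∀ x y, T (x * y) = T (y * x)) (X : ι → R)
    (p : ℕ) [hp : Fact p.Prime] (k N : ℕ) (hk : k ≤ N)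
    (h : ¬ (p : ℤ) ^ (k + 1) ∣ T ((∑ i, X i) ^ (p ^ N))) :
    ∃ u : Fin (p ^ k) → ι, T ((List.ofFn fun j => X (u j)).prod ^ (p ^ (N - k))) ≠ 0 := by
  classical
  by_contra hcon
  push Not at hcon
  apply h
  have hpp := hp.out.pos
  have : NeZero (p ^ N) := ⟨(pow_pos hpp N).ne'⟩
  rw [sum_pow_words, map_sum]
  rw [← Finset.sum_filter_add_sum_filter_not Finset.univ
    (fun w => (rot ι (p ^ N) ^ (p ^ k)) w ≠ w)]
  refine dvd_add ?_ ?_
  · exact sum_not_fixed (rot ι (p ^ N)) (fun w => T (List.ofFn fun j => X (w j)).prod)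
      (fun w => trace_rot T hT X (p ^ N) w) p k N (fun w => rot_pow_self _ w)
  · rw [Finset.sum_eq_zero]
    · exact dvd_zero _
    · intro w hw
      simp only [Finset.mem_filter, Finset.mem_univ, true_and, not_not] at hw
      have hq : p ^ N = p ^ (N - k) * p ^ k := by rw [← pow_add]; congr 1; omega
      obtain ⟨u, hu⟩ := prod_periodic X (p ^ N) (p ^ (N - k)) (p ^ k) hq w hw
      rw [hu]
      exact hcon u

end

end Pool.Agent.H677_Perf
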