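import Pool.Agent.H677_Perf.Trace
import Pool.Agent.H677_Perf.Necklace

set_option autoImplicit false
set_option linter.unusedSectionVars false

namespace Pool.Agent.H677_Perf

noncomputable section

variable {G : Type*} [Group G] {n : Type*} [Fintype n] [DecidableEq n]

lemma mono_list_prod {ι : Type*} (M : ι → Matrix n n ℤ) (g : ι → G) (l : List ι) :
    ∃ M' : Matrix n n ℤ, (l.map fun i => mono (M i) (g i)).prod = mono M' (l.map g).prod := by
  induction l with
  | nil => exact ⟨1, by simp [mono_one]⟩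
  | cons a l ih =>
    obtain ⟨M', hM'⟩ := ih
    refine ⟨M a * M', ?_⟩
    rw [List.map_cons, List.prod_cons, hM', mono_mul, List.map_cons, List.prod_cons]

lemma isConj_pow {x y : G} (h : IsConj x y) (k : ℕ) : IsConj (x ^ k) (y ^ k) := by
  obtain ⟨c, rfl⟩ := isConj_iff.1 h
  refine isConj_iff.2 ⟨c, ?_⟩
  rw [conj_pow]

lemma pow_idem {A : Matrix n n (MonoidAlgebra ℤ G)} (hA : A * A = A) (k : ℕ) (hk : 1 ≤ k) :
    A ^ k = A := by
  induction k, hk using Nat.le_induction with
  | base => exact pow_one A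
  | succ k _ ih => rw [pow_succ, ih, hA]

/-- The word statement: for every large `N` some word of length `p ^ k` in the support has its
`p ^ (N - k)`-th power conjugate to `x`. -/
lemma exists_word [DecidableEq G] {A : Matrix n n (MonoidAlgebra ℤ G)} (hA : A * A = A) (x : G)
    (p : ℕ) [hp : Fact p.Prime] (k N : ℕ) (hk : k ≤ N) (hr : ¬ (p : ℤ) ^ (k + 1) ∣ rkAt x A) :
    ∃ u : Fin (p ^ k) → msupp A,
      IsConj ((List.ofFn fun j => ((u j : msupp A) : G)).prod ^ (p ^ (N - k))) x := by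
  have h1 : (∑ g : msupp A, mono (cf A g) (g : G)) ^ (p ^ N) = A := by
    rw [← eq_sum_mono A]
    exact pow_idem hA _ (Nat.one_le_iff_ne_zero.2 (pow_ne_zero _ hp.out.ne_zero))
  obtain ⟨u, hu⟩ := necklace (rkAt x) (rkAt_mul_comm x)
    (fun g : msupp A => mono (cf A g) (g : G)) p k N hk (by rw [h1]; exact hr)
  refine ⟨u, ?_⟩
  obtain ⟨M', hM'⟩ := mono_list_prod (fun g : msupp A => cf A g) (fun g : msupp A => (g : G))
    (List.ofFn u)
  have h2 : (List.ofFn fun j => mono (cf A (u j : msupp A)) ((u j : msupp A) : G)).prod =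
      mono M' (List.ofFn fun j => ((u j : msupp A) : G)).prod := by
    rw [List.map_ofFn, List.map_ofFn] at hM'
    exact hM'
  rw [h2, mono_pow] at hu
  exact rkAt_mono_ne_zero hu

lemma isConj_pow_of_word {x g : G} {p k N₁ N₂ : ℕ} (h : N₁ < N₂) (hk : k ≤ N₁)
    (h1 : IsConj (g ^ (p ^ (N₁ - k))) x) (h2 : IsConj (g ^ (p ^ (N₂ - k))) x) :
    IsConj x (x ^ (p ^ (N₂ - N₁))) := by
  have h3 : g ^ (p ^ (N₂ - k)) = (g ^ (p ^ (N₁ - k))) ^ (p ^ (N₂ - N₁)) := by
    rw [← pow_mul, ← pow_add]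
    congr 2
    omega
  rw [h3] at h2
  exact h2.symm.trans (isConj_pow h1 _)

/-- If the rank at `x` is non-zero then `x` is conjugate to `x ^ (p ^ n)` for some `n ≥ 1`. -/
theorem exists_pow_prime {A : Matrix n n (MonoidAlgebra ℤ G)} (hA : A * A = A) (x : G)
    (hr : rkAt x A ≠ 0) (p : ℕ) (hp : p.Prime) : ∃ k, 1 ≤ k ∧ IsConj x (x ^ (p ^ k)) := by
  classical
  have : Fact p.Prime := ⟨hp⟩
  obtain ⟨k, hk⟩ : ∃ k, ¬ (p : ℤ) ^ (k + 1) ∣ rkAt x A := by
    refine ⟨(rkAt x A).natAbs, fun hdvd => ?_⟩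
    have h1 : p ^ ((rkAt x A).natAbs + 1) ∣ (rkAt x A).natAbs := by
      rw [← Int.natCast_dvd]
      exact_mod_cast hdvd
    have h2 := Nat.le_of_dvd (Int.natAbs_pos.2 hr) h1
    have h3 : (rkAt x A).natAbs + 1 < p ^ ((rkAt x A).natAbs + 1) :=
      Nat.lt_pow_self hp.one_lt
    omega
  choose u hu using fun N : ℕ => exists_word hA x p k (k + N) (Nat.le_add_right k N) hk
  obtain ⟨N₁, N₂, hne, heq⟩ := Finite.exists_ne_map_eq_of_infinite u
  wlog hlt : N₁ < N₂ generalizing N₁ N₂
  · exact this N₂ N₁ hne.symm heq.symm (by omega)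
  refine ⟨(k + N₂) - (k + N₁), by omega, ?_⟩
  refine isConj_pow_of_word (k := k) (g := (List.ofFn fun j => ((u N₁ j : msupp A) : G)).prod)
    (by omega) (by omega) (hu N₁) ?_
  rw [heq]
  exact hu N₂

/-- If `p` does not divide the rank at `x`, the exponent is bounded by the size of the support. -/
theorem exists_pow_prime_le [DecidableEq G] {A : Matrix n n (MonoidAlgebra ℤ G)} (hA : A * A = A)
    (x : G) (p : ℕ) (hp : p.Prime) (hr : ¬ (p : ℤ) ∣ rkAt x A) :
    ∃ k, 1 ≤ k ∧ k ≤ (msupp A).card ∧ IsConj x (x ^ (p ^ k)) := by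
  have : Fact p.Prime := ⟨hp⟩
  have hr' : ¬ (p : ℤ) ^ (0 + 1) ∣ rkAt x A := by simpa using hr
  choose u hu using fun N : Fin ((msupp A).card + 1) =>
    exists_word hA x p 0 N.val (Nat.zero_le _) hr'
  have hcard : Fintype.card (msupp A) < Fintype.card (Fin ((msupp A).card + 1)) := by
    rw [Fintype.card_coe, Fintype.card_fin]
    exact Nat.lt_succ_self _
  obtain ⟨N₁, N₂, hne, heq⟩ :=
    Fintype.exists_ne_map_eq_of_card_lt (fun N => u N ⟨0, by simp⟩) hcard
  wlog hlt : N₁.val < N₂.val generalizing N₁ N₂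
  · exact this N₂ N₁ hne.symm heq.symm (by
      have := Fin.val_ne_of_ne hne
      omega)
  refine ⟨N₂.val - N₁.val, by omega, by omega, ?_⟩
  refine isConj_pow_of_word (k := 0) (g := (List.ofFn fun j => ((u N₁ j : msupp A) : G)).prod)
    hlt (Nat.zero_le _) (hu N₁) ?_
  have : u N₁ = u N₂ := by
    funext j
    have hj : j = ⟨0, by simp⟩ := by
      apply Fin.ext
      have := j.2
      simp only [pow_zero] at this
      simp only
      omega
    rw [hj]
    exact heq
  rw [this]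
  exact hu N₂

lemma isConj_pow_mul {x : G} {a b : ℕ} (ha : IsConj x (x ^ a)) (hb : IsConj x (x ^ b)) :
    IsConj x (x ^ (a * b)) := by
  rw [pow_mul]
  exact hb.trans (isConj_pow ha b)

lemma isConj_pow_pow {x : G} {a : ℕ} (ha : IsConj x (x ^ a)) (k : ℕ) :
    IsConj x (x ^ (a ^ k)) := by
  induction k with
  | zero => rw [pow_zero, pow_one]
  | succ k ih => rw [pow_succ]; exact isConj_pow_mul ih ha

/-- If the rank at `x` is non-zero, then for some `k ≥ 1` and all `m ≥ 1` the element `x` is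
conjugate to `x ^ (m ^ k)`. -/
theorem exists_uniform {A : Matrix n n (MonoidAlgebra ℤ G)} (hA : A * A = A) (x : G)
    (hr : rkAt x A ≠ 0) : ∃ k, 1 ≤ k ∧ ∀ m, 1 ≤ m → IsConj x (x ^ (m ^ k)) := by
  classical
  have h1 : ∀ p : ℕ, p.Prime → ∃ k, 1 ≤ k ∧ IsConj x (x ^ (p ^ k)) :=
    fun p hp => exists_pow_prime hA x hr p hp
  choose! f hf1 hf2 using h1
  let P := (rkAt x A).natAbs.primeFactors
  refine ⟨(msupp A).card.factorial * ∏ p ∈ P, f p, ?_, ?_⟩
  · refine Nat.mul_pos (Nat.factorial_pos _) (Finset.prod_pos fun p hp => ?_)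
    exact hf1 p (Nat.prime_of_mem_primeFactors hp)
  · have hprime : ∀ p : ℕ, p.Prime →
        IsConj x (x ^ (p ^ ((msupp A).card.factorial * ∏ p ∈ P, f p))) := by
      intro p hp
      by_cases hdvd : (p : ℤ) ∣ rkAt x A
      · have hmem : p ∈ P := by
          rw [Nat.mem_primeFactors]
          exact ⟨hp, Int.natCast_dvd.1 hdvd, (Int.natAbs_pos.2 hr).ne'⟩
        obtain ⟨c, hc⟩ := Finset.dvd_prod_of_mem f hmem
        rw [hc, show (msupp A).card.factorial * (f p * c) =
          f p * ((msupp A).card.factorial * c) by ring, pow_mul]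
        exact isConj_pow_pow (hf2 p hp) _
      · obtain ⟨k, hk1, hk2, hk3⟩ := exists_pow_prime_le hA x p hp hdvd
        obtain ⟨c, hc⟩ := Nat.dvd_factorial hk1 hk2
        rw [hc, mul_assoc, pow_mul]
        exact isConj_pow_pow hk3 _
    intro m
    induction m using Nat.recOnMul with
    | zero => intro h; omega
    | one => intro _; rw [one_pow, pow_one]
    | prime p hp => intro _; exact hprime p hp
    | mul a b ha hb =>
      intro h
      have ha' : 1 ≤ a := Nat.one_le_iff_ne_zero.2 (by rintro rfl; simp at h)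
      have hb' : 1 ≤ b := Nat.one_le_iff_ne_zero.2 (by rintro rfl; simp at h)
      rw [mul_pow]
      exact isConj_pow_mul (ha ha') (hb hb')

end

end Pool.Agent.H677_Perf
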