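import Pool.Agent.H677_Perf.Linear10

set_option autoImplicit false
set_option linter.unusedSectionVars false

universe u v v' w w'

namespace Pool.Agent.H677_Perf

noncomputable section

namespace Lin

/-- Every finitely generated perfect projective `RG`-module is zero (`R` any ring). -/
def NPPr (R : Type v) [Ring R] (G : Type u) [Group G] : Prop :=
  ∀ (P : Type (max u v)) [AddCommGroup P] [Module (MonoidAlgebra R G) P],
    Module.Finite (MonoidAlgebra R G) P → Module.Projective (MonoidAlgebra R G) P →
    Submodule.span (MonoidAlgebra R G)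
      {x : P | ∃ r : MonoidAlgebra R G,
        r ∈ (Ideal.span (Set.range (fun g : G =>
              (MonoidAlgebra.single g (1 : R) - 1 : MonoidAlgebra R G))) :
              Ideal (MonoidAlgebra R G)) ∧
        ∃ m : P, x = r • m} = ⊤ →
    Subsingleton P

/-- the sum of the coefficients -/
def sumC (R : Type v) [Ring R] (Y : Type w) [Group Y] : MonoidAlgebra R Y →+ R where
  toFun x := x.coeff.sum fun _ a => a
  map_zero' := by simp
  map_add' x y := by
    rw [MonoidAlgebra.coeff_add, Finsupp.sum_add_index'] <;> simp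

lemma sumC_single {R : Type v} [Ring R] {Y : Type w} [Group Y] (g : Y) (a : R) :
    sumC R Y (MonoidAlgebra.single g a) = a := by
  change (MonoidAlgebra.single g a).coeff.sum (fun _ a => a) = a
  rw [MonoidAlgebra.coeff_single, Finsupp.sum_single_index rfl]

lemma mem_augI_of_sumC {R : Type v} [Ring R] {Y : Type w} [Group Y] {x : MonoidAlgebra R Y}
    (hx : sumC R Y x = 0) :
    x ∈ (Ideal.span (Set.range (fun g : Y =>
              (MonoidAlgebra.single g (1 : R) - 1 : MonoidAlgebra R Y))) :
              Ideal (MonoidAlgebra R Y)) := by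
  have h1 : ∀ y : MonoidAlgebra R Y, y - MonoidAlgebra.single 1 (sumC R Y y) ∈
      (Ideal.span (Set.range (fun g : Y =>
              (MonoidAlgebra.single g (1 : R) - 1 : MonoidAlgebra R Y))) :
              Ideal (MonoidAlgebra R Y)) := by
    intro y
    induction y using MonoidAlgebra.induction_linear with
    | zero => simp
    | add y y' hy hy' =>
      have : y + y' - MonoidAlgebra.single 1 (sumC R Y (y + y')) =
          (y - MonoidAlgebra.single 1 (sumC R Y y)) +
            (y' - MonoidAlgebra.single 1 (sumC R Y y')) := by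
        rw [map_add, MonoidAlgebra.single_add]
        abel
      rw [this]
      exact Ideal.add_mem _ hy hy'
    | single g r =>
      rw [sumC_single]
      have h3 : (MonoidAlgebra.single g r - MonoidAlgebra.single 1 r : MonoidAlgebra R Y) =
          MonoidAlgebra.single 1 r * (MonoidAlgebra.single g 1 - 1) := by
        rw [mul_sub, MonoidAlgebra.single_mul_single, one_mul, mul_one, mul_one]
      rw [h3]
      exact Ideal.mul_mem_left _ _ (Ideal.subset_span ⟨g, rfl⟩)
  have h2 := h1 x
  rw [hx] at h2
  simpa using h2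

/-- the matrix form: idempotent matrices with augmentation zero vanish -/
def MPr (R : Type v) [Ring R] (Y : Type w) [Group Y] : Prop :=
  ∀ (n : Type) [Fintype n] (A : Matrix n n (MonoidAlgebra R Y)),
    A * A = A → (∀ i j, sumC R Y (A i j) = 0) → A = 0

/-- from matrices to modules -/
theorem NPPr.mp {R : Type v} [Ring R] {Y : Type w} [Group Y] (hY : NPPr R Y) : MPr R Y := by
  intro n _ A hA hK
  classical
  let e : (n → MonoidAlgebra R Y) →ₗ[MonoidAlgebra R Y] (n → MonoidAlgebra R Y) :=
    Matrix.vecMulLinear A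
  have he : ∀ v, e v = Matrix.vecMul v A := fun v => rfl
  have hee : ∀ v, e (e v) = e v := by
    intro v
    rw [he, he, Matrix.vecMul_vecMul, hA]
  let P := LinearMap.range e
  let s : (n → MonoidAlgebra R Y) →ₗ[MonoidAlgebra R Y] P := e.rangeRestrict
  have hs : s.comp P.subtype = LinearMap.id := by
    ext x : 1
    obtain ⟨_, v, rfl⟩ := x
    apply Subtype.ext
    exact hee v
  have hfin : Module.Finite (MonoidAlgebra R Y) P :=
    Module.Finite.of_surjective s e.surjective_rangeRestrict
  have hproj : Module.Projective (MonoidAlgebra R Y) P :=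
    Module.Projective.of_split P.subtype s hs
  have hrow : ∀ (w : n → MonoidAlgebra R Y), s w = ∑ i, w i • s (Pi.single i 1) := by
    intro w
    conv_lhs => rw [pi_eq_sum w]
    rw [map_sum]
    refine Finset.sum_congr rfl fun i _ => ?_
    rw [← map_smul]
  have hspan : Submodule.span (MonoidAlgebra R Y)
      {x : P | ∃ r : MonoidAlgebra R Y, r ∈ (Ideal.span (Set.range (fun g : Y =>
              (MonoidAlgebra.single g (1 : R) - 1 : MonoidAlgebra R Y))) :
              Ideal (MonoidAlgebra R Y)) ∧ ∃ m : P, x = r • m} = ⊤ := by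
    rw [eq_top_iff]
    rintro ⟨_, v, rfl⟩ -
    have h0 : (⟨e v, ⟨v, rfl⟩⟩ : P) = s v := rfl
    rw [h0, hrow]
    refine Submodule.sum_mem _ fun i _ => Submodule.smul_mem _ _ ?_
    have h1 : s (Pi.single i 1) = s (s (Pi.single i 1) : n → MonoidAlgebra R Y) := by
      apply Subtype.ext
      exact (hee _).symm
    rw [h1, hrow]
    refine Submodule.sum_mem _ fun j _ => Submodule.subset_span ⟨_, ?_, _, rfl⟩
    have h2 : (s (Pi.single i 1) : n → MonoidAlgebra R Y) j = A i j := by
      change Matrix.vecMul (Pi.single i 1) A j = A i j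
      rw [Matrix.single_one_vecMul]
      rfl
    rw [h2]
    exact mem_augI_of_sumC (hK i j)
  have hsub := hY P hfin hproj hspan
  refine Matrix.ext fun i j => ?_
  have h1 : s (Pi.single i 1) = 0 := Subsingleton.elim _ _
  have h2 : e (Pi.single i 1) = 0 := congrArg Subtype.val h1
  rw [he, Matrix.single_one_vecMul] at h2
  exact congrFun h2 j

section

variable {Y : Type w} [Group Y] {n : Type} [Fintype n] [DecidableEq n]

/-- Idempotents over `kY` whose image over `kH'` is zero vanish, if the kernel of `Y → H'`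
consists of non-exceptional elements or is locally `p`-indicable. -/
theorem eq_zero_of_ker (k : Type v) [CommRing k] [IsDomain k] [Algebra.FiniteType ℤ k]
    {H' : Type w'} [Group H'] (π : Y →* H')
    (hN : (CharZero k ∧ ∀ z ∈ π.ker, z ≠ 1 → NonExc k z) ∨
      ∃ p : ℕ, p.Prime ∧ ¬ IsUnit (p : k) ∧ LocPInd p π.ker)
    {A : Matrix n n (MonoidAlgebra k Y)} (hA : A * A = A)
    (hB0 : ∀ i j, (A i j).coeff.mapDomain π = 0) : A = 0 := by
  rcases hN with ⟨hz, h⟩ | ⟨p, hp, hpk, h⟩
  · apply kaplansky_domain k A hA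
    rw [evlL_ker_eq π A fun x hx hx1 => rkK_eq_zero_of_nonExc k hA x (h x hx hx1)]
    refine Finset.sum_eq_zero fun i _ => ?_
    change ((A i i).coeff.mapDomain π) 1 = 0
    rw [hB0]
    simp
  · apply eq_zero_of_locPInd k hp hpk π.ker h hA
    intro i j
    refine mapDomain_eq_zero_of_fiber π _ _ ?_ (hB0 i j)
    intro a _ b _ hab
    rw [QuotientGroup.eq, MonoidHom.mem_ker, map_mul, map_inv, hab, inv_mul_cancel]

/-- elements of finite order are non-exceptional over the integers -/
lemma nonExc_of_pow {y : Y} {m : ℕ} (hm : 1 ≤ m) (hy : y ^ m = 1) (hy1 : y ≠ 1) :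
    NonExc ℤ y := by
  right
  have ho : orderOf y ≠ 1 := by rwa [Ne, orderOf_eq_one_iff]
  have hfin : 0 < orderOf y := orderOf_pos_iff.2 (isOfFinOrder_iff_pow_eq_one.2 ⟨m, hm, hy⟩)
  obtain ⟨p, hp, hpo⟩ := Nat.exists_prime_and_dvd ho
  refine ⟨p, hp, ?_, ?_⟩
  · rw [Int.isUnit_iff]
    have := hp.two_le
    omega
  · intro n hn hc
    have h1 : orderOf y = orderOf (y ^ (p ^ n)) := by
      obtain ⟨c, hc⟩ := isConj_iff.1 hc
      refine SemiconjBy.orderOf_eq c ?_
      change c * y = y ^ (p ^ n) * c
      rw [← hc]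
      group
    have h2 : orderOf (y ^ (p ^ n)) * p ∣ orderOf y := by
      obtain ⟨q, hq⟩ := hpo
      have h3 : orderOf (y ^ (p ^ n)) ∣ q := by
        rw [orderOf_dvd_iff_pow_eq_one, ← pow_mul]
        have : p ^ n * q = orderOf y * p ^ (n - 1) := by
          rw [hq]
          obtain ⟨n', rfl⟩ : ∃ n', n = n' + 1 := ⟨n - 1, by omega⟩
          rw [Nat.add_sub_cancel, pow_succ]
          ring
        rw [this, pow_mul, pow_orderOf_eq_one, one_pow]
      rw [hq, mul_comm p q]
      exact Nat.mul_dvd_mul_right h3 p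
    rw [← h1] at h2
    have h3 := Nat.le_of_dvd hfin h2
    have := hp.two_le
    nlinarith

end

section relative

variable {Q : Type u} [Group Q] {n : Type} [Fintype n] [DecidableEq n]
  {A : Matrix n n (MonoidAlgebra ℤ Q)}

/-- A normal subgroup which kills an idempotent can be intersected with a subgroup of finite
index. -/
lemma kills_inf_of_finiteIndex (hA : A * A = A) (M R : Subgroup Q) [hM : M.Normal]
    [hR : R.Normal] [R.FiniteIndex] (hK : Kills M A) : Kills (R ⊓ M) A := by
  rw [kills_iff_im_eq_zero]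
  have hle : (R ⊓ M) ≤ M := inf_le_right
  let π : Q ⧸ (R ⊓ M) →* Q ⧸ M := QuotientGroup.map (R ⊓ M) M (MonoidHom.id Q) hle
  have hπ : ∀ g : Q, π (QuotientGroup.mk' (R ⊓ M) g) = QuotientGroup.mk' M g := fun g => rfl
  refine eq_zero_of_ker ℤ (H' := Q ⧸ M) π ?_ (im_idem _ hA) ?_
  · left
    refine ⟨inferInstance, ?_⟩
    intro z hz hz1
    obtain ⟨g, rfl⟩ := QuotientGroup.mk'_surjective _ z
    rw [MonoidHom.mem_ker, hπ, QuotientGroup.mk'_apply, QuotientGroup.eq_one_iff] at hz
    refine nonExc_of_pow (m := R.index) ?_ ?_ hz1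
    · exact Nat.one_le_iff_ne_zero.2 Subgroup.FiniteIndex.index_ne_zero
    · rw [← map_pow, QuotientGroup.mk'_apply, QuotientGroup.eq_one_iff]
      exact ⟨Subgroup.pow_index_mem R g, M.pow_mem hz _⟩
  · intro i j
    rw [im_coeff, ← Finsupp.mapDomain_comp]
    exact hK i j

/-- the indicator function of the fibre of `q` over `w`, times `f` -/
lemma evalFn_rel {k : Type v} [CommRing k] (hk : RF k) (hA : A * A = A) {W : Type w} [Group W]
    (q : Q →* W) (hK : KillsF q A) {I : Type} [Fintype I] [DecidableEq I]
    (σ : Q →* Matrix I I k) (s r : I) (x : W) (i j : n) :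
    evalFn (fun g => (open Classical in if q g = x then σ g s r else 0)) (A i j) = 0 := by
  classical
  by_contra hne
  obtain ⟨F, _, _, ψ, hψ⟩ := hk _ hne
  apply hψ
  let f : Q →* Matrix I I F := (ψ.mapMatrix (m := I)).toMonoidHom.comp σ
  let R : Subgroup Q := f.toHomUnits.ker
  have hfin : Finite f.toHomUnits.range := inferInstance
  have hRf : R.FiniteIndex := Subgroup.finiteIndex_ker f.toHomUnits
  have hK' : Kills q.ker A := by
    refine KillsF.of_fiber hK fun _ _ a _ b _ hab => ?_
    rw [QuotientGroup.eq, MonoidHom.mem_ker, map_mul, map_inv, hab, inv_mul_cancel]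
  have h1 := kills_inf_of_finiteIndex hA q.ker R hK'
  have hf : ∀ r ∈ R, f r = 1 := by
    intro r hr
    have := congrArg Units.val (MonoidHom.mem_ker.1 hr)
    simpa using this
  have h4 := map_evalFn ψ.toAddMonoidHom (fun g => if q g = x then σ g s r else 0) (A i j)
  change ψ (evalFn (fun g => if q g = x then σ g s r else 0) (A i j)) =
    evalFn (fun g => ψ (if q g = x then σ g s r else 0)) (A i j) at h4
  rw [h4]
  apply evalFn_eq_zero_of_kills' h1
  intro g y hy
  have h3 : f (g * y) = f g := by rw [map_mul, hf y hy.1, mul_one]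
  have h5 : q (g * y) = q g := by rw [map_mul, MonoidHom.mem_ker.1 hy.2, mul_one]
  rw [h5]
  have h6 : ψ (σ (g * y) s r) = ψ (σ g s r) := congrFun (congrFun h3 s) r
  split_ifs
  · exact h6
  · rfl

end relative

end Lin

end

end Pool.Agent.H677_Perf
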