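import Pool.Agent.H677_Perf.Rel1

set_option autoImplicit false
set_option linter.unusedSectionVars false

universe u v v' w w' w''
set_option maxHeartbeats 400000

namespace Pool.Agent.H677_Perf

noncomputable section

namespace Lin

/-- the product of two groups -/
def PW (W : Type w) (V : Type w') : Type (max w w') := W × V

instance (W : Type w) [Group W] (V : Type w') [Group V] : Group (PW W V) :=
  inferInstanceAs (Group (W × V))

/-- the pair -/
def PW.mk {W : Type w} {V : Type w'} (x : W) (y : V) : PW W V := (x, y)

/-- the first projection -/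
def PW.fst {W : Type w} [Group W] {V : Type w'} [Group V] : PW W V →* W := MonoidHom.fst W V

/-- the second projection -/
def PW.snd {W : Type w} [Group W] {V : Type w'} [Group V] : PW W V →* V := MonoidHom.snd W V

/-- the second inclusion -/
def PW.inr {W : Type w} [Group W] {V : Type w'} [Group V] : V →* PW W V := MonoidHom.inr W V

lemma PW.mk_mul {W : Type w} [Group W] {V : Type w'} [Group V] (x x' : W) (y y' : V) :
    PW.mk x y * PW.mk x' y' = PW.mk (x * x') (y * y') := rfl

lemma PW.mk_one {W : Type w} [Group W] {V : Type w'} [Group V] :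
    PW.mk (1 : W) (1 : V) = 1 := rfl

lemma PW.inr_apply {W : Type w} [Group W] {V : Type w'} [Group V] (y : V) :
    PW.inr y = PW.mk (1 : W) y := rfl

lemma PW.fst_mk {W : Type w} [Group W] {V : Type w'} [Group V] (x : W) (y : V) :
    PW.fst (PW.mk x y) = x := rfl

lemma PW.snd_mk {W : Type w} [Group W] {V : Type w'} [Group V] (x : W) (y : V) :
    PW.snd (PW.mk x y) = y := rfl

lemma PW.ext {W : Type w} [Group W] {V : Type w'} [Group V] {a b : PW W V}
    (h1 : PW.fst a = PW.fst b) (h2 : PW.snd a = PW.snd b) : a = b := Prod.ext h1 h2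

lemma PW.mk_eta {W : Type w} [Group W] {V : Type w'} [Group V] (a : PW W V) :
    PW.mk (PW.fst a) (PW.snd a) = a := rfl

section twist

variable {k : Type v} [CommRing k] {Q : Type u} [Group Q] {W : Type w} [Group W]
  {V : Type w'} [Group V] {J : Type} [Fintype J] [DecidableEq J]

/-- multiplication of the image of an element of `kV` with the element `w` -/
def tw (w : W) (x : MonoidAlgebra k V) : MonoidAlgebra k (PW W V) :=
  MonoidAlgebra.mapDomainRingHom k (PW.inr (W := W) (V := V)) x *
    MonoidAlgebra.single (PW.mk w (1 : V)) 1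

lemma tw_single (w : W) (v : V) (a : k) :
    tw w (MonoidAlgebra.single v a) = MonoidAlgebra.single (PW.mk w v) a := by
  unfold tw
  rw [MonoidAlgebra.mapDomainRingHom_apply, MonoidAlgebra.mapDomain_single,
    MonoidAlgebra.single_mul_single, mul_one, PW.inr_apply, PW.mk_mul, one_mul, mul_one]

lemma tw_zero (w : W) : tw w (0 : MonoidAlgebra k V) = 0 := by
  unfold tw
  rw [map_zero, zero_mul]

lemma tw_add (w : W) (x y : MonoidAlgebra k V) : tw w (x + y) = tw w x + tw w y := by
  unfold tw
  rw [map_add, add_mul]

/-- `tw` as an additive map -/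
def twHom (w : W) : MonoidAlgebra k V →+ MonoidAlgebra k (PW W V) where
  toFun := tw w
  map_zero' := tw_zero w
  map_add' := tw_add w

lemma tw_sum (w : W) {ι : Type*} (s : Finset ι) (f : ι → MonoidAlgebra k V) :
    tw w (∑ i ∈ s, f i) = ∑ i ∈ s, tw w (f i) := map_sum (twHom w) f s

lemma tw_mul (w w' : W) (x y : MonoidAlgebra k V) :
    tw w x * tw w' y = tw (w * w') (x * y) := by
  induction x using MonoidAlgebra.induction_linear with
  | zero => rw [tw_zero, zero_mul, zero_mul, tw_zero]
  | add x x' hx hx' => rw [tw_add, add_mul, add_mul, tw_add, hx, hx']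
  | single v a =>
    induction y using MonoidAlgebra.induction_linear with
    | zero => rw [tw_zero, mul_zero, mul_zero, tw_zero]
    | add y y' hy hy' => rw [tw_add, mul_add, mul_add, tw_add, hy, hy']
    | single v' a' =>
      rw [tw_single, tw_single, MonoidAlgebra.single_mul_single, MonoidAlgebra.single_mul_single,
        tw_single, PW.mk_mul]

open Classical in
lemma tw_coeff (w w' : W) (v : V) (x : MonoidAlgebra k V) :
    (tw w x).coeff (PW.mk w' v) = if w = w' then x.coeff v else 0 := by
  induction x using MonoidAlgebra.induction_linear with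
  | zero => rw [tw_zero]; simp
  | add x x' hx hx' =>
    rw [tw_add, MonoidAlgebra.coeff_add, Finsupp.add_apply, hx, hx', MonoidAlgebra.coeff_add,
      Finsupp.add_apply]
    split_ifs <;> simp
  | single v' a =>
    rw [tw_single, MonoidAlgebra.coeff_single, MonoidAlgebra.coeff_single, Finsupp.single_apply,
      Finsupp.single_apply]
    by_cases h1 : w = w'
    · subst h1
      rw [if_pos rfl]
      by_cases h2 : v' = v
      · subst h2
        simp
      · rw [if_neg h2, if_neg]
        intro h3
        exact h2 (congrArg (PW.snd (W := W) (V := V)) h3)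
    · rw [if_neg h1, if_neg]
      intro h3
      exact h1 (congrArg (PW.fst (W := W) (V := V)) h3)

lemma fst_tw (w : W) (x : MonoidAlgebra k V) :
    (tw w x).coeff.mapDomain (PW.fst (W := W) (V := V)) = Finsupp.single w (aug k V x) := by
  induction x using MonoidAlgebra.induction_linear with
  | zero => rw [tw_zero]; simp
  | add x x' hx hx' =>
    rw [tw_add, MonoidAlgebra.coeff_add, Finsupp.mapDomain_add, hx, hx', map_add,
      Finsupp.single_add]
  | single v' a =>
    rw [tw_single, aug_single, MonoidAlgebra.coeff_single, Finsupp.mapDomain_single, PW.fst_mk]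

/-- the twisted representation -/
def twRep (q : Q →* W) (σ : Q →* Matrix J J (MonoidAlgebra k V)) :
    Q →* Matrix J J (MonoidAlgebra k (PW W V)) where
  toFun g := fun s t => tw (q g) (σ g s t)
  map_one' := by
    refine Matrix.ext fun s t => ?_
    rw [map_one, map_one, Matrix.one_apply, Matrix.one_apply]
    split_ifs
    · rw [MonoidAlgebra.one_def, tw_single, PW.mk_one, ← MonoidAlgebra.one_def]
    · exact tw_zero _
  map_mul' g h := by
    refine Matrix.ext fun s t => ?_
    rw [Matrix.mul_apply, map_mul, map_mul, Matrix.mul_apply, tw_sum]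
    refine Finset.sum_congr rfl fun u _ => ?_
    rw [tw_mul]

lemma twRep_apply (q : Q →* W) (σ : Q →* Matrix J J (MonoidAlgebra k V)) (g : Q) (s t : J) :
    twRep q σ g s t = tw (q g) (σ g s t) := rfl

/-- additive functions of the entries of the extension of a representation -/
lemma map_liftI {Γ : Type w'} [Group Γ] {B : Type*} [AddCommGroup B]
    (f : MonoidAlgebra k Γ →+ B) (ρ : Q →* Matrix J J (MonoidAlgebra k Γ)) (s t : J)
    (x : MonoidAlgebra ℤ Q) : f (liftI ρ x s t) = evalFn (fun g => f (ρ g s t)) x := by
  induction x using MonoidAlgebra.induction_linear with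
  | zero => simp
  | add x y hx hy => rw [map_add, Matrix.add_apply, map_add, map_add, hx, hy]
  | single g a => rw [liftI_single, evalFn_single, Matrix.smul_apply, map_zsmul]

/-- the coefficient as an additive map -/
def coeffA (k : Type v) [CommRing k] {Γ : Type w'} [Group Γ] (γ : Γ) :
    MonoidAlgebra k Γ →+ k where
  toFun x := x.coeff γ
  map_zero' := rfl
  map_add' _ _ := rfl

/-- the coefficients of the image over `kW` as additive maps -/
def fstA (k : Type v) [CommRing k] {W : Type w} [Group W] (V : Type w') [Group V] (x : W) :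
    MonoidAlgebra k (PW W V) →+ k where
  toFun y := (y.coeff.mapDomain (PW.fst (W := W) (V := V))) x
  map_zero' := by simp
  map_add' y y' := by
    rw [MonoidAlgebra.coeff_add, Finsupp.mapDomain_add, Finsupp.add_apply]

open Classical in
lemma liftI_twRep_coeff (q : Q →* W) (σ : Q →* Matrix J J (MonoidAlgebra k V)) (s t : J)
    (w : W) (v : V) (x : MonoidAlgebra ℤ Q) :
    (liftI (twRep q σ) x s t).coeff (PW.mk w v) =
      evalFn (fun g => if q g = w then (σ g s t).coeff v else 0) x := by
  refine (map_liftI (coeffA k (PW.mk w v)) (twRep q σ) s t x).trans ?_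
  have h : (fun g => coeffA k (PW.mk w v) (twRep q σ g s t)) =
      fun g => if q g = w then (σ g s t).coeff v else 0 := by
    funext g
    exact tw_coeff (q g) w v (σ g s t)
  rw [h]

open Classical in
lemma fst_liftI_twRep (q : Q →* W) (σ : Q →* Matrix J J (MonoidAlgebra k V)) (s t : J)
    (w : W) (x : MonoidAlgebra ℤ Q) :
    ((liftI (twRep q σ) x s t).coeff.mapDomain (PW.fst (W := W) (V := V))) w =
      evalFn (fun g => if q g = w then aug k V (σ g s t) else 0) x := by
  refine (map_liftI (fstA k V w) (twRep q σ) s t x).trans ?_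
  have h : (fun g => fstA k V w (twRep q σ g s t)) =
      fun g => if q g = w then aug k V (σ g s t) else 0 := by
    funext g
    change ((tw (q g) (σ g s t)).coeff.mapDomain (PW.fst (W := W) (V := V))) w = _
    rw [fst_tw, Finsupp.single_apply]
  rw [h]

open Classical in
lemma evalFn_rel_aug (hk : RF k) {n : Type} [Fintype n] [DecidableEq n]
    {A : Matrix n n (MonoidAlgebra ℤ Q)} (hA : A * A = A) (q : Q →* W) (hK : KillsF q A)
    (σ : Q →* Matrix J J (MonoidAlgebra k V)) (s t : J) (w : W) (i j : n) :
    evalFn (fun g => if q g = w then aug k V (σ g s t) else 0) (A i j) = 0 :=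
  evalFn_rel hk hA q hK (((aug k V).mapMatrix (m := J)).toMonoidHom.comp σ) s t w i j

end twist

/-- Idempotents over `k[W × Y ^ j]` with support in the fibre power which vanish over `kW`
vanish. -/
def GoodRel (k : Type v) [CommRing k] {W : Type w} [Group W] {Y : Type w'} [Group Y]
    {X : Type w''} [Group X] (e : W →* X) (c : Y →* X) (j : ℕ) : Prop :=
  ∀ (m : Type) [Fintype m] (B : Matrix m m (MonoidAlgebra k (PW W (Fin j → Y)))),
    B * B = B → (∀ s t, (B s t).coeff.mapDomain (PW.fst (W := W) (V := Fin j → Y)) = 0) →
    (∀ s t, ∀ y ∈ (B s t).coeff.support, ∀ i, c (PW.snd y i) = e (PW.fst y)) → B = 0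

section main

variable {k : Type v} [CommRing k] {Q : Type u} [Group Q] {n : Type} [Fintype n] [DecidableEq n]
  {A : Matrix n n (MonoidAlgebra ℤ Q)} {W : Type w} [Group W] {Y : Type w'} [Group Y]
  {X : Type w''} [Group X]

open Classical in
/-- The products of matrix coefficients vanish on the parts of the entries. -/
lemma evalFn_tenRep_rel (hk : RF k) (q : Q →* W) (e : W →* X) (c : Y →* X) {I : Type}
    [Fintype I] [DecidableEq I] (ρ : Q →* Matrix I I (MonoidAlgebra k Y))
    (hgr : ∀ g s t, ∀ y ∈ (ρ g s t).coeff.support, c y = e (q g)) (l : ℕ)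
    (hgood : GoodRel k e c l) (hA : A * A = A) (hK : KillsF q A) (s t : Fin l → I)
    (y : Fin l → Y) (w : W) (i j : n) :
    evalFn (fun g => if q g = w then (tenRep ρ l g s t).coeff y else 0) (A i j) = 0 := by
  let σ := tenRep ρ l
  let B : Matrix (n × (Fin l → I)) (n × (Fin l → I)) (MonoidAlgebra k (PW W (Fin l → Y))) :=
    Matrix.compRingEquiv n (Fin l → I) (MonoidAlgebra k (PW W (Fin l → Y)))
      (A.map (liftI (twRep q σ)))
  have hBe : ∀ i s j r, B (i, s) (j, r) = liftI (twRep q σ) (A i j) s r := fun i s j r => rfl
  have hB : B * B = B := by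
    simp only [B]
    rw [← map_mul, ← Matrix.map_mul, hA]
  have h0 : B = 0 := by
    apply hgood _ B hB
    · rintro ⟨a, s⟩ ⟨b, r⟩
      ext x
      rw [hBe, fst_liftI_twRep, evalFn_rel_aug hk hA q hK σ s r x a b]
      rfl
    · rintro ⟨a, s⟩ ⟨b, r⟩ y' hz i
      obtain ⟨x, z, rfl⟩ : ∃ x z, y' = PW.mk x z := ⟨_, _, (PW.mk_eta y').symm⟩
      rw [PW.snd_mk, PW.fst_mk]
      by_contra hne
      rw [Finsupp.mem_support_iff] at hz
      apply hz
      rw [hBe, liftI_twRep_coeff]
      have h1 : (fun g => if q g = x then (σ g s r).coeff z else 0) = fun _ => 0 := by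
        funext g
        split_ifs with hg
        · simp only [σ]
          rw [tenRep_coeff]
          refine Finset.prod_eq_zero (Finset.mem_univ i) ?_
          by_contra hne'
          apply hne
          have := hgr g _ _ _ (Finsupp.mem_support_iff.2 hne')
          rw [hg] at this
          exact this
        · rfl
      rw [h1, evalFn_eq_sum, Finsupp.sum]
      simp
  have h1 := liftI_twRep_coeff q σ s t w y (A i j)
  rw [← hBe, h0] at h1
  rw [← h1]
  simp

/-- An idempotent which vanishes over `ℤW` vanishes if the group has a graded matrix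
representation over a suitable group ring which is injective on the fibres of the support. -/
theorem eq_zero_of_rel [IsDomain k] (hk : RF k) (q : Q →* W) (e : W →* X) (c : Y →* X) {I : Type}
    [Fintype I] [DecidableEq I] (ρ : Q →* Matrix I I (MonoidAlgebra k Y))
    (hgr : ∀ g s t, ∀ y ∈ (ρ g s t).coeff.support, c y = e (q g))
    (hgood : ∀ l, GoodRel k e c l) (hA : A * A = A) (hK : KillsF q A)
    (hρ : ∀ a b : Q, q a = q b → ρ a = ρ b → a = b) : A = 0 := by
  classical
  let C : Set (Q → k) := {c | ∃ (s t : I) (y : Y), c = fun g => (ρ g s t).coeff y}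
  have key : ∀ i j g, (((A i j).coeff g : ℤ) : k) = 0 := by
    intro a b g
    let x : MonoidAlgebra ℤ Q := MonoidAlgebra.ofCoeff ((A a b).coeff.filter fun h => q h = q g)
    have hxc : x.coeff = (A a b).coeff.filter fun h => q h = q g := rfl
    have hxg : x.coeff g = (A a b).coeff g := by
      rw [hxc, Finsupp.filter_apply_pos]
      rfl
    rw [← hxg]
    apply coeff_eq_zero_of_products C
    · intro l hl
      have h1 : ∀ i : Fin l.length, ∃ (s t : I) (y : Y), l.get i = fun g => (ρ g s t).coeff y :=
        fun i => hl _ (List.get_mem l i)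
      choose s t y hst using h1
      have h2 : l.prod = fun g => (tenRep ρ l.length g s t).coeff y := by
        funext g
        rw [tenRep_coeff]
        have h3 : l.prod = ∏ i : Fin l.length, l.get i := by
          rw [← List.prod_ofFn, List.ofFn_get]
        rw [h3, Finset.prod_apply]
        refine Finset.prod_congr rfl fun i _ => ?_
        rw [hst i]
      rw [h2]
      have h3 := evalFn_tenRep_rel hk q e c ρ hgr l.length (hgood _) hA hK s t y (q g) a b
      rw [← h3, evalFn_eq_sum, evalFn_eq_sum, hxc, Finsupp.sum, Finsupp.sum,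
        Finsupp.support_filter, Finset.sum_filter]
      refine Finset.sum_congr rfl fun h _ => ?_
      by_cases hh : q h = q g
      · rw [if_pos hh, if_pos hh, Finsupp.filter_apply_pos (fun h => q h = q g) _ hh]
      · rw [if_neg hh, if_neg hh, smul_zero]
    · intro h hh h' hh' hne
      by_contra hcon
      push Not at hcon
      apply hne
      rw [hxc, Finsupp.support_filter, Finset.mem_filter] at hh hh'
      apply hρ _ _ (hh.2.trans hh'.2.symm)
      refine Matrix.ext fun s t => ?_
      apply MonoidAlgebra.ext
      ext y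
      exact hcon _ ⟨s, t, y, rfl⟩
  obtain ⟨p, hp⟩ := CharP.exists k
  rcases Nat.lt_trichotomy p 1 with h | h | h
  · have hp0 : p = 0 := by omega
    subst hp0
    refine Matrix.ext fun i j => ?_
    rw [Matrix.zero_apply]
    apply MonoidAlgebra.ext
    ext g
    have := key i j g
    rw [CharP.intCast_eq_zero_iff k 0] at this
    simpa using this
  · exact absurd h (CharP.char_ne_one k p)
  · exact eq_zero_of_dvd h hA fun i j g => (CharP.intCast_eq_zero_iff k p _).1 (key i j g)

end main

end Lin

end

end Pool.Agent.H677_Perf
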