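import Pool.Agent.H677_Perf.Rel2

set_option autoImplicit false
set_option linter.unusedSectionVars false

universe u v v' w w' w''
set_option maxHeartbeats 400000

namespace Pool.Agent.H677_Perf

noncomputable section

namespace Lin

lemma NonExc.of_map {k : Type v} [CommRing k] {Y : Type w} [Group Y] {Y' : Type w'} [Group Y']
    (π : Y →* Y') {y : Y} (hY : NonExc k (π y)) : NonExc k y := by
  rcases hY with h | ⟨p, hp, hpk, h⟩
  · left
    intro n hn hmem
    apply h n hn
    have h1 : (Subgroup.centralizer {y}).map π ≤ Subgroup.centralizer {π y} := by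
      rintro _ ⟨c, hc, rfl⟩
      rw [SetLike.mem_coe, Subgroup.mem_centralizer_singleton_iff] at hc
      rw [Subgroup.mem_centralizer_singleton_iff]
      rw [← map_mul, hc, map_mul]
    have h2 := Subgroup.mem_map_of_mem π hmem
    rw [Subgroup.map_commutator, map_pow] at h2
    exact Subgroup.commutator_mono h1 h1 h2
  · right
    refine ⟨p, hp, hpk, fun n hn hc => h n hn ?_⟩
    have := π.map_isConj hc
    rwa [map_pow] at this

lemma locPInd_of_homs {Y : Type w} [Group Y] (Z : Subgroup Y) {p : ℕ} (hp : p.Prime)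
    (h : ∀ T : Subgroup Y, T ≤ Z → T.FG → T ≠ ⊥ →
      ∃ χ : T →* Multiplicative (ZMod p), χ ≠ 1) {K : Type w'} [Group K] {ι : Type*}
    (ev : ι → (K →* Y)) (h1 : ∀ i s, ev i s ∈ Z) (h2 : ∀ s, s ≠ 1 → ∃ i, ev i s ≠ 1) :
    LocPInd p K := by
  have : Fact p.Prime := ⟨hp⟩
  intro S hS hne
  obtain ⟨s, hs, hs1⟩ : ∃ s : K, s ∈ S ∧ s ≠ 1 := by
    by_contra hcon
    push Not at hcon
    exact hne ((Subgroup.eq_bot_iff_forall S).2 hcon)
  obtain ⟨i, hi⟩ := h2 s hs1
  have hT1 : S.map (ev i) ≤ Z := by
    rintro _ ⟨t, _, rfl⟩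
    exact h1 i t
  have hT2 : S.map (ev i) ≠ ⊥ := by
    intro hb
    apply hi
    have h1 : ev i s ∈ S.map (ev i) := Subgroup.mem_map_of_mem (ev i) hs
    rw [hb, Subgroup.mem_bot] at h1
    exact h1
  obtain ⟨χ, hχ⟩ := h (S.map (ev i)) hT1 (fg_map hS (ev i)) hT2
  exact ⟨χ.comp ((ev i).subgroupMap S), (surjective_of_ne_one χ hχ).comp
    ((ev i).subgroupMap_surjective S)⟩

section PWmap

variable {W : Type w} [Group W] {V : Type w'} [Group V] {V' : Type w''} [Group V']

/-- the homomorphism induced on products -/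
def PW.map (W : Type w) [Group W] (f : V →* V') : PW W V →* PW W V' :=
  (MonoidHom.id W).prodMap f

lemma PW.map_mk (f : V →* V') (x : W) (y : V) : PW.map W f (PW.mk x y) = PW.mk x (f y) := rfl

lemma PW.fst_map (f : V →* V') (a : PW W V) : PW.fst (PW.map W f a) = PW.fst a := rfl

lemma PW.snd_map (f : V →* V') (a : PW W V) : PW.snd (PW.map W f a) = f (PW.snd a) := rfl

end PWmap

section residual

variable {k : Type v} [CommRing k] {W : Type w} [Group W] {V : Type w'} [Group V]

/-- the part of an element over an element of `V` -/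
def col (k : Type v) [CommRing k] (W : Type w) [Group W] {V : Type w'} [Group V] (v : V) :
    MonoidAlgebra k (PW W V) →+ MonoidAlgebra k W :=
  (Finsupp.liftAddHom (fun p : PW W V =>
    (open Classical in if PW.snd p = v then
      (MonoidAlgebra.singleAddHom (R := k) (PW.fst p)) else 0 : k →+ MonoidAlgebra k W))).comp
    (MonoidAlgebra.coeffAddEquiv (R := k) (M := PW W V)).toAddMonoidHom

open Classical in
lemma col_single (v : V) (p : PW W V) (a : k) :
    col k W v (MonoidAlgebra.single p a) =
      if PW.snd p = v then MonoidAlgebra.single (PW.fst p) a else 0 := by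
  simp only [col]
  split_ifs with h
  · simp [h]
  · simp [h]

lemma col_coeff (v : V) (x : W) (y : MonoidAlgebra k (PW W V)) :
    (col k W v y).coeff x = y.coeff (PW.mk x v) := by
  classical
  induction y using MonoidAlgebra.induction_linear with
  | zero => simp
  | add y y' hy hy' =>
    rw [map_add, MonoidAlgebra.coeff_add, Finsupp.add_apply, hy, hy', MonoidAlgebra.coeff_add,
      Finsupp.add_apply]
  | single p a =>
    rw [col_single, MonoidAlgebra.coeff_single, Finsupp.single_apply]
    by_cases h1 : PW.snd p = v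
    · rw [if_pos h1, MonoidAlgebra.coeff_single, Finsupp.single_apply]
      by_cases h2 : PW.fst p = x
      · rw [if_pos h2, if_pos (PW.ext (h2.trans (PW.fst_mk x v).symm)
          (h1.trans (PW.snd_mk x v).symm))]
      · rw [if_neg h2, if_neg]
        rintro rfl
        exact h2 rfl
    · rw [if_neg h1, if_neg]
      · simp
      · rintro rfl
        exact h1 rfl

/-- the residual condition relative to `W` -/
def ResRel (k : Type v) [CommRing k] (W : Type w) [Group W] (V : Type w') [Group V] : Prop :=
  ∀ a : MonoidAlgebra k W, a ≠ 0 → ∃ (F : Type v') (_ : Ring F) (ω : MonoidAlgebra k W →+* F),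
    ω a ≠ 0 ∧ ∀ j : ℕ, NPPr F (Fin j → V)

/-- Idempotents over `k[W × V]` which vanish over `kW` vanish, if the residual condition
holds. -/
theorem eq_zero_of_residual
    (hres : ∀ a : MonoidAlgebra k W, a ≠ 0 → ∃ (F : Type v') (_ : Ring F)
      (ω : MonoidAlgebra k W →+* F), ω a ≠ 0 ∧ MPr F V)
    {m : Type} [Fintype m] {B : Matrix m m (MonoidAlgebra k (PW W V))} (hB : B * B = B)
    (hK : ∀ s t, (B s t).coeff.mapDomain (PW.fst (W := W) (V := V)) = 0) : B = 0 := by
  classical
  refine Matrix.ext fun s t => ?_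
  rw [Matrix.zero_apply]
  apply MonoidAlgebra.ext
  ext p
  by_contra hne
  have ha : col k W (PW.snd p) (B s t) ≠ 0 := by
    intro h0
    apply hne
    rw [← PW.mk_eta p, ← col_coeff, h0]
    rfl
  obtain ⟨F, _, ω, hω, hF⟩ := hres _ ha
  apply hω
  let f : k →+* MonoidAlgebra F V :=
    (MonoidAlgebra.singleOneRingHom (R := F) (M := V)).comp
      (ω.comp (MonoidAlgebra.singleOneRingHom (R := k) (M := W)))
  let g : PW W V →* MonoidAlgebra F V :=
    { toFun := fun p => MonoidAlgebra.single (PW.snd p) (ω (MonoidAlgebra.single (PW.fst p) 1))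
      map_one' := by
        rw [map_one, map_one, ← MonoidAlgebra.one_def, map_one, ← MonoidAlgebra.one_def]
      map_mul' := fun p p' => by
        rw [MonoidAlgebra.single_mul_single, ← map_mul ω, MonoidAlgebra.single_mul_single,
          mul_one, ← map_mul, ← map_mul] }
  have hf : ∀ a, f a = MonoidAlgebra.single 1 (ω (MonoidAlgebra.single 1 a)) := fun a => rfl
  have hg : ∀ p, g p =
    MonoidAlgebra.single (PW.snd p) (ω (MonoidAlgebra.single (PW.fst p) 1)) := fun p => rfl
  let Θ : MonoidAlgebra k (PW W V) →+* MonoidAlgebra F V :=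
    MonoidAlgebra.liftNCRingHom f g (by
      intro a p
      change f a * g p = g p * f a
      rw [hf, hg, MonoidAlgebra.single_mul_single, MonoidAlgebra.single_mul_single, ← map_mul,
        ← map_mul, MonoidAlgebra.single_mul_single, MonoidAlgebra.single_mul_single, one_mul,
        one_mul, mul_one, mul_one, mul_one, one_mul])
  have hΘ : ∀ p a, Θ (MonoidAlgebra.single p a) =
      MonoidAlgebra.single (PW.snd p) (ω (MonoidAlgebra.single (PW.fst p) a)) := by
    intro p a
    change MonoidAlgebra.liftNCRingHom f g _ (MonoidAlgebra.single p a) = _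
    rw [MonoidAlgebra.liftNCRingHom_single, hf, hg, MonoidAlgebra.single_mul_single, ← map_mul,
      MonoidAlgebra.single_mul_single, one_mul, one_mul, mul_one]
  have hΘc : ∀ x v, (Θ x).coeff v = ω (col k W v x) := by
    intro x v
    induction x using MonoidAlgebra.induction_linear with
    | zero => simp
    | add x x' hx hx' =>
      rw [map_add, MonoidAlgebra.coeff_add, Finsupp.add_apply, hx, hx', map_add, map_add]
    | single p a =>
      rw [hΘ, col_single, MonoidAlgebra.coeff_single, Finsupp.single_apply]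
      split_ifs
      · rfl
      · rw [map_zero]
  have hΘs : ∀ x, sumC F V (Θ x) =
      ω (MonoidAlgebra.mapDomainRingHom k (PW.fst (W := W) (V := V)) x) := by
    intro x
    induction x using MonoidAlgebra.induction_linear with
    | zero => simp
    | add x x' hx hx' => rw [map_add, map_add, hx, hx', map_add, map_add]
    | single p a =>
      rw [hΘ, sumC_single, MonoidAlgebra.mapDomainRingHom_apply, MonoidAlgebra.mapDomain_single]
  have h0 := hF m (B.map Θ) (by rw [← Matrix.map_mul, hB]) (by
    intro i j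
    rw [Matrix.map_apply, hΘs]
    have h1 : MonoidAlgebra.mapDomainRingHom k (PW.fst (W := W) (V := V)) (B i j) = 0 := by
      apply MonoidAlgebra.ext
      exact hK i j
    rw [h1, map_zero])
  rw [← hΘc]
  have h2 := congrFun (congrFun h0 s) t
  rw [Matrix.map_apply] at h2
  rw [h2]
  rfl

end residual

/-- The condition on a pair `(k, Y)` relative to `W`, with a grading of `Y` by `X`. -/
theorem goodRel_of_adm {k : Type v} [CommRing k] [IsDomain k] [Algebra.FiniteType ℤ k]
    {W : Type w} [Group W] {Y : Type w'} [Group Y] {X : Type w''} [Group X]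
    (e : W →* X) (c : Y →* X) (Z : Subgroup Y) [Z.Normal]
    (hZ : (CharZero k ∧ ∀ z ∈ Z, z ≠ 1 → NonExc k z) ∨ LocInd k Z)
    (hres : c.ker ≤ Z ∨ ResRel.{v, v', w, w'} k W (Y ⧸ Z)) (j : ℕ) : GoodRel k e c j := by
  intro m _ B hB hK hD
  classical
  let π : (Fin j → Y) →* (Fin j → Y ⧸ Z) := (QuotientGroup.mk' Z).compLeft (Fin j)
  have hπ : ∀ y i, π y i = QuotientGroup.mk' Z (y i) := fun y i => rfl
  have hker : ∀ z ∈ (PW.map W π).ker, PW.fst z = 1 ∧ ∀ i, PW.snd z i ∈ Z := by
    intro z hz
    rw [MonoidHom.mem_ker] at hz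
    constructor
    · rw [← PW.fst_map π, hz, map_one]
    · intro i
      have h1 := congrFun (congrArg (PW.snd (W := W) (V := Fin j → Y ⧸ Z)) hz) i
      rw [PW.snd_map, hπ] at h1
      exact (QuotientGroup.eq_one_iff _).1 h1
  have hex : ∀ z ∈ (PW.map W π).ker, z ≠ 1 → ∃ i, PW.snd z i ≠ 1 := by
    intro z hz hz1
    by_contra hcon
    push Not at hcon
    apply hz1
    apply PW.ext
    · rw [(hker z hz).1, map_one]
    · rw [map_one]
      exact funext hcon
  refine eq_zero_of_ker k (PW.map W π) ?_ hB ?_
  · rcases hZ with ⟨hz, h⟩ | ⟨p, hp, hpk, h⟩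
    · left
      refine ⟨hz, fun z hz hz1 => ?_⟩
      obtain ⟨i, hi⟩ := hex z hz hz1
      refine NonExc.of_map ((Pi.evalMonoidHom (fun _ : Fin j => Y) i).comp
        (PW.snd (W := W) (V := Fin j → Y))) ?_
      exact h _ ((hker z hz).2 i) hi
    · right
      refine ⟨p, hp, hpk, ?_⟩
      refine locPInd_of_homs Z hp h (ι := Fin j) (fun i =>
        (((Pi.evalMonoidHom (fun _ : Fin j => Y) i).comp
        (PW.snd (W := W) (V := Fin j → Y)))).comp (PW.map W π).ker.subtype) ?_ ?_
      · intro i s
        exact (hker s s.2).2 i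
      · intro s hs
        obtain ⟨i, hi⟩ := hex s s.2 (fun h => hs (Subtype.ext h))
        exact ⟨i, hi⟩
  · rcases hres with hres | hres
    · intro s t
      refine mapDomain_eq_zero_of_fiber (PW.fst (W := W) (V := Fin j → Y)) _ _ ?_ (hK s t)
      intro a ha b hb hab
      apply PW.ext
      · rw [PW.fst_map, PW.fst_map, hab]
      · rw [PW.snd_map, PW.snd_map]
        funext i
        rw [hπ, hπ, QuotientGroup.mk'_apply, QuotientGroup.mk'_apply, QuotientGroup.eq]
        apply hres
        rw [MonoidHom.mem_ker, map_mul, map_inv, hD s t a ha, hD s t b hb, hab, inv_mul_cancel]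
    · have h0 : B.map (MonoidAlgebra.mapDomainRingHom k (PW.map W π)) = 0 := by
        have hB' : B.map (MonoidAlgebra.mapDomainRingHom k (PW.map W π)) *
            B.map (MonoidAlgebra.mapDomainRingHom k (PW.map W π)) =
            B.map (MonoidAlgebra.mapDomainRingHom k (PW.map W π)) := by
          rw [← Matrix.map_mul, hB]
        refine eq_zero_of_residual.{v, v', w, w'} (V := Fin j → Y ⧸ Z) ?_ hB' ?_
        · intro a ha
          obtain ⟨F, _, ω, hω, hF⟩ := hres a ha
          exact ⟨F, inferInstance, ω, hω, (hF j).mp⟩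
        · intro s t
          rw [Matrix.map_apply]
          have h1 : (MonoidAlgebra.mapDomainRingHom k (PW.map W π) (B s t)).coeff =
            (B s t).coeff.mapDomain (PW.map W π) := rfl
          rw [h1, ← Finsupp.mapDomain_comp]
          exact hK s t
      intro s t
      have h1 := congrFun (congrFun h0 s) t
      exact congrArg MonoidAlgebra.coeff h1

end Lin

end

end Pool.Agent.H677_Perf
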