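import Pool.Agent.H677_Perf.Rel3
import Pool.Agent.H677_Perf.Final8

set_option autoImplicit false
set_option linter.unusedSectionVars false

universe u v v' w w' w''
set_option maxHeartbeats 400000

namespace Pool.Agent.H677_Perf

noncomputable section

namespace Lin

/-- Transfer of an idempotent along a map which is multiplicative on the support. -/
theorem transferC {G : Type u} [Group G] {H : Type w} [Group H] {n : Type} [Fintype n]
    [DecidableEq n] {A : Matrix n n (MonoidAlgebra ℤ G)} (hA : A * A = A) (S : Finset G)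
    (hS : ∀ i j, (A i j).coeff.support ⊆ S) (φ : G → H)
    (hφ : ∀ a ∈ S, ∀ b ∈ S, φ (a * b) = φ a * φ b) :
    ∃ A' : Matrix n n (MonoidAlgebra ℤ H), A' * A' = A' ∧
      ∀ i j, (A' i j).coeff = (A i j).coeff.mapDomain φ := by
  classical
  let F : MonoidAlgebra ℤ G →+ MonoidAlgebra ℤ H :=
    { toFun := MonoidAlgebra.mapDomain φ
      map_zero' := MonoidAlgebra.mapDomain_zero φ
      map_add' := MonoidAlgebra.mapDomain_add φ }
  refine ⟨A.map F, ?_, fun i j => rfl⟩
  refine Matrix.ext fun i j => ?_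
  have h1 : (A * A) i j = A i j := by rw [hA]
  rw [Matrix.map_apply, ← h1, Matrix.mul_apply, Matrix.mul_apply, map_sum]
  refine Finset.sum_congr rfl fun l _ => ?_
  rw [Matrix.map_apply, Matrix.map_apply]
  exact (mapDomain_mul_of_on φ S hφ (A i l) (A l j) (hS i l) (hS l j)).symm

section

variable {Q : Type u} [Group Q] {n : Type} [Fintype n] [DecidableEq n]
  {A : Matrix n n (MonoidAlgebra ℤ Q)} {W : Type w} [Group W]

/-- Reduction to finitely generated coefficient rings and groups. -/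
theorem eq_zero_of_rel_fg {k : Type v} [CommRing k] [IsDomain k] {Y : Type w'} [Group Y]
    (q : Q →* W) {I : Type} [Fintype I] [DecidableEq I]
    (ρ : Q →* Matrix I I (MonoidAlgebra k Y))
    (hρ : ∀ a b : Q, q a = q b → ρ a = ρ b → a = b)
    (hyp : ∀ k₀ : Subalgebra ℤ k, k₀.FG → ∀ Y₀ : Subgroup Y, Y₀.FG →
      ∃ (X : Type w'') (_ : Group X) (e : W →* X) (c : Y₀ →* X),
        (∀ g s t, ∀ y : Y₀, (y : Y) ∈ (ρ g s t).coeff.support → c y = e (q g)) ∧
        ∀ l, GoodRel k₀ e c l)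
    (hA : A * A = A) (hK : KillsF q A) : A = 0 := by
  classical
  let S : Finset Q := Finset.univ.biUnion fun ij : n × n => (A ij.1 ij.2).coeff.support
  have hS : ∀ i j, (A i j).coeff.support ⊆ S := fun i j a ha =>
    Finset.mem_biUnion.2 ⟨(i, j), Finset.mem_univ _, ha⟩
  let M := Matrix I I (MonoidAlgebra k Y)
  let cs : M → Finset k := fun x => Finset.univ.biUnion fun ij : I × I =>
    (x ij.1 ij.2).coeff.support.image (x ij.1 ij.2).coeff
  let ss : M → Finset Y := fun x => Finset.univ.biUnion fun ij : I × I =>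
    (x ij.1 ij.2).coeff.support
  let X₀ : Finset k := S.biUnion fun s => cs (ρ s) ∪ cs (ρ s⁻¹)
  let Z₀ : Finset Y := S.biUnion fun s => ss (ρ s) ∪ ss (ρ s⁻¹)
  let k₀ : Subalgebra ℤ k := Algebra.adjoin ℤ (X₀ : Set k)
  let Y₀ : Subgroup Y := Subgroup.closure (Z₀ : Set Y)
  have hk₀ : k₀.FG := ⟨X₀, rfl⟩
  have hY₀ : Y₀.FG := ⟨Z₀, rfl⟩
  have hft : Algebra.FiniteType ℤ k₀ := (Subalgebra.fg_iff_finiteType k₀).1 hk₀
  obtain ⟨X, _, e, c, hgr, hgood⟩ := hyp k₀ hk₀ Y₀ hY₀
  let inc : Matrix I I (MonoidAlgebra k₀ Y₀) →+* M := (inc2 k₀ Y₀).mapMatrix (m := I)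
  have hinc : Function.Injective inc := by
    intro x y h
    refine Matrix.ext fun i j => ?_
    apply inc2_injective k₀ Y₀
    exact congrFun (congrFun h i) j
  have hrange : ∀ x : M, (∀ i j, x i j ∈ (inc2 k₀ Y₀).range) → x ∈ inc.range := by
    intro x hx
    choose y hy using hx
    exact ⟨Matrix.of y, Matrix.ext fun i j => hy i j⟩
  have hXr : ∀ x : M, (cs x : Set k) ⊆ X₀ → (ss x : Set Y) ⊆ Z₀ → x ∈ inc.range := by
    intro x hx hx'
    apply hrange
    intro i j
    apply mem_range_inc2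
    · intro g hg
      apply Algebra.subset_adjoin
      apply hx
      exact Finset.mem_coe.2 (Finset.mem_biUnion.2 ⟨(i, j), Finset.mem_univ _,
        Finset.mem_image_of_mem _ hg⟩)
    · intro g hg
      apply Subgroup.subset_closure
      apply hx'
      exact Finset.mem_coe.2 (Finset.mem_biUnion.2 ⟨(i, j), Finset.mem_univ _, hg⟩)
  -- the subgroup of the elements which are represented over the subring
  let Q₁ : Subgroup Q :=
    { carrier := {g | ρ g ∈ inc.range ∧ ρ g⁻¹ ∈ inc.range}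
      mul_mem' := fun {a b} ha hb => by
        refine ⟨?_, ?_⟩
        · rw [map_mul]
          exact inc.range.mul_mem ha.1 hb.1
        · rw [mul_inv_rev, map_mul]
          exact inc.range.mul_mem hb.2 ha.2
      one_mem' := by
        refine ⟨?_, ?_⟩
        · rw [map_one]
          exact inc.range.one_mem
        · rw [inv_one, map_one]
          exact inc.range.one_mem
      inv_mem' := fun {a} ha => by
        refine ⟨ha.2, ?_⟩
        rw [inv_inv]
        exact ha.1 }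
  have hQ₁ : ∀ g : Q₁, ∃ x : Matrix I I (MonoidAlgebra k₀ Y₀), inc x = ρ g := fun g => g.2.1
  choose r hr using hQ₁
  let ρ₁ : Q₁ →* Matrix I I (MonoidAlgebra k₀ Y₀) :=
    { toFun := r
      map_one' := by
        apply hinc
        rw [hr, map_one, Subgroup.coe_one, map_one]
      map_mul' := fun a b => by
        apply hinc
        rw [hr, map_mul, hr, hr, Subgroup.coe_mul, map_mul] }
  have hρ₁ : ∀ g, inc (ρ₁ g) = ρ g := hr
  have hSQ : ∀ s ∈ S, s ∈ Q₁ := by
    intro s hs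
    constructor
    · apply hXr
      · intro a ha
        exact Finset.mem_coe.2 (Finset.mem_biUnion.2 ⟨s, hs, Finset.mem_union_left _ ha⟩)
      · intro a ha
        exact Finset.mem_coe.2 (Finset.mem_biUnion.2 ⟨s, hs, Finset.mem_union_left _ ha⟩)
    · apply hXr
      · intro a ha
        exact Finset.mem_coe.2 (Finset.mem_biUnion.2 ⟨s, hs, Finset.mem_union_right _ ha⟩)
      · intro a ha
        exact Finset.mem_coe.2 (Finset.mem_biUnion.2 ⟨s, hs, Finset.mem_union_right _ ha⟩)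
  let φ : Q → Q₁ := fun g => if h : g ∈ Q₁ then ⟨g, h⟩ else 1
  have hφ : ∀ g ∈ Q₁, ((φ g : Q₁) : Q) = g := by
    intro g hg
    simp only [φ, dif_pos hg]
  have hφm : ∀ a ∈ S, ∀ b ∈ S, φ (a * b) = φ a * φ b := by
    intro a ha b hb
    apply Subtype.ext
    rw [hφ _ (Q₁.mul_mem (hSQ a ha) (hSQ b hb)), Subgroup.coe_mul, hφ _ (hSQ a ha),
      hφ _ (hSQ b hb)]
  obtain ⟨A', hA', hc'⟩ := transferC hA S hS φ hφm
  have hA0 : A' = 0 := by
    refine eq_zero_of_rel (k := k₀) (rf_of_finiteType k₀) (q.comp Q₁.subtype) e c ρ₁ ?_ hgood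
      hA' ?_ ?_
    · intro g s t y hy
      apply hgr g s t y
      rw [← hρ₁, Finsupp.mem_support_iff]
      have h1 : (inc (ρ₁ g) s t).coeff (y : Y) = ((ρ₁ g s t).coeff y : k) :=
        inc2_coeff k₀ Y₀ _ y
      rw [h1]
      rw [Finsupp.mem_support_iff] at hy
      exact fun h => hy (Subtype.ext h)
    · intro i j
      rw [hc', ← Finsupp.mapDomain_comp]
      refine mapDomain_eq_zero_of_fiber q _ _ ?_ (hK i j)
      intro a ha b hb hab
      have h1 : ∀ x ∈ S, (q.comp Q₁.subtype) (φ x) = q x := by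
        intro x hx
        change q ((φ x : Q₁) : Q) = q x
        rw [hφ _ (hSQ x hx)]
      change (q.comp Q₁.subtype) (φ a) = (q.comp Q₁.subtype) (φ b)
      rw [h1 a (hS i j ha), h1 b (hS i j hb), hab]
    · intro a b hab hab'
      apply Subtype.ext
      apply hρ _ _ hab
      rw [Subgroup.subtype_apply, Subgroup.subtype_apply, ← hρ₁, ← hρ₁, hab']
  -- back to `A`
  have h1 : KillsF φ A := by
    intro i j
    rw [← hc', hA0]
    rfl
  have h2 : KillsF (id : Q → Q) A := h1.of_fiber fun i j a ha b hb hab => by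
    have h3 := congrArg (Subtype.val) hab
    rw [hφ _ (hSQ a (hS i j ha)), hφ _ (hSQ b (hS i j hb))] at h3
    exact h3
  refine Matrix.ext fun i j => ?_
  have h3 := h2 i j
  rw [Finsupp.mapDomain_id] at h3
  apply MonoidAlgebra.ext
  rw [h3]
  rfl

end

/-- The condition on a representation, a finitely generated subring and a finitely generated
subgroup. -/
def AdmPair {H : Type u} [Group H] (L : Subgroup H) [L.Normal] {k : Type v} [CommRing k]
    {Y : Type w} [Group Y] {d : ℕ} (ρ : H →* Matrix (Fin d) (Fin d) (MonoidAlgebra k Y))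
    (k₀ : Subalgebra ℤ k) (Y₀ : Subgroup Y) : Prop :=
  ∃ (Z : Subgroup Y₀) (_ : Z.Normal),
    ((CharZero k₀ ∧ ∀ z ∈ Z, z ≠ 1 → NonExc k₀ z) ∨ LocInd k₀ Z) ∧
    ((∃ (M : Subgroup H) (_ : M.Normal) (c : Y₀ →* H ⧸ M), L ≤ M ∧ c.ker ≤ Z ∧
        ∀ h s t, ∀ y : Y₀, (y : Y) ∈ (ρ h s t).coeff.support → c y = QuotientGroup.mk h) ∨
      ResRel.{v, v', u, w} k₀ (H ⧸ L) (Y₀ ⧸ Z))

section

variable {H : Type u} [Group H] {n : Type} [Fintype n] [DecidableEq n]
  {A : Matrix n n (MonoidAlgebra ℤ H)}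

/-- A normal subgroup which kills an idempotent can be intersected with the kernel of a
representation over a suitable group ring. -/
theorem kills_inf_ker (hA : A * A = A) (L : Subgroup H) [L.Normal] (hL : Kills L A)
    {k : Type v} [CommRing k] [IsDomain k] {Y : Type w} [Group Y] {d : ℕ}
    (ρ : H →* Matrix (Fin d) (Fin d) (MonoidAlgebra k Y))
    (hyp : ∀ k₀ : Subalgebra ℤ k, k₀.FG → ∀ Y₀ : Subgroup Y, Y₀.FG →
      AdmPair.{u, v, v', w} L ρ k₀ Y₀) : Kills (L ⊓ ρ.ker) A := by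
  classical
  rw [kills_iff_im_eq_zero]
  have hBL : L ⊓ ρ.ker ≤ L := inf_le_left
  let q : H ⧸ (L ⊓ ρ.ker) →* H ⧸ L := QuotientGroup.map _ _ (MonoidHom.id H) hBL
  have hq : ∀ h : H, q (QuotientGroup.mk h) = QuotientGroup.mk h := fun h => rfl
  let ρ' : H ⧸ (L ⊓ ρ.ker) →* Matrix (Fin d) (Fin d) (MonoidAlgebra k Y) :=
    QuotientGroup.lift (L ⊓ ρ.ker) ρ inf_le_right
  have hρ' : ∀ h : H, ρ' (QuotientGroup.mk h) = ρ h := fun h => rfl
  refine eq_zero_of_rel_fg.{u, v, u, w, u} q ρ' ?_ ?_ (im_idem _ hA) ?_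
  · intro a b
    induction a using QuotientGroup.induction_on with
    | H a =>
    induction b using QuotientGroup.induction_on with
    | H b =>
    intro h1 h2
    rw [hq, hq, QuotientGroup.eq] at h1
    rw [hρ', hρ'] at h2
    rw [QuotientGroup.eq]
    have h3 : a⁻¹ * b ∈ ρ.ker := by
      rw [MonoidHom.mem_ker, map_mul, ← h2, ← map_mul, inv_mul_cancel, map_one]
    exact ⟨h1, h3⟩
  · intro k₀ hk₀ Y₀ hY₀
    have hft : Algebra.FiniteType ℤ k₀ := (Subalgebra.fg_iff_finiteType k₀).1 hk₀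
    obtain ⟨Z, hZn, hZ, hres⟩ := hyp k₀ hk₀ Y₀ hY₀
    rcases hres with ⟨M, hM, c, hLM, hcZ, hgr⟩ | hres
    · let e : H ⧸ L →* H ⧸ M := QuotientGroup.map _ _ (MonoidHom.id H) hLM
      refine ⟨H ⧸ M, inferInstance, e, c, ?_, fun l => ?_⟩
      · intro g s t y hy
        induction g using QuotientGroup.induction_on with
        | H g =>
        exact hgr g s t y hy
      · exact goodRel_of_adm.{v, v, u, w, u} e c Z hZ (Or.inl hcZ) l
    · refine ⟨PUnit.{u + 1}, inferInstance, 1, 1, fun _ _ _ _ _ => rfl, fun l => ?_⟩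
      exact goodRel_of_adm.{v, v', u, w, u} 1 1 Z hZ (Or.inr hres) l
  · intro i j
    rw [im_coeff, ← Finsupp.mapDomain_comp]
    exact hL i j

end

/-- The main theorem: extensions by kernels which are residually linear over suitable group
rings. -/
theorem npp_rel {G : Type u} [Group G]
    (hG : ∀ S : Finset G, ∃ (H : Type w') (_ : Group H) (K : Subgroup H) (_ : K.Normal)
      (φ : G → H), Set.InjOn φ S ∧ (∀ a ∈ S, ∀ b ∈ S, φ (a * b) = φ a * φ b) ∧ NPP (H ⧸ K) ∧
      ∀ N : Subgroup H, N.Normal → N ≤ K → N ≠ ⊥ →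
        Subgroup.normalClosure {y | y ∈ N ∧ ∃ a ∈ φ '' S, ∃ b ∈ φ '' S, y = a⁻¹ * b} = N →
        ∃ (L : Subgroup H) (_ : L.Normal) (k : Type v) (_ : CommRing k) (_ : IsDomain k)
          (Y : Type w) (_ : Group Y) (d : ℕ)
          (ρ : H →* Matrix (Fin d) (Fin d) (MonoidAlgebra k Y)),
          N ≤ L ∧ L ⊓ ρ.ker < N ∧ ∀ k₀ : Subalgebra ℤ k, k₀.FG → ∀ Y₀ : Subgroup Y, Y₀.FG →
            AdmPair.{w', v, v', w} L ρ k₀ Y₀) :
    NPP G := by
  classical
  apply NPP.of_matrix
  intro m A hA hK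
  let S : Finset G := Finset.univ.biUnion fun ij : Fin m × Fin m => (A ij.1 ij.2).coeff.support
  have hS : ∀ i j, (A i j).coeff.support ⊆ S := fun i j a ha =>
    Finset.mem_biUnion.2 ⟨(i, j), Finset.mem_univ _, ha⟩
  obtain ⟨H, _, K, _, φ, hinj, hφ, hN, hgood⟩ := hG S
  obtain ⟨A', hA', hK', hsupp, h0⟩ := transfer' A hA hK S hS φ hinj hφ
  apply h0
  have hKK : Kills K A' := by
    rw [kills_iff_im_eq_zero]
    exact hN.matrix _ (im_idem _ hA') (kills_im _ ⊤ ⊤ le_top hK')
  obtain ⟨N, hNn, hNK, hN, hNT, hmin⟩ := exists_minimal'' (φ '' S) hsupp K hKK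
  by_cases hbot : N = ⊥
  · rw [hbot] at hN
    exact hN.eq_zero
  exfalso
  obtain ⟨L, _, k, _, _, Y, _, d, ρ, hNL, hlt, hyp⟩ := hgood N hNn hNK hbot hNT
  exact hlt.ne (hmin _ inferInstance hlt.le (kills_inf_ker hA' L (hN.mono hNL) ρ hyp))

end Lin

end

end Pool.Agent.H677_Perf
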