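import Pool.Agent.H677_Perf.Rel4

set_option autoImplicit false
set_option linter.unusedSectionVars false

universe u v v' w w' w''
set_option maxHeartbeats 400000

namespace Pool.Agent.H677_Perf

noncomputable section

namespace Lin

section any

variable {Q : Type u} [Group Q] {n : Type} [Fintype n] [DecidableEq n]
  {A : Matrix n n (MonoidAlgebra ℤ Q)} {W : Type w} [Group W]

open Classical in
/-- Linear representations over arbitrary commutative rings, restricted to the cosets of the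
kernel of a homomorphism over which the idempotent vanishes. -/
theorem evalFn_rel_any {k : Type v} [CommRing k] (hA : A * A = A) (q : Q →* W)
    (hK : KillsF q A) {I : Type} [Fintype I] [DecidableEq I]
    (σ : Q →* Matrix I I k) (s r : I) (x : W) (i j : n) :
    evalFn (fun g => if q g = x then σ g s r else 0) (A i j) = 0 := by
  let S : Finset Q := Finset.univ.biUnion fun ij : n × n => (A ij.1 ij.2).coeff.support
  have hS : ∀ i j, (A i j).coeff.support ⊆ S := fun i j a ha =>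
    Finset.mem_biUnion.2 ⟨(i, j), Finset.mem_univ _, ha⟩
  let X : Finset k := S.biUnion fun g => Finset.univ.biUnion fun ij : I × I =>
    {σ g ij.1 ij.2, σ g⁻¹ ij.1 ij.2}
  let k₀ : Subalgebra ℤ k := Algebra.adjoin ℤ (X : Set k)
  have hk₀ : k₀.FG := ⟨X, rfl⟩
  have hft : Algebra.FiniteType ℤ k₀ := (Subalgebra.fg_iff_finiteType k₀).1 hk₀
  let inc : Matrix I I k₀ →+* Matrix I I k := (k₀.val.toRingHom).mapMatrix (m := I)
  have hincv : ∀ (y : Matrix I I k₀) a b, inc y a b = (y a b : k) := fun y a b => rfl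
  have hinc : Function.Injective inc := by
    intro y y' h
    refine Matrix.ext fun a b => Subtype.ext ?_
    exact congrFun (congrFun h a) b
  have hrange : ∀ y : Matrix I I k, (∀ a b, y a b ∈ k₀) → y ∈ inc.range := by
    intro y hy
    exact ⟨Matrix.of fun a b => ⟨y a b, hy a b⟩, Matrix.ext fun a b => rfl⟩
  let Q₁ : Subgroup Q :=
    { carrier := {g | σ g ∈ inc.range ∧ σ g⁻¹ ∈ inc.range}
      mul_mem' := fun {a b} ha hb => by
        refine ⟨?_, ?_⟩
        · rw [map_mul]
          exact inc.range.mul_mem ha.1 hb.1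
        · rw [mul_inv_rev, map_mul]
          exact inc.range.mul_mem hb.2 ha.2
      one_mem' := by
        refine ⟨?_, ?_⟩
        · rw [map_one]
          exact inc.range.one_mem
        · rw [inv_one, map_one]
          exact inc.range.one_mem
      inv_mem' := fun {a} ha => by
        refine ⟨ha.2, ?_⟩
        rw [inv_inv]
        exact ha.1 }
  have hQ₁ : ∀ g : Q₁, ∃ y : Matrix I I k₀, inc y = σ g := fun g => g.2.1
  choose t ht using hQ₁
  let σ₁ : Q₁ →* Matrix I I k₀ :=
    { toFun := t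
      map_one' := by
        apply hinc
        rw [ht, map_one, Subgroup.coe_one, map_one]
      map_mul' := fun a b => by
        apply hinc
        rw [ht, map_mul, ht, ht, Subgroup.coe_mul, map_mul] }
  have hσ₁ : ∀ g, inc (σ₁ g) = σ g := ht
  have hSQ : ∀ s ∈ S, s ∈ Q₁ := by
    intro g hg
    constructor
    · apply hrange
      intro a b
      apply Algebra.subset_adjoin
      exact Finset.mem_coe.2 (Finset.mem_biUnion.2 ⟨g, hg, Finset.mem_biUnion.2
        ⟨(a, b), Finset.mem_univ _, by simp⟩⟩)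
    · apply hrange
      intro a b
      apply Algebra.subset_adjoin
      exact Finset.mem_coe.2 (Finset.mem_biUnion.2 ⟨g, hg, Finset.mem_biUnion.2
        ⟨(a, b), Finset.mem_univ _, by simp⟩⟩)
  let φ : Q → Q₁ := fun g => if h : g ∈ Q₁ then ⟨g, h⟩ else 1
  have hφ : ∀ g ∈ Q₁, ((φ g : Q₁) : Q) = g := by
    intro g hg
    simp only [φ, dif_pos hg]
  have hφm : ∀ a ∈ S, ∀ b ∈ S, φ (a * b) = φ a * φ b := by
    intro a ha b hb
    apply Subtype.ext
    rw [hφ _ (Q₁.mul_mem (hSQ a ha) (hSQ b hb)), Subgroup.coe_mul, hφ _ (hSQ a ha),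
      hφ _ (hSQ b hb)]
  obtain ⟨A', hA', hc'⟩ := transferC hA S hS φ hφm
  have hqφ : ∀ g ∈ S, (q.comp Q₁.subtype) (φ g) = q g := by
    intro g hg
    change q ((φ g : Q₁) : Q) = q g
    rw [hφ _ (hSQ g hg)]
  have hK' : KillsF (q.comp Q₁.subtype) A' := by
    intro i j
    rw [hc', ← Finsupp.mapDomain_comp]
    refine mapDomain_eq_zero_of_fiber q _ _ ?_ (hK i j)
    intro a ha b hb hab
    change (q.comp Q₁.subtype) (φ a) = (q.comp Q₁.subtype) (φ b)
    rw [hqφ a (hS i j ha), hqφ b (hS i j hb), hab]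
  have h1 := evalFn_rel (rf_of_finiteType' k₀) hA' (q.comp Q₁.subtype) hK' σ₁ s r x i j
  have h2 := map_evalFn (k₀.val.toRingHom : k₀ →+* k).toAddMonoidHom
    (fun g => if (q.comp Q₁.subtype) g = x then σ₁ g s r else 0) (A' i j)
  rw [h1, map_zero] at h2
  refine Eq.trans ?_ h2.symm
  rw [evalFn_eq_sum, evalFn_eq_sum, hc',
    Finsupp.sum_mapDomain_index (by simp) (by intro b m₁ m₂; rw [add_smul])]
  refine Finsupp.sum_congr fun g hg => ?_
  have hgS := hS i j hg
  congr 1
  rw [hqφ g hgS]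
  by_cases hgx : q g = x
  · rw [if_pos hgx, if_pos hgx]
    have h3 : inc (σ₁ (φ g)) s r = σ g s r := by
      rw [hσ₁, hφ _ (hSQ g hgS)]
    exact h3.symm
  · rw [if_neg hgx, if_neg hgx]
    exact (AddMonoidHom.map_zero (k₀.val.toRingHom : k₀ →+* k).toAddMonoidHom).symm

open Classical in
/-- Matrix coefficients of representations over group rings `kV` on the cosets of the kernel of
a homomorphism to `W`, if there are no perfect projectives over `(kW)V`. -/
theorem evalFn_rel_coeff {k : Type v} [CommRing k] (hA : A * A = A) (q : Q →* W)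
    (hK : KillsF q A) {V : Type w'} [Group V] (hV : NPPr (MonoidAlgebra k W) V)
    {J : Type} [Fintype J] [DecidableEq J]
    (σ : Q →* Matrix J J (MonoidAlgebra k V)) (s t : J) (v : V) (x : W) (i j : n) :
    evalFn (fun g => if q g = x then (σ g s t).coeff v else 0) (A i j) = 0 := by
  let B : Matrix (n × J) (n × J) (MonoidAlgebra k (PW W V)) :=
    Matrix.compRingEquiv n J (MonoidAlgebra k (PW W V)) (A.map (liftI (twRep q σ)))
  have hBe : ∀ i s j r, B (i, s) (j, r) = liftI (twRep q σ) (A i j) s r := fun i s j r => rfl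
  have hB : B * B = B := by
    simp only [B]
    rw [← map_mul, ← Matrix.map_mul, hA]
  have h0 : B = 0 := by
    refine eq_zero_of_residual.{v, max v w, w, w'} ?_ hB ?_
    · intro a ha
      exact ⟨MonoidAlgebra k W, inferInstance, RingHom.id _, ha, hV.mp⟩
    · rintro ⟨a, s⟩ ⟨b, r⟩
      ext y
      rw [hBe, fst_liftI_twRep]
      exact evalFn_rel_any hA q hK (((aug k V).mapMatrix (m := J)).toMonoidHom.comp σ) s r y a b
  have h1 := liftI_twRep_coeff q σ s t x v (A i j)
  rw [← hBe, h0] at h1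
  rw [← h1]
  simp

open Classical in
/-- The parts of the entries in the cosets go to zero. -/
theorem sum_coset_eq_zero {k : Type v} [CommRing k] (hA : A * A = A) (q : Q →* W)
    (hK : KillsF q A) {V : Type w'} [Group V] (hV : NPPr (MonoidAlgebra k W) V)
    {J : Type} [Fintype J] [DecidableEq J]
    (σ : Q →* Matrix J J (MonoidAlgebra k V)) (x : W) (i j : n) :
    (A i j).coeff.sum (fun g a => if q g = x then a • σ g else 0) = 0 := by
  refine Matrix.ext fun s t => ?_
  rw [Matrix.zero_apply]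
  apply MonoidAlgebra.ext
  ext v
  have h1 := evalFn_rel_coeff hA q hK hV σ s t v x i j
  rw [evalFn_eq_sum] at h1
  have h2 : ((A i j).coeff.sum (fun g a => if q g = x then a • σ g else 0) s t).coeff v =
      (A i j).coeff.sum fun g a => a • (if q g = x then (σ g s t).coeff v else 0) := by
    rw [Finsupp.sum, Matrix.sum_apply, MonoidAlgebra.coeff_sum, Finsupp.finsetSum_apply,
      Finsupp.sum]
    refine Finset.sum_congr rfl fun g _ => ?_
    by_cases hg : q g = x
    · rw [if_pos hg, if_pos hg, Matrix.smul_apply, MonoidAlgebra.coeff_smul, Finsupp.smul_apply]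
    · rw [if_neg hg, if_neg hg, smul_zero, Matrix.zero_apply]
      rfl
  rw [h2, h1]
  rfl

end any

end Lin

/-- The elements of `ℤQ` whose parts in the cosets of the normal subgroups `M ≥ L` go to zero in
all matrix representations over group rings `kΓ` such that there are no perfect projectives over
`(k[Q ⧸ M])Γ`. -/
def KilledSet9 {Q : Type u} [Group Q] (L : Subgroup Q) : Set (MonoidAlgebra ℤ Q) :=
  {x : MonoidAlgebra ℤ Q | ∀ (M : Subgroup Q) (_ : M.Normal), L ≤ M →
    ∀ (k : Type u) (_ : CommRing k) (Γ : Type u) (_ : Group Γ),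
      Lin.NPPr (MonoidAlgebra k (Q ⧸ M)) Γ → ∀ (d : ℕ)
      (ρ : Q →* Matrix (Fin d) (Fin d) (MonoidAlgebra k Γ)) (C : Q ⧸ M) (y : MonoidAlgebra ℤ Q),
      (∀ g : Q, ((g : Q ⧸ M) = C → y.coeff g = x.coeff g) ∧ ((g : Q ⧸ M) ≠ C → y.coeff g = 0)) →
      MonoidAlgebra.lift ℤ (Matrix (Fin d) (Fin d) (MonoidAlgebra k Γ)) Q ρ y = 0}

/-- The intersection of the powers of the ideal `KilledSet9`. -/
def KilledIdeal9 {Q : Type u} [Group Q] (L : Subgroup Q) : Submodule ℤ (MonoidAlgebra ℤ Q) :=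
  ⨅ m : ℕ, (Submodule.span ℤ (KilledSet9 L)) ^ (m + 1)

lemma mem_killedIdeal9 {Q : Type u} [Group Q] {n : Type} [Fintype n] [DecidableEq n]
    {A : Matrix n n (MonoidAlgebra ℤ Q)} (hA : A * A = A) {L : Subgroup Q} (hL : Kills L A)
    (i j : n) : A i j ∈ KilledIdeal9 L := by
  have key : ∀ i j, A i j ∈ KilledSet9 L := by
    intro i j M _ hLM k _ Γ _ hΓ d ρ C y hy
    classical
    have h1 := Lin.sum_coset_eq_zero hA (QuotientGroup.mk' M) (hL.mono hLM) hΓ ρ C i j
    rw [MonoidAlgebra.lift_apply]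
    rw [← h1, Finsupp.sum, Finsupp.sum]
    have hsub : y.coeff.support ⊆ (A i j).coeff.support := by
      intro g hg
      rw [Finsupp.mem_support_iff] at hg ⊢
      by_cases hgC : (g : Q ⧸ M) = C
      · rwa [← (hy g).1 hgC]
      · exact absurd ((hy g).2 hgC) hg
    rw [Finset.sum_subset hsub (by
      intro g _ hg
      rw [Finsupp.notMem_support_iff.1 hg, zero_smul])]
    refine Finset.sum_congr rfl fun g _ => ?_
    by_cases hgC : (g : Q ⧸ M) = C
    · rw [(hy g).1 hgC]
      exact (if_pos hgC).symm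
    · rw [(hy g).2 hgC, zero_smul]
      exact (if_neg hgC).symm
  exact mem_iInf_pow hA _ key i j

/-- The condition on a normal subgroup `N`, relative to a set `E`. -/
def Reducible9 {G : Type u} [Group G] (E : Set G) (N : Subgroup G) : Prop :=
  (∃ p : ℕ, p.Prime ∧ ∀ U : Subgroup G, U ≤ N → U.FG →
    {y | y ∈ N ∧ ∃ a ∈ E, ∃ b ∈ E, y = a⁻¹ * b} ⊆ (U : Set G) →
    ∃ φ : U →* Multiplicative (ZMod p), φ ≠ 1) ∨
  (∃ (B : Subgroup G) (_ : B.Normal) (Γ : Type u) (_ : Group Γ) (d : ℕ)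
    (ρ : G →* Matrix (Fin d) (Fin d) (MonoidAlgebra ℝ Γ)),
    B < N ∧ (∀ x ∈ KilledIdeal9 N, (∀ g ∈ x.coeff.support, g ∈ E) →
      MonoidAlgebra.lift ℤ (Matrix (Fin d) (Fin d) (MonoidAlgebra ℝ Γ)) G ρ x = 0 →
      x.coeff.mapDomain (QuotientGroup.mk : G → G ⧸ B) = 0) ∧
    ∃ h ∈ NullOn (KilledIdeal9 N), ∀ y, (y = 1 ∨ BadIn E y) → h y = ((ρ y).trace).coeff 1)

/-- Core theorem. -/
theorem eq_zero_of_kills9 {G : Type u} [Group G] {n : Type} [Fintype n] [DecidableEq n]
    (K : Subgroup G) [hKn : K.Normal] (A : Matrix n n (MonoidAlgebra ℤ G)) (S : Set G)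
    (hSf : S.Finite) (hS : ∀ i j, ∀ a ∈ (A i j).coeff.support, a ∈ S)
    (hyp : ∀ N : Subgroup G, N.Normal → N ≤ K → N ≠ ⊥ →
      Subgroup.normalClosure {y | y ∈ N ∧ ∃ a ∈ S, ∃ b ∈ S, y = a⁻¹ * b} = N → Reducible9 S N)
    (hA : A * A = A) (hK : Kills K A) : A = 0 := by
  classical
  obtain ⟨N, hNn, hNK, hN, hNT, hmin⟩ := exists_minimal'' S hS K hK
  by_cases hbot : N = ⊥
  · rw [hbot] at hN
    exact hN.eq_zero
  exfalso
  have hTfin : {y | y ∈ N ∧ ∃ a ∈ S, ∃ b ∈ S, y = a⁻¹ * b}.Finite := by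
    refine Set.Finite.subset (Set.Finite.image2 (fun a b => a⁻¹ * b) hSf hSf) ?_
    rintro y ⟨_, a, ha, b, hb, rfl⟩
    exact ⟨a, ha, b, hb, rfl⟩
  rcases hyp N hNn hNK hbot hNT with ⟨p, hp, hU⟩ | ⟨B, hBn, Γ, _, d, ρ, hB, hρ, h, hh, hhB⟩
  · have : Fact p.Prime := ⟨hp⟩
    have h1 := kills_pcore p N A hA hN
    have h3 := hmin _ (pcore_normal p _) (pcore_le p _) h1
    obtain ⟨U, hU1, hU2, hU3, hU4⟩ := exists_finset_pcore (p := p)
      (N := N) hTfin.toFinset (by
        intro x hx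
        rw [h3]
        exact (hTfin.mem_toFinset.1 hx).1)
    obtain ⟨φ, hφ⟩ := hU U hU1 hU2 fun x hx => hU4 x (hTfin.mem_toFinset.2 hx)
    exact hφ (hU3 φ)
  · exact hB.ne (hmin _ hBn hB.le
      (kills_of_nullOn8 B hA (mem_killedIdeal9 hA hN) _ hS ρ hρ h hh hhB))

/-- The main theorem. -/
theorem npp_main9 {G : Type v} [Group G]
    (hG : ∀ S : Finset G, ∃ (H : Type u) (_ : Group H) (K : Subgroup H) (_ : K.Normal) (φ : G → H),
      Set.InjOn φ S ∧ (∀ a ∈ S, ∀ b ∈ S, φ (a * b) = φ a * φ b) ∧ NPP (H ⧸ K) ∧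
      ∀ N : Subgroup H, N.Normal → N ≤ K → N ≠ ⊥ →
        Subgroup.normalClosure {y | y ∈ N ∧ ∃ a ∈ φ '' S, ∃ b ∈ φ '' S, y = a⁻¹ * b} = N →
        Reducible9 (φ '' S) N) :
    NPP G := by
  classical
  apply NPP.of_matrix
  intro m A hA hK
  let S : Finset G := Finset.univ.biUnion fun ij : Fin m × Fin m => (A ij.1 ij.2).coeff.support
  have hS : ∀ i j, (A i j).coeff.support ⊆ S := fun i j a ha =>
    Finset.mem_biUnion.2 ⟨(i, j), Finset.mem_univ _, ha⟩
  obtain ⟨H, _, K, _, φ, hinj, hφ, hN, hgood⟩ := hG S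
  obtain ⟨A', hA', hK', hsupp, h0⟩ := transfer' A hA hK S hS φ hinj hφ
  apply h0
  apply eq_zero_of_kills9 K A' (φ '' S) (S.finite_toSet.image φ) hsupp hgood hA'
  rw [kills_iff_im_eq_zero]
  exact hN.matrix _ (im_idem _ hA') (kills_im _ ⊤ ⊤ le_top hK')

end

end Pool.Agent.H677_Perf
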