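import Pool.Agent.H677_Perf.Rel5

set_option autoImplicit false
set_option linter.unusedSectionVars false

universe u v v' w w' w''
set_option maxHeartbeats 400000

namespace Pool.Agent.H677_Perf

noncomputable section

namespace Lin

/-- The normal subgroup `U` of `V` consists of non-exceptional elements or is locally
`p`-indicable. -/
def Tame (k : Type v) [CommRing k] {V : Type w} [Group V] (U : Subgroup V) : Prop :=
  (CharZero k ∧ ∀ z ∈ U, z ≠ 1 → NonExc k z) ∨ LocInd k U

/-- Every nontrivial normal subgroup below `X` has a tame top factor. -/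
def TameChain (k : Type v) [CommRing k] {Y : Type w} [Group Y] (X : Subgroup Y) : Prop :=
  ∀ M : Subgroup Y, M.Normal → M ≤ X → M ≠ ⊥ →
    ∃ (M' : Subgroup Y) (_ : M'.Normal), M' < M ∧ Tame k (M.map (QuotientGroup.mk' M'))

section

variable {n : Type} [Fintype n] [DecidableEq n]

/-- killing by a normal subgroup, over any ring -/
lemma kills_iff_map_eq_zero {k : Type v} [CommRing k] {G : Type w} [Group G] (N : Subgroup G)
    [N.Normal] (B : Matrix n n (MonoidAlgebra k G)) :
    Kills N B ↔ B.map (MonoidAlgebra.mapDomainRingHom k (QuotientGroup.mk' N)) = 0 := by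
  constructor
  · intro h
    refine Matrix.ext fun i j => ?_
    apply MonoidAlgebra.ext
    exact h i j
  · intro h i j
    have h1 := congrFun (congrFun h i) j
    exact congrArg MonoidAlgebra.coeff h1

/-- Idempotents over `k[W × Y ^ j]` which vanish modulo `X ^ j` vanish, if every nontrivial normal
subgroup below `X` has a tame top factor. -/
theorem eq_zero_of_chain {k : Type v} [CommRing k] [IsDomain k] [Algebra.FiniteType ℤ k]
    {W : Type w} [Group W] {Y : Type w'} [Group Y] (X : Subgroup Y) [hXn : X.Normal]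
    (hX : TameChain k X) {j : ℕ} {B : Matrix n n (MonoidAlgebra k (PW W (Fin j → Y)))}
    (hB : B * B = B)
    (hK : KillsF (PW.map W ((QuotientGroup.mk' X).compLeft (Fin j))) B) : B = 0 := by
  classical
  let pr : ∀ M : Subgroup Y, [M.Normal] → (PW W (Fin j → Y) →* PW W (Fin j → Y ⧸ M)) :=
    fun M _ => PW.map W ((QuotientGroup.mk' M).compLeft (Fin j))
  have hpr : ∀ (M : Subgroup Y) [M.Normal] (z : PW W (Fin j → Y)), z ∈ (pr M).ker ↔
      PW.fst z = 1 ∧ ∀ i, PW.snd z i ∈ M := by
    intro M _ z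
    rw [MonoidHom.mem_ker]
    constructor
    · intro hz
      constructor
      · have h1 := congrArg (PW.fst (W := W) (V := Fin j → Y ⧸ M)) hz
        rw [map_one] at h1
        exact h1
      · intro i
        have h1 := congrFun (congrArg (PW.snd (W := W) (V := Fin j → Y ⧸ M)) hz) i
        rw [map_one] at h1
        exact (QuotientGroup.eq_one_iff _).1 h1
    · rintro ⟨h1, h2⟩
      apply PW.ext
      · rw [map_one]
        exact h1
      · rw [map_one]
        funext i
        exact (QuotientGroup.eq_one_iff _).2 (h2 i)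
  have hK' : Kills (pr X).ker B := by
    refine KillsF.of_fiber hK fun _ _ a _ b _ hab => ?_
    rw [QuotientGroup.eq, MonoidHom.mem_ker, map_mul, map_inv]
    simp only [pr]
    rw [hab, inv_mul_cancel]
  obtain ⟨N, hNn, hNK, hN, -, hmin⟩ := exists_minimal (pr X).ker hK'
  by_cases hbot : N = ⊥
  · rw [hbot] at hN
    exact hN.eq_zero
  exfalso
  let M : Subgroup Y := Subgroup.normalClosure {y | ∃ z ∈ N, ∃ i, y = PW.snd z i}
  have hMX : M ≤ X := by
    apply Subgroup.normalClosure_le_normal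
    rintro y ⟨z, hz, i, rfl⟩
    exact ((hpr X z).1 (hNK hz)).2 i
  have hMmem : ∀ z ∈ N, ∀ i, PW.snd z i ∈ M := fun z hz i =>
    Subgroup.subset_normalClosure ⟨z, hz, i, rfl⟩
  have hMb : M ≠ ⊥ := by
    intro h
    apply hbot
    rw [Subgroup.eq_bot_iff_forall]
    intro z hz
    apply PW.ext
    · rw [map_one]
      exact ((hpr X z).1 (hNK hz)).1
    · rw [map_one]
      funext i
      have h1 := hMmem z hz i
      rw [h, Subgroup.mem_bot] at h1
      exact h1
  obtain ⟨M', hM'n, hlt, ht⟩ := hX M Subgroup.normalClosure_normal hMX hMb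
  let N' : Subgroup (PW W (Fin j → Y)) := N ⊓ (pr M').ker
  have hN'N : N' ≤ N := inf_le_left
  have hkill : Kills N' B := by
    rw [kills_iff_map_eq_zero]
    let π : PW W (Fin j → Y) ⧸ N' →* PW W (Fin j → Y) ⧸ N :=
      QuotientGroup.map N' N (MonoidHom.id _) hN'N
    have hπ : ∀ g : PW W (Fin j → Y), π (QuotientGroup.mk' N' g) = QuotientGroup.mk' N g :=
      fun g => rfl
    let ev : Fin j → (PW W (Fin j → Y) →* Y ⧸ M') := fun i =>
      (QuotientGroup.mk' M').comp ((Pi.evalMonoidHom (fun _ : Fin j => Y) i).comp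
        (PW.snd (W := W) (V := Fin j → Y)))
    have hev : ∀ i z, ev i z = QuotientGroup.mk' M' (PW.snd z i) := fun i z => rfl
    have hev1 : ∀ i, N' ≤ (ev i).ker := by
      intro i z hz
      rw [MonoidHom.mem_ker, hev]
      exact (QuotientGroup.eq_one_iff _).2 (((hpr M' z).1 hz.2).2 i)
    let τ : Fin j → (PW W (Fin j → Y) ⧸ N' →* Y ⧸ M') := fun i =>
      QuotientGroup.lift N' (ev i) (hev1 i)
    have hτ : ∀ i g, τ i (QuotientGroup.mk' N' g) = ev i g := fun i g => rfl
    have hker : ∀ z ∈ π.ker, (∀ i, τ i z ∈ M.map (QuotientGroup.mk' M')) ∧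
        (z ≠ 1 → ∃ i, τ i z ≠ 1) := by
      intro z hz
      obtain ⟨g, rfl⟩ := QuotientGroup.mk'_surjective _ z
      rw [MonoidHom.mem_ker, hπ, QuotientGroup.mk'_apply, QuotientGroup.eq_one_iff] at hz
      refine ⟨fun i => ?_, fun hz1 => ?_⟩
      · rw [hτ, hev]
        exact Subgroup.mem_map_of_mem _ (hMmem g hz i)
      · by_contra hcon
        push Not at hcon
        apply hz1
        rw [QuotientGroup.mk'_apply, QuotientGroup.eq_one_iff]
        refine ⟨hz, (hpr M' g).2 ⟨((hpr X g).1 (hNK hz)).1, fun i => ?_⟩⟩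
        have h1 := hcon i
        rw [hτ, hev, QuotientGroup.mk'_apply, QuotientGroup.eq_one_iff] at h1
        exact h1
    refine eq_zero_of_ker k π ?_ ?_ ?_
    · rcases ht with ⟨hz, h⟩ | ⟨p, hp, hpk, h⟩
      · left
        refine ⟨hz, fun z hz hz1 => ?_⟩
        obtain ⟨i, hi⟩ := (hker z hz).2 hz1
        exact NonExc.of_map (τ i) (h _ ((hker z hz).1 i) hi)
      · right
        refine ⟨p, hp, hpk, ?_⟩
        refine locPInd_of_homs _ hp h (ι := Fin j) (fun i => (τ i).comp π.ker.subtype) ?_ ?_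
        · intro i s
          exact (hker s s.2).1 i
        · intro s hs
          obtain ⟨i, hi⟩ := (hker s s.2).2 (fun h => hs (Subtype.ext h))
          exact ⟨i, hi⟩
    · rw [← Matrix.map_mul, hB]
    · intro s t
      rw [Matrix.map_apply]
      have h1 : (MonoidAlgebra.mapDomainRingHom k (QuotientGroup.mk' N') (B s t)).coeff =
        (B s t).coeff.mapDomain (QuotientGroup.mk' N') := rfl
      rw [h1, ← Finsupp.mapDomain_comp]
      exact hN s t
  have h1 := hmin N' inferInstance hN'N hkill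
  apply hlt.not_ge
  apply Subgroup.normalClosure_le_normal
  rintro y ⟨z, hz, i, rfl⟩
  rw [← h1] at hz
  exact ((hpr M' z).1 hz.2).2 i

/-- The condition on a pair `(k, Y)` relative to `W`, with a grading of `Y` by `X`. -/
theorem goodRel_of_chain {k : Type v} [CommRing k] [IsDomain k] [Algebra.FiniteType ℤ k]
    {W : Type w} [Group W] {Y : Type w'} [Group Y] {X : Type w''} [Group X]
    (e : W →* X) (c : Y →* X) (Z : Subgroup Y) [Z.Normal] (hZ : TameChain k Z)
    (hres : c.ker ≤ Z ∨ ResRel.{v, v', w, w'} k W (Y ⧸ Z)) (j : ℕ) : GoodRel k e c j := by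
  intro m _ B hB hK hD
  classical
  let π : (Fin j → Y) →* (Fin j → Y ⧸ Z) := (QuotientGroup.mk' Z).compLeft (Fin j)
  have hπ : ∀ y i, π y i = QuotientGroup.mk' Z (y i) := fun y i => rfl
  refine eq_zero_of_chain Z hZ hB ?_
  rcases hres with hres | hres
  · intro s t
    refine mapDomain_eq_zero_of_fiber (PW.fst (W := W) (V := Fin j → Y)) _ _ ?_ (hK s t)
    intro a ha b hb hab
    apply PW.ext
    · rw [PW.fst_map, PW.fst_map, hab]
    · rw [PW.snd_map, PW.snd_map]
      funext i
      change π (PW.snd a) i = π (PW.snd b) i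
      rw [hπ, hπ, QuotientGroup.mk'_apply, QuotientGroup.mk'_apply, QuotientGroup.eq]
      apply hres
      rw [MonoidHom.mem_ker, map_mul, map_inv, hD s t a ha, hD s t b hb, hab, inv_mul_cancel]
  · have hB' : B.map (MonoidAlgebra.mapDomainRingHom k (PW.map W π)) *
        B.map (MonoidAlgebra.mapDomainRingHom k (PW.map W π)) =
        B.map (MonoidAlgebra.mapDomainRingHom k (PW.map W π)) := by
      rw [← Matrix.map_mul, hB]
    have h0 : B.map (MonoidAlgebra.mapDomainRingHom k (PW.map W π)) = 0 := by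
      refine eq_zero_of_residual.{v, v', w, w'} (V := Fin j → Y ⧸ Z) ?_ hB' ?_
      · intro a ha
        obtain ⟨F, _, ω, hω, hF⟩ := hres a ha
        exact ⟨F, inferInstance, ω, hω, (hF j).mp⟩
      · intro s t
        rw [Matrix.map_apply]
        have h1 : (MonoidAlgebra.mapDomainRingHom k (PW.map W π) (B s t)).coeff =
          (B s t).coeff.mapDomain (PW.map W π) := rfl
        rw [h1, ← Finsupp.mapDomain_comp]
        exact hK s t
    intro s t
    have h1 := congrFun (congrFun h0 s) t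
    exact congrArg MonoidAlgebra.coeff h1

end

/-- The condition on a representation, a finitely generated subring and a finitely generated
subgroup. -/
def AdmPair6 {H : Type u} [Group H] (L : Subgroup H) [L.Normal] {k : Type v} [CommRing k]
    {Y : Type w} [Group Y] {d : ℕ} (ρ : H →* Matrix (Fin d) (Fin d) (MonoidAlgebra k Y))
    (k₀ : Subalgebra ℤ k) (Y₀ : Subgroup Y) : Prop :=
  ∃ (Z : Subgroup Y₀) (_ : Z.Normal), TameChain k₀ Z ∧
    ((∃ (M : Subgroup H) (_ : M.Normal) (c : Y₀ →* H ⧸ M), L ≤ M ∧ c.ker ≤ Z ∧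
        ∀ h s t, ∀ y : Y₀, (y : Y) ∈ (ρ h s t).coeff.support → c y = QuotientGroup.mk h) ∨
      ResRel.{v, v', u, w} k₀ (H ⧸ L) (Y₀ ⧸ Z))

section

variable {H : Type u} [Group H] {n : Type} [Fintype n] [DecidableEq n]
  {A : Matrix n n (MonoidAlgebra ℤ H)}

/-- A normal subgroup which kills an idempotent can be intersected with the kernel of a
representation over a suitable group ring. -/
theorem kills_inf_ker6 (hA : A * A = A) (L : Subgroup H) [L.Normal] (hL : Kills L A)
    {k : Type v} [CommRing k] [IsDomain k] {Y : Type w} [Group Y] {d : ℕ}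
    (ρ : H →* Matrix (Fin d) (Fin d) (MonoidAlgebra k Y))
    (hyp : ∀ k₀ : Subalgebra ℤ k, k₀.FG → ∀ Y₀ : Subgroup Y, Y₀.FG →
      AdmPair6.{u, v, v', w} L ρ k₀ Y₀) : Kills (L ⊓ ρ.ker) A := by
  classical
  rw [kills_iff_im_eq_zero]
  have hBL : L ⊓ ρ.ker ≤ L := inf_le_left
  let q : H ⧸ (L ⊓ ρ.ker) →* H ⧸ L := QuotientGroup.map _ _ (MonoidHom.id H) hBL
  have hq : ∀ h : H, q (QuotientGroup.mk h) = QuotientGroup.mk h := fun h => rfl
  let ρ' : H ⧸ (L ⊓ ρ.ker) →* Matrix (Fin d) (Fin d) (MonoidAlgebra k Y) :=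
    QuotientGroup.lift (L ⊓ ρ.ker) ρ inf_le_right
  have hρ' : ∀ h : H, ρ' (QuotientGroup.mk h) = ρ h := fun h => rfl
  refine eq_zero_of_rel_fg.{u, v, u, w, u} q ρ' ?_ ?_ (im_idem _ hA) ?_
  · intro a b
    induction a using QuotientGroup.induction_on with
    | H a =>
    induction b using QuotientGroup.induction_on with
    | H b =>
    intro h1 h2
    rw [hq, hq, QuotientGroup.eq] at h1
    rw [hρ', hρ'] at h2
    rw [QuotientGroup.eq]
    have h3 : a⁻¹ * b ∈ ρ.ker := by
      rw [MonoidHom.mem_ker, map_mul, ← h2, ← map_mul, inv_mul_cancel, map_one]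
    exact ⟨h1, h3⟩
  · intro k₀ hk₀ Y₀ hY₀
    have hft : Algebra.FiniteType ℤ k₀ := (Subalgebra.fg_iff_finiteType k₀).1 hk₀
    obtain ⟨Z, hZn, hZ, hres⟩ := hyp k₀ hk₀ Y₀ hY₀
    rcases hres with ⟨M, hM, c, hLM, hcZ, hgr⟩ | hres
    · let e : H ⧸ L →* H ⧸ M := QuotientGroup.map _ _ (MonoidHom.id H) hLM
      refine ⟨H ⧸ M, inferInstance, e, c, ?_, fun l => ?_⟩
      · intro g s t y hy
        induction g using QuotientGroup.induction_on with
        | H g =>
        exact hgr g s t y hy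
      · exact goodRel_of_chain.{v, v, u, w, u} e c Z hZ (Or.inl hcZ) l
    · refine ⟨PUnit.{u + 1}, inferInstance, 1, 1, fun _ _ _ _ _ => rfl, fun l => ?_⟩
      exact goodRel_of_chain.{v, v', u, w, u} 1 1 Z hZ (Or.inr hres) l
  · intro i j
    rw [im_coeff, ← Finsupp.mapDomain_comp]
    exact hL i j

end

/-- The main theorem: extensions by kernels which are residually linear over suitable group
rings. -/
theorem npp_rel6 {G : Type u} [Group G]
    (hG : ∀ S : Finset G, ∃ (H : Type w') (_ : Group H) (K : Subgroup H) (_ : K.Normal)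
      (φ : G → H), Set.InjOn φ S ∧ (∀ a ∈ S, ∀ b ∈ S, φ (a * b) = φ a * φ b) ∧ NPP (H ⧸ K) ∧
      ∀ N : Subgroup H, N.Normal → N ≤ K → N ≠ ⊥ →
        Subgroup.normalClosure {y | y ∈ N ∧ ∃ a ∈ φ '' S, ∃ b ∈ φ '' S, y = a⁻¹ * b} = N →
        ∃ (L : Subgroup H) (_ : L.Normal) (k : Type v) (_ : CommRing k) (_ : IsDomain k)
          (Y : Type w) (_ : Group Y) (d : ℕ)
          (ρ : H →* Matrix (Fin d) (Fin d) (MonoidAlgebra k Y)),
          N ≤ L ∧ L ⊓ ρ.ker < N ∧ ∀ k₀ : Subalgebra ℤ k, k₀.FG → ∀ Y₀ : Subgroup Y, Y₀.FG →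
            AdmPair6.{w', v, v', w} L ρ k₀ Y₀) :
    NPP G := by
  classical
  apply NPP.of_matrix
  intro m A hA hK
  let S : Finset G := Finset.univ.biUnion fun ij : Fin m × Fin m => (A ij.1 ij.2).coeff.support
  have hS : ∀ i j, (A i j).coeff.support ⊆ S := fun i j a ha =>
    Finset.mem_biUnion.2 ⟨(i, j), Finset.mem_univ _, ha⟩
  obtain ⟨H, _, K, _, φ, hinj, hφ, hN, hgood⟩ := hG S
  obtain ⟨A', hA', hK', hsupp, h0⟩ := transfer' A hA hK S hS φ hinj hφ
  apply h0
  have hKK : Kills K A' := by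
    rw [kills_iff_im_eq_zero]
    exact hN.matrix _ (im_idem _ hA') (kills_im _ ⊤ ⊤ le_top hK')
  obtain ⟨N, hNn, hNK, hN, hNT, hmin⟩ := exists_minimal'' (φ '' S) hsupp K hKK
  by_cases hbot : N = ⊥
  · rw [hbot] at hN
    exact hN.eq_zero
  exfalso
  obtain ⟨L, _, k, _, _, Y, _, d, ρ, hNL, hlt, hyp⟩ := hgood N hNn hNK hbot hNT
  exact hlt.ne (hmin _ inferInstance hlt.le (kills_inf_ker6 hA' L (hN.mono hNL) ρ hyp))

end Lin

end

end Pool.Agent.H677_Perf
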