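import Pool.Agent.H677_Perf.Rel6

set_option autoImplicit false
set_option linter.unusedSectionVars false

universe u v v' w w' w'' r h
set_option maxHeartbeats 400000

namespace Pool.Agent.H677_Perf

noncomputable section

namespace Lin

section ofMatrix

/-- the augmentation -/
def augR (R : Type v) [Ring R] (G : Type u) [Group G] : MonoidAlgebra R G →+* R :=
  MonoidAlgebra.liftNCRingHom (RingHom.id R) (1 : G →* R) (fun _ _ => Commute.one_right _)

lemma augR_single {R : Type v} [Ring R] {G : Type u} [Group G] (g : G) (a : R) :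
    augR R G (MonoidAlgebra.single g a) = a := by
  unfold augR
  rw [MonoidAlgebra.liftNCRingHom_single]
  simp

lemma sumC_eq_augR {R : Type v} [Ring R] {G : Type u} [Group G] (x : MonoidAlgebra R G) :
    sumC R G x = augR R G x := by
  induction x using MonoidAlgebra.induction_linear with
  | zero => simp
  | add x y hx hy => rw [map_add, map_add, hx, hy]
  | single g a => rw [sumC_single, augR_single]

lemma augR_eq_zero_of_mem {R : Type v} [Ring R] {G : Type u} [Group G] {x : MonoidAlgebra R G}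
    (hx : x ∈ (Ideal.span (Set.range (fun g : G =>
              (MonoidAlgebra.single g (1 : R) - 1 : MonoidAlgebra R G))) :
              Ideal (MonoidAlgebra R G))) : augR R G x = 0 := by
  have h : (Ideal.span (Set.range (fun g : G =>
              (MonoidAlgebra.single g (1 : R) - 1 : MonoidAlgebra R G))) :
              Ideal (MonoidAlgebra R G)) ≤ RingHom.ker (augR R G) := by
    rw [Ideal.span_le]
    rintro _ ⟨g, rfl⟩
    rw [SetLike.mem_coe, RingHom.mem_ker]
    simp only [map_sub, map_one, augR_single, sub_self]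
  exact h hx

/-- from modules to matrices -/
theorem NPPr.of_matrix {R : Type v} [Ring R] {G : Type u} [Group G]
    (h : ∀ (m : ℕ) (A : Matrix (Fin m) (Fin m) (MonoidAlgebra R G)), A * A = A →
      (∀ i j, sumC R G (A i j) = 0) → A = 0) : NPPr R G := by
  intro P _ _ hfin hproj hspan
  obtain ⟨m, f, hf⟩ := Module.Finite.exists_fin' (MonoidAlgebra R G) P
  obtain ⟨s, hs⟩ := Module.projective_lifting_property f LinearMap.id hf
  have hs' : ∀ x, f (s x) = x := fun x => LinearMap.congr_fun hs x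
  let A : Matrix (Fin m) (Fin m) (MonoidAlgebra R G) := fun i j => s (f (Pi.single i 1)) j
  have hlin : ∀ w : Fin m → MonoidAlgebra R G, s (f w) = ∑ i, w i • s (f (Pi.single i 1)) := by
    intro w
    conv_lhs => rw [pi_eq_sum w]
    rw [map_sum, map_sum]
    refine Finset.sum_congr rfl fun i _ => ?_
    rw [← map_smul, ← map_smul]
  have hA : A * A = A := by
    refine Matrix.ext fun i j => ?_
    rw [Matrix.mul_apply]
    have h1 := congrFun (hlin (s (f (Pi.single i 1)))) j
    rw [hs', Finset.sum_apply] at h1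
    exact h1.symm
  have hK : ∀ i j, sumC R G (A i j) = 0 := by
    have h1 : ∀ x : P, ∀ j, augR R G (s x j) = 0 := by
      intro x
      have hx : x ∈ Submodule.span (MonoidAlgebra R G)
          {x : P | ∃ r : MonoidAlgebra R G, r ∈ (Ideal.span (Set.range (fun g : G =>
              (MonoidAlgebra.single g (1 : R) - 1 : MonoidAlgebra R G))) :
              Ideal (MonoidAlgebra R G)) ∧ ∃ m : P, x = r • m} := by
        rw [hspan]; trivial
      induction hx using Submodule.span_induction with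
      | mem x hx =>
        obtain ⟨r, hr, y, rfl⟩ := hx
        intro j
        rw [map_smul, Pi.smul_apply, smul_eq_mul, map_mul, augR_eq_zero_of_mem hr, zero_mul]
      | zero => intro j; simp
      | add x y _ _ hx hy =>
        intro j
        rw [map_add, Pi.add_apply, map_add, hx, hy, add_zero]
      | smul a x _ hx =>
        intro j
        rw [map_smul, Pi.smul_apply, smul_eq_mul, map_mul, hx, mul_zero]
    intro i j
    rw [sumC_eq_augR]
    exact h1 _ j
  have hA0 := h m A hA hK
  have hsf : ∀ w, s (f w) = 0 := by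
    intro w
    rw [hlin]
    refine Finset.sum_eq_zero fun i _ => ?_
    have : s (f (Pi.single i 1)) = 0 := by
      funext j
      exact congrFun (congrFun hA0 i) j
    rw [this, smul_zero]
  refine ⟨fun x y => ?_⟩
  have hx0 : ∀ x : P, x = 0 := by
    intro x
    obtain ⟨w, rfl⟩ := hf x
    have := hs' (f w)
    rw [hsf, map_zero] at this
    exact this.symm
  rw [hx0 x, hx0 y]

end ofMatrix

section toPW

/-- the first inclusion -/
def PW.inl {W : Type w} [Group W] {V : Type w'} [Group V] : W →* PW W V := MonoidHom.inl W V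

lemma PW.inl_apply {W : Type w} [Group W] {V : Type w'} [Group V] (x : W) :
    (PW.inl x : PW W V) = PW.mk x (1 : V) := rfl

variable {R : Type v} [Ring R] {W : Type w} [Group W] (e : R →+* MonoidAlgebra ℤ W)
  (G : Type u) [Group G]

/-- the homomorphism from `RG` to `ℤ[W × G]` given by `R → ℤW` -/
def toPW : MonoidAlgebra R G →+* MonoidAlgebra ℤ (PW W G) :=
  MonoidAlgebra.liftNCRingHom
    ((MonoidAlgebra.mapDomainRingHom ℤ (PW.inl (W := W) (V := G))).comp e)
    ({ toFun := fun g => MonoidAlgebra.single (PW.mk (1 : W) g) 1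
       map_one' := by rw [PW.mk_one, ← MonoidAlgebra.one_def]
       map_mul' := fun g g' => by
        rw [MonoidAlgebra.single_mul_single, PW.mk_mul, mul_one, mul_one] } :
      G →* MonoidAlgebra ℤ (PW W G))
    (by
      intro x g
      change MonoidAlgebra.mapDomainRingHom ℤ (PW.inl (W := W) (V := G)) (e x) *
        MonoidAlgebra.single (PW.mk (1 : W) g) 1 = MonoidAlgebra.single (PW.mk (1 : W) g) 1 *
        MonoidAlgebra.mapDomainRingHom ℤ (PW.inl (W := W) (V := G)) (e x)
      generalize e x = y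
      induction y using MonoidAlgebra.induction_linear with
      | zero => simp
      | add y y' hy hy' => rw [map_add, add_mul, mul_add, hy, hy']
      | single a b =>
        rw [MonoidAlgebra.mapDomainRingHom_apply, MonoidAlgebra.mapDomain_single,
          MonoidAlgebra.single_mul_single, MonoidAlgebra.single_mul_single, PW.inl_apply,
          PW.mk_mul, PW.mk_mul]
        simp)

lemma toPW_single (g : G) (a : R) : toPW e G (MonoidAlgebra.single g a) =
    MonoidAlgebra.mapDomainRingHom ℤ (PW.inl (W := W) (V := G)) (e a) *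
      MonoidAlgebra.single (PW.mk (1 : W) g) 1 := by
  unfold toPW
  rw [MonoidAlgebra.liftNCRingHom_single]
  rfl

open Classical in
lemma coeff_inl_mul (y : MonoidAlgebra ℤ W) (g g' : G) (x : W) :
    (MonoidAlgebra.mapDomainRingHom ℤ (PW.inl (W := W) (V := G)) y *
      MonoidAlgebra.single (PW.mk (1 : W) g') 1).coeff (PW.mk x g) =
      if g' = g then y.coeff x else 0 := by
  induction y using MonoidAlgebra.induction_linear with
  | zero => simp
  | add y y' hy hy' =>
    rw [map_add, add_mul, MonoidAlgebra.coeff_add, Finsupp.add_apply, hy, hy',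
      MonoidAlgebra.coeff_add, Finsupp.add_apply]
    split_ifs <;> simp
  | single a b =>
    rw [MonoidAlgebra.mapDomainRingHom_apply, MonoidAlgebra.mapDomain_single,
      MonoidAlgebra.single_mul_single, PW.inl_apply, PW.mk_mul, MonoidAlgebra.coeff_single,
      MonoidAlgebra.coeff_single, Finsupp.single_apply, Finsupp.single_apply, mul_one, mul_one,
      one_mul]
    by_cases h1 : g' = g
    · rw [if_pos h1]
      by_cases h2 : a = x
      · rw [if_pos h2, if_pos (by rw [h1, h2])]
      · rw [if_neg h2, if_neg]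
        intro h3
        exact h2 (congrArg (PW.fst (W := W) (V := G)) h3)
    · rw [if_neg h1, if_neg]
      intro h3
      exact h1 (congrArg (PW.snd (W := W) (V := G)) h3)

lemma toPW_coeff (x : MonoidAlgebra R G) (g : G) (y : W) :
    (toPW e G x).coeff (PW.mk y g) = (e (x.coeff g)).coeff y := by
  classical
  induction x using MonoidAlgebra.induction_linear with
  | zero => simp
  | add x x' hx hx' =>
    rw [map_add, MonoidAlgebra.coeff_add, Finsupp.add_apply, hx, hx', MonoidAlgebra.coeff_add,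
      Finsupp.add_apply, map_add, MonoidAlgebra.coeff_add, Finsupp.add_apply]
  | single g' a =>
    rw [toPW_single, coeff_inl_mul, MonoidAlgebra.coeff_single, Finsupp.single_apply]
    split_ifs
    · rfl
    · rw [map_zero]
      rfl

lemma fst_inl_mul (y : MonoidAlgebra ℤ W) (g' : G) :
    (MonoidAlgebra.mapDomainRingHom ℤ (PW.inl (W := W) (V := G)) y *
      MonoidAlgebra.single (PW.mk (1 : W) g') 1).coeff.mapDomain (PW.fst (W := W) (V := G)) =
      y.coeff := by
  induction y using MonoidAlgebra.induction_linear with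
  | zero => simp
  | add y y' hy hy' =>
    rw [map_add, add_mul, MonoidAlgebra.coeff_add, Finsupp.mapDomain_add, hy, hy',
      MonoidAlgebra.coeff_add]
  | single a b =>
    rw [MonoidAlgebra.mapDomainRingHom_apply, MonoidAlgebra.mapDomain_single,
      MonoidAlgebra.single_mul_single, PW.inl_apply, PW.mk_mul, MonoidAlgebra.coeff_single,
      MonoidAlgebra.coeff_single, Finsupp.mapDomain_single, PW.fst_mk, mul_one, mul_one]

lemma fst_toPW (x : MonoidAlgebra R G) :
    (toPW e G x).coeff.mapDomain (PW.fst (W := W) (V := G)) = (e (sumC R G x)).coeff := by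
  induction x using MonoidAlgebra.induction_linear with
  | zero => simp
  | add x x' hx hx' =>
    rw [map_add, MonoidAlgebra.coeff_add, Finsupp.mapDomain_add, hx, hx', map_add, map_add,
      MonoidAlgebra.coeff_add]
  | single g' a => rw [toPW_single, fst_inl_mul, sumC_single]

end toPW

section kills

variable {Q : Type u} [Group Q] {n : Type} [Fintype n] [DecidableEq n]
  {A : Matrix n n (MonoidAlgebra ℤ Q)} {W : Type w} [Group W]

/-- The kernel of a homomorphism over which an idempotent vanishes can be intersected with the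
kernel of a representation over a suitable group ring. -/
theorem kills_inf_ker_gen {k : Type v} [CommRing k] [IsDomain k] {Y : Type w'} [Group Y]
    (q : Q →* W) {I : Type} [Fintype I] [DecidableEq I]
    (ρ : Q →* Matrix I I (MonoidAlgebra k Y))
    (hyp : ∀ k₀ : Subalgebra ℤ k, k₀.FG → ∀ Y₀ : Subgroup Y, Y₀.FG →
      ∃ (X : Type w'') (_ : Group X) (e : W →* X) (c : Y₀ →* X),
        (∀ g s t, ∀ y : Y₀, (y : Y) ∈ (ρ g s t).coeff.support → c y = e (q g)) ∧
        ∀ l, GoodRel k₀ e c l)
    (hA : A * A = A) (hK : KillsF q A) : Kills (q.ker ⊓ ρ.ker) A := by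
  classical
  rw [kills_iff_im_eq_zero]
  let q' : Q ⧸ (q.ker ⊓ ρ.ker) →* W := QuotientGroup.lift (q.ker ⊓ ρ.ker) q inf_le_left
  have hq : ∀ h : Q, q' (QuotientGroup.mk h) = q h := fun h => rfl
  let ρ' : Q ⧸ (q.ker ⊓ ρ.ker) →* Matrix I I (MonoidAlgebra k Y) :=
    QuotientGroup.lift (q.ker ⊓ ρ.ker) ρ inf_le_right
  have hρ' : ∀ h : Q, ρ' (QuotientGroup.mk h) = ρ h := fun h => rfl
  refine eq_zero_of_rel_fg.{u, v, w, w', w''} q' ρ' ?_ ?_ (im_idem _ hA) ?_
  · intro a b
    induction a using QuotientGroup.induction_on with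
    | H a =>
    induction b using QuotientGroup.induction_on with
    | H b =>
    intro h1 h2
    rw [hq, hq] at h1
    rw [hρ', hρ'] at h2
    rw [QuotientGroup.eq]
    have h3 : a⁻¹ * b ∈ ρ.ker := by
      rw [MonoidHom.mem_ker, map_mul, ← h2, ← map_mul, inv_mul_cancel, map_one]
    have h4 : a⁻¹ * b ∈ q.ker := by
      rw [MonoidHom.mem_ker, map_mul, ← h1, ← map_mul, inv_mul_cancel, map_one]
    exact ⟨h4, h3⟩
  · intro k₀ hk₀ Y₀ hY₀
    obtain ⟨X, _, e, c, hgr, hgood⟩ := hyp k₀ hk₀ Y₀ hY₀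
    refine ⟨X, inferInstance, e, c, ?_, hgood⟩
    intro g s t y hy
    induction g using QuotientGroup.induction_on with
    | H g =>
    exact hgr g s t y hy
  · intro i j
    rw [im_coeff, ← Finsupp.mapDomain_comp]
    exact hK i j

end kills

lemma ResRel.of_injective {k : Type v} [CommRing k] {W₁ : Type w} [Group W₁] {W₂ : Type w'}
    [Group W₂] {V : Type w''} [Group V] (f : W₁ →* W₂) (hf : Function.Injective f)
    (hres : ResRel.{v, v', w', w''} k W₂ V) : ResRel.{v, v', w, w''} k W₁ V := by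
  intro a ha
  have h1 : MonoidAlgebra.mapDomainRingHom k f a ≠ 0 := by
    intro h0
    apply ha
    apply MonoidAlgebra.ext
    have h2 : a.coeff.mapDomain f = 0 := congrArg MonoidAlgebra.coeff h0
    exact Finsupp.mapDomain_injective hf (h2.trans Finsupp.mapDomain_zero.symm)
  obtain ⟨F, _, ω, hω, hF⟩ := hres _ h1
  exact ⟨F, inferInstance, ω.comp (MonoidAlgebra.mapDomainRingHom k f), hω, hF⟩

/-- the identity map to the product -/
def PW.toProd {W : Type w} [Group W] {V : Type w'} [Group V] : PW W V →* W × V where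
  toFun p := p
  map_one' := rfl
  map_mul' _ _ := rfl

/-- The condition on a representation, a finitely generated subring and a finitely generated
subgroup. -/
def AdmPair7 (W : Type w') [Group W] {H : Type u} [Group H] (L : Subgroup H) [L.Normal]
    {k : Type v} [CommRing k]
    {Y : Type w} [Group Y] {d : ℕ} (ρ : H →* Matrix (Fin d) (Fin d) (MonoidAlgebra k Y))
    (k₀ : Subalgebra ℤ k) (Y₀ : Subgroup Y) : Prop :=
  ∃ (Z : Subgroup Y₀) (_ : Z.Normal), TameChain k₀ Z ∧
    ((∃ (M : Subgroup H) (_ : M.Normal) (c : Y₀ →* H ⧸ M), L ≤ M ∧ c.ker ≤ Z ∧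
        ∀ h s t, ∀ y : Y₀, (y : Y) ∈ (ρ h s t).coeff.support → c y = QuotientGroup.mk h) ∨
      ResRel.{v, v', max w' u, w} k₀ (W × (H ⧸ L)) (Y₀ ⧸ Z))

/-- The main theorem: extensions by kernels which are residually linear over suitable group
rings, over the coefficient ring `ℤW`. -/
theorem npp_rel7 {G : Type u} [Group G] {W : Type w'} [Group W] {R : Type r} [Ring R]
    (ε : R ≃+* MonoidAlgebra ℤ W)
    (hG : ∀ S : Finset G, ∃ (H : Type h) (_ : Group H) (K : Subgroup H) (_ : K.Normal)
      (φ : G → H), Set.InjOn φ S ∧ (∀ a ∈ S, ∀ b ∈ S, φ (a * b) = φ a * φ b) ∧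
      NPPr R (H ⧸ K) ∧
      ∀ N : Subgroup H, N.Normal → N ≤ K → N ≠ ⊥ →
        Subgroup.normalClosure {y | y ∈ N ∧ ∃ a ∈ φ '' S, ∃ b ∈ φ '' S, y = a⁻¹ * b} = N →
        ∃ (L : Subgroup H) (_ : L.Normal) (k : Type v) (_ : CommRing k) (_ : IsDomain k)
          (Y : Type w) (_ : Group Y) (d : ℕ)
          (ρ : H →* Matrix (Fin d) (Fin d) (MonoidAlgebra k Y)),
          N ≤ L ∧ L ⊓ ρ.ker < N ∧ ∀ k₀ : Subalgebra ℤ k, k₀.FG → ∀ Y₀ : Subgroup Y, Y₀.FG →
            AdmPair7.{h, v, v', w, w'} W L ρ k₀ Y₀) :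
    NPPr R G := by
  classical
  apply NPPr.of_matrix
  intro m A₀ hA₀ hK₀
  let A : Matrix (Fin m) (Fin m) (MonoidAlgebra ℤ (PW W G)) :=
    A₀.map (toPW (ε : R →+* MonoidAlgebra ℤ W) G)
  have hA : A * A = A := by
    simp only [A]
    rw [← Matrix.map_mul, hA₀]
  have hK : KillsF (PW.fst (W := W) (V := G)) A := by
    intro i j
    change (toPW (ε : R →+* MonoidAlgebra ℤ W) G (A₀ i j)).coeff.mapDomain _ = 0
    rw [fst_toPW, hK₀ i j, map_zero]
    rfl
  have hback : A = 0 → A₀ = 0 := by
    intro h0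
    refine Matrix.ext fun i j => ?_
    rw [Matrix.zero_apply]
    apply MonoidAlgebra.ext
    ext g
    apply ε.injective
    apply MonoidAlgebra.ext
    ext y
    have h1 := toPW_coeff (ε : R →+* MonoidAlgebra ℤ W) G (A₀ i j) g y
    have h2 : toPW (ε : R →+* MonoidAlgebra ℤ W) G (A₀ i j) = 0 := congrFun (congrFun h0 i) j
    rw [h2] at h1
    change (0 : ℤ) = _ at h1
    refine h1.symm.trans ?_
    rw [MonoidAlgebra.coeff_zero, Finsupp.zero_apply, map_zero]
    rfl
  apply hback
  -- transfer along the local embedding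
  let Ŝ : Finset (PW W G) := Finset.univ.biUnion fun ij : Fin m × Fin m =>
    (A ij.1 ij.2).coeff.support
  have hŜ : ∀ i j, (A i j).coeff.support ⊆ Ŝ := fun i j a ha =>
    Finset.mem_biUnion.2 ⟨(i, j), Finset.mem_univ _, ha⟩
  let S : Finset G := Ŝ.image (PW.snd (W := W) (V := G))
  have hS : ∀ a ∈ Ŝ, PW.snd a ∈ S := fun a ha => Finset.mem_image_of_mem _ ha
  obtain ⟨H, _, K, _, φ, hinj, hφ, hN, hgood⟩ := hG S
  let Φ : PW W G → PW W H := fun a => PW.mk (PW.fst a) (φ (PW.snd a))
  have hΦ1 : ∀ a, PW.fst (Φ a) = PW.fst a := fun a => rfl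
  have hΦ2 : ∀ a, PW.snd (Φ a) = φ (PW.snd a) := fun a => rfl
  have hΦm : ∀ a ∈ Ŝ, ∀ b ∈ Ŝ, Φ (a * b) = Φ a * Φ b := by
    intro a ha b hb
    apply PW.ext
    · rw [hΦ1, map_mul, map_mul, hΦ1, hΦ1]
    · rw [hΦ2, map_mul, map_mul, hΦ2, hΦ2, hφ _ (hS a ha) _ (hS b hb)]
  have hΦi : Set.InjOn Φ Ŝ := by
    intro a ha b hb hab
    apply PW.ext
    · rw [← hΦ1, hab, hΦ1]
    · apply hinj (hS a ha) (hS b hb)
      rw [← hΦ2, hab, hΦ2]
  obtain ⟨A', hA', hc'⟩ := transferC hA Ŝ hŜ Φ hΦm
  have hA'0 : A' = 0 → A = 0 := by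
    intro h0
    have h1 : KillsF Φ A := by
      intro i j
      rw [← hc', h0]
      rfl
    have h2 : KillsF (id : PW W G → PW W G) A := h1.of_fiber fun i j a ha b hb hab =>
      hΦi (hŜ i j ha) (hŜ i j hb) hab
    refine Matrix.ext fun i j => ?_
    have h3 := h2 i j
    rw [Finsupp.mapDomain_id] at h3
    apply MonoidAlgebra.ext
    rw [h3]
    rfl
  apply hA'0
  have hfst : KillsF (PW.fst (W := W) (V := H)) A' := by
    intro i j
    rw [hc', ← Finsupp.mapDomain_comp]
    exact hK i j
  let pr : ∀ M : Subgroup H, [M.Normal] → (PW W H →* PW W (H ⧸ M)) :=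
    fun M _ => PW.map W (QuotientGroup.mk' M)
  have hpr : ∀ (M : Subgroup H) [M.Normal] (z : PW W H), z ∈ (pr M).ker ↔
      PW.fst z = 1 ∧ PW.snd z ∈ M := by
    intro M _ z
    rw [MonoidHom.mem_ker]
    constructor
    · intro hz
      constructor
      · have h1 := congrArg (PW.fst (W := W) (V := H ⧸ M)) hz
        rw [map_one] at h1
        exact h1
      · have h1 := congrArg (PW.snd (W := W) (V := H ⧸ M)) hz
        rw [map_one] at h1
        exact (QuotientGroup.eq_one_iff _).1 h1
    · rintro ⟨h1, h2⟩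
      apply PW.ext
      · rw [map_one]
        exact h1
      · rw [map_one]
        exact (QuotientGroup.eq_one_iff _).2 h2
  -- `K` kills
  have hKK : KillsF (pr K) A' := by
    rw [← im_eq_zero_iff]
    refine eq_zero_of_residual.{0, r, w', h} (k := ℤ) (W := W) (V := H ⧸ K) ?_
      (im_idem _ hA') ?_
    · intro a ha
      refine ⟨R, inferInstance, (ε.symm : MonoidAlgebra ℤ W →+* R), ?_, hN.mp⟩
      intro h0
      apply ha
      have h1 : ε.symm a = 0 := h0
      exact (map_eq_zero_iff ε.symm ε.symm.injective).1 h1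
    · intro s t
      rw [im_coeff, ← Finsupp.mapDomain_comp]
      exact hfst s t
  have hKK' : Kills (pr K).ker A' := by
    refine KillsF.of_fiber hKK fun _ _ a _ b _ hab => ?_
    rw [QuotientGroup.eq, MonoidHom.mem_ker, map_mul, map_inv, hab, inv_mul_cancel]
  have hsupp : ∀ i j, ∀ a ∈ (A' i j).coeff.support, a ∈ {a : PW W H | PW.snd a ∈ φ '' S} := by
    intro i j a ha
    rw [hc'] at ha
    obtain ⟨b, hb, rfl⟩ := Finset.mem_image.1 (Finsupp.mapDomain_support ha)
    exact ⟨_, hS b (hŜ i j hb), rfl⟩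
  obtain ⟨Ñ, hÑn, hÑK, hÑ, hÑT, hmin⟩ :=
    exists_minimal'' {a : PW W H | PW.snd a ∈ φ '' S} hsupp (pr K).ker hKK'
  by_cases hbot : Ñ = ⊥
  · rw [hbot] at hÑ
    exact hÑ.eq_zero
  exfalso
  let N : Subgroup H := Ñ.map (PW.snd (W := W) (V := H))
  have hsurj : Function.Surjective (PW.snd (W := W) (V := H)) := fun y => ⟨PW.mk 1 y, rfl⟩
  have hNn : N.Normal := Subgroup.Normal.map hÑn _ hsurj
  have hmem : ∀ z : PW W H, z ∈ Ñ ↔ PW.fst z = 1 ∧ PW.snd z ∈ N := by
    intro z
    constructor
    · intro hz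
      exact ⟨((hpr K z).1 (hÑK hz)).1, ⟨z, hz, rfl⟩⟩
    · rintro ⟨h1, z', hz', h2⟩
      have h3 : z' = z := by
        apply PW.ext
        · rw [((hpr K z').1 (hÑK hz')).1, h1]
        · exact h2
      rwa [← h3]
  have hNK : N ≤ K := by
    rintro _ ⟨z, hz, rfl⟩
    exact ((hpr K z).1 (hÑK hz)).2
  have hNb : N ≠ ⊥ := by
    intro h0
    apply hbot
    rw [Subgroup.eq_bot_iff_forall]
    intro z hz
    have h1 := (hmem z).1 hz
    rw [h0, Subgroup.mem_bot] at h1
    apply PW.ext
    · rw [h1.1, map_one]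
    · rw [h1.2, map_one]
  have hNT : Subgroup.normalClosure {y | y ∈ N ∧ ∃ a ∈ φ '' S, ∃ b ∈ φ '' S, y = a⁻¹ * b} =
      N := by
    apply le_antisymm
    · exact Subgroup.normalClosure_le_normal fun y hy => hy.1
    · rintro _ ⟨z, hz, rfl⟩
      rw [SetLike.mem_coe, ← hÑT] at hz
      have h1 : Subgroup.normalClosure {y | y ∈ Ñ ∧ ∃ a ∈ {a : PW W H | PW.snd a ∈ φ '' S},
          ∃ b ∈ {a : PW W H | PW.snd a ∈ φ '' S}, y = a⁻¹ * b} ≤
          (Subgroup.normalClosure {y | y ∈ N ∧ ∃ a ∈ φ '' S, ∃ b ∈ φ '' S,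
            y = a⁻¹ * b}).comap (PW.snd (W := W) (V := H)) := by
        have hn : ((Subgroup.normalClosure {y | y ∈ N ∧ ∃ a ∈ φ '' S, ∃ b ∈ φ '' S,
            y = a⁻¹ * b}).comap (PW.snd (W := W) (V := H))).Normal :=
          Subgroup.Normal.comap Subgroup.normalClosure_normal _
        apply Subgroup.normalClosure_le_normal
        rintro y ⟨hy, a, ha, b, hb, rfl⟩
        rw [SetLike.mem_coe, Subgroup.mem_comap]
        apply Subgroup.subset_normalClosure
        refine ⟨((hmem _).1 hy).2, _, ha, _, hb, ?_⟩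
        rw [map_mul, map_inv]
      exact h1 hz
  obtain ⟨L, _, k, _, _, Y, _, d, ρ, hNL, hlt, hyp⟩ := hgood N hNn hNK hNb hNT
  have hL : KillsF (pr L) A' := by
    refine KillsF.of_fiber hÑ fun _ _ a _ b _ hab => ?_
    rw [QuotientGroup.eq, hmem] at hab
    have h1 : a⁻¹ * b ∈ (pr L).ker := (hpr L _).2 ⟨hab.1, hNL hab.2⟩
    rw [MonoidHom.mem_ker, map_mul, map_inv] at h1
    exact inv_mul_eq_one.1 h1
  let ρ' : PW W H →* Matrix (Fin d) (Fin d) (MonoidAlgebra k Y) :=
    ρ.comp (PW.snd (W := W) (V := H))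
  have hkill : Kills ((pr L).ker ⊓ ρ'.ker) A' := by
    refine kills_inf_ker_gen.{max w' h, v, max w' h, w, h} (pr L) ρ' ?_ hA' hL
    intro k₀ hk₀ Y₀ hY₀
    have hft : Algebra.FiniteType ℤ k₀ := (Subalgebra.fg_iff_finiteType k₀).1 hk₀
    obtain ⟨Z, hZn, hZ, hres⟩ := hyp k₀ hk₀ Y₀ hY₀
    rcases hres with ⟨M, hM, c, hLM, hcZ, hgr⟩ | hres
    · let e : PW W (H ⧸ L) →* H ⧸ M :=
        (QuotientGroup.map _ _ (MonoidHom.id H) hLM).comp (PW.snd (W := W) (V := H ⧸ L))
      refine ⟨H ⧸ M, inferInstance, e, c, ?_, fun l => ?_⟩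
      · intro g s t y hy
        exact hgr (PW.snd g) s t y hy
      · exact goodRel_of_chain.{v, v, max w' h, w, h} e c Z hZ (Or.inl hcZ) l
    · refine ⟨PUnit.{h + 1}, inferInstance, 1, 1, fun _ _ _ _ _ => rfl, fun l => ?_⟩
      refine goodRel_of_chain.{v, v', max w' h, w, h} 1 1 Z hZ (Or.inr ?_) l
      exact ResRel.of_injective (PW.toProd (W := W) (V := H ⧸ L)) (fun a b hab => hab) hres
  have hle : (pr L).ker ⊓ ρ'.ker ≤ Ñ := by
    intro z hz
    have h1 := (hpr L z).1 hz.1
    have h2 : PW.snd z ∈ ρ.ker := hz.2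
    exact (hmem z).2 ⟨h1.1, hlt.le ⟨h1.2, h2⟩⟩
  have heq := hmin _ inferInstance hle hkill
  apply hlt.not_ge
  intro y hy
  have h1 : PW.mk (1 : W) y ∈ Ñ := (hmem _).2 ⟨rfl, hy⟩
  rw [← heq] at h1
  exact ⟨((hpr L _).1 h1.1).2, h1.2⟩

end Lin

end

end Pool.Agent.H677_Perf
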