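import Pool.Agent.H677_Perf.TowerApp
import Pool.Agent.H677_Perf.Cyclic
import Pool.Agent.H677_Perf.Kaplansky

set_option autoImplicit false
set_option linter.unusedSectionVars false

namespace Pool.Agent.H677_Perf

noncomputable section

variable {G : Type*} [Group G] {n : Type*} [Fintype n] [DecidableEq n]

/-- image of a matrix under a group homomorphism -/
def im {G' : Type*} [Group G'] (φ : G →* G') (A : Matrix n n (MonoidAlgebra ℤ G)) :
    Matrix n n (MonoidAlgebra ℤ G') :=
  A.map (MonoidAlgebra.mapDomainRingHom ℤ φ)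

lemma im_idem {G' : Type*} [Group G'] (φ : G →* G') {A : Matrix n n (MonoidAlgebra ℤ G)}
    (hA : A * A = A) : im φ A * im φ A = im φ A := by
  unfold im
  rw [← Matrix.map_mul, hA]

lemma im_coeff {G' : Type*} [Group G'] (φ : G →* G') (A : Matrix n n (MonoidAlgebra ℤ G))
    (i j : n) : (im φ A i j).coeff = (A i j).coeff.mapDomain φ := by
  rfl

lemma im_eq_zero_iff {G' : Type*} [Group G'] (φ : G →* G') (A : Matrix n n (MonoidAlgebra ℤ G)) :
    im φ A = 0 ↔ KillsF φ A := by
  constructor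
  · intro h i j
    rw [← im_coeff, h]
    rfl
  · intro h
    refine Matrix.ext fun i j => ?_
    apply MonoidAlgebra.ext
    rw [im_coeff, h i j]
    rfl

lemma kills_im {G' : Type*} [Group G'] (φ : G →* G') {A : Matrix n n (MonoidAlgebra ℤ G)}
    (N : Subgroup G) (L : Subgroup G') (hNL : N ≤ L.comap φ) (hA : Kills N A) :
    Kills L (im φ A) := by
  intro i j
  rw [im_coeff, ← Finsupp.mapDomain_comp]
  have : KillsF ((QuotientGroup.mk : G' → G' ⧸ L) ∘ φ) A :=
    KillsF.of_fiber hA fun _ _ a _ b _ hab => by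
      rw [QuotientGroup.eq] at hab
      simp only [Function.comp]
      rw [QuotientGroup.eq]
      have := hNL hab
      rw [Subgroup.mem_comap, map_mul, map_inv] at this
      exact this
  exact this i j

/-- killing downstairs and upstairs -/
lemma kills_comap_iff (M : Subgroup G) [M.Normal] (B : Subgroup (G ⧸ M))
    (A : Matrix n n (MonoidAlgebra ℤ G)) :
    Kills B (im (QuotientGroup.mk' M) A) ↔ Kills (B.comap (QuotientGroup.mk' M)) A := by
  constructor
  · intro h
    have h1 : KillsF ((QuotientGroup.mk : (G ⧸ M) → (G ⧸ M) ⧸ B) ∘ (QuotientGroup.mk' M)) A := by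
      intro i j
      have := h i j
      rw [im_coeff, ← Finsupp.mapDomain_comp] at this
      exact this
    refine KillsF.of_fiber h1 fun _ _ a _ b _ hab => ?_
    simp only [Function.comp] at hab
    rw [QuotientGroup.eq] at hab ⊢
    rw [Subgroup.mem_comap, map_mul, map_inv]
    exact hab
  · intro h
    exact kills_im _ _ _ le_rfl h

lemma kills_iff_im_eq_zero (M : Subgroup G) [M.Normal] (A : Matrix n n (MonoidAlgebra ℤ G)) :
    Kills M A ↔ im (QuotientGroup.mk' M) A = 0 := by
  rw [im_eq_zero_iff]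
  rfl

section bad

/-- the indicator function of a subgroup summed over a matrix -/
lemma Tau_indicator_of_kills (L : Subgroup G) [DecidablePred (· ∈ L)]
    {A : Matrix n n (MonoidAlgebra ℤ G)} (hA : Kills L A) :
    Tau (fun g => if g ∈ L then (1 : ℤ) else 0) A = 0 := by
  classical
  rw [Tau_apply]
  refine Finset.sum_eq_zero fun i _ => ?_
  have h1 := hA i i
  have h2 : evalFn (fun g => if g ∈ L then (1 : ℤ) else 0) (A i i) =
      ((A i i).coeff.mapDomain (QuotientGroup.mk : G → G ⧸ L)).sum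
        fun c r => r • (if c = QuotientGroup.mk 1 then (1 : ℤ) else 0) := by
    rw [Finsupp.sum_mapDomain_index (by simp) (by intro b m₁ m₂; rw [add_smul]), evalFn_eq_sum]
    refine Finsupp.sum_congr fun g _ => ?_
    congr 2
    rw [eq_comm, QuotientGroup.eq]
    simp
  rw [h2, h1, Finsupp.sum_zero_index]

/-- A normal subgroup `L` killing the idempotent `A` can be replaced by the subgroup generated
by its bad elements. -/
theorem kills_bad (L : Subgroup G) [hLn : L.Normal] (A : Matrix n n (MonoidAlgebra ℤ G))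
    (hA : A * A = A) (hK : Kills L A) :
    Kills (Subgroup.closure {y : G | y ∈ L ∧ Bad y}) A ∧
      (Subgroup.closure {y : G | y ∈ L ∧ Bad y}).Normal := by
  classical
  set B := Subgroup.closure {y : G | y ∈ L ∧ Bad y} with hB
  have hconj : ∀ y, Bad y → ∀ g : G, Bad (g * y * g⁻¹) := by
    rintro y ⟨h1, ⟨m, hm, h2⟩, h3⟩ g
    refine ⟨?_, ⟨m, hm, fun l hl => ?_⟩, ?_⟩
    · intro h
      apply h1
      have : y = g⁻¹ * (g * y * g⁻¹) * g := by group
      rw [this, h]
      group
    · rw [conj_pow]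
      have e1 : IsConj (g * y * g⁻¹) y := isConj_iff.2 ⟨g⁻¹, by group⟩
      have e2 : IsConj (y ^ (l ^ m)) (g * y ^ (l ^ m) * g⁻¹) := isConj_iff.2 ⟨g, rfl⟩
      exact (e1.trans (h2 l hl)).trans e2
    · have h4 : Subgroup.map (MulAut.conj g).toMonoidHom (Subgroup.centralizer {y}) ≤
          Subgroup.centralizer {g * y * g⁻¹} := by
        rintro _ ⟨c, hc, rfl⟩
        rw [SetLike.mem_coe, Subgroup.mem_centralizer_singleton_iff] at hc
        rw [Subgroup.mem_centralizer_singleton_iff]
        change (g * c * g⁻¹) * (g * y * g⁻¹) = (g * y * g⁻¹) * (g * c * g⁻¹)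
        calc (g * c * g⁻¹) * (g * y * g⁻¹) = g * (c * y) * g⁻¹ := by group
          _ = g * (y * c) * g⁻¹ := by rw [hc]
          _ = (g * y * g⁻¹) * (g * c * g⁻¹) := by group
      have h5 := Subgroup.mem_map_of_mem (MulAut.conj g).toMonoidHom h3
      rw [Subgroup.map_commutator] at h5
      exact Subgroup.commutator_mono h4 h4 h5
  have hBn : B.Normal := by
    refine ⟨fun b hb g => ?_⟩
    induction hb using Subgroup.closure_induction with
    | mem y hy => exact Subgroup.subset_closure ⟨hLn.conj_mem y hy.1 g, hconj y hy.2 g⟩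
    | one => simp
    | mul a b _ _ ha hb =>
      have : g * (a * b) * g⁻¹ = (g * a * g⁻¹) * (g * b * g⁻¹) := by group
      rw [this]
      exact B.mul_mem ha hb
    | inv a _ ha =>
      have : g * a⁻¹ * g⁻¹ = (g * a * g⁻¹)⁻¹ := by group
      rw [this]
      exact B.inv_mem ha
  refine ⟨?_, hBn⟩
  rw [kills_iff_im_eq_zero]
  apply eq_zero_of_trace _ (im_idem _ hA)
  have hBL : B ≤ L := (Subgroup.closure_le _).2 fun y hy => hy.1
  have h1 : ∑ i, (im (QuotientGroup.mk' B) A i i).coeff 1 =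
      Tau (fun g => if g ∈ B then (1 : ℤ) else 0) A := by
    rw [Tau_apply]
    refine Finset.sum_congr rfl fun i _ => ?_
    have h2 : evalFn (fun g => if g ∈ B then (1 : ℤ) else 0) (A i i) =
        ((A i i).coeff.mapDomain (QuotientGroup.mk' B)).sum
          fun c r => r • (if c = 1 then (1 : ℤ) else 0) := by
      rw [Finsupp.sum_mapDomain_index (by simp) (by intro b m₁ m₂; rw [add_smul]), evalFn_eq_sum]
      refine Finsupp.sum_congr fun g _ => ?_
      congr 2
      rw [QuotientGroup.mk'_apply, QuotientGroup.eq_one_iff]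
    rw [h2, im_coeff, Finsupp.sum]
    simp only [smul_eq_mul, mul_ite, mul_one, mul_zero]
    rw [Finset.sum_ite_eq']
    split_ifs with h
    · rfl
    · exact Finsupp.notMem_support_iff.1 h
  rw [h1]
  have h2 := Tau_indicator_of_kills L hK
  have hclass : ∀ x y : G, IsConj x y → ((x ∈ L ∧ x ∉ B) ↔ (y ∈ L ∧ y ∉ B)) := by
    intro x y hxy
    obtain ⟨c, rfl⟩ := isConj_iff.1 hxy
    constructor
    · rintro ⟨h, h'⟩
      refine ⟨hLn.conj_mem x h c, fun h'' => h' ?_⟩
      have := hBn.conj_mem _ h'' c⁻¹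
      have e : c⁻¹ * (c * x * c⁻¹) * c⁻¹⁻¹ = x := by group
      rwa [e] at this
    · rintro ⟨h, h'⟩
      refine ⟨?_, fun h'' => h' (hBn.conj_mem x h'' c)⟩
      have := hLn.conj_mem _ h c⁻¹
      have e : c⁻¹ * (c * x * c⁻¹) * c⁻¹⁻¹ = x := by group
      rwa [e] at this
  let χ : ConjClasses G → ℤ := fun c => if (∃ x, ConjClasses.mk x = c ∧ x ∈ L ∧ x ∉ B) then 1 else 0
  have hχ : ∀ x : G, χ (ConjClasses.mk x) = if (x ∈ L ∧ x ∉ B) then 1 else 0 := by
    intro x
    simp only [χ]
    by_cases h : x ∈ L ∧ x ∉ B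
    · rw [if_pos h, if_pos ⟨x, rfl, h⟩]
    · rw [if_neg h, if_neg]
      rintro ⟨y, hy, hy'⟩
      rw [ConjClasses.mk_eq_mk_iff_isConj] at hy
      exact h ((hclass y x hy).1 hy')
  have h3 : Tau (fun g => χ (ConjClasses.mk g)) A = 0 := by
    rw [Tau_eq_rk, Finsupp.sum]
    refine Finset.sum_eq_zero fun c hc => ?_
    obtain ⟨x, rfl⟩ := ConjClasses.exists_rep c
    have hr : rkAt x A ≠ 0 := by
      rw [rkAt_apply]
      exact Finsupp.mem_support_iff.1 hc
    have : ¬ (x ∈ L ∧ x ∉ B) := by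
      rintro ⟨hxL, hxB⟩
      by_cases hx1 : x = 1
      · rw [hx1] at hxB
        exact hxB B.one_mem
      · exact hxB (Subgroup.subset_closure ⟨hxL, bad_of_rk_ne_zero hA hx1 hr⟩)
    change _ • χ (ConjClasses.mk x) = 0
    rw [hχ, if_neg this, smul_zero]
  have h4 : (fun g => if g ∈ L then (1 : ℤ) else 0) =
      fun g => (if g ∈ B then (1 : ℤ) else 0) + χ (ConjClasses.mk g) := by
    funext g
    rw [hχ]
    by_cases hgL : g ∈ L
    · by_cases hgB : g ∈ B
      · simp [hgL, hgB]
      · simp [hgL, hgB]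
    · have hgB : g ∉ B := fun h => hgL (hBL h)
      simp [hgL, hgB]
  have h5 : ∀ χ₁ χ₂ : G → ℤ, Tau (fun g => χ₁ g + χ₂ g) A = Tau χ₁ A + Tau χ₂ A := by
    intro χ₁ χ₂
    rw [Tau_apply, Tau_apply, Tau_apply, ← Finset.sum_add_distrib]
    refine Finset.sum_congr rfl fun i _ => ?_
    rw [evalFn_eq_sum, evalFn_eq_sum, evalFn_eq_sum, ← Finsupp.sum_add]
    refine Finsupp.sum_congr fun g _ => ?_
    rw [smul_add]
  rw [h4, h5, h3, add_zero] at h2
  exact h2

end bad

section tower

lemma fg_map {G₁ G₂ : Type*} [Group G₁] [Group G₂] {S : Subgroup G₁} (hS : S.FG) (f : G₁ →* G₂) :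
    (S.map f).FG := by
  classical
  obtain ⟨T, hT⟩ := hS
  exact ⟨T.image f, by rw [Finset.coe_image, ← MonoidHom.map_closure, hT]⟩

/-- `θ` applied to the conjugates by `h` -/
def conjHom {L' : Type*} [Group L'] (N : Subgroup G) [hN : N.Normal] (θ : N →* L') (h : G) :
    N →* L' :=
  θ.comp ((MulAut.conjNormal (H := N) h⁻¹ : MulAut N).toMonoidHom)

lemma conjHom_apply {L' : Type*} [Group L'] (N : Subgroup G) [hN : N.Normal] (θ : N →* L') (h : G)
    (x : N) : conjHom N θ h x = θ ⟨h⁻¹ * x * h, by simpa using hN.conj_mem x x.2 h⁻¹⟩ := by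
  unfold conjHom
  rw [MonoidHom.comp_apply]
  congr 1
  apply Subtype.ext
  simp

/-- the largest normal subgroup of `G` contained in the kernel of `θ` -/
def coreKer {L' : Type*} [Group L'] (N : Subgroup G) [hN : N.Normal] (θ : N →* L') :
    Subgroup G :=
  (⨅ h : G, (conjHom N θ h).ker).map N.subtype

lemma mem_coreKer {L' : Type*} [Group L'] (N : Subgroup G) [hN : N.Normal] (θ : N →* L') (x : G) :
    x ∈ coreKer N θ ↔ ∃ hx : x ∈ N, ∀ h : G, conjHom N θ h ⟨x, hx⟩ = 1 := by
  unfold coreKer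
  constructor
  · rintro ⟨y, hy, rfl⟩
    refine ⟨y.2, fun h => ?_⟩
    rw [SetLike.mem_coe, Subgroup.mem_iInf] at hy
    exact hy h
  · rintro ⟨hx, h⟩
    refine ⟨⟨x, hx⟩, ?_, rfl⟩
    rw [SetLike.mem_coe, Subgroup.mem_iInf]
    exact h

lemma coreKer_normal {L' : Type*} [Group L'] (N : Subgroup G) [hN : N.Normal] (θ : N →* L') :
    (coreKer N θ).Normal := by
  refine ⟨fun x hx g => ?_⟩
  rw [mem_coreKer] at hx ⊢
  obtain ⟨hxN, hx⟩ := hx
  refine ⟨hN.conj_mem x hxN g, fun h => ?_⟩
  have := hx (g⁻¹ * h)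
  rw [conjHom_apply] at this ⊢
  rw [← this]
  congr 1
  apply Subtype.ext
  simp only
  group

/-- If the idempotent `A` is killed by the normal subgroup `N` and `θ` is a homomorphism from `N`
to a locally `p`-indicable group, then `A` is already killed by the core of the kernel of `θ`. -/
theorem kills_coreKer {p : ℕ} [hp : Fact p.Prime] {L' : Type*} [Group L'] (hL' : LocPInd p L')
    (N : Subgroup G) [hN : N.Normal] (θ : N →* L') (A : Matrix n n (MonoidAlgebra ℤ G))
    (hA : A * A = A) (hK : Kills N A) : Kills (coreKer N θ) A := by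
  classical
  have hMn := coreKer_normal N θ
  set M := coreKer N θ with hM
  rw [kills_iff_im_eq_zero]
  have hLn : (N.map (QuotientGroup.mk' M)).Normal :=
    Subgroup.Normal.map hN _ (QuotientGroup.mk'_surjective M)
  refine tower_zero (p := p) (N.map (QuotientGroup.mk' M)) ?_ _ (im_idem _ hA)
    (kills_im _ N _ (Subgroup.le_comap_map _ _) hK)
  intro S hS hSne
  let π : N →* N.map (QuotientGroup.mk' M) := (QuotientGroup.mk' M).subgroupMap N
  have hπ : Function.Surjective π := (QuotientGroup.mk' M).subgroupMap_surjective N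
  have hker : ∀ h : G, π.ker ≤ (conjHom N θ h).ker := by
    intro h x hx
    rw [MonoidHom.mem_ker] at hx ⊢
    have h1 : (QuotientGroup.mk' M) (x : G) = 1 := congrArg Subtype.val hx
    rw [QuotientGroup.mk'_apply, QuotientGroup.eq_one_iff, hM, mem_coreKer] at h1
    obtain ⟨_, h2⟩ := h1
    exact h2 h
  let Θ : G → (N.map (QuotientGroup.mk' M) →* L') := fun h =>
    π.liftOfSurjective hπ ⟨conjHom N θ h, hker h⟩
  have hΘ : ∀ h x, Θ h (π x) = conjHom N θ h x := by
    intro h x
    exact MonoidHom.liftOfRightInverse_comp_apply π _ _ ⟨conjHom N θ h, hker h⟩ x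
  obtain ⟨s, hsS, hs1⟩ : ∃ s ∈ S, s ≠ 1 := by
    by_contra hcon
    push Not at hcon
    apply hSne
    rw [eq_bot_iff]
    intro s hs
    rw [Subgroup.mem_bot]
    exact hcon s hs
  obtain ⟨x, rfl⟩ := hπ s
  obtain ⟨h, hh⟩ : ∃ h : G, conjHom N θ h x ≠ 1 := by
    by_contra hcon
    push Not at hcon
    apply hs1
    apply Subtype.ext
    change (QuotientGroup.mk' M) (x : G) = 1
    rw [QuotientGroup.mk'_apply, QuotientGroup.eq_one_iff, hM, mem_coreKer]
    exact ⟨x.2, hcon⟩
  obtain ⟨ψ, hψ⟩ := hL' (S.map (Θ h)) (fg_map hS (Θ h)) (by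
    intro hbot
    apply hh
    rw [← hΘ, ← Subgroup.mem_bot, ← hbot]
    exact Subgroup.mem_map_of_mem _ hsS)
  exact ⟨ψ.comp ((Θ h).subgroupMap S), hψ.comp ((Θ h).subgroupMap_surjective S)⟩

end tower

end

end Pool.Agent.H677_Perf
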