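import Mathlib

set_option autoImplicit false
set_option linter.unusedSectionVars false

namespace Pool.Agent.H677_Perf

noncomputable section

section defs

variable {k : Type*} [Field k] {L Ω : Type*} [Group L] [MulAction L Ω]

/-- invariance of a function under a subgroup -/
def Inv (H : Subgroup L) (ξ : Ω → k) : Prop := ∀ h ∈ H, ∀ ω, ξ (h • ω) = ξ ω

/-- pairing of a function with a finitely supported one -/
def pair (g : Ω → k) (w : Ω →₀ k) : k := w.sum fun ω a => a * g ω

lemma pair_add (g g' : Ω → k) (w : Ω →₀ k) :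
    pair (fun ω => g ω + g' ω) w = pair g w + pair g' w := by
  simp only [pair, mul_add, Finsupp.sum_add]

lemma pair_sum {ι : Type*} (s : Finset ι) (g : ι → Ω → k) (w : Ω →₀ k) :
    pair (fun ω => ∑ i ∈ s, g i ω) w = ∑ i ∈ s, pair (g i) w := by
  simp only [pair, Finsupp.sum, Finset.mul_sum]
  rw [Finset.sum_comm]

lemma pair_smul (a : k) (g : Ω → k) (w : Ω →₀ k) :
    pair (fun ω => a * g ω) w = a * pair g w := by
  simp only [pair, Finsupp.sum, Finset.mul_sum]
  exact Finset.sum_congr rfl fun ω _ => by ring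

lemma pair_mapDomain (g : Ω → k) (w : Ω →₀ k) (e : Ω → Ω) :
    pair g (w.mapDomain e) = pair (fun ω => g (e ω)) w := by
  unfold pair
  rw [Finsupp.sum_mapDomain_index]
  · intro b; simp
  · intro b m₁ m₂; ring

/-- every `H`-invariant function is, on `X`, the pull back under `f` of an `H`-invariant one -/
def Sur (f : Ω → Ω →₀ k) (X : Finset Ω) (H : Subgroup L) : Prop :=
  ∀ ξ : Ω → k, Inv H ξ → ∃ g : Ω → k, Inv H g ∧ ∀ x ∈ X, pair g (f x) = ξ x

lemma sur_restrict {f : Ω → Ω →₀ k} {X : Finset Ω} {H H' : Subgroup L} (hS : Sur f X H)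
    (hle : H' ≤ H) (hX : ∀ h ∈ H, ∀ u ∈ X, ∀ v ∈ X, h • u = v → h ∈ H') : Sur f X H' := by
  classical
  intro ξ hξ
  let ξ' : Ω → k := fun ω =>
    if h : ∃ x, x ∈ X ∧ ∃ l ∈ H, l • x = ω then ξ h.choose else 0
  have key : ∀ ω, ∀ x ∈ X, ∀ l ∈ H, l • x = ω → ξ' ω = ξ x := by
    intro ω x hx l hl hlx
    have hex : ∃ x, x ∈ X ∧ ∃ l ∈ H, l • x = ω := ⟨x, hx, l, hl, hlx⟩
    simp only [ξ', dif_pos hex]
    obtain ⟨hx', l', hl', hlx'⟩ := hex.choose_spec
    have h1 : (l⁻¹ * l') • hex.choose = x := by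
      rw [mul_smul, hlx', ← hlx, inv_smul_smul]
    have h2 := hX _ (H.mul_mem (H.inv_mem hl) hl') _ hx' _ hx h1
    rw [← hξ _ h2 hex.choose, h1]
  have hinv : Inv H ξ' := by
    intro h hh ω
    by_cases hex : ∃ x, x ∈ X ∧ ∃ l ∈ H, l • x = ω
    · obtain ⟨x, hx, l, hl, hlx⟩ := hex
      rw [key ω x hx l hl hlx, key (h • ω) x hx (h * l) (H.mul_mem hh hl) (by
        rw [mul_smul, hlx])]
    · have hex' : ¬ ∃ x, x ∈ X ∧ ∃ l ∈ H, l • x = h • ω := by
        rintro ⟨x, hx, l, hl, hlx⟩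
        apply hex
        refine ⟨x, hx, h⁻¹ * l, H.mul_mem (H.inv_mem hh) hl, ?_⟩
        rw [mul_smul, hlx, inv_smul_smul]
      simp only [ξ', dif_neg hex, dif_neg hex']
  obtain ⟨g, hg, hgX⟩ := hS ξ' hinv
  refine ⟨g, fun h hh ω => hg h (hle hh) ω, fun x hx => ?_⟩
  rw [hgX x hx, key x x hx 1 H.one_mem (one_smul _ _)]

/-- a coordinate on a free set associated with a homomorphism -/
lemma exists_coord (hfree : ∀ (l : L) (ω : Ω), l • ω = ω → l = 1) (H : Subgroup L)
    (φ : H →* Multiplicative k) : ∃ c : Ω → k, ∀ (h : H) (ω : Ω),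
      c ((h : L) • ω) = c ω + (φ h).toAdd := by
  classical
  let s := MulAction.orbitRel H Ω
  let rep : Ω → Ω := fun ω => Quotient.out (Quotient.mk s ω)
  have hrep : ∀ ω, ∃ a : H, (a : L) • rep ω = ω := by
    intro ω
    have h1 : s (rep ω) ω := Quotient.exact (Quotient.out_eq (Quotient.mk s ω))
    have h2 : s ω (rep ω) := Setoid.symm h1
    obtain ⟨a, ha⟩ := h2
    exact ⟨a, ha⟩
  choose a ha using hrep
  refine ⟨fun ω => (φ (a ω)).toAdd, ?_⟩
  intro h ω
  have hr : rep ((h : L) • ω) = rep ω := by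
    simp only [rep]
    congr 1
    apply Quotient.sound
    exact ⟨h, rfl⟩
  have h1 : (a ((h : L) • ω) : L) • rep ω = ((h * a ω : H) : L) • rep ω := by
    rw [Subgroup.coe_mul, mul_smul, ha ω, ← hr, ha]
  have h2 : (((h * a ω : H) : L)⁻¹ * (a ((h : L) • ω) : L)) • rep ω = rep ω := by
    rw [mul_smul, h1, inv_smul_smul]
  have h3 := hfree _ _ h2
  have h4 : a ((h : L) • ω) = h * a ω := by
    apply Subtype.ext
    rw [inv_mul_eq_one] at h3
    exact h3.symm
  simp only
  rw [h4, map_mul, toAdd_mul, add_comm]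

lemma poly_sur {f : Ω → Ω →₀ k}
    (hf : ∀ (l : L) (ω : Ω), f (l • ω) = (f ω).mapDomain (l • ·)) {X : Finset Ω}
    {H H1 : Subgroup L} (hS : Sur f X H) (h1 : H1 ≤ H) (c : Ω → k)
    (hc : ∀ h ∈ H, ∃ a, ∀ ω, c (h • ω) = c ω + a) (hc1 : ∀ h ∈ H1, ∀ ω, c (h • ω) = c ω) :
    ∀ (j : ℕ) (ξ : ℕ → Ω → k), (∀ i, Inv H (ξ i)) →
      ∃ g : Ω → k, Inv H1 g ∧ ∀ x ∈ X, pair g (f x) = ∑ i ∈ Finset.range j, ξ i x * c x ^ i := by
  intro j
  induction j with
  | zero =>
    intro ξ _
    refine ⟨fun _ => 0, fun h _ ω => rfl, fun x _ => ?_⟩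
    simp [pair]
  | succ j ih =>
    intro ξ hξ
    obtain ⟨g0, hg0, hg0X⟩ := hS (ξ j) (hξ j)
    let a : ℕ → Ω → k := fun m x => pair (fun ω => g0 ω * (c ω - c x) ^ m) (f x)
    have ha : ∀ m, Inv H (a m) := by
      intro m h hh x
      simp only [a]
      rw [hf, pair_mapDomain]
      obtain ⟨b, hb⟩ := hc h hh
      congr 1
      funext ω
      rw [hg0 h hh, hb, hb]
      congr 2
      ring
    obtain ⟨g1, hg1, hg1X⟩ := ih (fun i x => ξ i x - (j.choose i : k) * a (j - i) x) (by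
      intro i h hh x
      simp only
      rw [hξ i h hh x, ha (j - i) h hh x])
    refine ⟨fun ω => g1 ω + g0 ω * c ω ^ j, ?_, ?_⟩
    · intro h hh ω
      simp only
      rw [hg1 h hh, hg0 h (h1 hh), hc1 h hh]
    · intro x hx
      rw [pair_add, hg1X x hx, Finset.sum_range_succ]
      have e1 : pair (fun ω => g0 ω * c ω ^ j) (f x) =
          ∑ i ∈ Finset.range (j + 1), (j.choose i : k) * a (j - i) x * c x ^ i := by
        have : (fun ω => g0 ω * c ω ^ j) = fun ω => ∑ i ∈ Finset.range (j + 1),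
            (c x ^ i * (j.choose i : k)) * (g0 ω * (c ω - c x) ^ (j - i)) := by
          funext ω
          have h2 : c ω ^ j = (c x + (c ω - c x)) ^ j := by ring
          rw [h2, add_pow, Finset.mul_sum]
          exact Finset.sum_congr rfl fun i _ => by ring
        rw [this, pair_sum]
        refine Finset.sum_congr rfl fun i _ => ?_
        rw [pair_smul]
        simp only [a]
        ring
      rw [e1, Finset.sum_range_succ, ← add_assoc, ← Finset.sum_add_distrib]
      congr 1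
      · refine Finset.sum_congr rfl fun i _ => ?_
        ring
      · have : a (j - j) x = ξ j x := by
          simp only [a, Nat.sub_self, pow_zero, mul_one]
          exact hg0X x hx
        rw [this, Nat.choose_self]
        ring

end defs

section tower

variable {p : ℕ} [hp : Fact p.Prime] {L Ω : Type*} [Group L] [MulAction L Ω]

lemma sur_ker {f : Ω → Ω →₀ ZMod p} (hfree : ∀ (l : L) (ω : Ω), l • ω = ω → l = 1)
    (hf : ∀ (l : L) (ω : Ω), f (l • ω) = (f ω).mapDomain (l • ·)) {X : Finset Ω}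
    {H : Subgroup L} (hS : Sur f X H) (φ : H →* Multiplicative (ZMod p))
    (hφ : Function.Surjective φ) : Sur f X (φ.ker.map H.subtype) := by
  classical
  obtain ⟨c, hc⟩ := exists_coord hfree H φ
  have hle : φ.ker.map H.subtype ≤ H := by
    rintro _ ⟨h, -, rfl⟩
    exact h.2
  have hc1 : ∀ h ∈ φ.ker.map H.subtype, ∀ ω, c (h • ω) = c ω := by
    rintro _ ⟨h, hh, rfl⟩ ω
    have h1 := hc h ω
    rw [SetLike.mem_coe, MonoidHom.mem_ker] at hh
    rw [hh, toAdd_one, add_zero] at h1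
    exact h1
  have key := poly_sur hf hS hle c (fun h hh => ⟨(φ ⟨h, hh⟩).toAdd, fun ω => hc ⟨h, hh⟩ ω⟩) hc1
  intro ξ hξ
  choose t ht using fun b : ZMod p => hφ (Multiplicative.ofAdd b)
  let F : Ω → ZMod p → ZMod p := fun ω b => ξ ((t (b - c ω) : L) • ω)
  have hF : ∀ (h : H) (ω : Ω), F ((h : L) • ω) = F ω := by
    intro h ω
    funext b
    simp only [F]
    rw [hc h ω]
    set u := t (b - (c ω + (φ h).toAdd)) with hu
    set v := t (b - c ω) with hv
    have hmem : ((u * h * v⁻¹ : H) : L) ∈ φ.ker.map H.subtype := by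
      refine ⟨u * h * v⁻¹, ?_, rfl⟩
      rw [SetLike.mem_coe, MonoidHom.mem_ker, map_mul, map_mul, map_inv, hu, hv, ht, ht]
      apply Multiplicative.toAdd.injective
      rw [toAdd_mul, toAdd_mul, toAdd_inv, toAdd_ofAdd, toAdd_ofAdd, toAdd_one]
      ring
    have h2 := hξ _ hmem ((v : L) • ω)
    rw [← h2, ← mul_smul, ← mul_smul]
    congr 2
    push_cast
    group
  let P : Ω → Polynomial (ZMod p) := fun ω => Lagrange.interpolate Finset.univ id (F ω)
  have hP : ∀ ω b, (P ω).eval b = F ω b := by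
    intro ω b
    exact Lagrange.eval_interpolate_at_node (s := Finset.univ) (v := id) (F ω)
      (Function.injective_id.injOn) (Finset.mem_univ b)
  have hdeg : ∀ ω, (P ω).natDegree < p := by
    intro ω
    have h1 := Lagrange.degree_interpolate_lt (s := (Finset.univ : Finset (ZMod p))) (v := id)
      (F ω) (Function.injective_id.injOn)
    rw [Finset.card_univ, ZMod.card] at h1
    by_cases h0 : P ω = 0
    · rw [h0, Polynomial.natDegree_zero]; exact hp.out.pos
    · exact (Polynomial.natDegree_lt_iff_degree_lt h0).2 h1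
  obtain ⟨g, hg, hgX⟩ := key p (fun i ω => (P ω).coeff i) (by
    intro i h hh ω
    simp only [P]
    rw [hF ⟨h, hh⟩ ω])
  refine ⟨g, hg, fun x hx => ?_⟩
  rw [hgX x hx, ← Polynomial.eval_eq_sum_range' (hdeg x), hP]
  simp only [F, sub_self]
  apply hξ
  refine ⟨t 0, ?_, rfl⟩
  rw [SetLike.mem_coe, MonoidHom.mem_ker, ht, ofAdd_zero]

/-- Every nontrivial finitely generated subgroup maps onto the group of order `p`. -/
def LocPInd (p : ℕ) (L : Type*) [Group L] : Prop :=
  ∀ S : Subgroup L, S.FG → S ≠ ⊥ →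
    ∃ φ : S →* Multiplicative (ZMod p), Function.Surjective φ

theorem tower (hL : LocPInd p L) {f : Ω → Ω →₀ ZMod p}
    (hfree : ∀ (l : L) (ω : Ω), l • ω = ω → l = 1)
    (hf : ∀ (l : L) (ω : Ω), f (l • ω) = (f ω).mapDomain (l • ·)) (X : Finset Ω) :
    ∀ (N : ℕ) (H : Subgroup L), {uv : Ω × Ω | uv ∈ X ×ˢ X ∧ ∃ h ∈ H, h • uv.1 = uv.2}.ncard ≤ N →
      Sur f X H → Sur f X (⊥ : Subgroup L) := by
  classical
  intro N
  induction N using Nat.strong_induction_on with
  | _ N ih =>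
    intro H hN hS
    let T : Set L := {h | h ∈ H ∧ ∃ u ∈ X, ∃ v ∈ X, h • u = v}
    have hTfin : T.Finite := by
      refine Set.Finite.subset (s := ⋃ uv ∈ X ×ˢ X, {h : L | h • uv.1 = uv.2}) ?_ ?_
      · refine Set.Finite.biUnion (Finset.finite_toSet _) ?_
        intro uv _
        apply Set.Subsingleton.finite
        intro h hh h' hh'
        have h1 : (h'⁻¹ * h) • uv.1 = uv.1 := by
          rw [mul_smul, hh, ← hh', inv_smul_smul]
        have h2 := hfree _ _ h1
        rw [inv_mul_eq_one] at h2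
        exact h2.symm
      · rintro h ⟨-, u, hu, v, hv, huv⟩
        simp only [Set.mem_iUnion]
        exact ⟨(u, v), Finset.mem_product.2 ⟨hu, hv⟩, huv⟩
    let H0 := Subgroup.closure T
    have hH0 : H0 ≤ H := (Subgroup.closure_le _).2 fun h hh => hh.1
    have hS0 : Sur f X H0 := sur_restrict hS hH0 fun h hh u hu v hv huv =>
      Subgroup.subset_closure ⟨hh, u, hu, v, hv, huv⟩
    by_cases hbot : H0 = ⊥
    · rw [hbot] at hS0
      exact hS0
    · obtain ⟨φ, hφ⟩ := hL H0 ⟨hTfin.toFinset, by rw [Set.Finite.coe_toFinset]⟩ hbot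
      have hS1 := sur_ker hfree hf hS0 φ hφ
      set H1 := φ.ker.map H0.subtype with hH1
      have hH10 : H1 ≤ H0 := by
        rintro _ ⟨h, -, rfl⟩
        exact h.2
      obtain ⟨h, hhT, hh1⟩ : ∃ h ∈ T, h ∉ H1 := by
        by_contra hcon
        push Not at hcon
        have h1 : H0 ≤ H1 := (Subgroup.closure_le _).2 hcon
        obtain ⟨x, hx⟩ := hφ (Multiplicative.ofAdd 1)
        have h2 : (x : L) ∈ H1 := h1 x.2
        obtain ⟨y, hy, hyx⟩ := h2
        have h3 : y = x := Subtype.ext hyx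
        rw [SetLike.mem_coe, MonoidHom.mem_ker, h3, hx] at hy
        have h4 : (1 : ZMod p) = 0 := by
          have := congrArg Multiplicative.toAdd hy
          simp at this
        exact one_ne_zero h4
      obtain ⟨hhH, u, hu, v, hv, huv⟩ := hhT
      have hfinset : {uv : Ω × Ω | uv ∈ X ×ˢ X ∧ ∃ h ∈ H, h • uv.1 = uv.2}.Finite :=
        Set.Finite.subset (Finset.finite_toSet (X ×ˢ X)) fun uv h => h.1
      have hlt : {uv : Ω × Ω | uv ∈ X ×ˢ X ∧ ∃ h ∈ H1, h • uv.1 = uv.2}.ncard <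
          {uv : Ω × Ω | uv ∈ X ×ˢ X ∧ ∃ h ∈ H, h • uv.1 = uv.2}.ncard := by
        refine Set.ncard_lt_ncard ?_ hfinset
        refine ⟨?_, ?_⟩
        · rintro uv ⟨h1, h', hh', h2⟩
          exact ⟨h1, h', hH0 (hH10 hh'), h2⟩
        · intro hsub
          have h1 : (u, v) ∈ {uv : Ω × Ω | uv ∈ X ×ˢ X ∧ ∃ h ∈ H, h • uv.1 = uv.2} :=
            ⟨Finset.mem_product.2 ⟨hu, hv⟩, h, hhH, huv⟩
          obtain ⟨-, h', hh', h2⟩ := hsub h1
          apply hh1
          have h3 : (h⁻¹ * h') • u = u := by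
            rw [mul_smul]
            simp only at h2
            rw [h2, ← huv, inv_smul_smul]
          have h4 := hfree _ _ h3
          rw [inv_mul_eq_one] at h4
          rw [h4]
          exact hh'
      exact ih _ (lt_of_lt_of_le hlt hN) H1 le_rfl hS1

end tower

end

end Pool.Agent.H677_Perf
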