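import Pool.Agent.H677_Perf.Tower
import Pool.Agent.H677_Perf.Kills

set_option autoImplicit false
set_option linter.unusedSectionVars false

namespace Pool.Agent.H677_Perf

noncomputable section

/-- the free set `Q × n` with left translation -/
@[ext] structure Om (Q n : Type*) where
  /-- group coordinate -/
  g : Q
  /-- index coordinate -/
  i : n

section modp

variable {Q : Type*} [Group Q] {n : Type*} [Fintype n] [DecidableEq n]
variable {k : Type*} [Field k]

instance (L : Subgroup Q) : MulAction L (Om Q n) where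
  smul l x := ⟨(l : Q) * x.1, x.2⟩
  one_smul x := by
    change (⟨((1 : L) : Q) * x.1, x.2⟩ : Om Q n) = x
    rw [Subgroup.coe_one, one_mul]
  mul_smul a b x := by
    change (⟨((a * b : L) : Q) * x.1, x.2⟩ : Om Q n) = ⟨(a : Q) * ((b : Q) * x.1), x.2⟩
    rw [Subgroup.coe_mul, mul_assoc]

lemma Om_smul_def (L : Subgroup Q) (l : L) (x : Om Q n) :
    l • x = ⟨(l : Q) * x.1, x.2⟩ := rfl

/-- evaluation of a function on a group ring element -/
def evk (χ : Q → k) : MonoidAlgebra k Q →+ k where
  toFun x := x.coeff.sum fun q a => a * χ q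
  map_zero' := by simp
  map_add' x y := by
    rw [MonoidAlgebra.coeff_add, Finsupp.sum_add_index']
    · intro a; simp
    · intro a b c; ring

lemma evk_apply (χ : Q → k) (x : MonoidAlgebra k Q) :
    evk χ x = x.coeff.sum fun q a => a * χ q := rfl

@[simp] lemma evk_single (χ : Q → k) (q : Q) (a : k) :
    evk χ (MonoidAlgebra.single q a) = a * χ q := by
  rw [evk_apply, MonoidAlgebra.coeff_single, Finsupp.sum_single_index (by simp)]

lemma evk_congr {χ χ' : Q → k} {x : MonoidAlgebra k Q}
    (h : ∀ q, x.coeff q ≠ 0 → χ q = χ' q) : evk χ x = evk χ' x := by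
  rw [evk_apply, evk_apply]
  refine Finsupp.sum_congr fun q hq => ?_
  rw [h q (Finsupp.mem_support_iff.1 hq)]

lemma evk_indicator [DecidableEq Q] (q : Q) (x : MonoidAlgebra k Q) :
    evk (fun g => if g = q then 1 else 0) x = x.coeff q := by
  rw [evk_apply, Finsupp.sum]
  simp only [mul_ite, mul_one, mul_zero]
  rw [Finset.sum_ite_eq']
  by_cases h : q ∈ x.coeff.support
  · rw [if_pos h]
  · rw [if_neg h, Finsupp.notMem_support_iff.1 h]

lemma evk_single_mul (χ : Q → k) (h : Q) (a : k) (b : MonoidAlgebra k Q) :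
    evk χ (MonoidAlgebra.single h a * b) = a * evk χ (MonoidAlgebra.single h 1 * b) := by
  induction b using MonoidAlgebra.induction_linear with
  | zero => simp
  | add b b' hb hb' => rw [mul_add, map_add, mul_add, map_add, mul_add, hb, hb']
  | single q c =>
    rw [MonoidAlgebra.single_mul_single, MonoidAlgebra.single_mul_single, evk_single, evk_single]
    ring

/-- functional on row vectors -/
def Lam (ξ : Om Q n → k) (v : n → MonoidAlgebra k Q) : k :=
  ∑ j, evk (fun q => ξ (⟨q, j⟩ : Om Q n)) (v j)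

/-- the map `v ↦ v - v A` on basis vectors -/
def fA (A : Matrix n n (MonoidAlgebra k Q)) (x : Om Q n) : Om Q n →₀ k :=
  Finsupp.single x 1 -
    ∑ j, (MonoidAlgebra.single x.1 1 * A x.2 j).coeff.mapDomain (fun q => (⟨q, j⟩ : Om Q n))

lemma pair_sub {Ω : Type*} (g : Ω → k) (w w' : Ω →₀ k) :
    pair g (w - w') = pair g w - pair g w' := by
  unfold pair
  rw [Finsupp.sum_sub_index]
  intro a b c
  ring

lemma pair_finset_sum {Ω ι : Type*} (g : Ω → k) (s : Finset ι) (w : ι → Ω →₀ k) :
    pair g (∑ i ∈ s, w i) = ∑ i ∈ s, pair g (w i) := by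
  classical
  unfold pair
  rw [Finsupp.sum_finsetSum_index]
  · intro a; simp
  · intro a b c; ring

lemma pair_fA (A : Matrix n n (MonoidAlgebra k Q)) (g : Om Q n → k) (x : Om Q n) :
    pair g (fA A x) = g x - Lam g (fun j => MonoidAlgebra.single x.1 1 * A x.2 j) := by
  rw [fA, pair_sub, pair_finset_sum]
  congr 1
  · unfold pair
    rw [Finsupp.sum_single_index (by simp), one_mul]
  · refine Finset.sum_congr rfl fun j _ => ?_
    unfold pair
    rw [Finsupp.sum_mapDomain_index]
    · rfl
    · intro b; simp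
    · intro b m₁ m₂; ring

lemma coeff_single_mul_mapDomain (l : Q) (b : MonoidAlgebra k Q) :
    (MonoidAlgebra.single l 1 * b).coeff = b.coeff.mapDomain (fun q => l * q) := by
  induction b using MonoidAlgebra.induction_linear with
  | zero => simp
  | add b b' hb hb' =>
    rw [mul_add, MonoidAlgebra.coeff_add, MonoidAlgebra.coeff_add, Finsupp.mapDomain_add, hb, hb']
  | single q c =>
    rw [MonoidAlgebra.single_mul_single, MonoidAlgebra.coeff_single, MonoidAlgebra.coeff_single,
      Finsupp.mapDomain_single, one_mul]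

lemma fA_equivariant (A : Matrix n n (MonoidAlgebra k Q)) (L : Subgroup Q) (l : L)
    (x : Om Q n) : fA A (l • x) = (fA A x).mapDomain (l • ·) := by
  have hsub : ∀ w w' : Om Q n →₀ k, (w - w').mapDomain (l • ·) =
      w.mapDomain (l • ·) - w'.mapDomain (l • ·) := fun w w' =>
    map_sub (Finsupp.mapDomain.addMonoidHom (M := k) (l • · : Om Q n → Om Q n)) w w'
  have hsum : ∀ w : n → (Om Q n →₀ k), (∑ j, w j).mapDomain (l • ·) =
      ∑ j, (w j).mapDomain (l • ·) := fun w =>
    map_sum (Finsupp.mapDomain.addMonoidHom (M := k) (l • · : Om Q n → Om Q n)) w _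
  unfold fA
  rw [hsub, hsum, Finsupp.mapDomain_single]
  congr 1
  refine Finset.sum_congr rfl fun j _ => ?_
  rw [← Finsupp.mapDomain_comp]
  have h1 : (MonoidAlgebra.single (l • x).1 1 * A (l • x).2 j : MonoidAlgebra k Q) =
      MonoidAlgebra.single (l : Q) 1 * (MonoidAlgebra.single x.1 1 * A x.2 j) := by
    rw [← mul_assoc, MonoidAlgebra.single_mul_single, one_mul]
    rfl
  rw [h1, coeff_single_mul_mapDomain, ← Finsupp.mapDomain_comp]
  rfl

lemma Lam_pullback (A : Matrix n n (MonoidAlgebra k Q)) (g : Om Q n → k)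
    (v : n → MonoidAlgebra k Q) :
    Lam (fun x => pair g (fA A x)) v = Lam g v - Lam g (fun j => ∑ i, v i * A i j) := by
  have h1 : ∀ i (b : MonoidAlgebra k Q),
      evk (fun q => Lam g (fun j => MonoidAlgebra.single q 1 * A i j)) b =
        Lam g (fun j => b * A i j) := by
    intro i b
    unfold Lam
    induction b using MonoidAlgebra.induction_linear with
    | zero => simp
    | add b b' hb hb' =>
      rw [map_add, hb, hb', ← Finset.sum_add_distrib]
      refine Finset.sum_congr rfl fun j _ => ?_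
      beta_reduce
      rw [add_mul, map_add]
    | single q c =>
      rw [evk_single, Finset.mul_sum]
      refine Finset.sum_congr rfl fun j _ => ?_
      beta_reduce
      rw [evk_single_mul _ q c]
  have h2 : Lam g (fun j => ∑ i, v i * A i j) = ∑ i, Lam g (fun j => v i * A i j) := by
    unfold Lam
    rw [Finset.sum_comm]
    refine Finset.sum_congr rfl fun j _ => ?_
    rw [map_sum]
  rw [h2]
  conv_lhs => unfold Lam
  rw [show Lam g v = ∑ j, evk (fun q => g (⟨q, j⟩ : Om Q n)) (v j) from rfl,
    ← Finset.sum_sub_distrib]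
  refine Finset.sum_congr rfl fun i _ => ?_
  rw [← h1]
  simp only [pair_fA]
  simp only [evk_apply, mul_sub]
  rw [Finsupp.sum_sub]

/-- If a normal subgroup `L` kills `A` then `A` is invisible to `L`-invariant functions. -/
lemma Lam_eq_zero_of_kills (A : Matrix n n (MonoidAlgebra k Q)) (L : Subgroup Q)
    [hLn : L.Normal] (hA : Kills L A) (ξ : Om Q n → k)
    (hξ : ∀ l ∈ L, ∀ q j, ξ ⟨l * q, j⟩ = ξ ⟨q, j⟩) (h : Q) (i : n) :
    Lam ξ (fun j => MonoidAlgebra.single h 1 * A i j) = 0 := by
  unfold Lam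
  refine Finset.sum_eq_zero fun j _ => ?_
  rw [evk_apply, coeff_single_mul_mapDomain, Finsupp.sum_mapDomain_index]
  · let Ξ : Q ⧸ L → k := fun c => ξ ⟨h * c.out, j⟩
    have h1 : ∀ q, ξ ⟨h * q, j⟩ = Ξ (QuotientGroup.mk q) := by
      intro q
      simp only [Ξ]
      obtain ⟨l, hl⟩ := QuotientGroup.mk_out_eq_mul L q
      rw [hl]
      have h2 : h * (q * (l : Q)) = (h * q * l * (h * q)⁻¹) * (h * q) := by group
      rw [h2, hξ _ (hLn.conj_mem _ l.2 (h * q))]
    have h3 : ((A i j).coeff.sum fun q a => a * ξ ⟨h * q, j⟩) =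
        ((A i j).coeff.mapDomain (QuotientGroup.mk : Q → Q ⧸ L)).sum fun c a => a * Ξ c := by
      rw [Finsupp.sum_mapDomain_index]
      · refine Finsupp.sum_congr fun q _ => ?_
        rw [h1]
      · intro b; simp
      · intro b m₁ m₂; ring
    rw [h3, hA i j, Finsupp.sum_zero_index]
  · intro b; simp
  · intro b m₁ m₂; ring

end modp

section tower

variable {Q : Type*} [Group Q] {n : Type*} [Fintype n] [DecidableEq n]
variable {p : ℕ} [hp : Fact p.Prime]

/-- Over the field with `p` elements: an idempotent killed by a normal subgroup all of whose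
nontrivial finitely generated subgroups map onto the group of order `p` vanishes. -/
theorem tower_zero_modp (L : Subgroup Q) [hLn : L.Normal] (hL : LocPInd p L)
    (A : Matrix n n (MonoidAlgebra (ZMod p) Q)) (hA : A * A = A) (hK : Kills L A) : A = 0 := by
  classical
  let X : Finset (Om Q n) := Finset.univ.biUnion fun ij : n × n =>
    (A ij.1 ij.2).coeff.support.image fun q => (⟨q, ij.2⟩ : Om Q n)
  have hX : ∀ i j q, (A i j).coeff q ≠ 0 → (⟨q, j⟩ : Om Q n) ∈ X := by
    intro i j q hq
    refine Finset.mem_biUnion.2 ⟨(i, j), Finset.mem_univ _, ?_⟩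
    exact Finset.mem_image.2 ⟨q, Finsupp.mem_support_iff.2 hq, rfl⟩
  have hfree : ∀ (l : L) (x : Om Q n), l • x = x → l = 1 := by
    intro l x h
    rw [Om_smul_def] at h
    have h1 : (l : Q) * x.g = x.g := congrArg Om.g h
    exact Subtype.ext (mul_eq_right.1 h1)
  have htop : Sur (L := L) (fA A) X ⊤ := by
    intro ξ hξ
    refine ⟨ξ, hξ, fun x _ => ?_⟩
    rw [pair_fA, Lam_eq_zero_of_kills A L hK ξ, sub_zero]
    intro l hl q j
    exact hξ ⟨l, hl⟩ trivial ⟨q, j⟩
  have hbot := tower hL hfree (fun l x => fA_equivariant A L l x) X _ ⊤ le_rfl htop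
  have hrow : ∀ (i : n) (ξ : Om Q n → ZMod p), Lam ξ (A i) = 0 := by
    intro i ξ
    obtain ⟨g, -, hg⟩ := hbot ξ (by
      intro h hh ω
      rw [Subgroup.mem_bot] at hh
      rw [hh, one_smul])
    have h1 : Lam ξ (A i) = Lam (fun x => pair g (fA A x)) (A i) := by
      unfold Lam
      refine Finset.sum_congr rfl fun j _ => ?_
      apply evk_congr
      intro q hq
      exact (hg _ (hX i j q hq)).symm
    rw [h1, Lam_pullback]
    have h2 : (fun j => ∑ i', A i i' * A i' j) = A i := by
      funext j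
      rw [← Matrix.mul_apply, hA]
    rw [h2, sub_self]
  refine Matrix.ext fun i j => ?_
  rw [Matrix.zero_apply]
  apply MonoidAlgebra.ext
  ext q
  have h3 := hrow i (fun x => if x = ⟨q, j⟩ then 1 else 0)
  unfold Lam at h3
  rw [Finset.sum_eq_single j] at h3
  · have h4 : (fun q' => if (⟨q', j⟩ : Om Q n) = ⟨q, j⟩ then (1 : ZMod p) else 0) =
        fun q' => if q' = q then 1 else 0 := by
      funext q'
      simp
    rw [h4, evk_indicator] at h3
    rw [h3]
    rfl
  · intro j' _ hj'
    have h4 : (fun q' => if (⟨q', j'⟩ : Om Q n) = ⟨q, j⟩ then (1 : ZMod p) else 0) =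
        fun q' => 0 := by
      funext q'
      rw [if_neg]
      intro h
      exact hj' (congrArg Om.i h)
    rw [h4, evk_apply]
    simp
  · intro h
    exact absurd (Finset.mem_univ j) h

lemma dvd_coeff_mul {a b : ℤ} {x y : MonoidAlgebra ℤ Q} (hx : ∀ g, a ∣ x.coeff g)
    (hy : ∀ g, b ∣ y.coeff g) (g : Q) : a * b ∣ (x * y).coeff g := by
  classical
  rw [MonoidAlgebra.coeff_mul, Finsupp.sum]
  refine Finset.dvd_sum fun u _ => ?_
  rw [Finsupp.sum]
  refine Finset.dvd_sum fun v _ => ?_
  split_ifs
  · exact mul_dvd_mul (hx u) (hy v)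
  · exact dvd_zero _

/-- An idempotent over the integral group ring killed by a normal subgroup `L`, all of whose
nontrivial finitely generated subgroups map onto the group of order `p`, vanishes. -/
theorem tower_zero (L : Subgroup Q) [hLn : L.Normal] (hL : LocPInd p L)
    (A : Matrix n n (MonoidAlgebra ℤ Q)) (hA : A * A = A) (hK : Kills L A) : A = 0 := by
  classical
  let φ := MonoidAlgebra.mapRingHom Q (Int.castRingHom (ZMod p))
  have hφ : ∀ x g, (φ x).coeff g = ((x.coeff g : ℤ) : ZMod p) := by
    intro x g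
    simp [φ]
  have h1 : A.map φ * A.map φ = A.map φ := by
    rw [← Matrix.map_mul, hA]
  have h2 : Kills L (A.map φ) := by
    intro i j
    have h3 : (A.map φ i j).coeff = (A i j).coeff.mapRange (Int.castRingHom (ZMod p)) (by simp) := by
      ext g
      rw [Matrix.map_apply, hφ]
      rfl
    rw [h3, Finsupp.mapDomain_mapRange]
    · rw [hK i j, Finsupp.mapRange_zero]
    · intro a b; simp
  have h3 := tower_zero_modp L hL (A.map φ) h1 h2
  have hdvd : ∀ i j g, (p : ℤ) ∣ (A i j).coeff g := by
    intro i j g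
    have h4 := congrFun (congrFun h3 i) j
    rw [Matrix.map_apply, Matrix.zero_apply] at h4
    have h5 := hφ (A i j) g
    rw [h4] at h5
    rw [← ZMod.intCast_zmod_eq_zero_iff_dvd]
    exact h5.symm
  have hpow : ∀ m : ℕ, ∀ i j g, (p : ℤ) ^ m ∣ (A i j).coeff g := by
    intro m
    induction m with
    | zero => intro i j g; simp
    | succ m ih =>
      intro i j g
      rw [← hA, Matrix.mul_apply, MonoidAlgebra.coeff_sum, Finsupp.finsetSum_apply]
      refine Finset.dvd_sum fun l _ => ?_
      rw [pow_succ]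
      exact dvd_coeff_mul (ih i l) (hdvd l j) g
  refine Matrix.ext fun i j => ?_
  rw [Matrix.zero_apply]
  apply MonoidAlgebra.ext
  ext g
  by_contra hne
  have h5 : (A i j).coeff g ≠ 0 := hne
  obtain ⟨m, hm⟩ : ∃ m : ℕ, m = ((A i j).coeff g).natAbs := ⟨_, rfl⟩
  have h6 := hpow m i j g
  have h7 : p ^ m ∣ ((A i j).coeff g).natAbs := by
    rw [← Int.natCast_dvd]
    exact_mod_cast h6
  have h8 := Nat.le_of_dvd (Int.natAbs_pos.2 h5) h7
  have h9 : m < p ^ m := Nat.lt_pow_self hp.out.one_lt
  omega

end tower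

end

end Pool.Agent.H677_Perf
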