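import Mathlib

set_option autoImplicit false
set_option linter.unusedSectionVars false

namespace Pool.Agent.H677_Perf

noncomputable section

variable {G : Type*} [Group G] {n : Type*} [Fintype n] [DecidableEq n]
variable {B : Type*} [AddCommGroup B]

/-- additive functional on the group ring given by a function on the group -/
def evalFn (χ : G → B) : MonoidAlgebra ℤ G →+ B :=
  (Finsupp.liftAddHom (fun g => (smulAddHom ℤ B).flip (χ g))).comp
    (MonoidAlgebra.coeffAddEquiv (R := ℤ) (M := G)).toAddMonoidHom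

@[simp] lemma evalFn_single (χ : G → B) (g : G) (r : ℤ) :
    evalFn χ (MonoidAlgebra.single g r) = r • χ g := by
  simp [evalFn]

lemma evalFn_eq_sum (χ : G → B) (x : MonoidAlgebra ℤ G) :
    evalFn χ x = x.coeff.sum fun g r => r • χ g := by
  simp [evalFn, Finsupp.liftAddHom_apply]
  rfl

lemma evalFn_mul_comm {χ : G → B} (hχ : ∀ g h, χ (g * h) = χ (h * g))
    (x y : MonoidAlgebra ℤ G) : evalFn χ (x * y) = evalFn χ (y * x) := by
  induction x using MonoidAlgebra.induction_linear with
  | zero => simp
  | add x x' hx hx' => rw [add_mul, mul_add, map_add, map_add, hx, hx']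
  | single g r =>
    induction y using MonoidAlgebra.induction_linear with
    | zero => simp
    | add y y' hy hy' => rw [add_mul, mul_add, map_add, map_add, hy, hy']
    | single h s => simp [hχ g h, mul_comm r s]

/-- the functional `χ` summed over the diagonal of a matrix -/
def Tau (χ : G → B) : Matrix n n (MonoidAlgebra ℤ G) →+ B :=
  (evalFn χ).comp (Matrix.traceAddMonoidHom n (MonoidAlgebra ℤ G))

lemma Tau_apply (χ : G → B) (A : Matrix n n (MonoidAlgebra ℤ G)) :
    Tau χ A = ∑ i, evalFn χ (A i i) := by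
  simp [Tau, Matrix.trace, map_sum]

lemma Tau_mul_comm {χ : G → B} (hχ : ∀ g h, χ (g * h) = χ (h * g))
    (X Y : Matrix n n (MonoidAlgebra ℤ G)) : Tau χ (X * Y) = Tau χ (Y * X) := by
  simp only [Tau_apply, Matrix.mul_apply, map_sum]
  rw [Finset.sum_comm]
  refine Finset.sum_congr rfl fun i _ => Finset.sum_congr rfl fun j _ => ?_
  exact evalFn_mul_comm hχ _ _

/-- the rank function: the image of the trace on conjugacy classes -/
def rk (A : Matrix n n (MonoidAlgebra ℤ G)) : ConjClasses G →₀ ℤ :=
  Tau (fun g => Finsupp.single (ConjClasses.mk g) 1) A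

lemma Tau_eq_rk (χ : ConjClasses G → B) (A : Matrix n n (MonoidAlgebra ℤ G)) :
    Tau (fun g => χ (ConjClasses.mk g)) A = (rk A).sum fun c r => r • χ c := by
  have h : ∀ x : MonoidAlgebra ℤ G, evalFn (fun g => χ (ConjClasses.mk g)) x =
      (Finsupp.liftAddHom (fun c => (smulAddHom ℤ B).flip (χ c)))
        (evalFn (fun g => Finsupp.single (ConjClasses.mk g) (1 : ℤ)) x) := by
    intro x
    induction x using MonoidAlgebra.induction_linear with
    | zero => simp
    | add x x' hx hx' => simp only [map_add, hx, hx']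
    | single g r => simp
  rw [rk, Tau_apply, Tau_apply]
  have : ∀ y : ConjClasses G →₀ ℤ, (y.sum fun c r => r • χ c) =
      (Finsupp.liftAddHom (fun c => (smulAddHom ℤ B).flip (χ c))) y := by
    intro y
    simp [Finsupp.liftAddHom_apply]
    rfl
  rw [this, map_sum]
  exact Finset.sum_congr rfl fun i _ => h _

lemma conj_mul_comm (g h : G) : ConjClasses.mk (g * h) = ConjClasses.mk (h * g) := by
  rw [ConjClasses.mk_eq_mk_iff_isConj]
  exact isConj_iff.2 ⟨h, by group⟩

/-- the value of the rank function at the class of `x` as a trace -/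
def rkAt (x : G) : Matrix n n (MonoidAlgebra ℤ G) →+ ℤ :=
  (Finsupp.applyAddHom (ConjClasses.mk x)).comp
    (Tau (fun g => Finsupp.single (ConjClasses.mk g) 1))

lemma rkAt_apply (x : G) (A : Matrix n n (MonoidAlgebra ℤ G)) :
    rkAt x A = rk A (ConjClasses.mk x) := rfl

lemma rkAt_mul_comm (x : G) (X Y : Matrix n n (MonoidAlgebra ℤ G)) :
    rkAt x (X * Y) = rkAt x (Y * X) := by
  simp only [rkAt, AddMonoidHom.comp_apply]
  rw [Tau_mul_comm]
  intro g h
  rw [conj_mul_comm]

/-- the monomial matrix `M ⊗ g` -/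
def mono (M : Matrix n n ℤ) (g : G) : Matrix n n (MonoidAlgebra ℤ G) :=
  M.map fun r => MonoidAlgebra.single g r

lemma mono_mul (M M' : Matrix n n ℤ) (g g' : G) :
    mono M g * mono M' g' = mono (M * M') (g * g') := by
  refine Matrix.ext fun i j => ?_
  simp only [mono, Matrix.mul_apply, Matrix.map_apply, MonoidAlgebra.single_mul_single]
  exact (map_sum (MonoidAlgebra.singleAddHom (R := ℤ) (g * g')) _ _).symm

lemma mono_one : mono (1 : Matrix n n ℤ) (1 : G) = 1 := by
  refine Matrix.ext fun i j => ?_
  simp only [mono, Matrix.map_apply, Matrix.one_apply]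
  split_ifs <;> simp [MonoidAlgebra.one_def]

lemma mono_pow (M : Matrix n n ℤ) (g : G) (k : ℕ) : mono M g ^ k = mono (M ^ k) (g ^ k) := by
  induction k with
  | zero => simp [mono_one]
  | succ k ih => rw [pow_succ, pow_succ, pow_succ, ih, mono_mul]

lemma rkAt_mono_ne_zero {x g : G} {M : Matrix n n ℤ} (h : rkAt x (mono M g) ≠ 0) :
    IsConj g x := by
  by_contra hc
  apply h
  have hne : ConjClasses.mk g ≠ ConjClasses.mk x := by
    rw [Ne, ConjClasses.mk_eq_mk_iff_isConj]; exact hc
  simp [rkAt, Tau_apply, mono, hne]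

/-- the union of the supports of the entries -/
def msupp [DecidableEq G] (A : Matrix n n (MonoidAlgebra ℤ G)) : Finset G :=
  Finset.univ.biUnion fun ij : n × n => (A ij.1 ij.2).coeff.support

lemma mem_msupp [DecidableEq G] {A : Matrix n n (MonoidAlgebra ℤ G)} {i j : n} {g : G}
    (h : (A i j).coeff g ≠ 0) : g ∈ msupp A := by
  simp only [msupp, Finset.mem_biUnion, Finset.mem_univ, true_and]
  exact ⟨(i, j), Finsupp.mem_support_iff.2 h⟩

/-- the coefficient matrix at `g` -/
def cf (A : Matrix n n (MonoidAlgebra ℤ G)) (g : G) : Matrix n n ℤ :=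
  fun i j => (A i j).coeff g

lemma eq_sum_mono [DecidableEq G] (A : Matrix n n (MonoidAlgebra ℤ G)) :
    A = ∑ g : msupp A, mono (cf A g) (g : G) := by
  refine Matrix.ext fun i j => ?_
  rw [Matrix.sum_apply]
  simp only [mono, cf, Matrix.map_apply]
  rw [Finset.sum_coe_sort (msupp A) (fun g => (MonoidAlgebra.single g ((A i j).coeff g) : MonoidAlgebra ℤ G))]
  conv_lhs => rw [← MonoidAlgebra.sum_coeff_single (A i j)]
  rw [Finsupp.sum]
  refine Finset.sum_subset ?_ ?_
  · intro g hg
    exact mem_msupp (Finsupp.mem_support_iff.1 hg)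
  · intro g _ hg
    rw [Finsupp.notMem_support_iff.1 hg, MonoidAlgebra.single_zero]

end

end Pool.Agent.H677_Perf
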